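import Mathlib
import Pool.Agent.TH881.RQ.Defs2
import Pool.Agent.TH111.J2027

/-! Continuity of the local function, polynomial version. -/

set_option autoImplicit false

namespace Pool.Agent.TH959.J3002

open Finset Filter Topology Polynomial
open Pool.Agent.TH881
open Pool.Agent.TH881.RG
open Pool.Agent.H373R2.T7
open Pool.Agent.TH881.RQ
open Pool.Agent.TH111.J2027 (Wp_dvd Vz_tendsto card_T)

lemma Flocq_le {pr : Bool} {g : ℤ[X]} {σ : ℤ} {β : ℝ} {w : ℕ} {B : Finset (ZMod (Wp w))} (hB : B ⊆ AA pr w)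
    (h : β * (AA pr w).card ≤ B.card) : Flocq pr g σ β ≤ ((sumq g σ w B).card : ℝ) / Wp w := by
  unfold Flocq
  refine csInf_le ⟨0, ?_⟩ ⟨w, B, hB, h, rfl⟩
  rintro d ⟨w, B, _, _, rfl⟩
  positivity

lemma mem_AA {pr : Bool} {w : ℕ} {a : ZMod (Wp w)} : a ∈ AA pr w ↔ (pr = true → IsUnit a) := by
  unfold AA
  simp

lemma AA_nonempty (pr : Bool) (w : ℕ) : (AA pr w).Nonempty := ⟨1, mem_AA.2 fun _ => isUnit_one⟩

lemma map_gv {y w : ℕ} (h : y ≤ w) (g : ℤ[X]) (a : ZMod (Wp w)) :
    ZMod.castHom (Wp_dvd h) (ZMod (Wp y)) (gv g w a) = gv g y (ZMod.castHom (Wp_dvd h) (ZMod (Wp y)) a) := by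
  unfold gv
  rw [Polynomial.eval_map, Polynomial.eval_map, Polynomial.hom_eval₂]
  congr 1
  exact RingHom.ext_int _ _

theorem flocq_cont (pr : Bool) (g : ℤ[X]) (σ : ℤ) (hσ : σ = 1 ∨ σ = -1) (β τ : ℝ) (hβ : 0 < β) (hβ1 : β < 1)
    (hτ : 0 < τ) : ∃ ε1 : ℝ, 0 < ε1 ∧ ∃ w1 : ℕ, ∀ w : ℕ, w1 ≤ w → ∀ B ⊆ AA pr w,
    (β - ε1) * (AA pr w).card ≤ B.card →
    Flocq pr g σ β - τ ≤ ((sumq g σ w B).card : ℝ) / Wp w := by
  classical
  obtain ⟨y, hy⟩ : ∃ y, Vz y ≤ τ := by
    have h := Vz_tendsto.eventually (Iio_mem_nhds hτ)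
    obtain ⟨y, hy⟩ := h.exists
    exact ⟨y, (Set.mem_Iio.1 hy).le⟩
  have hφy : (0 : ℝ) < (AA pr y).card := by exact_mod_cast Finset.card_pos.2 (AA_nonempty pr y)
  refine ⟨(1 - β) / (AA pr y).card, div_pos (by linarith) hφy, y, ?_⟩
  intro w hw B hB hcard
  by_cases hA : β * (AA pr w).card ≤ B.card
  · have := Flocq_le (g := g) (σ := σ) hB hA
    linarith
  push Not at hA
  have hφw : (0 : ℝ) < (AA pr w).card := by exact_mod_cast Finset.card_pos.2 (AA_nonempty pr w)
  set π := ZMod.castHom (Wp_dvd hw) (ZMod (Wp y)) with hπ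
  have hmaps : ∀ a ∈ AA pr w \ B, π a ∈ AA pr y := by
    intro a ha
    rw [Finset.mem_sdiff, mem_AA] at ha
    rw [mem_AA]
    exact fun hp => (ha.1 hp).map π
  have hne := AA_nonempty pr y
  have hc1 : ((AA pr w \ B).card : ℝ) = (AA pr w).card - B.card := by
    rw [Finset.card_sdiff_of_subset hB, Nat.cast_sub (Finset.card_le_card hB)]
  obtain ⟨a1, ha1, hfa⟩ := Finset.exists_le_card_fiber_of_nsmul_le_card_of_maps_to
    (M := ℝ) (b := (1 - β) / (AA pr y).card * (AA pr w).card) hmaps hne (by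
      rw [nsmul_eq_mul, hc1]
      have : ((AA pr y).card : ℝ) * ((1 - β) / (AA pr y).card * (AA pr w).card) =
          (1 - β) * (AA pr w).card := by
        field_simp
      rw [this]
      linarith)
  set X := (AA pr w).filter (fun a => π a = a1) with hX
  have hB' : B ∪ X ⊆ AA pr w := Finset.union_subset hB (Finset.filter_subset _ _)
  have hcard' : β * (AA pr w).card ≤ (B ∪ X).card := by
    have h1 : Disjoint B ((AA pr w \ B).filter (fun a => π a = a1)) := by
      rw [Finset.disjoint_left]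
      intro a ha ha2
      rw [Finset.mem_filter, Finset.mem_sdiff] at ha2
      exact ha2.1.2 ha
    have h2 : B ∪ ((AA pr w \ B).filter (fun a => π a = a1)) ⊆ B ∪ X := by
      refine Finset.union_subset_union (Finset.Subset.refl _) ?_
      exact Finset.filter_subset_filter _ Finset.sdiff_subset
    have h3 := Finset.card_le_card h2
    rw [Finset.card_union_of_disjoint h1] at h3
    have h4 : (B.card : ℝ) + ((AA pr w \ B).filter (fun a => π a = a1)).card ≤ (B ∪ X).card := by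
      exact_mod_cast h3
    nlinarith
  have hF := Flocq_le (g := g) (σ := σ) hB' hcard'
  have hsub : sumq g σ w (B ∪ X) ⊆ sumq g σ w B ∪
      (univ : Finset (ZMod (Wp w))).filter (fun t => π t - (-((σ : ZMod (Wp y)) * gv g y a1)) ∈ UU y) := by
    intro t ht
    unfold sumq at ht
    rw [Finset.mem_filter] at ht
    obtain ⟨-, a, ha, hu⟩ := ht
    rw [Finset.mem_union]
    rcases Finset.mem_union.1 ha with ha | ha
    · left
      unfold sumq
      rw [Finset.mem_filter]
      exact ⟨mem_univ _, a, ha, hu⟩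
    · right
      rw [Finset.mem_filter]
      refine ⟨mem_univ _, ?_⟩
      rw [hX, Finset.mem_filter] at ha
      rw [mem_UU, ← ha.2, hπ, ← map_gv hw, ← hπ, sub_neg_eq_add]
      unfold gd at hu
      have := hu.map π
      rw [map_add, map_mul, map_intCast] at this
      exact this
  have h5 := (Finset.card_le_card hsub).trans (Finset.card_union_le _ _)
  have h6 : ((sumq g σ w (B ∪ X)).card : ℝ) ≤ (sumq g σ w B).card + Wp w * Vz y := by
    rw [← card_T hw (-((σ : ZMod (Wp y)) * gv g y a1))]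
    exact_mod_cast h5
  have hW : (0 : ℝ) < Wp w := by
    have := Wp_pos w
    positivity
  have h7 : ((sumq g σ w (B ∪ X)).card : ℝ) / Wp w ≤ (sumq g σ w B).card / Wp w + Vz y := by
    rw [div_add' _ _ _ hW.ne', div_le_div_iff_of_pos_right hW]
    linarith
  linarith

end Pool.Agent.TH959.J3002
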