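import Pool.Agent.TH91.LG.Defs

/-!
# Chart data of a Mathlib Lie group (job 1254)
-/

set_option autoImplicit false

namespace Pool.Agent.TH959.J1254

open Pool.Agent.TH91.LG
open Topology Filter
open scoped ContDiff Manifold

theorem exists_locLie (E : Type*) [NormedAddCommGroup E] [NormedSpace ℝ E]
    (G : Type*) [TopologicalSpace G] [ChartedSpace E G] [Group G] [LieGroup 𝓘(ℝ, E) ∞ G] :
    Nonempty (LocLie G E) := by
  set k := chartAt E (1 : G) with hk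
  let e : OpenPartialHomeomorph G E := k.transHomeomorph (Homeomorph.addRight (-(k 1)))
  have he : ∀ g, e g = k g + -(k 1) := fun g => rfl
  have hes : ∀ x, e.symm x = k.symm (x + k 1) := by
    intro x
    show k.symm (x + - -(k 1)) = _
    rw [neg_neg]
  have h1 : (1 : G) ∈ k.source := mem_chart_source E (1 : G)
  have hs0 : e.symm 0 = 1 := by rw [hes, zero_add, k.left_inv h1]
  -- smoothness of the chart
  have hφ : ContMDiffAt 𝓘(ℝ, E) 𝓘(ℝ, E) ∞ e 1 := by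
    have h := contMDiffAt_of_mem_maximalAtlas (I := 𝓘(ℝ, E)) (n := ∞)
      (IsManifold.chart_mem_maximalAtlas (I := 𝓘(ℝ, E)) (n := ∞) (1 : G)) h1
    have h2 : ContMDiffAt 𝓘(ℝ, E) 𝓘(ℝ, E) ∞ (fun g => k g + -(k 1)) 1 := h.add contMDiffAt_const
    exact h2
  have hψ : ContMDiffAt 𝓘(ℝ, E) 𝓘(ℝ, E) ∞ e.symm 0 := by
    have h : ContMDiffAt 𝓘(ℝ, E) 𝓘(ℝ, E) ∞ k.symm (k 1) :=
      contMDiffAt_symm_of_mem_maximalAtlas (I := 𝓘(ℝ, E)) (n := ∞)
        (IsManifold.chart_mem_maximalAtlas (I := 𝓘(ℝ, E)) (n := ∞) (1 : G)) (k.map_source h1)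
    have h2 : ContMDiffAt 𝓘(ℝ, E) 𝓘(ℝ, E) ∞ (fun x : E => x + k 1) 0 :=
      contMDiffAt_id.add contMDiffAt_const
    have h3 : ContMDiffAt 𝓘(ℝ, E) 𝓘(ℝ, E) ∞ (k.symm ∘ fun x : E => x + k 1) 0 :=
      ContMDiffAt.comp (0 : E) (by simpa using h) h2
    have h4 : (e.symm : E → G) = k.symm ∘ fun x : E => x + k 1 := by
      funext x; exact hes x
    rw [h4]; exact h3
  have hφ' : ContMDiffAt 𝓘(ℝ, E) 𝓘(ℝ, E) ∞ e (e.symm 0) := by rw [hs0]; exact hφ
  refine ⟨⟨e, ?_, ?_, ?_, ?_, ?_⟩⟩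
  · simpa [e] using h1
  · rw [he]; simp
  · rw [← contMDiffAt_iff_contDiffAt]
    have hf : ContMDiffAt 𝓘(ℝ, E × E) 𝓘(ℝ, E) ∞ (fun p : E × E => e.symm p.1) (0, 0) :=
      ContMDiffAt.comp (g := e.symm) ((0, 0) : E × E) hψ
        (contDiff_fst.contMDiff.contMDiffAt)
    have hg : ContMDiffAt 𝓘(ℝ, E × E) 𝓘(ℝ, E) ∞ (fun p : E × E => e.symm p.2) (0, 0) :=
      ContMDiffAt.comp (g := e.symm) ((0, 0) : E × E) hψ
        (contDiff_snd.contMDiff.contMDiffAt)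
    have hm := hf.mul hg
    refine ContMDiffAt.comp (g := e) ((0, 0) : E × E) ?_ hm
    simpa [hs0] using hφ
  · rw [← contMDiffAt_iff_contDiffAt]
    have hm := hψ.inv
    refine ContMDiffAt.comp (g := e) (0 : E) ?_ hm
    simpa [hs0] using hφ
  · intro g
    have hc : ContMDiffAt 𝓘(ℝ, E) 𝓘(ℝ, E) ∞ (fun x : E => e (g * e.symm x * g⁻¹)) 0 := by
      have hm : ContMDiffAt 𝓘(ℝ, E) 𝓘(ℝ, E) ∞ (fun x : E => g * e.symm x * g⁻¹) 0 :=
        (contMDiffAt_const.mul hψ).mul contMDiffAt_const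
      refine ContMDiffAt.comp (g := e) (0 : E) ?_ hm
      simpa [hs0] using hφ
    rw [contMDiffAt_iff_contDiffAt] at hc
    exact hc.differentiableAt (by simp)

end Pool.Agent.TH959.J1254
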