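import Pool.Agent.TH451.MB.Stmt

set_option autoImplicit false

/-!
# Existence of a good bijection by sequential greedy choice (job 2003)
-/

namespace Pool.Agent.TH959.MBBij

open Pool.Agent.TH451.MB Finset

open Classical in
/-- sequential greedy choice with potentials -/
theorem seq {ι β J : Type} [DecidableEq ι] [DecidableEq β] (b₀ : β) (B : Finset β)
    (forb : ι → β → Prop) (T : Finset J)
    (F : J → ι → β → ℝ) (c : J → ι → ℝ) (hF : ∀ j i b, 0 ≤ F j i b) (hc : ∀ j i, 0 ≤ c j i)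
    (S : Finset ι) :
    ∀ (U₀ : Finset β) (w : J → ℝ), (∀ j, 0 ≤ w j) → U₀ ⊆ B →
      (∀ i ∈ S, ∀ U : Finset β, U₀ ⊆ U → U ⊆ B → U.card < U₀.card + S.card →
        ((B \ U).filter (fun b => ¬ forb i b)).Nonempty ∧
        ∀ j ∈ T, ∑ b ∈ (B \ U).filter (fun b => ¬ forb i b), F j i b ≤
          c j i * ((B \ U).filter (fun b => ¬ forb i b)).card) →
      ∃ π : ι → β, Set.InjOn π (S : Set ι) ∧ (∀ i ∈ S, π i ∈ B ∧ π i ∉ U₀ ∧ ¬ forb i (π i)) ∧
        ∑ j ∈ T, w j * ∏ i ∈ S, F j i (π i) ≤ ∑ j ∈ T, w j * ∏ i ∈ S, c j i := by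
  induction S using Finset.induction_on with
  | empty =>
    intro U₀ w _ _ _
    exact ⟨fun _ => b₀, by simp, by simp, by simp⟩
  | insert i S' hi ih =>
    intro U₀ w hw hU₀ h
    have hcard : (insert i S').card = S'.card + 1 := Finset.card_insert_of_notMem hi
    obtain ⟨hne, hav⟩ := h i (Finset.mem_insert_self _ _) U₀ subset_rfl hU₀ (by omega)
    obtain ⟨b, hb, hle⟩ : ∃ b ∈ (B \ U₀).filter (fun b => ¬ forb i b),
        ∑ j ∈ T, w j * F j i b * ∏ i' ∈ S', c j i' ≤
          ∑ j ∈ T, w j * c j i * ∏ i' ∈ S', c j i' := by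
      apply Finset.exists_le_of_sum_le hne
      rw [Finset.sum_comm, Finset.sum_const, nsmul_eq_mul, Finset.mul_sum]
      refine Finset.sum_le_sum fun j hj => ?_
      have hP : 0 ≤ w j * ∏ i' ∈ S', c j i' :=
        mul_nonneg (hw j) (Finset.prod_nonneg fun i' _ => hc j i')
      have h1 := mul_le_mul_of_nonneg_left (hav j hj) hP
      calc ∑ b ∈ (B \ U₀).filter (fun b => ¬ forb i b), w j * F j i b * ∏ i' ∈ S', c j i'
          = (w j * ∏ i' ∈ S', c j i') * ∑ b ∈ (B \ U₀).filter (fun b => ¬ forb i b), F j i b := by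
            rw [Finset.mul_sum]
            exact Finset.sum_congr rfl fun b _ => by ring
        _ ≤ _ := h1
        _ = _ := by ring
    rw [Finset.mem_filter, Finset.mem_sdiff] at hb
    obtain ⟨⟨hbB, hbU⟩, hbf⟩ := hb
    have hUc : (insert b U₀).card = U₀.card + 1 := Finset.card_insert_of_notMem hbU
    obtain ⟨π', h1, h2, h3⟩ := ih (insert b U₀) (fun j => w j * F j i b)
      (fun j => mul_nonneg (hw j) (hF j i b)) (Finset.insert_subset hbB hU₀) (by
        intro i' hi' U hU hUB hUcard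
        exact h i' (Finset.mem_insert_of_mem hi') U ((Finset.subset_insert _ _).trans hU) hUB
          (by omega))
    have hne' : ∀ x ∈ S', x ≠ i := fun x hx hxi => hi (hxi ▸ hx)
    have hπ : ∀ x ∈ S', (if x = i then b else π' x) = π' x := fun x hx => if_neg (hne' x hx)
    refine ⟨fun x => if x = i then b else π' x, ?_, ?_, ?_⟩
    · intro x hx y hy hxy
      rw [Finset.coe_insert, Set.mem_insert_iff] at hx hy
      simp only at hxy
      rcases hx with rfl | hx <;> rcases hy with rfl | hy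
      · rfl
      · rw [if_pos rfl, hπ y hy] at hxy
        exact absurd (Finset.mem_insert_self b U₀) (hxy ▸ (h2 y hy).2.1)
      · rw [if_pos rfl, hπ x hx] at hxy
        exact absurd (Finset.mem_insert_self b U₀) (hxy ▸ (h2 x hx).2.1)
      · rw [hπ x hx, hπ y hy] at hxy
        exact h1 hx hy hxy
    · intro x hx
      rw [Finset.mem_insert] at hx
      rcases hx with rfl | hx
      · simp only [if_true]
        exact ⟨hbB, hbU, hbf⟩
      · simp only [hπ x hx]
        obtain ⟨h4, h5, h6⟩ := h2 x hx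
        exact ⟨h4, fun h => h5 (Finset.mem_insert_of_mem h), h6⟩
    · have e1 : ∀ j, ∏ x ∈ insert i S', F j x (if x = i then b else π' x) =
          F j i b * ∏ x ∈ S', F j x (π' x) := by
        intro j
        rw [Finset.prod_insert hi, if_pos rfl]
        congr 1
        exact Finset.prod_congr rfl fun x hx => by rw [hπ x hx]
      have e2 : ∀ j, ∏ x ∈ insert i S', c j x = c j i * ∏ x ∈ S', c j x := fun j =>
        Finset.prod_insert hi
      simp only [e1, e2, ← mul_assoc]
      exact h3.trans hle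

open Classical in
theorem cd_card {ι β : Type} [DecidableEq β] (B U : Finset β) (N : ℕ) (hB : B.card = N)
    (forb : ι → β → Prop) (i : ι) (hf : (B.filter (fun b => forb i b)).card ≤ 2) :
    N ≤ ((B \ U).filter (fun b => ¬ forb i b)).card + U.card + 2 := by
  have h1 : B ⊆ (B \ U).filter (fun b => ¬ forb i b) ∪ U ∪ B.filter (fun b => forb i b) := by
    intro b hb
    by_cases h2 : b ∈ U
    · simp [h2]
    · by_cases h3 : forb i b
      · simp [h3, hb]
      · simp [h3, hb, h2]
  have h2 := Finset.card_le_card h1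
  have h3 := Finset.card_union_le ((B \ U).filter (fun b => ¬ forb i b) ∪ U)
    (B.filter (fun b => forb i b))
  have h4 := Finset.card_union_le ((B \ U).filter (fun b => ¬ forb i b)) U
  omega

open Classical in
theorem badstep {β : Type} (B Cd : Finset β) (hCd : Cd ⊆ B) (bad : β → Prop) (s : ℕ) (K : ℝ)
    (hK : 1 ≤ K) (hKs : K * s ≤ Cd.card) :
    ∑ b ∈ Cd, (if bad b then K else 1) ≤
      (if (B.filter bad).card ≤ s then 2 else K) * Cd.card := by
  split_ifs with h
  · have h1 : ∀ b ∈ Cd, (if bad b then K else 1) ≤ 1 + (if bad b then K else 0) := by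
      intro b _
      split_ifs <;> linarith
    refine (Finset.sum_le_sum h1).trans ?_
    rw [Finset.sum_add_distrib, Finset.sum_const, nsmul_eq_mul, mul_one, ← Finset.sum_filter,
      Finset.sum_const, nsmul_eq_mul]
    have h2 : (Cd.filter bad).card ≤ s :=
      (Finset.card_le_card (Finset.filter_subset_filter _ hCd)).trans h
    have h3 : ((Cd.filter bad).card : ℝ) * K ≤ s * K := by
      have : ((Cd.filter bad).card : ℝ) ≤ s := by exact_mod_cast h2
      exact mul_le_mul_of_nonneg_right this (by linarith)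
    linarith
  · have h1 : ∀ b ∈ Cd, (if bad b then K else 1) ≤ K := by
      intro b _
      split_ifs <;> linarith
    refine (Finset.sum_le_sum h1).trans ?_
    rw [Finset.sum_const, nsmul_eq_mul, mul_comm]

open Classical in
theorem goodstep {β : Type} (Cd : Finset β) (good : β → Prop)
    (h : (Cd.card : ℝ) ≤ 60 * (Cd.filter good).card) :
    ∑ b ∈ Cd, (if good b then (1 / 2 : ℝ) else 1) ≤ 119 / 120 * Cd.card := by
  have h1 : ∀ b ∈ Cd, (if good b then (1 / 2 : ℝ) else 1) = 1 - (if good b then 1 / 2 else 0) := by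
    intro b _
    split_ifs <;> norm_num
  rw [Finset.sum_congr rfl h1, Finset.sum_sub_distrib, Finset.sum_const, nsmul_eq_mul, mul_one,
    ← Finset.sum_filter, Finset.sum_const, nsmul_eq_mul]
  linarith

open Classical in
/-- completion by Hall's theorem -/
theorem completion {ι β : Type} [DecidableEq ι] [DecidableEq β] (R : Finset ι) (B' : Finset β)
    (hRB : R.card = B'.card) (h4 : 4 ≤ R.card)
    (forb : ι → β → Prop) (h1 : ∀ i ∈ R, (B'.filter (fun b => forb i b)).card ≤ 2)
    (h2 : ∀ b ∈ B', (R.filter (fun i => forb i b)).card ≤ 2) :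
    ∃ f : ↥R → β, Function.Injective f ∧ ∀ i : ↥R, f i ∈ B' ∧ ¬ forb i (f i) := by
  have key := (Finset.all_card_le_biUnion_card_iff_exists_injective
    (fun i : ↥R => B'.filter (fun b => ¬ forb i b))).1 (by
    intro X
    rcases X.eq_empty_or_nonempty with rfl | ⟨i₀, hi₀⟩
    · simp
    have hcompl : ∀ i ∈ R, B'.card ≤ (B'.filter (fun b => ¬ forb i b)).card + 2 := by
      intro i hi
      have := Finset.card_filter_add_card_filter_not (s := B') (fun b => forb i b)
      have := h1 i hi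
      omega
    by_cases hX : X.card + 2 ≤ R.card
    · have h5 : (B'.filter (fun b => ¬ forb (i₀ : ι) b)).card ≤
          (X.biUnion fun i : ↥R => B'.filter (fun b => ¬ forb i b)).card :=
        Finset.card_le_card (Finset.subset_biUnion_of_mem
          (fun i : ↥R => B'.filter (fun b => ¬ forb i b)) hi₀)
      have := hcompl i₀ i₀.2
      omega
    · have h6 : B' ⊆ X.biUnion fun i : ↥R => B'.filter (fun b => ¬ forb i b) := by
        intro b hb
        rw [Finset.mem_biUnion]
        by_contra hcon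
        push Not at hcon
        have h7 : X.map (Function.Embedding.subtype _) ⊆ R.filter (fun i => forb i b) := by
          intro i hi
          rw [Finset.mem_map] at hi
          obtain ⟨⟨i, hiR⟩, hiX, rfl⟩ := hi
          rw [Finset.mem_filter]
          refine ⟨hiR, ?_⟩
          have := hcon ⟨i, hiR⟩ hiX
          rw [Finset.mem_filter] at this
          by_contra h8
          exact this ⟨hb, h8⟩
        have h8 := Finset.card_le_card h7
        rw [Finset.card_map] at h8
        have := h2 b hb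
        omega
      have h9 := Finset.card_le_card h6
      have h10 : X.card ≤ R.card := by
        have := Finset.card_le_univ X
        rwa [Fintype.card_coe] at this
      omega)
  obtain ⟨f, hf, hf2⟩ := key
  refine ⟨f, hf, fun i => ?_⟩
  have := hf2 i
  rw [Finset.mem_filter] at this
  exact this

open Classical in
/-- the choice of the first `N - r` values -/
theorem choice {n N : ℕ} (s r : ℕ) (K : ℝ) (hK : 1 ≤ K) (B : Finset (Fin n)) (hB : B.card = N)
    (forb : Fin N → Fin n → Prop) (hf : ∀ i, (B.filter (fun b => forb i b)).card ≤ 2)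
    (bad : Fin 2 → Finset (Fin n) → Fin N → Fin n → Prop) (Ws : Finset (Finset (Fin n)))
    (hbad : ∀ c, ∀ W' ∈ Ws,
      (univ.filter (fun i => s < (B.filter (fun b => bad c W' i b)).card)).card ≤ s)
    (good : Fin n → Fin N → Fin n → Prop) (ws : Finset (Fin n)) (I1 : Finset (Fin N))
    (hI1 : 160 * I1.card ≤ N) (hr : I1.card + r ≤ N) (hr2 : 2 ≤ r) (hKs : K * s ≤ (r : ℝ) - 1)
    (hN : 1360 ≤ N) :
    ∃ (I : Finset (Fin N)) (π : Fin N → Fin n), I1 ⊆ I ∧ I.card + r = N ∧
      Set.InjOn π (I : Set (Fin N)) ∧ (∀ i ∈ I, π i ∈ B ∧ ¬ forb i (π i)) ∧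
      (∀ c, ∀ W' ∈ Ws, K ^ (I.filter (fun i => bad c W' i (π i))).card ≤
        2 ^ (n + 2) * (2 ^ N * K ^ s)) ∧
      (∀ w ∈ ws, (1 / 2 : ℝ) ^ (I1.filter (fun i =>
          N ≤ 41 * (B.filter (fun b => good w i b)).card ∧ good w i (π i))).card ≤
        2 * n * (119 / 120) ^
          (I1.filter (fun i => N ≤ 41 * (B.filter (fun b => good w i b)).card)).card) := by
  have hBne : B.Nonempty := by
    rw [← Finset.card_pos]; omega
  obtain ⟨b₀, hb₀⟩ := hBne
  have hn : 0 < n := lt_of_le_of_lt (Nat.zero_le _) b₀.2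
  obtain ⟨I, hI1I, _, hIc⟩ := Finset.exists_subsuperset_card_eq (Finset.subset_univ I1)
    (n := N - r) (by omega) (by rw [Finset.card_univ, Fintype.card_fin]; omega)
  set I2 : Finset (Fin N) := I \ I1 with hI2
  have hI2c : I1.card + I2.card = N - r := by
    rw [hI2, Finset.card_sdiff_of_subset hI1I, hIc]
    have := Finset.card_le_card hI1I
    omega
  have hdisj : Disjoint I1 I2 := Finset.disjoint_sdiff
  let A : Fin n → Fin N → Prop := fun w i =>
    i ∈ I1 ∧ N ≤ 41 * (B.filter (fun b => good w i b)).card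
  let T : Finset ((Fin 2 × Finset (Fin n)) ⊕ Fin n) := (Finset.univ ×ˢ Ws).disjSum ws
  let F : (Fin 2 × Finset (Fin n)) ⊕ Fin n → Fin N → Fin n → ℝ :=
    Sum.elim (fun p i b => if bad p.1 p.2 i b then K else 1)
      (fun w i b => if A w i ∧ good w i b then 1 / 2 else 1)
  let c : (Fin 2 × Finset (Fin n)) ⊕ Fin n → Fin N → ℝ :=
    Sum.elim (fun p i => if (B.filter (fun b => bad p.1 p.2 i b)).card ≤ s then 2 else K)
      (fun w i => if A w i then 119 / 120 else 1)
  have hF : ∀ j i b, 0 ≤ F j i b := by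
    rintro (p | w) i b
    · change 0 ≤ (if bad p.1 p.2 i b then K else 1)
      split_ifs <;> linarith
    · change (0 : ℝ) ≤ (if A w i ∧ good w i b then 1 / 2 else 1)
      split_ifs <;> norm_num
  have hcp : ∀ j i, 0 < c j i := by
    rintro (p | w) i
    · change 0 < (if (B.filter (fun b => bad p.1 p.2 i b)).card ≤ s then 2 else K)
      split_ifs <;> linarith
    · change (0 : ℝ) < (if A w i then 119 / 120 else 1)
      split_ifs <;> norm_num
  have hc : ∀ j i, 0 ≤ c j i := fun j i => (hcp j i).le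
  -- one step
  have hstep : ∀ i (U : Finset (Fin n)), U ⊆ B → U.card < N - r → (i ∈ I1 → U.card < I1.card) →
      ((B \ U).filter (fun b => ¬ forb i b)).Nonempty ∧
        ∀ j ∈ T, ∑ b ∈ (B \ U).filter (fun b => ¬ forb i b), F j i b ≤
          c j i * ((B \ U).filter (fun b => ¬ forb i b)).card := by
    intro i U hUB hU hU1
    have h1 := cd_card B U N hB forb i (hf i)
    set Cd := (B \ U).filter (fun b => ¬ forb i b) with hCd
    have hCdB : Cd ⊆ B := (Finset.filter_subset _ _).trans Finset.sdiff_subset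
    have hCdr : r - 1 ≤ Cd.card := by omega
    refine ⟨by rw [← Finset.card_pos]; omega, ?_⟩
    rintro (p | w) _
    · refine badstep B Cd hCdB (fun b => bad p.1 p.2 i b) s K hK (hKs.trans ?_)
      have : ((r - 1 : ℕ) : ℝ) ≤ Cd.card := by exact_mod_cast hCdr
      rwa [Nat.cast_sub (by omega), Nat.cast_one] at this
    · change ∑ b ∈ Cd, (if A w i ∧ good w i b then (1 / 2 : ℝ) else 1) ≤
        (if A w i then 119 / 120 else 1) * Cd.card
      by_cases hA : A w i
      · rw [if_pos hA]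
        have e1 : ∀ b ∈ Cd, (if A w i ∧ good w i b then (1 / 2 : ℝ) else 1) =
            if good w i b then 1 / 2 else 1 := by
          intro b _
          simp only [hA, true_and]
        rw [Finset.sum_congr rfl e1]
        refine goodstep Cd _ ?_
        have h2 := cd_card (B.filter (fun b => good w i b)) U _ rfl forb i
          ((Finset.card_le_card (Finset.filter_subset_filter _ (Finset.filter_subset _ _))).trans
            (hf i))
        have e2 : ((B.filter (fun b => good w i b)) \ U).filter (fun b => ¬ forb i b) =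
            Cd.filter (good w i) := by
          ext b
          simp only [hCd, Finset.mem_filter, Finset.mem_sdiff]
          tauto
        rw [e2] at h2
        have h3 := hU1 hA.1
        have h4 := hA.2
        have h5 : Cd.card ≤ N := hB ▸ Finset.card_le_card hCdB
        have h6 : Cd.card ≤ 60 * (Cd.filter (good w i)).card := by omega
        exact_mod_cast h6
      · rw [if_neg hA]
        have e1 : ∀ b ∈ Cd, (if A w i ∧ good w i b then (1 / 2 : ℝ) else 1) = 1 := by
          intro b _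
          rw [if_neg (fun h => hA h.1)]
        rw [Finset.sum_congr rfl e1, Finset.sum_const, nsmul_eq_mul, mul_one, one_mul]
  -- weights
  let w0 : (Fin 2 × Finset (Fin n)) ⊕ Fin n → ℝ :=
    Sum.elim (fun p => (2 ^ (n + 1))⁻¹ * (∏ i ∈ I, c (Sum.inl p) i)⁻¹)
      (fun w => (n : ℝ)⁻¹ * (∏ i ∈ I, c (Sum.inr w) i)⁻¹)
  have hPpos : ∀ j, 0 < ∏ i ∈ I, c j i := fun j => Finset.prod_pos fun i _ => hcp j i
  have hnR : (0 : ℝ) < n := by exact_mod_cast hn
  have hw0 : ∀ j, 0 ≤ w0 j := by
    rintro (p | w)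
    · exact mul_nonneg (by positivity) (inv_nonneg.2 (hPpos _).le)
    · exact mul_nonneg (by positivity) (inv_nonneg.2 (hPpos _).le)
  obtain ⟨π1, h11, h12, h13⟩ := seq b₀ B forb T F c hF hc I1 ∅ (fun j => w0 j * ∏ i ∈ I2, c j i)
    (fun j => mul_nonneg (hw0 j) (Finset.prod_nonneg fun i _ => hc j i)) (Finset.empty_subset _)
    (by
      intro i hi U _ hUB hU
      rw [Finset.card_empty, zero_add] at hU
      exact hstep i U hUB (by omega) (fun _ => hU))
  have himg : (I1.image π1).card = I1.card := Finset.card_image_of_injOn h11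
  have himgB : I1.image π1 ⊆ B := by
    intro b hb
    rw [Finset.mem_image] at hb
    obtain ⟨i, hi, rfl⟩ := hb
    exact (h12 i hi).1
  obtain ⟨π2, h21, h22, h23⟩ := seq b₀ B forb T F c hF hc I2 (I1.image π1)
    (fun j => w0 j * ∏ i ∈ I1, F j i (π1 i))
    (fun j => mul_nonneg (hw0 j) (Finset.prod_nonneg fun i _ => hF j i _)) himgB
    (by
      intro i hi U _ hUB hU
      rw [himg] at hU
      refine hstep i U hUB (by omega) (fun h => ?_)
      exact absurd h (Finset.disjoint_right.1 hdisj hi))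
  let π : Fin N → Fin n := fun i => if i ∈ I1 then π1 i else π2 i
  have hπ1 : ∀ i ∈ I1, π i = π1 i := fun i hi => if_pos hi
  have hπ2 : ∀ i ∈ I2, π i = π2 i := fun i hi => if_neg (Finset.disjoint_right.1 hdisj hi)
  have hsplit : ∀ f : Fin N → ℝ, ∏ i ∈ I, f i = (∏ i ∈ I2, f i) * ∏ i ∈ I1, f i := fun f =>
    (Finset.prod_sdiff hI1I).symm
  have htotal : ∑ j ∈ T, w0 j * ∏ i ∈ I, F j i (π i) ≤ 2 := by
    have e1 : ∑ j ∈ T, w0 j * ∏ i ∈ I, F j i (π i) =
        ∑ j ∈ T, w0 j * (∏ i ∈ I1, F j i (π1 i)) * ∏ i ∈ I2, F j i (π2 i) := by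
      refine Finset.sum_congr rfl fun j _ => ?_
      rw [hsplit, Finset.prod_congr rfl (fun i hi => by rw [hπ2 i hi] :
        ∀ i ∈ I2, F j i (π i) = F j i (π2 i)), Finset.prod_congr rfl (fun i hi => by
          rw [hπ1 i hi] : ∀ i ∈ I1, F j i (π i) = F j i (π1 i))]
      ring
    have e2 : ∑ j ∈ T, w0 j * (∏ i ∈ I1, F j i (π1 i)) * ∏ i ∈ I2, c j i =
        ∑ j ∈ T, w0 j * (∏ i ∈ I2, c j i) * ∏ i ∈ I1, F j i (π1 i) :=
      Finset.sum_congr rfl fun j _ => by ring
    have e3 : ∑ j ∈ T, w0 j * (∏ i ∈ I2, c j i) * ∏ i ∈ I1, c j i =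
        ∑ j ∈ T, w0 j * ∏ i ∈ I, c j i :=
      Finset.sum_congr rfl fun j _ => by rw [hsplit]; ring
    rw [e1]
    refine h23.trans ?_
    rw [e2]
    refine h13.trans ?_
    rw [e3, Finset.sum_disjSum]
    have e4 : ∀ p ∈ Finset.univ ×ˢ Ws, w0 (Sum.inl p) * ∏ i ∈ I, c (Sum.inl p) i =
        (2 ^ (n + 1) : ℝ)⁻¹ := by
      intro p _
      change ((2 ^ (n + 1) : ℝ)⁻¹ * (∏ i ∈ I, c (Sum.inl p) i)⁻¹) * ∏ i ∈ I, c (Sum.inl p) i = _
      rw [mul_assoc, inv_mul_cancel₀ (hPpos _).ne', mul_one]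
    have e5 : ∀ w ∈ ws, w0 (Sum.inr w) * ∏ i ∈ I, c (Sum.inr w) i = (n : ℝ)⁻¹ := by
      intro w _
      change ((n : ℝ)⁻¹ * (∏ i ∈ I, c (Sum.inr w) i)⁻¹) * ∏ i ∈ I, c (Sum.inr w) i = _
      rw [mul_assoc, inv_mul_cancel₀ (hPpos _).ne', mul_one]
    rw [Finset.sum_congr rfl e4, Finset.sum_congr rfl e5, Finset.sum_const, Finset.sum_const,
      nsmul_eq_mul, nsmul_eq_mul]
    have h1 : ((Finset.univ ×ˢ Ws : Finset (Fin 2 × Finset (Fin n))).card : ℝ) ≤ 2 ^ (n + 1) := by
      have h2 : (Finset.univ ×ˢ Ws : Finset (Fin 2 × Finset (Fin n))).card ≤ 2 ^ (n + 1) := by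
        refine (Finset.card_le_univ _).trans ?_
        rw [Fintype.card_prod, Fintype.card_finset, Fintype.card_fin, Fintype.card_fin, pow_succ,
          mul_comm]
      exact_mod_cast h2
    have h2 : ((ws.card : ℕ) : ℝ) ≤ n := by
      have h3 : ws.card ≤ n := by
        have := Finset.card_le_univ ws
        rwa [Fintype.card_fin] at this
      exact_mod_cast h3
    have h3 : ((Finset.univ ×ˢ Ws : Finset (Fin 2 × Finset (Fin n))).card : ℝ) *
        (2 ^ (n + 1) : ℝ)⁻¹ ≤ 1 := by
      rw [← div_eq_mul_inv, div_le_one (by positivity)]; exact h1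
    have h4 : ((ws.card : ℕ) : ℝ) * (n : ℝ)⁻¹ ≤ 1 := by
      rw [← div_eq_mul_inv, div_le_one hnR]; exact h2
    linarith
  have hsingle : ∀ j ∈ T, w0 j * ∏ i ∈ I, F j i (π i) ≤ 2 := fun j hj =>
    (Finset.single_le_sum (f := fun j => w0 j * ∏ i ∈ I, F j i (π i))
      (fun j _ => mul_nonneg (hw0 j) (Finset.prod_nonneg fun i _ => hF j i _)) hj).trans htotal
  refine ⟨I, π, hI1I, by omega, ?_, ?_, ?_, ?_⟩
  · intro x hx y hy hxy
    have hcase : ∀ z ∈ I, z ∈ I1 ∨ z ∈ I2 := fun z hz => by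
      by_cases h : z ∈ I1
      · exact Or.inl h
      · exact Or.inr (Finset.mem_sdiff.2 ⟨hz, h⟩)
    rcases hcase x hx with h1 | h1 <;> rcases hcase y hy with h2 | h2
    · rw [hπ1 x h1, hπ1 y h2] at hxy
      exact h11 h1 h2 hxy
    · rw [hπ1 x h1, hπ2 y h2] at hxy
      exact absurd (Finset.mem_image_of_mem π1 h1) (hxy ▸ (h22 y h2).2.1)
    · rw [hπ2 x h1, hπ1 y h2] at hxy
      exact absurd (Finset.mem_image_of_mem π1 h2) (hxy ▸ (h22 x h1).2.1)
    · rw [hπ2 x h1, hπ2 y h2] at hxy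
      exact h21 h1 h2 hxy
  · intro i hi
    by_cases h : i ∈ I1
    · rw [hπ1 i h]
      exact ⟨(h12 i h).1, (h12 i h).2.2⟩
    · have h' : i ∈ I2 := Finset.mem_sdiff.2 ⟨hi, h⟩
      rw [hπ2 i h']
      exact ⟨(h22 i h').1, (h22 i h').2.2⟩
  · intro c' W' hW'
    have h1 := hsingle (Sum.inl (c', W')) (by
      rw [Finset.inl_mem_disjSum]
      exact Finset.mem_product.2 ⟨Finset.mem_univ _, hW'⟩)
    have e1 : ∏ i ∈ I, F (Sum.inl (c', W')) i (π i) =
        K ^ (I.filter (fun i => bad c' W' i (π i))).card := by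
      change ∏ i ∈ I, (if bad c' W' i (π i) then K else 1) = _
      rw [Finset.prod_ite, Finset.prod_const, Finset.prod_const_one, mul_one]
    have e2 : ∏ i ∈ I, c (Sum.inl (c', W')) i ≤ 2 ^ N * K ^ s := by
      change ∏ i ∈ I, (if (B.filter (fun b => bad c' W' i b)).card ≤ s then 2 else K) ≤ _
      rw [Finset.prod_ite, Finset.prod_const, Finset.prod_const]
      refine mul_le_mul ?_ ?_ (by positivity) (by positivity)
      · refine pow_le_pow_right₀ (by norm_num) ?_
        refine (Finset.card_le_card (Finset.subset_univ _)).trans ?_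
        rw [Finset.card_univ, Fintype.card_fin]
      · refine pow_le_pow_right₀ hK ?_
        refine (Finset.card_le_card ?_).trans (hbad c' W' hW')
        intro i hi
        rw [Finset.mem_filter] at hi ⊢
        exact ⟨Finset.mem_univ _, not_le.1 hi.2⟩
    have h2 : ((2 ^ (n + 1) : ℝ)⁻¹ * (∏ i ∈ I, c (Sum.inl (c', W')) i)⁻¹) *
        K ^ (I.filter (fun i => bad c' W' i (π i))).card ≤ 2 := by
      rw [← e1]; exact h1
    have h3 : K ^ (I.filter (fun i => bad c' W' i (π i))).card ≤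
        2 * (2 ^ (n + 1) * ∏ i ∈ I, c (Sum.inl (c', W')) i) := by
      rw [← mul_inv, inv_mul_le_iff₀ (by have := hPpos (Sum.inl (c', W')); positivity)] at h2
      linarith
    refine h3.trans ?_
    have h4 : (2 : ℝ) ^ (n + 2) = 2 * 2 ^ (n + 1) := by ring
    rw [h4, mul_assoc]
    have h5 : (0 : ℝ) ≤ 2 ^ (n + 1) := by positivity
    nlinarith [mul_le_mul_of_nonneg_left e2 h5]
  · intro w hw
    have h1 := hsingle (Sum.inr w) (by
      rw [Finset.inr_mem_disjSum]
      exact hw)
    have e1 : ∏ i ∈ I, F (Sum.inr w) i (π i) =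
        (1 / 2 : ℝ) ^ (I1.filter (fun i =>
          N ≤ 41 * (B.filter (fun b => good w i b)).card ∧ good w i (π i))).card := by
      change ∏ i ∈ I, (if A w i ∧ good w i (π i) then (1 / 2 : ℝ) else 1) = _
      rw [Finset.prod_ite, Finset.prod_const, Finset.prod_const_one, mul_one]
      congr 2
      ext i
      simp only [Finset.mem_filter, A]
      constructor
      · rintro ⟨_, ⟨h2, h3⟩, h4⟩
        exact ⟨h2, h3, h4⟩
      · rintro ⟨h2, h3, h4⟩
        exact ⟨hI1I h2, ⟨h2, h3⟩, h4⟩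
    have e2 : ∏ i ∈ I, c (Sum.inr w) i = (119 / 120 : ℝ) ^
        (I1.filter (fun i => N ≤ 41 * (B.filter (fun b => good w i b)).card)).card := by
      change ∏ i ∈ I, (if A w i then (119 / 120 : ℝ) else 1) = _
      rw [Finset.prod_ite, Finset.prod_const, Finset.prod_const_one, mul_one]
      congr 2
      ext i
      simp only [Finset.mem_filter, A]
      constructor
      · rintro ⟨_, h2, h3⟩
        exact ⟨h2, h3⟩
      · rintro ⟨h2, h3⟩
        exact ⟨hI1I h2, h2, h3⟩
    have h2 : ((n : ℝ)⁻¹ * (∏ i ∈ I, c (Sum.inr w) i)⁻¹) *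
        (1 / 2 : ℝ) ^ (I1.filter (fun i =>
          N ≤ 41 * (B.filter (fun b => good w i b)).card ∧ good w i (π i))).card ≤ 2 := by
      rw [← e1]; exact h1
    rw [← mul_inv, inv_mul_le_iff₀ (by have := hPpos (Sum.inr w); positivity), e2] at h2
    linarith

theorem pow_gt (k : ℕ) (hk : 40 ≤ k) : 10 ^ 9 * (k + 1) < 2 ^ k := by
  induction k, hk using Nat.le_induction with
  | base => norm_num
  | succ k hk ih =>
    rw [pow_succ]
    omega

/-- numerical end of the argument for the good pairs -/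
theorem good_num {n N g h : ℕ} (hn : 10 ^ 12 ≤ n) (hN : n ≤ 500 * N) (hh : N ≤ 8000 * h)
    (hle : (1 / 2 : ℝ) ^ g ≤ 2 * n * (119 / 120) ^ h) : N ≤ 10 ^ 7 * g := by
  by_contra hcon
  push Not at hcon
  have h1 : (2 : ℝ) ^ (h / 83) ≤ 2 * n * 2 ^ g := by
    have h2 : (2 : ℝ) ^ (h / 83) ≤ (120 / 119) ^ h := by
      have h3 : (2 : ℝ) ≤ (120 / 119) ^ 83 := by norm_num
      calc (2 : ℝ) ^ (h / 83) ≤ ((120 / 119) ^ 83) ^ (h / 83) :=
            pow_le_pow_left₀ (by norm_num) h3 _
        _ = (120 / 119) ^ (83 * (h / 83)) := by rw [← pow_mul]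
        _ ≤ (120 / 119) ^ h := pow_le_pow_right₀ (by norm_num) (Nat.mul_div_le h 83)
    refine h2.trans ?_
    have h4 : (0 : ℝ) < (120 / 119) ^ h := by positivity
    have h5 : (0 : ℝ) < 2 ^ g := by positivity
    have h6 := mul_le_mul_of_nonneg_right hle (mul_pos h4 h5).le
    have h7 : (1 / 2 : ℝ) ^ g * ((120 / 119) ^ h * 2 ^ g) = (120 / 119) ^ h := by
      have : (1 / 2 : ℝ) ^ g * 2 ^ g = 1 := by rw [← mul_pow]; norm_num
      calc _ = ((1 / 2 : ℝ) ^ g * 2 ^ g) * (120 / 119) ^ h := by ring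
        _ = _ := by rw [this, one_mul]
    have h8 : 2 * (n : ℝ) * (119 / 120) ^ h * ((120 / 119) ^ h * 2 ^ g) = 2 * n * 2 ^ g := by
      have : (119 / 120 : ℝ) ^ h * (120 / 119) ^ h = 1 := by rw [← mul_pow]; norm_num
      calc _ = 2 * (n : ℝ) * ((119 / 120) ^ h * (120 / 119) ^ h) * 2 ^ g := by ring
        _ = _ := by rw [this, mul_one]
    rw [h7, h8] at h6
    exact h6
  have h2 : 2 ^ (h / 83) ≤ n * 2 ^ (g + 1) := by
    have : ((2 ^ (h / 83) : ℕ) : ℝ) ≤ ((n * 2 ^ (g + 1) : ℕ) : ℝ) := by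
      push_cast
      rw [pow_succ]
      linarith
    exact_mod_cast this
  obtain ⟨k, hk⟩ : ∃ k, h / 83 = k + (g + 1) := ⟨h / 83 - (g + 1), by omega⟩
  have hkn : n / 10 ^ 9 ≤ k := by omega
  rw [hk, pow_add] at h2
  have h3 : 2 ^ k ≤ n := Nat.le_of_mul_le_mul_right h2 (by positivity)
  have h4 := pow_gt (n / 10 ^ 9) (by omega)
  have h5 : 2 ^ (n / 10 ^ 9) ≤ 2 ^ k := Nat.pow_le_pow_right (by norm_num) hkn
  have h6 : n < 10 ^ 9 * (n / 10 ^ 9 + 1) := by omega
  omega

/-- numerical end of the argument for the bad pairs -/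
theorem bad_num {n N s h E : ℕ} (hE : E = 10 ^ 6) (hn : 10 ^ 12 ≤ n) (hN : n ≤ 500 * N)
    (hNn : N ≤ n) (hs : 5600 * s ≤ N)
    (hle : ((2 : ℝ) ^ E) ^ h ≤ 2 ^ (n + 2) * (2 ^ N * ((2 : ℝ) ^ E) ^ s)) : 700 * h ≤ N := by
  rw [← pow_mul, ← pow_mul, ← pow_add, ← pow_add] at hle
  have h1 : E * h ≤ n + 2 + (N + E * s) := by
    by_contra hcon
    push Not at hcon
    exact absurd hle (not_le.2 (pow_lt_pow_right₀ (by norm_num) hcon))
  subst hE
  by_contra hcon
  push Not at hcon
  omega

open Classical in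
theorem bij : StBij := by
  obtain ⟨E, hE⟩ : ∃ E : ℕ, E = 10 ^ 6 := ⟨_, rfl⟩
  obtain ⟨L, hL⟩ : ∃ L : ℕ, L = 2 ^ E := ⟨_, rfl⟩
  have hL7 : 7 ≤ L := by
    rw [hL]
    calc 7 ≤ 2 ^ 3 := by norm_num
      _ ≤ 2 ^ E := Nat.pow_le_pow_right (by norm_num) (by rw [hE]; norm_num)
  refine ⟨(400000 * L) ^ 2 + 10 ^ 12, ?_⟩
  intro n hn s N hs4 hN hNn B hB forb hf1 hf2 bad Ws hbad good ws I1 hI1 hgood
  have hn1 : (400000 * L) ^ 2 ≤ n := by omega
  have hn2 : 10 ^ 12 ≤ n := by omega
  have hLs : 400000 * L * s ≤ n := by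
    rcases Nat.le_total s (400000 * L) with h | h
    · calc 400000 * L * s ≤ 400000 * L * (400000 * L) := Nat.mul_le_mul_left _ h
        _ = (400000 * L) ^ 2 := by ring
        _ ≤ n := hn1
    · have h1 : 1 ≤ s := by omega
      calc 400000 * L * s ≤ s * s := Nat.mul_le_mul_right _ h
        _ = s ^ 2 := by ring
        _ ≤ s ^ 4 := Nat.pow_le_pow_right h1 (by norm_num)
        _ ≤ n := hs4
  have hLs2 : 800 * (L * s) ≤ N := by
    have : 400000 * L * s = 500 * (800 * (L * s)) := by ring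
    omega
  have h7s : 7 * s ≤ L * s := Nat.mul_le_mul_right _ hL7
  have hs5 : 5600 * s ≤ N := by omega
  set r : ℕ := N / 700 + 1 with hr
  have hK : (1 : ℝ) ≤ 2 ^ E := one_le_pow₀ (by norm_num)
  obtain ⟨I, π, hI1I, hIc, hπinj, hπ, hπbad, hπgood⟩ := choice s r ((2 : ℝ) ^ E) hK B hB forb hf1
    bad Ws hbad good ws I1 hI1 (by omega) (by omega) (by
      have h1 : L * s ≤ N / 700 := by
        rw [Nat.le_div_iff_mul_le (by norm_num)]
        omega
      have h2 : ((L * s : ℕ) : ℝ) ≤ ((N / 700 : ℕ) : ℝ) := by exact_mod_cast h1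
      rw [hr, Nat.cast_add, Nat.cast_one, add_sub_cancel_right]
      rw [Nat.cast_mul, hL, Nat.cast_pow, Nat.cast_ofNat] at h2
      exact h2) (by omega)
  -- completion
  set R : Finset (Fin N) := univ \ I with hR
  set B' : Finset (Fin n) := B \ I.image π with hB'
  have himg : (I.image π).card = I.card := Finset.card_image_of_injOn hπinj
  have himgB : I.image π ⊆ B := by
    intro b hb
    rw [Finset.mem_image] at hb
    obtain ⟨i, hi, rfl⟩ := hb
    exact (hπ i hi).1
  have hRc : R.card = r := by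
    rw [hR, Finset.card_sdiff_of_subset (Finset.subset_univ _), Finset.card_univ, Fintype.card_fin]
    omega
  have hB'c : B'.card = r := by
    rw [hB', Finset.card_sdiff_of_subset himgB, himg, hB]
    omega
  obtain ⟨f, hf, hf3⟩ := completion R B' (hRc.trans hB'c.symm) (by omega) forb
    (fun i _ => (Finset.card_le_card (Finset.filter_subset_filter _
      Finset.sdiff_subset)).trans (hf1 i))
    (fun b hb => (Finset.card_le_card (Finset.filter_subset_filter _
      (Finset.subset_univ _))).trans (hf2 b (Finset.mem_sdiff.1 hb).1))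
  let π' : Fin N → Fin n := fun i => if h : i ∈ R then f ⟨i, h⟩ else π i
  have hRI : ∀ i, i ∈ I ↔ i ∉ R := by
    intro i
    rw [hR]
    simp
  have h1 : ∀ i (h : i ∈ R), π' i = f ⟨i, h⟩ := fun i h => dif_pos h
  have h2 : ∀ i ∈ I, π' i = π i := fun i h => dif_neg ((hRI i).1 h)
  have hfB : ∀ i : ↥R, f i ∈ B ∧ f i ∉ I.image π := fun i => by
    have := (hf3 i).1
    rwa [hB', Finset.mem_sdiff] at this
  refine ⟨π', ?_, ?_, ?_, ?_, ?_⟩
  · intro x y hxy
    by_cases hx : x ∈ R <;> by_cases hy : y ∈ R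
    · rw [h1 x hx, h1 y hy] at hxy
      exact congrArg Subtype.val (hf hxy)
    · rw [h1 x hx, h2 y ((hRI y).2 hy)] at hxy
      exact absurd (Finset.mem_image_of_mem π ((hRI y).2 hy)) (hxy ▸ (hfB ⟨x, hx⟩).2)
    · rw [h2 x ((hRI x).2 hx), h1 y hy] at hxy
      exact absurd (Finset.mem_image_of_mem π ((hRI x).2 hx)) (hxy ▸ (hfB ⟨y, hy⟩).2)
    · rw [h2 x ((hRI x).2 hx), h2 y ((hRI y).2 hy)] at hxy
      exact hπinj ((hRI x).2 hx) ((hRI y).2 hy) hxy
  · intro i
    by_cases hi : i ∈ R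
    · rw [h1 i hi]; exact (hfB _).1
    · rw [h2 i ((hRI i).2 hi)]; exact (hπ i ((hRI i).2 hi)).1
  · intro i
    by_cases hi : i ∈ R
    · rw [h1 i hi]; exact (hf3 ⟨i, hi⟩).2
    · rw [h2 i ((hRI i).2 hi)]; exact (hπ i ((hRI i).2 hi)).2
  · intro c W' hW'
    have h3 := bad_num hE hn2 hN hNn hs5 (hπbad c W' hW')
    have h4 : univ.filter (fun i => bad c W' i (π' i)) ⊆
        I.filter (fun i => bad c W' i (π i)) ∪ R := by
      intro i hi
      rw [Finset.mem_filter] at hi
      rw [Finset.mem_union, Finset.mem_filter]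
      by_cases h : i ∈ R
      · exact Or.inr h
      · have h5 := (hRI i).2 h
        rw [h2 i h5] at hi
        exact Or.inl ⟨h5, hi.2⟩
    have h5 := (Finset.card_le_card h4).trans (Finset.card_union_le _ _)
    omega
  · intro w hw
    have h3 := good_num hn2 hN (hgood w hw) (hπgood w hw)
    have h4 : I1.filter (fun i =>
        N ≤ 41 * (B.filter (fun b => good w i b)).card ∧ good w i (π i)) ⊆
        univ.filter (fun i => good w i (π' i)) := by
      intro i hi
      rw [Finset.mem_filter] at hi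
      rw [Finset.mem_filter, h2 i (hI1I hi.1)]
      exact ⟨Finset.mem_univ _, hi.2.2⟩
    exact h3.trans (Nat.mul_le_mul_left _ (Finset.card_le_card h4))

end Pool.Agent.TH959.MBBij
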