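import Pool.Agent.TH279.MZ.Defs

/-!
# MZ-WL (job 1681)
-/

set_option autoImplicit false

open Set Filter Metric MeasureTheory Topology
open Pool.Agent.TH279.MZ

namespace Pool.Agent.TH959.J1681

/-- a property which holds near `0` holds on all small closed balls -/
theorem ball_of_ev {P : ℂ → Prop} (h : ∀ᶠ z in 𝓝 (0 : ℂ), P z) :
    ∀ᶠ r in nhdsWithin (0 : ℝ) (Ioi 0), 0 < r ∧ ∀ z ∈ closedBall (0 : ℂ) r, P z := by
  obtain ⟨ε, hε, h1⟩ := Metric.eventually_nhds_iff_ball.1 h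
  filter_upwards [Ioo_mem_nhdsGT hε] with r hr
  exact ⟨hr.1, fun z hz => h1 z (lt_of_le_of_lt (mem_closedBall.1 hz) hr.2)⟩

/-- a function which is continuous near zero is integrable on small circles -/
theorem circ_int {F : ℂ → ℝ} (h : ∀ᶠ z in 𝓝 (0 : ℂ), ContinuousAt F z) :
    ∀ᶠ r in nhdsWithin (0 : ℝ) (Ioi 0), CircleIntegrable F 0 r := by
  filter_upwards [ball_of_ev h] with r hr
  refine ContinuousOn.circleIntegrable hr.1.le fun z hz => ?_
  exact (hr.2 z (sphere_subset_closedBall hz)).continuousWithinAt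

theorem ev_cont {φ : ℂ → ℝ} (hφ : Continuous φ) {g e : ℂ → ℂ} (hg : AnalyticAt ℂ g 0)
    (he : AnalyticAt ℂ e 0) : ∀ᶠ z in 𝓝 (0 : ℂ), ContinuousAt (fun ζ => ‖e ζ‖ * φ (g ζ)) z := by
  filter_upwards [hg.eventually_analyticAt, he.eventually_analyticAt] with z h1 h2
  exact h2.continuousAt.norm.mul (hφ.continuousAt.comp h1.continuousAt)

theorem WL_one : WL (fun _ => 1) := by
  refine ⟨continuous_const, fun _ => zero_le_one, fun g e _ he => ?_⟩
  filter_upwards [ball_of_ev he.eventually_analyticAt] with r hr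
  have h1 : DifferentiableOn ℂ e (closedBall 0 |r|) := by
    rw [abs_of_pos hr.1]
    exact fun z hz => (hr.2 z hz).differentiableAt.differentiableWithinAt
  have h2 : DiffContOnCl ℂ e (ball 0 |r|) := by
    refine ⟨h1.mono ball_subset_closedBall, ?_⟩
    exact h1.continuousOn.mono closure_ball_subset_closedBall
  have h3 := h2.circleAverage
  simp only [mul_one]
  rw [← h3]
  unfold Real.circleAverage
  rw [norm_smul, smul_eq_mul, Real.norm_of_nonneg (by positivity)]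
  refine mul_le_mul_of_nonneg_left ?_ (by positivity)
  exact intervalIntegral.norm_integral_le_integral_norm (by positivity)

theorem WL_mul {φ : ℂ → ℝ} (h : WL φ) {E : ℂ → ℂ} (hE : Differentiable ℂ E) :
    WL (fun z => ‖E z‖ * φ z) := by
  refine ⟨hE.continuous.norm.mul h.1, fun z => mul_nonneg (norm_nonneg _) (h.2.1 z),
    fun g e hg he => ?_⟩
  have h1 : AnalyticAt ℂ (fun ζ => e ζ * E (g ζ)) 0 :=
    he.mul ((hE.analyticAt (g 0)).comp hg)
  filter_upwards [h.2.2 g _ hg h1] with r hr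
  simpa only [norm_mul, mul_assoc] using hr

/-- the values of an even function at the square root -/
theorem sqt_even {ψ : ℂ → ℝ} (hψ : ∀ y, ψ (-y) = ψ y) {y w : ℂ} (h : y ^ 2 = w) :
    ψ (sqt w) = ψ y := by
  have h1 : sqt w ^ 2 = y ^ 2 := by rw [sqt_sq, h]
  rcases sq_eq_sq_iff_eq_or_eq_neg.1 h1 with h2 | h2
  · rw [h2]
  · rw [h2, hψ]

theorem cont_even {ψ : ℂ → ℝ} (hc : Continuous ψ) (hψ : ∀ y, ψ (-y) = ψ y) :
    Continuous fun z => ψ (sqt z) := by
  rw [continuous_iff_continuousAt]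
  intro z
  rw [Metric.continuousAt_iff]
  intro ε hε
  obtain ⟨δ, hδ, h1⟩ := Metric.continuousAt_iff.1 (hc.continuousAt (x := sqt z)) ε hε
  obtain ⟨δ', hδ', h2⟩ := Metric.continuousAt_iff.1 (hc.continuousAt (x := -sqt z)) ε hε
  refine ⟨δ * δ', by positivity, fun w hw => ?_⟩
  have h3 : dist w z = dist (sqt w) (sqt z) * dist (sqt w) (-sqt z) := by
    rw [dist_eq_norm, dist_eq_norm, dist_eq_norm, ← norm_mul, ← sqt_sq w, ← sqt_sq z]
    rw [sqt_sq w, sqt_sq z]
    congr 1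
    rw [← sqt_sq w, ← sqt_sq z]
    rw [sqt_sq w, sqt_sq z]
    ring_nf
    rw [sqt_sq w, sqt_sq z]
  rw [h3] at hw
  by_cases h4 : dist (sqt w) (sqt z) < δ
  · exact h1 h4
  · have h5 : dist (sqt w) (-sqt z) < δ' := by
      by_contra h6
      rw [not_lt] at h4 h6
      exact absurd hw (not_lt.2 (mul_le_mul h4 h6 hδ'.le dist_nonneg))
    have h7 := h2 h5
    rwa [hψ] at h7

theorem continuous_TR {φ : ℂ → ℝ} (h : Continuous φ) (c : ℂ) : Continuous (TR c φ) := by
  have h1 : Continuous fun z => (fun y => φ y + φ (-y)) (sqt z) :=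
    cont_even (ψ := fun y => φ y + φ (-y)) (by fun_prop) (fun y => by simp [add_comm])
  exact h1.comp (continuous_id.sub continuous_const)

/-- a holomorphic square root of `G (t ^ 2)` -/
theorem exists_root {G : ℂ → ℂ} (hG : AnalyticAt ℂ G 0) :
    ∃ Y : ℂ → ℂ, AnalyticAt ℂ Y 0 ∧ ∀ᶠ t in 𝓝 (0 : ℂ), Y t ^ 2 = G (t ^ 2) := by
  have hsq : Tendsto (fun t : ℂ => t ^ 2) (𝓝 0) (𝓝 0) := by
    have : ContinuousAt (fun t : ℂ => t ^ 2) 0 := by fun_prop
    simpa [ContinuousAt] using this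
  have hsqa : AnalyticAt ℂ (fun t : ℂ => t ^ 2) 0 := analyticAt_id.pow 2
  by_cases h0 : ∀ᶠ z in 𝓝 (0 : ℂ), G z = 0
  · refine ⟨fun _ => 0, analyticAt_const, ?_⟩
    filter_upwards [hsq.eventually h0] with t ht
    rw [ht]; ring
  · obtain ⟨m, H, hH, hH0, hev⟩ := hG.exists_eventuallyEq_pow_smul_nonzero_iff.2 h0
    have hKa : AnalyticAt ℂ (fun t => sqt (H 0) * Complex.exp (Complex.log (H t / H 0) / 2)) 0 := by
      refine analyticAt_const.mul (AnalyticAt.cexp ?_)
      refine AnalyticAt.div (AnalyticAt.clog (hH.div analyticAt_const hH0) ?_) analyticAt_const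
        two_ne_zero
      rw [div_self hH0]
      exact Complex.one_mem_slitPlane
    have hK2 : ∀ᶠ t in 𝓝 (0 : ℂ),
        (sqt (H 0) * Complex.exp (Complex.log (H t / H 0) / 2)) ^ 2 = H t := by
      filter_upwards [hH.continuousAt.eventually_ne hH0] with t ht
      rw [mul_pow, sqt_sq, ← Complex.exp_nat_mul]
      have : ((2 : ℕ) : ℂ) * (Complex.log (H t / H 0) / 2) = Complex.log (H t / H 0) := by
        push_cast; ring
      rw [this, Complex.exp_log (div_ne_zero ht hH0)]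
      field_simp
    obtain ⟨K, hKa, hK2⟩ : ∃ K : ℂ → ℂ, AnalyticAt ℂ K 0 ∧ ∀ᶠ t in 𝓝 (0 : ℂ), K t ^ 2 = H t :=
      ⟨_, hKa, hK2⟩
    refine ⟨fun t => t ^ m * K (t ^ 2), ?_, ?_⟩
    · refine (analyticAt_id.pow m).mul ?_
      refine AnalyticAt.comp_of_eq hKa hsqa ?_
      simp
    · filter_upwards [hsq.eventually hK2, hsq.eventually hev] with t h1 h2
      rw [h2, mul_pow, h1, sub_zero, smul_eq_mul]
      ring

/-- two-fold cover -/
theorem avg_sq {F : ℂ → ℝ} {r : ℝ} (h : CircleIntegrable F 0 (r ^ 2)) :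
    Real.circleAverage F 0 (r ^ 2) = Real.circleAverage (fun t => F (t ^ 2)) 0 r := by
  unfold Real.circleAverage
  congr 1
  have h1 : ∀ θ : ℝ, (circleMap 0 r θ) ^ 2 = circleMap 0 (r ^ 2) (2 * θ) := by
    intro θ
    simp only [circleMap, zero_add]
    rw [mul_pow, ← Complex.exp_nat_mul]
    push_cast
    ring_nf
  simp only [h1]
  rw [intervalIntegral.integral_comp_mul_left (fun θ => F (circleMap 0 (r ^ 2) θ)) two_ne_zero]
  have hper : Function.Periodic (fun θ => F (circleMap 0 (r ^ 2) θ)) (2 * Real.pi) := by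
    intro θ
    show F (circleMap 0 (r ^ 2) (θ + 2 * Real.pi)) = _
    rw [periodic_circleMap]
  have hint : ∀ t₁ t₂, IntervalIntegrable (fun θ => F (circleMap 0 (r ^ 2) θ)) volume t₁ t₂ := by
    intro t₁ t₂
    exact hper.intervalIntegrable₀ (by positivity) (by simpa [CircleIntegrable] using h) t₁ t₂
  have h2 := hper.intervalIntegral_add_eq_add 0 (2 * Real.pi) hint
  rw [zero_add] at h2
  have h3 : 2 * (2 * Real.pi) = 2 * Real.pi + 2 * Real.pi := by ring
  rw [mul_zero, h3, h2, smul_eq_mul]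
  ring

theorem WL_TR {φ : ℂ → ℝ} (h : WL φ) (c : ℂ) : WL (TR c φ) := by
  refine ⟨continuous_TR h.1 c, fun z => add_nonneg (h.2.1 _) (h.2.1 _), fun g e hg he => ?_⟩
  obtain ⟨Y, hY, hYG⟩ := exists_root (G := fun z => g z - c) (hg.sub analyticAt_const)
  have hsqa : AnalyticAt ℂ (fun t : ℂ => t ^ 2) 0 := analyticAt_id.pow 2
  have he2 : AnalyticAt ℂ (fun t => e (t ^ 2)) 0 := AnalyticAt.comp_of_eq he hsqa (by simp)
  have key : ∀ y w : ℂ, y ^ 2 = w → φ (sqt w) + φ (-sqt w) = φ y + φ (-y) := by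
    intro y w hw
    exact sqt_even (ψ := fun y => φ y + φ (-y)) (fun y => by simp [add_comm]) hw
  have hYn : AnalyticAt ℂ (fun t => -Y t) 0 := hY.neg
  have h1 := h.2.2 Y _ hY he2
  have h2 := h.2.2 (fun t => -Y t) _ hYn he2
  have i1 := circ_int (ev_cont h.1 hY he2)
  have i2 := circ_int (ev_cont h.1 hYn he2)
  have i3 := circ_int (ev_cont (continuous_TR h.1 c) hg he)
  have hev : ∀ᶠ r in nhdsWithin (0 : ℝ) (Ioi 0), CircleIntegrable
      (fun ζ => ‖e ζ‖ * TR c φ (g ζ)) 0 (r ^ 2) →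
      ‖e 0‖ * TR c φ (g 0) ≤ Real.circleAverage (fun ζ => ‖e ζ‖ * TR c φ (g ζ)) 0 (r ^ 2) := by
    filter_upwards [h1, h2, i1, i2, ball_of_ev hYG] with r h1 h2 i1 i2 h3 h4
    rw [avg_sq h4]
    have e1 : Real.circleAverage (fun t => ‖e (t ^ 2)‖ * TR c φ (g (t ^ 2))) 0 r =
        Real.circleAverage (fun t => ‖e (t ^ 2)‖ * φ (Y t) + ‖e (t ^ 2)‖ * φ (-Y t)) 0 r := by
      refine Real.circleAverage_congr_sphere fun t ht => ?_
      rw [abs_of_pos h3.1] at ht
      have h5 := h3.2 t (sphere_subset_closedBall ht)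
      show ‖e (t ^ 2)‖ * TR c φ (g (t ^ 2)) = ‖e (t ^ 2)‖ * φ (Y t) + ‖e (t ^ 2)‖ * φ (-Y t)
      rw [← mul_add]
      congr 1
      exact key _ _ h5
    rw [e1, Real.circleAverage_fun_add i1 i2]
    have h5 := h3.2 0 (mem_closedBall_self h3.1.le)
    have h6 : TR c φ (g 0) = φ (Y 0) + φ (-Y 0) := by
      refine key _ _ ?_
      rw [h5]; norm_num
    rw [h6, mul_add]
    have e0 : e ((0 : ℂ) ^ 2) = e 0 := by norm_num
    simp only [e0] at h1 h2
    exact add_le_add h1 h2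
  have ht : Tendsto Real.sqrt (nhdsWithin (0 : ℝ) (Ioi 0)) (nhdsWithin (0 : ℝ) (Ioi 0)) := by
    refine tendsto_nhdsWithin_of_tendsto_nhds_of_eventually_within _ ?_ ?_
    · have : ContinuousAt Real.sqrt 0 := Real.continuous_sqrt.continuousAt
      have h3 := this.tendsto
      rw [Real.sqrt_zero] at h3
      exact h3.mono_left nhdsWithin_le_nhds
    · filter_upwards [self_mem_nhdsWithin] with r hr
      exact Real.sqrt_pos.2 hr
  filter_upwards [ht.eventually hev, i3, self_mem_nhdsWithin] with r h3 h4 h5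
  rw [Real.sq_sqrt (le_of_lt h5)] at h3
  exact h3 h4

end Pool.Agent.TH959.J1681
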