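import Pool.Agent.TH144.AE.Var
import Pool.Agent.TH144.CN.Surf

/-!
Job 1082 (AE-7): the Kobayashi pseudodistance of the pinched threefold is not trivial.
-/

set_option autoImplicit false

open Filter Topology Metric Set

namespace Pool.Agent.TH959.J1082

open Pool.Agent.TH144 Pool.Agent.TH144.AE

/-- indices of the second group of coordinates -/
abbrev IW : Type := Fin 3 × Fin 3 × Fin 2 × Fin 2

/-- vectors of the second group of coordinates -/
abbrev EW : Type := IW → ℂ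

/-- the second group of coordinates -/
def Wv (v : Idx → ℂ) : EW := fun p => v (Sum.inr p)

/-- the relations between the second coordinates -/
def CC : Set EW :=
  {w | ∀ (k l : Fin 3) (m n : Fin 2) (k' l' : Fin 3) (m' n' : Fin 2),
    w (k, l, m, n) * w (k', l', m', n') = w (k', l, m, n) * w (k, l', m', n')} ∩
  ({w | ∀ (k l : Fin 3) (m n : Fin 2) (k' l' : Fin 3) (m' n' : Fin 2),
    w (k, l, m, n) * w (k', l', m', n') = w (k, l', m, n) * w (k', l, m', n')} ∩
  ({w | ∀ (l : Fin 3) (m n : Fin 2), w (0, l, m, n) ^ 4 = w (1, l, m, n) ^ 4 + w (2, l, m, n) ^ 4} ∩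
  {w | ∀ (k : Fin 3) (m n : Fin 2), w (k, 0, m, n) ^ 4 = w (k, 1, m, n) ^ 4 + w (k, 2, m, n) ^ 4}))

lemma isClosed_CC : IsClosed CC := by
  unfold CC
  refine IsClosed.inter ?_ (IsClosed.inter ?_ (IsClosed.inter ?_ ?_))
  · simp only [Set.ofPred_forall]
    refine isClosed_iInter fun _ => isClosed_iInter fun _ => isClosed_iInter fun _ =>
      isClosed_iInter fun _ => isClosed_iInter fun _ => isClosed_iInter fun _ =>
      isClosed_iInter fun _ => isClosed_iInter fun _ => ?_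
    exact isClosed_eq (by fun_prop) (by fun_prop)
  · simp only [Set.ofPred_forall]
    refine isClosed_iInter fun _ => isClosed_iInter fun _ => isClosed_iInter fun _ =>
      isClosed_iInter fun _ => isClosed_iInter fun _ => isClosed_iInter fun _ =>
      isClosed_iInter fun _ => isClosed_iInter fun _ => ?_
    exact isClosed_eq (by fun_prop) (by fun_prop)
  · simp only [Set.ofPred_forall]
    refine isClosed_iInter fun _ => isClosed_iInter fun _ => isClosed_iInter fun _ => ?_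
    exact isClosed_eq (by fun_prop) (by fun_prop)
  · simp only [Set.ofPred_forall]
    refine isClosed_iInter fun _ => isClosed_iInter fun _ => isClosed_iInter fun _ => ?_
    exact isClosed_eq (by fun_prop) (by fun_prop)

lemma CC_smul {w : EW} (h : w ∈ CC) (t : ℂ) : t • w ∈ CC := by
  obtain ⟨h1, h2, h3, h4⟩ := h
  refine ⟨?_, ?_, ?_, ?_⟩
  · intro k l m n k' l' m' n'
    have := h1 k l m n k' l' m' n'
    simp only [Pi.smul_apply, smul_eq_mul]
    linear_combination t ^ 2 * this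
  · intro k l m n k' l' m' n'
    have := h2 k l m n k' l' m' n'
    simp only [Pi.smul_apply, smul_eq_mul]
    linear_combination t ^ 2 * this
  · intro l m n
    have := h3 l m n
    simp only [Pi.smul_apply, smul_eq_mul]
    linear_combination t ^ 4 * this
  · intro k m n
    have := h4 k m n
    simp only [Pi.smul_apply, smul_eq_mul]
    linear_combination t ^ 4 * this

/-! ### The projection matrices -/

lemma sum_ne {ι : Type} [Fintype ι] {d : ι → ℂ} (hd : d ≠ 0) :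
    ∑ i, d i * (starRingEnd ℂ) (d i) ≠ 0 := by
  have h0 : ∑ i, d i * (starRingEnd ℂ) (d i) = ((∑ i, ‖d i‖ ^ 2 : ℝ) : ℂ) := by
    push_cast
    refine Finset.sum_congr rfl fun l _ => ?_
    rw [Complex.mul_conj, Complex.normSq_eq_norm_sq]
    push_cast
    rfl
  rw [h0]
  intro h
  have h1 : (∑ l, ‖d l‖ ^ 2 : ℝ) = 0 := by exact_mod_cast h
  rw [Finset.sum_eq_zero_iff_of_nonneg (fun i _ => by positivity)] at h1
  apply hd
  funext l
  have := h1 l (Finset.mem_univ l)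
  simpa using this

/-- the square norm -/
noncomputable def nn (w : EW) : ℂ := ∑ q, w q * (starRingEnd ℂ) (w q)

/-- the first projection matrix -/
noncomputable def ρ1 (w : EW) : CN.Mat := fun j k =>
  (∑ p : Fin 3 × Fin 2 × Fin 2, w (j, p) * (starRingEnd ℂ) (w (k, p))) / nn w

/-- the second projection matrix -/
noncomputable def ρ2 (w : EW) : CN.Mat := fun j k =>
  (∑ p : Fin 3 × Fin 2 × Fin 2, w (p.1, j, p.2) * (starRingEnd ℂ) (w (p.1, k, p.2))) / nn w

lemma nn_smul (t : ℂ) (w : EW) : nn (t • w) = t * (starRingEnd ℂ) t * nn w := by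
  unfold nn
  rw [Finset.mul_sum]
  refine Finset.sum_congr rfl fun l _ => ?_
  simp only [Pi.smul_apply, smul_eq_mul, map_mul]
  ring

lemma ρ1_smul {t : ℂ} (ht : t ≠ 0) (w : EW) : ρ1 (t • w) = ρ1 w := by
  funext j k
  unfold ρ1
  rw [nn_smul]
  have h2 : (starRingEnd ℂ) t ≠ 0 := by
    rwa [Ne, map_eq_zero]
  have h3 : ∑ p : Fin 3 × Fin 2 × Fin 2, (t • w) (j, p) * (starRingEnd ℂ) ((t • w) (k, p)) =
      t * (starRingEnd ℂ) t * ∑ p : Fin 3 × Fin 2 × Fin 2, w (j, p) * (starRingEnd ℂ) (w (k, p)) := by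
    rw [Finset.mul_sum]
    refine Finset.sum_congr rfl fun l _ => ?_
    simp only [Pi.smul_apply, smul_eq_mul, map_mul]
    ring
  rw [h3, mul_div_mul_left _ _ (mul_ne_zero ht h2)]

lemma ρ2_smul {t : ℂ} (ht : t ≠ 0) (w : EW) : ρ2 (t • w) = ρ2 w := by
  funext j k
  unfold ρ2
  rw [nn_smul]
  have h2 : (starRingEnd ℂ) t ≠ 0 := by
    rwa [Ne, map_eq_zero]
  have h3 : ∑ p : Fin 3 × Fin 2 × Fin 2,
      (t • w) (p.1, j, p.2) * (starRingEnd ℂ) ((t • w) (p.1, k, p.2)) =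
      t * (starRingEnd ℂ) t * ∑ p : Fin 3 × Fin 2 × Fin 2,
        w (p.1, j, p.2) * (starRingEnd ℂ) (w (p.1, k, p.2)) := by
    rw [Finset.mul_sum]
    refine Finset.sum_congr rfl fun l _ => ?_
    simp only [Pi.smul_apply, smul_eq_mul, map_mul]
    ring
  rw [h3, mul_div_mul_left _ _ (mul_ne_zero ht h2)]

lemma ρ1_of {w : EW} (hw : w ≠ 0) {b : Fin 3 → ℂ} {d : Fin 3 × Fin 2 × Fin 2 → ℂ}
    (h : ∀ k p, w (k, p) = b k * d p) : ρ1 w = CN.Phi b := by
  have hd : d ≠ 0 := by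
    rintro rfl
    apply hw
    funext ⟨k, p⟩
    rw [h]
    simp
  have h1 := sum_ne hd
  have h2 : nn w = CN.nsq b * ∑ i, d i * (starRingEnd ℂ) (d i) := by
    unfold nn CN.nsq
    rw [Fintype.sum_prod_type, Finset.sum_mul]
    refine Finset.sum_congr rfl fun l _ => ?_
    rw [Finset.mul_sum]
    refine Finset.sum_congr rfl fun p _ => ?_
    rw [h, map_mul]
    ring
  funext j k
  unfold ρ1 CN.Phi
  have h3 : ∑ p : Fin 3 × Fin 2 × Fin 2, w (j, p) * (starRingEnd ℂ) (w (k, p)) =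
      b j * (starRingEnd ℂ) (b k) * ∑ i, d i * (starRingEnd ℂ) (d i) := by
    rw [Finset.mul_sum]
    refine Finset.sum_congr rfl fun p _ => ?_
    rw [h, h, map_mul]
    ring
  rw [h2, h3, mul_div_mul_right _ _ h1]

lemma ρ2_of {w : EW} (hw : w ≠ 0) {c : Fin 3 → ℂ} {d : Fin 3 × Fin 2 × Fin 2 → ℂ}
    (h : ∀ k l q, w (k, l, q) = c l * d (k, q)) : ρ2 w = CN.Phi c := by
  have hd : d ≠ 0 := by
    rintro rfl
    apply hw
    funext ⟨k, l, q⟩
    rw [h]
    simp
  have h1 := sum_ne hd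
  have h2 : nn w = CN.nsq c * ∑ i, d i * (starRingEnd ℂ) (d i) := by
    unfold nn CN.nsq
    rw [Fintype.sum_prod_type, Finset.sum_mul, Finset.sum_congr rfl
      (fun k _ => Fintype.sum_prod_type _), Finset.sum_comm]
    refine Finset.sum_congr rfl fun l _ => ?_
    rw [Fintype.sum_prod_type, Finset.mul_sum]
    refine Finset.sum_congr rfl fun k _ => ?_
    rw [Finset.mul_sum]
    refine Finset.sum_congr rfl fun q _ => ?_
    rw [h, map_mul]
    ring
  funext i j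
  unfold ρ2 CN.Phi
  have h3 : ∑ p : Fin 3 × Fin 2 × Fin 2, w (p.1, i, p.2) * (starRingEnd ℂ) (w (p.1, j, p.2)) =
      c i * (starRingEnd ℂ) (c j) * ∑ i, d i * (starRingEnd ℂ) (d i) := by
    rw [Finset.mul_sum]
    refine Finset.sum_congr rfl fun p _ => ?_
    rw [h, h, map_mul]
    ring
  rw [h2, h3, mul_div_mul_right _ _ h1]

lemma ρ1_CC {w : EW} (hw : w ∈ CC) {k0 l0 : Fin 3} {m0 n0 : Fin 2}
    (h0 : w (k0, l0, m0, n0) ≠ 0) : ρ1 w = CN.Phi (fun k => w (k, l0, m0, n0)) := by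
  refine ρ1_of (by rintro rfl; exact h0 rfl)
    (d := fun p => w (k0, p) / w (k0, l0, m0, n0)) ?_
  rintro k ⟨l, m, n⟩
  have := hw.1 k l m n k0 l0 m0 n0
  field_simp
  linear_combination this

lemma ρ2_CC {w : EW} (hw : w ∈ CC) {k0 l0 : Fin 3} {m0 n0 : Fin 2}
    (h0 : w (k0, l0, m0, n0) ≠ 0) : ρ2 w = CN.Phi (fun l => w (k0, l, m0, n0)) := by
  refine ρ2_of (by rintro rfl; exact h0 rfl)
    (d := fun p => w (p.1, l0, p.2) / w (k0, l0, m0, n0)) ?_
  rintro k l ⟨m, n⟩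
  have := hw.2.1 k l m n k0 l0 m0 n0
  field_simp
  linear_combination this

lemma CC_b {w : EW} (hw : w ∈ CC) (l : Fin 3) (m n : Fin 2) :
    w (0, l, m, n) ^ 4 = w (1, l, m, n) ^ 4 + w (2, l, m, n) ^ 4 := hw.2.2.1 l m n

lemma CC_c {w : EW} (hw : w ∈ CC) (k : Fin 3) (m n : Fin 2) :
    w (k, 0, m, n) ^ 4 = w (k, 1, m, n) ^ 4 + w (k, 2, m, n) ^ 4 := hw.2.2.2 k m n

/-- pairs of points of the quartic -/
def SC : Set (CN.Mat × CN.Mat) :=
  {M | ∃ b ∈ Cone, ∃ c ∈ Cone, M = (CN.Phi b, CN.Phi c)}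

lemma exists_ne {w : EW} (hw : w ≠ 0) : ∃ k0 l0 m0 n0, w (k0, l0, m0, n0) ≠ 0 := by
  obtain ⟨⟨k0, l0, m0, n0⟩, h⟩ := Function.ne_iff.1 hw
  exact ⟨k0, l0, m0, n0, h⟩

lemma mem_SC {w : EW} (hw : w ∈ CC) (h0 : w ≠ 0) : (ρ1 w, ρ2 w) ∈ SC := by
  obtain ⟨k0, l0, m0, n0, h1⟩ := exists_ne h0
  have hb : (fun k => w (k, l0, m0, n0)) ∈ Cone := by
    constructor
    · intro h
      exact h1 (congrFun h k0)
    · exact CC_b hw l0 m0 n0
  have hc : (fun l => w (k0, l, m0, n0)) ∈ Cone := by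
    constructor
    · intro h
      exact h1 (congrFun h l0)
    · exact CC_c hw k0 m0 n0
  have e : (ρ1 w, ρ2 w) = (CN.Phi (fun k => w (k, l0, m0, n0)),
      CN.Phi (fun l => w (k0, l, m0, n0))) := by rw [ρ1_CC hw h1, ρ2_CC hw h1]
  exact ⟨_, hb, _, hc, e⟩

/-- square of the absolute value of the value of the linear form at the point -/
def hM (M : CN.Mat) : ℂ := M 0 0 - M 0 1 - M 1 0 + M 1 1

/-- vanishes iff one of the two points is the flex -/
def HH (M : CN.Mat × CN.Mat) : ℂ := hM M.1 * hM M.2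

lemma HH_cont : Continuous HH := by
  unfold HH hM
  fun_prop

lemma hM_Phi (b : Fin 3 → ℂ) : hM (CN.Phi b) = lam b * (starRingEnd ℂ) (lam b) / CN.nsq b := by
  unfold hM CN.Phi lam
  rw [map_sub]
  ring

/-- the mixed difference -/
def ell (w : EW) (m n : Fin 2) : ℂ :=
  w (0, 0, m, n) - w (1, 0, m, n) - w (0, 1, m, n) + w (1, 1, m, n)

lemma HH_zero {w : EW} (hw : w ∈ CC) (h0 : w ≠ 0) (hl : ∀ m n, ell w m n = 0) :
    HH (ρ1 w, ρ2 w) = 0 := by
  obtain ⟨k0, l0, m0, n0, h1⟩ := exists_ne h0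
  have h2 : ∀ k l, w (k, l, m0, n0) * w (k0, l0, m0, n0) = w (k0, l, m0, n0) * w (k, l0, m0, n0) :=
    fun k l => hw.1 k l m0 n0 k0 l0 m0 n0
  have h3 : lam (fun k => w (k, l0, m0, n0)) * lam (fun l => w (k0, l, m0, n0)) = 0 := by
    unfold lam
    have h4 := hl m0 n0
    unfold ell at h4
    linear_combination h4 * w (k0, l0, m0, n0) - h2 0 0 + h2 1 0 + h2 0 1 - h2 1 1
  unfold HH
  simp only
  rw [ρ1_CC hw h1, ρ2_CC hw h1, hM_Phi, hM_Phi]
  rcases mul_eq_zero.1 h3 with h | h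
  · rw [h]; simp
  · rw [h]; simp

/-! ### Points of the threefold -/

/-- combinations of the second coordinates -/
def PW (w : EW) (m : Fin 2) : Fin 4 → ℂ :=
  ![w (0, 0, 0, m), w (0, 0, 1, m) + w (0, 1, 0, m) + w (1, 0, 0, m),
    w (0, 1, 1, m) + w (1, 0, 1, m) + w (1, 1, 0, m), w (1, 1, 1, m)]

lemma XX_struct {x : PS Idx} (hx : x ∈ XX) {v : Idx → ℂ} (hv : IsCoord x v) :
    ∃ κ : ℂ, κ ≠ 0 ∧ ∃ b ∈ Cone, ∃ c ∈ Cone, ∃ s : Fin 2 → ℂ, s ≠ 0 ∧ v = κ • AE.Phi b c s := by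
  obtain ⟨b, hb, c, hc, s, hs, h⟩ := hx
  obtain ⟨a, ha, e⟩ := h.exists_smul hv
  exact ⟨a, ha, b, hb, c, hc, s, hs, e⟩

lemma Wv_phi (κ : ℂ) (b c : Fin 3 → ℂ) (s : Fin 2 → ℂ) (k l : Fin 3) (m n : Fin 2) :
    Wv (κ • AE.Phi b c s) (k, l, m, n) = κ * (lam b * lam c * b k * c l * s m * s n) := rfl

lemma Wv_mem {x : PS Idx} (hx : x ∈ XX) {v : Idx → ℂ} (hv : IsCoord x v) : Wv v ∈ CC := by
  obtain ⟨κ, hκ, b, hb, c, hc, s, hs, rfl⟩ := XX_struct hx hv
  refine ⟨?_, ?_, ?_, ?_⟩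
  · intro k l m n k' l' m' n'
    simp only [Wv_phi]
    ring
  · intro k l m n k' l' m' n'
    simp only [Wv_phi]
    ring
  · intro l m n
    simp only [Wv_phi]
    linear_combination (κ * (lam b * lam c * c l * s m * s n)) ^ 4 * hb.2
  · intro k m n
    simp only [Wv_phi]
    linear_combination (κ * (lam b * lam c * b k * s m * s n)) ^ 4 * hc.2

lemma rel3 {x : PS Idx} (hx : x ∈ XX) {v : Idx → ℂ} (hv : IsCoord x v) (i j : Fin 4)
    (m n : Fin 2) : v (Sum.inl (i, j)) * ell (Wv v) m n = PW (Wv v) m i * PW (Wv v) n j := by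
  obtain ⟨κ, hκ, b, hb, c, hc, s, hs, rfl⟩ := XX_struct hx hv
  have h1 : ∀ (i : Fin 4) (m : Fin 2), PW (Wv (κ • AE.Phi b c s)) m i =
      κ * lam b * lam c * s m * Psi b c s i := by
    intro i m
    fin_cases i <;> simp [PW, Wv_phi, Psi] <;> ring
  have h2 : (κ • AE.Phi b c s) (Sum.inl (i, j)) = κ * (Psi b c s i * Psi b c s j) := rfl
  rw [h1, h1, h2]
  unfold ell
  simp only [Wv_phi]
  unfold lam
  ring

/-- the special points -/
def Tpt (x : PS Idx) : Prop := Wv x.rep = 0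

lemma Wv_smul (t : ℂ) (v : Idx → ℂ) : Wv (t • v) = t • Wv v := rfl

lemma Tpt_iff {x : PS Idx} {v : Idx → ℂ} (hv : IsCoord x v) : Tpt x ↔ Wv v = 0 := by
  obtain ⟨a, ha, e⟩ := (isCoord_rep x).exists_smul hv
  unfold Tpt
  rw [e, Wv_smul]
  constructor
  · intro h; rw [h, smul_zero]
  · intro h
    exact (smul_eq_zero.1 h).resolve_left ha

/-! ### Local structure of discs -/

lemma limit_zero {φ : ℂ → ℂ} {a : ℂ} (hc : ContinuousAt φ a) (h : ∀ᶠ z in 𝓝[≠] a, φ z = 0) :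
    φ a = 0 := by
  have h1 : Tendsto φ (𝓝[≠] a) (𝓝 (φ a)) := hc.tendsto.mono_left nhdsWithin_le_nhds
  have h2 : Tendsto φ (𝓝[≠] a) (𝓝 0) := by
    refine tendsto_const_nhds.congr' ?_
    filter_upwards [h] with z hz
    exact hz.symm
  exact tendsto_nhds_unique h1 h2

/-- local data of a disc at a point -/
structure Loc (f : ℂ → PS Idx) (a : ℂ) (V : Set ℂ) (g : ℂ → EW) : Prop where
  op : IsOpen V
  mem : a ∈ V
  sub : V ⊆ ball 0 1
  diff : DifferentiableOn ℂ g V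
  cc : ∀ z ∈ V, g z ∈ CC ∧ g z ≠ 0
  out : ∀ z ∈ V, z ≠ a → ¬ Tpt (f z)
  rep : ∀ z ∈ V, ¬ Tpt (f z) → ∃ t : ℂ, t ≠ 0 ∧ g z = t • Wv (f z).rep
  tpt : Tpt (f a) → ∀ m n, ell (g a) m n = 0

lemma loc {f : ℂ → PS Idx} (hf : AE.HolomorphicOn (ball 0 1) f)
    (hX : ∀ z ∈ ball (0 : ℂ) 1, f z ∈ XX) {a : ℂ} (ha : a ∈ ball (0 : ℂ) 1) :
    (∀ᶠ z in 𝓝 a, Tpt (f z)) ∨ ∃ V g, Loc f a V g := by
  obtain ⟨V0, v, hV0, haV0, hv, hfv⟩ := hf a ha
  have hW : DifferentiableOn ℂ (fun z => Wv (v z)) V0 := by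
    rw [differentiableOn_pi]
    intro p
    exact (differentiableOn_pi.1 hv) (Sum.inr p)
  have hWan : AnalyticAt ℂ (fun z => Wv (v z)) a := hW.analyticAt (hV0.mem_nhds haV0)
  by_cases h0 : ∀ᶠ z in 𝓝 a, Wv (v z) = 0
  · left
    filter_upwards [h0, hV0.mem_nhds haV0] with z hz hzV
    exact (Tpt_iff (hfv z hzV)).2 hz
  · right
    obtain ⟨n, g, hg, hga, hgW⟩ := (hWan.exists_eventuallyEq_pow_smul_nonzero_iff).2 h0
    have hev : ∀ᶠ z in 𝓝 a, (Wv (v z) = (z - a) ^ n • g z) ∧ g z ≠ 0 ∧ AnalyticAt ℂ g z ∧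
        z ∈ V0 ∧ z ∈ ball (0 : ℂ) 1 := by
      filter_upwards [hgW, hg.continuousAt.eventually_ne hga, hg.eventually_analyticAt,
        hV0.mem_nhds haV0, isOpen_ball.mem_nhds ha] with z h1 h2 h3 h4 h5
      exact ⟨h1, h2, h3, h4, h5⟩
    obtain ⟨V, hV, hVo, haV⟩ := _root_.eventually_nhds_iff.1 hev
    have hpow : ∀ z, z ≠ a → (z - a) ^ n ≠ 0 := fun z hz => pow_ne_zero n (sub_ne_zero.2 hz)
    have hcc : ∀ z ∈ V, z ≠ a → g z ∈ CC := by
      intro z hz hza
      obtain ⟨h1, -, -, h4, h5⟩ := hV z hz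
      have h6 := Wv_mem (hX z h5) (hfv z h4)
      have h7 : g z = ((z - a) ^ n)⁻¹ • Wv (v z) := by
        rw [h1, smul_smul, inv_mul_cancel₀ (hpow z hza), one_smul]
      rw [h7]
      exact CC_smul h6 _
    have hne : ∀ᶠ z in 𝓝[≠] a, z ∈ V ∧ z ≠ a := by
      filter_upwards [mem_nhdsWithin_of_mem_nhds (hVo.mem_nhds haV), self_mem_nhdsWithin]
        with z h1 h2
      exact ⟨h1, h2⟩
    have hcca : g a ∈ CC := by
      have h1 : Tendsto g (𝓝[≠] a) (𝓝 (g a)) :=
        hg.continuousAt.tendsto.mono_left nhdsWithin_le_nhds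
      refine isClosed_CC.mem_of_tendsto h1 ?_
      filter_upwards [hne] with z hz
      exact hcc z hz.1 hz.2
    refine ⟨V, g, hVo, haV, fun z hz => (hV z hz).2.2.2.2, ?_, ?_, ?_, ?_, ?_⟩
    · intro z hz
      exact (hV z hz).2.2.1.differentiableAt.differentiableWithinAt
    · intro z hz
      refine ⟨?_, (hV z hz).2.1⟩
      by_cases hza : z = a
      · rw [hza]; exact hcca
      · exact hcc z hz hza
    · intro z hz hza hT
      obtain ⟨h1, h2, -, h4, -⟩ := hV z hz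
      rw [Tpt_iff (hfv z h4), h1] at hT
      rcases smul_eq_zero.1 hT with h | h
      · exact hpow z hza h
      · exact h2 h
    · intro z hz hT
      obtain ⟨h1, h2, -, h4, -⟩ := hV z hz
      rw [Tpt_iff (hfv z h4), h1] at hT
      have h5 : (z - a) ^ n ≠ 0 := fun h => hT (by rw [h, zero_smul])
      obtain ⟨t, ht, e⟩ := (isCoord_rep (f z)).exists_smul (hfv z h4)
      refine ⟨((z - a) ^ n)⁻¹ * t, mul_ne_zero (inv_ne_zero h5) ht, ?_⟩
      rw [mul_smul, ← Wv_smul, ← e, h1, smul_smul, inv_mul_cancel₀ h5, one_smul]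
    · intro hT m m'
      obtain ⟨h1, h2, -, h4, h5⟩ := hV a haV
      rw [Tpt_iff (hfv a h4)] at hT
      have hn : n ≠ 0 := by
        rintro rfl
        rw [hT, pow_zero, one_smul] at h1
        exact h2 h1.symm
      -- some first coordinate does not vanish
      obtain ⟨i, j, hij⟩ : ∃ i j, v a (Sum.inl (i, j)) ≠ 0 := by
        by_contra hcon
        push Not at hcon
        apply (hfv a h4).1
        funext p
        rcases p with ⟨i, j⟩ | p
        · exact hcon i j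
        · exact congrFun hT p
      have hvc : ∀ p, ContinuousAt (fun z => v z p) a := fun p =>
        ((differentiableOn_pi.1 hv) p).continuousOn.continuousAt (hV0.mem_nhds haV0)
      have hgc : ∀ p, ContinuousAt (fun z => g z p) a := fun p =>
        (continuous_apply p).continuousAt.comp hg.continuousAt
      have hφ : ContinuousAt (fun z => v z (Sum.inl (i, j)) * ell (g z) m m' -
          (z - a) ^ n * (PW (g z) m i * PW (g z) m' j)) a := by
        have e1 : ContinuousAt (fun z => ell (g z) m m') a := by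
          unfold ell
          exact (((hgc _).sub (hgc _)).sub (hgc _)).add (hgc _)
        have e2 : ∀ (i : Fin 4) (m : Fin 2), ContinuousAt (fun z => PW (g z) m i) a := by
          intro i m
          unfold PW
          fin_cases i
          · exact hgc _
          · exact ((hgc _).add (hgc _)).add (hgc _)
          · exact ((hgc _).add (hgc _)).add (hgc _)
          · exact hgc _
        have e3 : ContinuousAt (fun z : ℂ => (z - a) ^ n) a := by fun_prop
        exact ((hvc _).mul e1).sub (e3.mul ((e2 i m).mul (e2 j m')))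
      have h6 := limit_zero hφ (by
        filter_upwards [hne] with z hz
        obtain ⟨h7, h8, -, h9, h10⟩ := hV z hz.1
        have h11 := rel3 (hX z h10) (hfv z h9) i j m m'
        have h12 : ell (Wv (v z)) m m' = (z - a) ^ n * ell (g z) m m' := by
          rw [h7]
          unfold ell
          simp only [Pi.smul_apply, smul_eq_mul]
          ring
        have h13 : ∀ (i : Fin 4) (m : Fin 2), PW (Wv (v z)) m i = (z - a) ^ n * PW (g z) m i := by
          intro i m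
          rw [h7]
          fin_cases i <;> simp [PW] <;> ring
        rw [h12, h13, h13] at h11
        have h14 := hpow z hz.2
        have h15 : (z - a) ^ n * (v z (Sum.inl (i, j)) * ell (g z) m m' -
            (z - a) ^ n * (PW (g z) m i * PW (g z) m' j)) = 0 := by linear_combination h11
        exact (mul_eq_zero.1 h15).resolve_left h14)
      simp only [sub_self, zero_pow hn, zero_mul, sub_zero] at h6
      exact (mul_eq_zero.1 h6).resolve_left hij

theorem disc {f : ℂ → PS Idx} (hf : AE.HolomorphicOn (ball 0 1) f)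
    (hX : ∀ z ∈ ball (0 : ℂ) 1, f z ∈ XX) :
    (∀ z ∈ ball (0 : ℂ) 1, Tpt (f z)) ∨ ∃ Ψ : ℂ → CN.Mat × CN.Mat, CN.HolP2 (ball 0 1) Ψ ∧
      (∀ z ∈ ball (0 : ℂ) 1, Ψ z ∈ SC) ∧
      (∀ z ∈ ball (0 : ℂ) 1, ¬ Tpt (f z) → Ψ z = (ρ1 (Wv (f z).rep), ρ2 (Wv (f z).rep))) ∧
      (∀ z ∈ ball (0 : ℂ) 1, Tpt (f z) → HH (Ψ z) = 0) := by
  have hPo : IsOpen {a | ∀ᶠ z in 𝓝 a, Tpt (f z)} := isOpen_setOfPred_eventually_nhds
  have hdis : ∀ a V g, Loc f a V g → ¬ ∀ᶠ z in 𝓝 a, Tpt (f z) := by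
    intro a V g hL hev
    have h1 : ∀ᶠ z in 𝓝[≠] a, False := by
      filter_upwards [mem_nhdsWithin_of_mem_nhds (hL.op.mem_nhds hL.mem), self_mem_nhdsWithin,
        mem_nhdsWithin_of_mem_nhds hev] with z h1 h2 h3
      exact hL.out z h1 h2 h3
    exact h1.exists.choose_spec
  have hQo : IsOpen {a | ∃ V g, Loc f a V g} := by
    rw [isOpen_iff_mem_nhds]
    rintro a ⟨V, g, hL⟩
    filter_upwards [hL.op.mem_nhds hL.mem] with w hw
    by_cases hwa : w = a
    · rw [hwa]; exact ⟨V, g, hL⟩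
    · rcases loc hf hX (hL.sub hw) with h | h
      · exfalso
        exact hL.out w hw hwa h.self_of_nhds
      · exact h
  have hcov : ball (0 : ℂ) 1 ⊆ {a | ∀ᶠ z in 𝓝 a, Tpt (f z)} ∪ {a | ∃ V g, Loc f a V g} :=
    fun a ha => loc hf hX ha
  by_cases hP : (ball (0 : ℂ) 1 ∩ {a | ∀ᶠ z in 𝓝 a, Tpt (f z)}).Nonempty
  · by_cases hQ : (ball (0 : ℂ) 1 ∩ {a | ∃ V g, Loc f a V g}).Nonempty
    · exfalso
      obtain ⟨a, -, h1, V, g, h2⟩ := (convex_ball (0 : ℂ) 1).isPreconnected _ _ hPo hQo hcov hP hQ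
      exact hdis a V g h2 h1
    · left
      intro z hz
      rcases hcov hz with h | h
      · exact (show ∀ᶠ w in 𝓝 z, Tpt (f w) from h).self_of_nhds
      · exact absurd ⟨z, hz, h⟩ hQ
  · right
    have hall : ∀ a, ∃ V g, a ∈ ball (0 : ℂ) 1 → Loc f a V g := by
      intro a
      by_cases ha : a ∈ ball (0 : ℂ) 1
      · rcases hcov ha with h | ⟨V, g, h⟩
        · exact absurd ⟨a, ha, h⟩ hP
        · exact ⟨V, g, fun _ => h⟩
      · exact ⟨∅, 0, fun h => absurd h ha⟩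
    choose V g hL using hall
    have hrep : ∀ a ∈ ball (0 : ℂ) 1, ∀ w ∈ V a, ¬ Tpt (f w) →
        (ρ1 (g a w), ρ2 (g a w)) = (ρ1 (Wv (f w).rep), ρ2 (Wv (f w).rep)) := by
      intro a ha w hw hT
      obtain ⟨t, ht, e⟩ := (hL a ha).rep w hw hT
      rw [e, ρ1_smul ht, ρ2_smul ht]
    have hloc : ∀ a ∈ ball (0 : ℂ) 1, ∀ w ∈ V a,
        (ρ1 (g w w), ρ2 (g w w)) = (ρ1 (g a w), ρ2 (g a w)) := by
      intro a ha w hw
      by_cases hwa : w = a
      · rw [hwa]
      · have hT := (hL a ha).out w hw hwa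
        have hwB := (hL a ha).sub hw
        rw [hrep a ha w hw hT, hrep w hwB w (hL w hwB).mem hT]
    refine ⟨fun z => (ρ1 (g z z), ρ2 (g z z)), ⟨?_, ?_⟩, ?_, ?_, ?_⟩
    · intro z hz
      have hLz := hL z hz
      obtain ⟨k0, l0, m0, n0, h0⟩ := exists_ne (hLz.cc z hLz.mem).2
      have hd : ∀ p, DifferentiableOn ℂ (fun w => g z w p) (V z) := fun p =>
        (differentiableOn_pi.1 hLz.diff) p
      refine ⟨V z ∩ (fun w => g z w (k0, l0, m0, n0)) ⁻¹' {0}ᶜ,
        fun w k => g z w (k, l0, m0, n0),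
        (hd _).continuousOn.isOpen_inter_preimage hLz.op isOpen_compl_singleton,
        ⟨hLz.mem, h0⟩, ?_, ?_⟩
      · rw [differentiableOn_pi]
        intro k
        exact (hd _).mono inter_subset_left
      · rintro w ⟨hw, hw0⟩
        have hw0' : g z w (k0, l0, m0, n0) ≠ 0 := hw0
        refine ⟨fun h => hw0' (congrFun h k0), ?_⟩
        have h1 := congrArg Prod.fst (hloc z hz w hw)
        simp only at h1
        simp only
        rw [h1]
        exact ρ1_CC (hLz.cc w hw).1 hw0'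
    · intro z hz
      have hLz := hL z hz
      obtain ⟨k0, l0, m0, n0, h0⟩ := exists_ne (hLz.cc z hLz.mem).2
      have hd : ∀ p, DifferentiableOn ℂ (fun w => g z w p) (V z) := fun p =>
        (differentiableOn_pi.1 hLz.diff) p
      refine ⟨V z ∩ (fun w => g z w (k0, l0, m0, n0)) ⁻¹' {0}ᶜ,
        fun w l => g z w (k0, l, m0, n0),
        (hd _).continuousOn.isOpen_inter_preimage hLz.op isOpen_compl_singleton,
        ⟨hLz.mem, h0⟩, ?_, ?_⟩
      · rw [differentiableOn_pi]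
        intro k
        exact (hd _).mono inter_subset_left
      · rintro w ⟨hw, hw0⟩
        have hw0' : g z w (k0, l0, m0, n0) ≠ 0 := hw0
        refine ⟨fun h => hw0' (congrFun h l0), ?_⟩
        have h1 := congrArg Prod.snd (hloc z hz w hw)
        simp only at h1
        simp only
        rw [h1]
        exact ρ2_CC (hLz.cc w hw).1 hw0'
    · intro z hz
      have hLz := hL z hz
      exact mem_SC (hLz.cc z hLz.mem).1 (hLz.cc z hLz.mem).2
    · intro z hz hT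
      exact hrep z hz z (hL z hz).mem hT
    · intro z hz hT
      have hLz := hL z hz
      exact HH_zero (hLz.cc z hLz.mem).1 (hLz.cc z hLz.mem).2 (hLz.tpt hT)

/-! ### Hyperbolicity of the product of the quartics -/

lemma Cone_smul {b : Fin 3 → ℂ} (hb : b ∈ Cone) {t : ℂ} (ht : t ≠ 0) : t • b ∈ Cone := by
  refine ⟨smul_ne_zero ht hb.1, ?_⟩
  simp only [Pi.smul_apply, smul_eq_mul]
  linear_combination t ^ 4 * hb.2

lemma SC_compact : IsCompact SC := by
  set T : Set ((Fin 3 → ℂ) × (Fin 3 → ℂ)) := {p | ‖p.1‖ = 1 ∧ ‖p.2‖ = 1 ∧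
    p.1 0 ^ 4 = p.1 1 ^ 4 + p.1 2 ^ 4 ∧ p.2 0 ^ 4 = p.2 1 ^ 4 + p.2 2 ^ 4} with hT
  have hTc : IsCompact T := by
    have hsub : T ⊆ closedBall (0 : Fin 3 → ℂ) 1 ×ˢ closedBall (0 : Fin 3 → ℂ) 1 := by
      rintro p ⟨h1, h2, -, -⟩
      exact ⟨mem_closedBall_zero_iff.2 h1.le, mem_closedBall_zero_iff.2 h2.le⟩
    refine ((isCompact_closedBall _ _).prod (isCompact_closedBall _ _)).of_isClosed_subset ?_ hsub
    refine IsClosed.inter (isClosed_eq continuous_fst.norm continuous_const) ?_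
    refine IsClosed.inter (isClosed_eq continuous_snd.norm continuous_const) ?_
    refine IsClosed.inter (isClosed_eq (by fun_prop) (by fun_prop)) ?_
    exact isClosed_eq (by fun_prop) (by fun_prop)
  have himg : SC = (fun p : (Fin 3 → ℂ) × (Fin 3 → ℂ) => (CN.Phi p.1, CN.Phi p.2)) '' T := by
    ext M
    constructor
    · rintro ⟨b, hb, c, hc, rfl⟩
      have hnb : (‖b‖ : ℂ) ≠ 0 := by
        rw [Ne, Complex.ofReal_eq_zero]; exact norm_ne_zero_iff.2 hb.1
      have hnc : (‖c‖ : ℂ) ≠ 0 := by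
        rw [Ne, Complex.ofReal_eq_zero]; exact norm_ne_zero_iff.2 hc.1
      have h1 := Cone_smul hb (inv_ne_zero hnb)
      have h2 := Cone_smul hc (inv_ne_zero hnc)
      refine ⟨((‖b‖ : ℂ)⁻¹ • b, (‖c‖ : ℂ)⁻¹ • c), ⟨?_, ?_, h1.2, h2.2⟩, ?_⟩
      · simp only [norm_smul, norm_inv, Complex.norm_real, norm_norm]
        exact inv_mul_cancel₀ (norm_ne_zero_iff.2 hb.1)
      · simp only [norm_smul, norm_inv, Complex.norm_real, norm_norm]
        exact inv_mul_cancel₀ (norm_ne_zero_iff.2 hc.1)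
      · simp only [CN.Phi_smul (inv_ne_zero hnb), CN.Phi_smul (inv_ne_zero hnc)]
    · rintro ⟨⟨b, c⟩, ⟨h1, h2, h3, h4⟩, rfl⟩
      refine ⟨b, ⟨?_, h3⟩, c, ⟨?_, h4⟩, rfl⟩
      · rintro rfl
        simp at h1
      · rintro rfl
        simp at h2
  rw [himg]
  refine hTc.image_of_continuousOn ?_
  rintro ⟨b, x⟩ ⟨h1, h2, -, -⟩
  have hb : b ≠ 0 := by
    rintro rfl
    simp at h1
  have hx : x ≠ 0 := by
    rintro rfl
    simp at h2
  apply ContinuousAt.continuousWithinAt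
  have e1 : ContinuousAt (fun p : (Fin 3 → ℂ) × (Fin 3 → ℂ) => CN.Phi p.1) (b, x) :=
    ContinuousAt.comp (g := CN.Phi) (f := Prod.fst) (CN.continuousAt_Phi hb)
      continuous_fst.continuousAt
  have e2 : ContinuousAt (fun p : (Fin 3 → ℂ) × (Fin 3 → ℂ) => CN.Phi p.2) (b, x) :=
    ContinuousAt.comp (g := CN.Phi) (f := Prod.snd) (CN.continuousAt_Phi hx)
      continuous_snd.continuousAt
  exact e1.prodMk e2

lemma SC_PM : SC ⊆ CN.PM ×ˢ CN.PM := by
  rintro M ⟨b, hb, c, hc, rfl⟩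
  exact ⟨⟨b, hb.1, rfl⟩, ⟨c, hc.1, rfl⟩⟩

lemma const_quartic {φ : ℂ → CN.Mat} (h : CN.HolP univ φ)
    (hφ : ∀ z, ∃ b ∈ Cone, φ z = CN.Phi b) : ∀ z, φ z = φ 0 := by
  obtain ⟨F, hF, hF0, hFφ⟩ := CN.exists_lift h
  obtain ⟨ζ, hζ⟩ := IsAlgClosed.exists_pow_nat_eq (-1 : ℂ) (n := 4) (by norm_num)
  have hζ0 : ζ ≠ 0 := by
    rintro rfl
    norm_num at hζ
  set e : Fin 3 → ℂ := ![ζ, 1, 1] with he
  have he0 : ∀ j, e j ≠ 0 := by
    intro j
    fin_cases j
    · exact hζ0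
    · exact one_ne_zero
    · exact one_ne_zero
  have hcone : ∀ z, F z 0 ^ 4 = F z 1 ^ 4 + F z 2 ^ 4 := by
    intro z
    by_cases hz : F z = 0
    · rw [hz]; simp
    · obtain ⟨b, hb, e⟩ := hφ z
      rw [hFφ z hz] at e
      obtain ⟨c, hc, hcb⟩ := CN.Phi_inj hb.1 hz e.symm
      rw [hcb]
      simp only [Pi.smul_apply, smul_eq_mul]
      linear_combination c ^ 4 * hb.2
  have hFj : ∀ j, Differentiable ℂ (fun z => F z j) := fun j => (differentiable_pi.1 hF) j
  have h1 := CN.fermat4 (fun z j => e j * F z j) (by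
    rw [differentiable_pi]
    intro j
    exact (hFj j).const_mul (e j)) (by
    intro z
    have := hcone z
    have e0 : e 0 = ζ := rfl
    have e1 : e 1 = 1 := rfl
    have e2 : e 2 = 1 := rfl
    rw [e0, e1, e2]
    linear_combination F z 0 ^ 4 * hζ - this)
  refine CN.const_of_lift h hF hF0 hFφ fun j k z => ?_
  have h2 := h1 j k z
  simp only [deriv_const_mul_field] at h2
  have h3 : (e j * e k) * (F z j * deriv (fun z => F z k) z -
      F z k * deriv (fun z => F z j) z) = 0 := by linear_combination h2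
  exact (mul_eq_zero.1 h3).resolve_left (mul_ne_zero (he0 j) (he0 k))

lemma SC_const : ∀ Ψ, CN.HolP2 univ Ψ → (∀ z, Ψ z ∈ SC) → ∀ z, Ψ z = Ψ 0 := by
  intro Ψ hΨ hS z
  have h1 := const_quartic hΨ.1 (fun z => by
    obtain ⟨b, hb, c, hc, e⟩ := hS z
    exact ⟨b, hb, by rw [e]⟩) z
  have h2 := const_quartic hΨ.2 (fun z => by
    obtain ⟨b, hb, c, hc, e⟩ := hS z
    exact ⟨c, hc, by rw [e]⟩) z
  exact Prod.ext h1 h2

/-! ### The distance -/

/-- a bump -/
noncomputable def g0 (r0 : ℝ) (y0 M : CN.Mat × CN.Mat) : ℝ := max (r0 - dist M y0) 0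

lemma g0_lip (r0 : ℝ) (y0 M M' : CN.Mat × CN.Mat) :
    dist (g0 r0 y0 M) (g0 r0 y0 M') ≤ dist M M' := by
  rw [Real.dist_eq]
  unfold g0
  refine (abs_max_sub_max_le_abs _ _ _).trans ?_
  have : r0 - dist M y0 - (r0 - dist M' y0) = -(dist M y0 - dist M' y0) := by ring
  rw [this, abs_neg]
  exact abs_dist_sub_le _ _ _

open Classical in
/-- the function which separates two points -/
noncomputable def uu (r0 : ℝ) (y0 : CN.Mat × CN.Mat) (x : PS Idx) : ℝ :=
  if Tpt x then 0 else g0 r0 y0 (ρ1 (Wv x.rep), ρ2 (Wv x.rep))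

/-- a point of the cone -/
def bs : Fin 3 → ℂ := ![1, 0, 1]

lemma bs_mem : bs ∈ Cone := by
  constructor
  · intro h
    have := congrFun h 0
    simp [bs] at this
  · simp [bs]

/-- the flex -/
def bf : Fin 3 → ℂ := ![1, 1, 0]

lemma bf_mem : bf ∈ Cone := by
  constructor
  · intro h
    have := congrFun h 0
    simp [bf] at this
  · simp [bf]

/-- a point of the line -/
def ss : Fin 2 → ℂ := ![1, 0]

lemma ss_ne : ss ≠ 0 := by
  intro h
  have := congrFun h 0
  simp [ss] at this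

theorem XX_kobayashi : ∃ p ∈ XX, ∃ q ∈ XX, 0 < kobayashi XX p q := by
  obtain ⟨C, hC, hb⟩ := CN.brody SC_compact SC_PM SC_const
  obtain ⟨L, hL, hlip⟩ := CN.disc_lip SC_compact hC hb
  set y0 : CN.Mat × CN.Mat := (CN.Phi bs, CN.Phi bs) with hy0
  have hlam : lam bs = 1 := by simp [lam, bs]
  have hHy : HH y0 ≠ 0 := by
    rw [hy0]
    unfold HH
    simp only
    rw [hM_Phi, hlam, map_one, mul_one]
    exact mul_ne_zero (div_ne_zero one_ne_zero (CN.nsq_ne bs_mem.1))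
      (div_ne_zero one_ne_zero (CN.nsq_ne bs_mem.1))
  obtain ⟨r0, hr0, hr⟩ := Metric.eventually_nhds_iff.1
    (HH_cont.continuousAt.eventually_ne hHy)
  have hg00 : ∀ M, HH M = 0 → g0 r0 y0 M = 0 := by
    intro M hM
    unfold g0
    apply max_eq_right
    by_contra hcon
    push Not at hcon
    exact hr (by linarith) hM
  -- the Lipschitz property
  have hL2 : ∀ f : ℂ → PS Idx, AE.HolomorphicOn (ball 0 1) f →
      (∀ z ∈ ball (0 : ℂ) 1, f z ∈ XX) → ∀ s ∈ ball (0 : ℂ) 1, ∀ t ∈ ball (0 : ℂ) 1,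
      dist (uu r0 y0 (f t)) (uu r0 y0 (f s)) ≤ L * AE.poincareDist s t := by
    intro f hf hX s hs t ht
    have hnn : 0 ≤ AE.poincareDist s t :=
      (Pool.Agent.Helper206.phd_nonneg s t).trans (Pool.Agent.Helper206.phd_le_cost hs ht)
    rcases disc hf hX with hT | ⟨Ψ, h1, h2, h3, h4⟩
    · unfold uu
      rw [if_pos (hT t ht), if_pos (hT s hs), dist_self]
      exact mul_nonneg hL.le hnn
    · have hu : ∀ z ∈ ball (0 : ℂ) 1, uu r0 y0 (f z) = g0 r0 y0 (Ψ z) := by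
        intro z hz
        unfold uu
        split_ifs with hT
        · exact (hg00 _ (h4 z hz hT)).symm
        · rw [h3 z hz hT]
      rw [hu t ht, hu s hs]
      exact (g0_lip _ _ _ _).trans (hlip Ψ h1 h2 s hs t ht)
  have hp0 := Phi_ne_zero bs_mem bs_mem ss_ne
  have hq0 := Phi_ne_zero bf_mem bf_mem ss_ne
  refine ⟨Projectivization.mk ℂ _ hp0, ⟨bs, bs_mem, bs, bs_mem, ss, ss_ne, isCoord_mk hp0⟩,
    Projectivization.mk ℂ _ hq0, ⟨bf, bf_mem, bf, bf_mem, ss, ss_ne, isCoord_mk hq0⟩, ?_⟩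
  set p := Projectivization.mk ℂ _ hp0 with hp
  set q := Projectivization.mk ℂ _ hq0 with hq
  have huq : uu r0 y0 q = 0 := by
    unfold uu
    rw [if_pos]
    rw [Tpt_iff (isCoord_mk hq0)]
    funext ⟨k, l, m, n⟩
    have hl : lam bf = 0 := by simp [lam, bf]
    simp [Wv, AE.Phi, hl]
  have hup : uu r0 y0 p = r0 := by
    have hne : Wv (AE.Phi bs bs ss) ≠ 0 := by
      intro h
      have h1 : lam bs * lam bs * bs 0 * bs 0 * ss 0 * ss 0 = 0 := congrFun h (0, 0, 0, 0)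
      rw [hlam] at h1
      simp [bs, ss] at h1
    have hT : ¬ Tpt p := by
      rw [Tpt_iff (isCoord_mk hp0)]
      exact hne
    unfold uu
    rw [if_neg hT]
    obtain ⟨a, ha, e⟩ := (isCoord_mk hp0).exists_smul (isCoord_rep p)
    rw [e, Wv_smul, ρ1_smul ha, ρ2_smul ha]
    have e1 : ρ1 (Wv (AE.Phi bs bs ss)) = CN.Phi bs :=
      ρ1_of hne (d := fun p => lam bs * lam bs * bs p.1 * ss p.2.1 * ss p.2.2) (by
        rintro k ⟨l, m, n⟩
        simp only [Wv, AE.Phi, Sum.elim_inr]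
        ring)
    have e2 : ρ2 (Wv (AE.Phi bs bs ss)) = CN.Phi bs :=
      ρ2_of hne (d := fun p => lam bs * lam bs * bs p.1 * ss p.2.1 * ss p.2.2) (by
        rintro k l ⟨m, n⟩
        simp only [Wv, AE.Phi, Sum.elim_inr]
        ring)
    rw [e1, e2, ← hy0]
    unfold g0
    rw [dist_self, sub_zero, max_eq_left hr0.le]
  refine lt_of_lt_of_le (ENNReal.ofReal_pos.2 (div_pos hr0 hL)) ?_
  unfold AE.kobayashi
  refine le_iInf₂ fun c hc => ?_
  apply ENNReal.ofReal_le_ofReal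
  obtain ⟨k, r, f, s, t, h0, hl, hi, rfl⟩ := hc
  have h1 := Pool.Agent.Helper206.chain_bound k (fun j => uu r0 y0 (r j))
    (fun i => L * AE.poincareDist (s i) (t i))
    (by
      intro i
      obtain ⟨-, -, hs, ht, -, -⟩ := hi i
      exact mul_nonneg hL.le ((Pool.Agent.Helper206.phd_nonneg (s i) (t i)).trans
        (Pool.Agent.Helper206.phd_le_cost hs ht)))
    (by
      intro i
      obtain ⟨hf, hfS, hs, ht, es, et⟩ := hi i
      have := hL2 (f i) hf hfS _ hs _ ht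
      rwa [es, et] at this) (Fin.last k)
  simp only [h0, hl] at h1
  rw [← Finset.mul_sum, huq, hup, Real.dist_eq, zero_sub, abs_neg, abs_of_pos hr0] at h1
  rw [div_le_iff₀ hL]
  linarith

end Pool.Agent.TH959.J1082
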