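import Pool.Agent.TH168.Mil.Defs

set_option autoImplicit false

/-! Calculus of two-jets (job 1790). -/

namespace Pool.Agent.TH168.Mil

open Set Filter Topology MeasureTheory
open scoped ContDiff

theorem j1790_left {θ y : ℝ} {P : ℝ → ℝ → Prop} (h : ∀ᶠ p : ℝ × ℝ in 𝓝 (θ, y), P p.1 p.2) :
    ∀ᶠ a in 𝓝 θ, P a y := by
  have h1 : Tendsto (fun a : ℝ => (a, y)) (𝓝 θ) (𝓝 (θ, y)) :=
    (Continuous.prodMk continuous_id continuous_const).tendsto' _ _ rfl
  exact h1.eventually h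

theorem j1790_right {θ y : ℝ} {P : ℝ → ℝ → Prop} (h : ∀ᶠ p : ℝ × ℝ in 𝓝 (θ, y), P p.1 p.2) :
    ∀ᶠ b in 𝓝 y, P θ b := by
  have h1 : Tendsto (fun b : ℝ => (θ, b)) (𝓝 y) (𝓝 (θ, y)) :=
    (Continuous.prodMk continuous_const continuous_id).tendsto' _ _ rfl
  exact h1.eventually h

theorem HasJet.congr {f g : ℝ → ℝ → ℝ} {θ y v t s tt ts ss : ℝ}
    (h : HasJet f θ y v t s tt ts ss)
    (hfg : ∀ᶠ p : ℝ × ℝ in 𝓝 (θ, y), f p.1 p.2 = g p.1 p.2) :
    HasJet g θ y v t s tt ts ss := by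
  obtain ⟨ft, fs, h1, h2, h3, h4, h5, h6, h7⟩ := h
  refine ⟨ft, fs, ?_, ?_, h3, h4, h5, h6, h7⟩
  · have h8 := eventually_eventually_nhds.2 hfg
    filter_upwards [h1, h8] with p hp hq
    obtain ⟨p1, p2⟩ := p
    refine ⟨hp.1.congr_of_eventuallyEq ?_, hp.2.congr_of_eventuallyEq ?_⟩
    · filter_upwards [j1790_left (P := fun a b => f a b = g a b) hq] with a ha using ha.symm
    · filter_upwards [j1790_right (P := fun a b => f a b = g a b) hq] with a ha using ha.symm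
  · rw [← h2]; exact hfg.self_of_nhds.symm

theorem HasJet.unique {f : ℝ → ℝ → ℝ} {θ y v t s tt ts ss v' t' s' tt' ts' ss' : ℝ}
    (h : HasJet f θ y v t s tt ts ss) (h' : HasJet f θ y v' t' s' tt' ts' ss') :
    v = v' ∧ t = t' ∧ s = s' ∧ tt = tt' ∧ ts = ts' ∧ ss = ss' := by
  obtain ⟨ft, fs, h1, h2, h3, h4, h5, h6, h7⟩ := h
  obtain ⟨ft', fs', h1', h2', h3', h4', h5', h6', h7'⟩ := h'
  have e : ∀ᶠ p : ℝ × ℝ in 𝓝 (θ, y), ft p.1 p.2 = ft' p.1 p.2 ∧ fs p.1 p.2 = fs' p.1 p.2 := by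
    filter_upwards [h1, h1'] with p hp hp'
    exact ⟨hp.1.unique hp'.1, hp.2.unique hp'.2⟩
  have e0 := e.self_of_nhds
  refine ⟨h2.symm.trans h2', h3.symm.trans (e0.1.trans h3'), h4.symm.trans (e0.2.trans h4'),
    ?_, ?_, ?_⟩
  · refine h5.unique (h5'.congr_of_eventuallyEq ?_)
    filter_upwards [j1790_left (P := fun a b => ft a b = ft' a b ∧ fs a b = fs' a b) e]
      with a ha using ha.1
  · refine h6.unique (h6'.congr_of_eventuallyEq ?_)
    filter_upwards [j1790_left (P := fun a b => ft a b = ft' a b ∧ fs a b = fs' a b) e]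
      with a ha using ha.2
  · refine h7.unique (h7'.congr_of_eventuallyEq ?_)
    filter_upwards [j1790_right (P := fun a b => ft a b = ft' a b ∧ fs a b = fs' a b) e]
      with a ha using ha.2

theorem HasJet.add {f g : ℝ → ℝ → ℝ} {θ y v t s tt ts ss v' t' s' tt' ts' ss' : ℝ}
    (h : HasJet f θ y v t s tt ts ss) (h' : HasJet g θ y v' t' s' tt' ts' ss') :
    HasJet (fun a b => f a b + g a b) θ y (v + v') (t + t') (s + s') (tt + tt') (ts + ts')
      (ss + ss') := by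
  obtain ⟨ft, fs, h1, h2, h3, h4, h5, h6, h7⟩ := h
  obtain ⟨ft', fs', h1', h2', h3', h4', h5', h6', h7'⟩ := h'
  refine ⟨fun a b => ft a b + ft' a b, fun a b => fs a b + fs' a b, ?_, ?_, ?_, ?_, ?_, ?_, ?_⟩
  · filter_upwards [h1, h1'] with p hp hp'
    exact ⟨hp.1.fun_add hp'.1, hp.2.fun_add hp'.2⟩
  · exact congrArg₂ (· + ·) h2 h2'
  · exact congrArg₂ (· + ·) h3 h3'
  · exact congrArg₂ (· + ·) h4 h4'
  · exact h5.fun_add h5'
  · exact h6.fun_add h6'
  · exact h7.fun_add h7'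

theorem HasJet.const_mul {f : ℝ → ℝ → ℝ} {θ y v t s tt ts ss : ℝ} (c : ℝ)
    (h : HasJet f θ y v t s tt ts ss) :
    HasJet (fun a b => c * f a b) θ y (c * v) (c * t) (c * s) (c * tt) (c * ts) (c * ss) := by
  obtain ⟨ft, fs, h1, h2, h3, h4, h5, h6, h7⟩ := h
  refine ⟨fun a b => c * ft a b, fun a b => c * fs a b, ?_, ?_, ?_, ?_, ?_, ?_, ?_⟩
  · filter_upwards [h1] with p hp
    exact ⟨hp.1.const_mul c, hp.2.const_mul c⟩
  · exact congrArg (c * ·) h2
  · exact congrArg (c * ·) h3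
  · exact congrArg (c * ·) h4
  · exact h5.const_mul c
  · exact h6.const_mul c
  · exact h7.const_mul c

theorem HasJet.mul {f g : ℝ → ℝ → ℝ} {θ y v t s tt ts ss v' t' s' tt' ts' ss' : ℝ}
    (h : HasJet f θ y v t s tt ts ss) (h' : HasJet g θ y v' t' s' tt' ts' ss') :
    HasJet (fun a b => f a b * g a b) θ y (v * v') (t * v' + v * t') (s * v' + v * s')
      (tt * v' + 2 * (t * t') + v * tt') (ts * v' + s * t' + t * s' + v * ts')
      (ss * v' + 2 * (s * s') + v * ss') := by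
  obtain ⟨ft, fs, h1, h2, h3, h4, h5, h6, h7⟩ := h
  obtain ⟨ft', fs', h1', h2', h3', h4', h5', h6', h7'⟩ := h'
  have a0 := h1.self_of_nhds
  have a1 := h1'.self_of_nhds
  refine ⟨fun a b => ft a b * g a b + f a b * ft' a b,
    fun a b => fs a b * g a b + f a b * fs' a b, ?_, ?_, ?_, ?_, ?_, ?_, ?_⟩
  · filter_upwards [h1, h1'] with p hp hp'
    exact ⟨hp.1.fun_mul hp'.1, hp.2.fun_mul hp'.2⟩
  · exact congrArg₂ (· * ·) h2 h2'
  · simp only [h2, h3, h2', h3']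
  · simp only [h2, h4, h2', h4']
  · have h := (h5.fun_mul a1.1).fun_add (a0.1.fun_mul h5')
    simp only [h2, h3, h2', h3'] at h
    refine h.congr_deriv ?_
    ring
  · have h := (h6.fun_mul a1.1).fun_add (a0.1.fun_mul h6')
    simp only [h2, h3, h2', h3', h4, h4'] at h
    refine h.congr_deriv ?_
    ring
  · have h := (h7.fun_mul a1.2).fun_add (a0.2.fun_mul h7')
    simp only [h2, h2', h4, h4'] at h
    refine h.congr_deriv ?_
    ring

theorem j1790_d {a : ℝ → ℝ} (ha : ContDiff ℝ ∞ a) (x : ℝ) :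
    HasDerivAt a (deriv a x) x ∧ HasDerivAt (deriv a) (deriv (deriv a) x) x := by
  have h1 : Differentiable ℝ a := ha.differentiable (by simp)
  have h2 : ContDiff ℝ ∞ (deriv a) := (contDiff_infty_iff_deriv.1 ha).2
  have h3 : Differentiable ℝ (deriv a) := h2.differentiable (by simp)
  exact ⟨(h1 x).hasDerivAt, (h3 x).hasDerivAt⟩

theorem hasJet_plus {a : ℝ → ℝ} (ha : ContDiff ℝ ∞ a) (θ y : ℝ) :
    HasJet (fun θ y => a (θ + y)) θ y (a (θ + y)) (deriv a (θ + y)) (deriv a (θ + y))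
      (deriv (deriv a) (θ + y)) (deriv (deriv a) (θ + y)) (deriv (deriv a) (θ + y)) := by
  refine ⟨fun a1 b1 => deriv a (a1 + b1), fun a1 b1 => deriv a (a1 + b1),
    Eventually.of_forall fun p => ⟨?_, ?_⟩, rfl, rfl, rfl, ?_, ?_, ?_⟩
  · exact (j1790_d ha (p.1 + p.2)).1.comp_add_const p.1 p.2
  · exact (j1790_d ha (p.1 + p.2)).1.comp_const_add p.1 p.2
  · exact (j1790_d ha (θ + y)).2.comp_add_const θ y
  · exact (j1790_d ha (θ + y)).2.comp_add_const θ y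
  · exact (j1790_d ha (θ + y)).2.comp_const_add θ y

theorem hasJet_minus {b : ℝ → ℝ} (hb : ContDiff ℝ ∞ b) (θ y : ℝ) :
    HasJet (fun θ y => b (θ - y)) θ y (b (θ - y)) (deriv b (θ - y)) (-deriv b (θ - y))
      (deriv (deriv b) (θ - y)) (-deriv (deriv b) (θ - y)) (deriv (deriv b) (θ - y)) := by
  refine ⟨fun a1 b1 => deriv b (a1 - b1), fun a1 b1 => -deriv b (a1 - b1),
    Eventually.of_forall fun p => ⟨?_, ?_⟩, rfl, rfl, rfl, ?_, ?_, ?_⟩
  · exact (j1790_d hb (p.1 - p.2)).1.comp_sub_const p.1 p.2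
  · exact (j1790_d hb (p.1 - p.2)).1.comp_const_sub p.1 p.2
  · exact (j1790_d hb (θ - y)).2.comp_sub_const θ y
  · exact ((j1790_d hb (θ - y)).2.comp_sub_const θ y).fun_neg
  · have h := ((j1790_d hb (θ - y)).2.comp_const_sub θ y).fun_neg
    rwa [neg_neg] at h

theorem hasJet_FF {L : ℝ} (h1 : ContDiff ℝ ∞ (pa L)) (h2 : ContDiff ℝ ∞ (pb L))
    (h3 : ContDiff ℝ ∞ (Pc L)) (h4 : ContDiff ℝ ∞ (Ps L)) (h5 : ContDiff ℝ ∞ (Qc L))
    (h6 : ContDiff ℝ ∞ (Qs L)) (θ y : ℝ) :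
    HasJet (FF L) θ y (FF L θ y) (Fu L θ y + Fv L θ y) (Fu L θ y - Fv L θ y)
      (Fuu L θ y + 2 * Fuv L θ y + Fvv L θ y) (Fuu L θ y - Fvv L θ y)
      (Fuu L θ y - 2 * Fuv L θ y + Fvv L θ y) := by
  have e1 := (hasJet_plus h1 θ y).add (hasJet_minus h2 θ y)
  have e2 := (hasJet_plus h3 θ y).mul (hasJet_minus h5 θ y)
  have e3 := ((hasJet_plus h4 θ y).mul (hasJet_minus h6 θ y)).const_mul (-1)
  have e4 := e1.add ((e2.add e3).const_mul (kap L))
  have e5 : (fun a b => pa L (a + b) + pb L (a - b) + kap L * (Pc L (a + b) * Qc L (a - b) +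
      -1 * (Ps L (a + b) * Qs L (a - b)))) = FF L := by
    funext a b
    simp only [FF]
    ring
  rw [e5] at e4
  convert e4 using 1
  · simp only [FF]; ring
  · simp only [Fu, Fv]; ring
  · simp only [Fu, Fv]; ring
  · simp only [Fuu, Fuv, Fvv]; ring
  · simp only [Fuu, Fvv]; ring
  · simp only [Fuu, Fuv, Fvv]; ring

theorem hasJet_f0 (hC : ∀ y : ℝ, 0 < y → HasDerivAt Cc (C1 y) y)
    (hD : ∀ y : ℝ, 0 < y → HasDerivAt Dd (D1 y) y)
    (hC1 : ∀ y : ℝ, 0 < y → HasDerivAt C1 (Bc y - 3 * Cc y) y)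
    (hD1 : ∀ y : ℝ, 0 < y → HasDerivAt D1 (Bs y - 3 * Dd y) y)
    (ha : ∀ y : ℝ, 0 < y → HasDerivAt a0 (a1 y) y)
    (ha1 : ∀ y : ℝ, 0 < y → HasDerivAt a1 (a0 y + al y) y) (θ : ℝ) {y : ℝ} (hy : 0 < y) :
    HasJet f0 θ y (f0 θ y)
      (eta * (-2 * Cc y * Real.sin (2 * θ) + 2 * Dd y * Real.cos (2 * θ)))
      (Real.sinh y + eta * (a1 y + C1 y * Real.cos (2 * θ) + D1 y * Real.sin (2 * θ)))
      (eta * (-4 * Cc y * Real.cos (2 * θ) - 4 * Dd y * Real.sin (2 * θ)))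
      (eta * (-2 * C1 y * Real.sin (2 * θ) + 2 * D1 y * Real.cos (2 * θ)))
      (Real.cosh y + eta * (a0 y + al y + (Bc y - 3 * Cc y) * Real.cos (2 * θ) +
        (Bs y - 3 * Dd y) * Real.sin (2 * θ))) := by
  have hlin : ∀ x : ℝ, HasDerivAt (fun a : ℝ => 2 * a) 2 x := fun x => by
    simpa using (hasDerivAt_id x).const_mul (2 : ℝ)
  have hcos : ∀ x : ℝ, HasDerivAt (fun a : ℝ => Real.cos (2 * a)) (-Real.sin (2 * x) * 2) x :=
    fun x => (hlin x).cos
  have hsin : ∀ x : ℝ, HasDerivAt (fun a : ℝ => Real.sin (2 * a)) (Real.cos (2 * x) * 2) x :=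
    fun x => (hlin x).sin
  refine ⟨fun θ y => eta * (-2 * Cc y * Real.sin (2 * θ) + 2 * Dd y * Real.cos (2 * θ)),
    fun θ y => Real.sinh y + eta * (a1 y + C1 y * Real.cos (2 * θ) + D1 y * Real.sin (2 * θ)),
    ?_, rfl, rfl, rfl, ?_, ?_, ?_⟩
  · have hpos : ∀ᶠ p : ℝ × ℝ in 𝓝 (θ, y), 0 < p.2 :=
      (continuous_snd.tendsto (θ, y)).eventually (lt_mem_nhds hy)
    filter_upwards [hpos] with p hp
    obtain ⟨x, z⟩ := p
    simp only at hp
    refine ⟨?_, ?_⟩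
    · have h := (((((hasDerivAt_const x (a0 z)).fun_add ((hcos x).const_mul (Cc z))).fun_add
        ((hsin x).const_mul (Dd z))).const_mul eta)).const_add (Real.cosh z)
      refine h.congr_deriv ?_
      simp only
      ring
    · have h := (Real.hasDerivAt_cosh z).fun_add (((((ha z hp).fun_add
        ((hC z hp).mul_const (Real.cos (2 * x)))).fun_add
        ((hD z hp).mul_const (Real.sin (2 * x)))).const_mul eta))
      exact h
  · have h := ((((hsin θ).const_mul (-2 * Cc y))).fun_add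
      ((hcos θ).const_mul (2 * Dd y))).const_mul eta
    refine h.congr_deriv ?_
    ring
  · have h := ((((hasDerivAt_const θ (a1 y)).fun_add ((hcos θ).const_mul (C1 y))).fun_add
        ((hsin θ).const_mul (D1 y))).const_mul eta).const_add (Real.sinh y)
    refine h.congr_deriv ?_
    ring
  · have h := (Real.hasDerivAt_sinh y).fun_add (((((ha1 y hy).fun_add
        ((hC1 y hy).mul_const (Real.cos (2 * θ)))).fun_add
        ((hD1 y hy).mul_const (Real.sin (2 * θ)))).const_mul eta))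
    exact h

end Pool.Agent.TH168.Mil
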