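import Pool.Agent.TH317.CC.Arr

/-!
# Smoothed intersection number of a closed walk and a path (helper959, job 2748 for helper317)
-/

set_option autoImplicit false

universe u v w

namespace Pool.Agent.TH317.CC

open Filter Topology

namespace H959

/-- a plane arc, with continuous extensions to the line -/
structure Arc (a b a' b' : ℝ → ℝ) : Prop where
  ca : Continuous a
  cb : Continuous b
  ca' : Continuous a'
  cb' : Continuous b'
  da : ∀ s ∈ Set.Ioo (0 : ℝ) 1, HasDerivAt a (a' s) s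
  db : ∀ s ∈ Set.Ioo (0 : ℝ) 1, HasDerivAt b (b' s) s

/-- the projection to the unit interval -/
noncomputable def cl (t : ℝ) : ℝ := max 0 (min 1 t)

lemma cl_mem (t : ℝ) : cl t ∈ Set.Icc (0 : ℝ) 1 := by
  unfold cl
  constructor
  · exact le_max_left _ _
  · exact max_le zero_le_one (min_le_left _ _)

lemma cl_cont : Continuous cl := by
  unfold cl
  fun_prop

lemma cl_eq {t : ℝ} (ht : t ∈ Set.Icc (0 : ℝ) 1) : cl t = t := by
  unfold cl
  rw [min_eq_right ht.2, max_eq_right ht.1]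

lemma exists_arc {c c' : ℝ → ℝ × ℝ}
    (hd : ∀ t ∈ Set.Icc (0 : ℝ) 1, HasDerivWithinAt c (c' t) (Set.Icc 0 1) t)
    (hc : ContinuousOn c' (Set.Icc 0 1)) :
    ∃ a b a' b' : ℝ → ℝ, Arc a b a' b' ∧ ∀ t ∈ Set.Icc (0 : ℝ) 1,
      a t = (c t).1 ∧ b t = (c t).2 ∧ a' t = (c' t).1 ∧ b' t = (c' t).2 := by
  have hcc : ContinuousOn c (Set.Icc 0 1) := fun t ht => (hd t ht).continuousWithinAt
  have h1 : Continuous (fun t => c (cl t)) := hcc.comp_continuous cl_cont cl_mem
  have h2 : Continuous (fun t => c' (cl t)) := hc.comp_continuous cl_cont cl_mem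
  refine ⟨fun t => (c (cl t)).1, fun t => (c (cl t)).2, fun t => (c' (cl t)).1,
    fun t => (c' (cl t)).2, ⟨continuous_fst.comp h1, continuous_snd.comp h1,
      continuous_fst.comp h2, continuous_snd.comp h2, ?_, ?_⟩, ?_⟩
  · intro s hs
    have hs' := Set.Ioo_subset_Icc_self hs
    have h3 : HasDerivAt c (c' s) s := (hd s hs').hasDerivAt (Icc_mem_nhds hs.1 hs.2)
    have h4 : HasDerivAt (fun t => (c t).1) (c' s).1 s :=
      (ContinuousLinearMap.fst ℝ ℝ ℝ).hasFDerivAt.comp_hasDerivAt s h3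
    simp only [cl_eq hs']
    refine h4.congr_of_eventuallyEq ?_
    filter_upwards [Icc_mem_nhds hs.1 hs.2] with t ht
    rw [cl_eq ht]
  · intro s hs
    have hs' := Set.Ioo_subset_Icc_self hs
    have h3 : HasDerivAt c (c' s) s := (hd s hs').hasDerivAt (Icc_mem_nhds hs.1 hs.2)
    have h4 : HasDerivAt (fun t => (c t).2) (c' s).2 s :=
      (ContinuousLinearMap.snd ℝ ℝ ℝ).hasFDerivAt.comp_hasDerivAt s h3
    simp only [cl_eq hs']
    refine h4.congr_of_eventuallyEq ?_
    filter_upwards [Icc_mem_nhds hs.1 hs.2] with t ht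
    rw [cl_eq ht]
  · intro t ht
    simp only [cl_eq ht, and_self]

lemma swap {F : ℝ → ℝ → ℝ} (hF : Continuous (Function.uncurry F)) :
    ∫ x in (0 : ℝ)..1, ∫ y in (0 : ℝ)..1, F x y = ∫ y in (0 : ℝ)..1, ∫ x in (0 : ℝ)..1, F x y := by
  apply MeasureTheory.intervalIntegral_intervalIntegral_swap
  have h : MeasureTheory.IntegrableOn (Function.uncurry F)
      (Set.Icc (0 : ℝ) 1 ×ˢ Set.Icc (0 : ℝ) 1) :=
    hF.continuousOn.integrableOn_compact (isCompact_Icc.prod isCompact_Icc)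
  refine h.mono_set ?_
  rw [Set.uIoc_of_le zero_le_one]
  exact Set.prod_mono Set.Ioc_subset_Icc_self Set.Ioc_subset_Icc_self

/-- one pair of arcs -/
lemma pair {a b a' b' x y x' y' : ℝ → ℝ} (h1 : Arc a b a' b') (h2 : Arc x y x' y')
    {Ψ ψ ψ' : ℝ → ℝ} (hΨ : ∀ x, HasDerivAt Ψ (ψ x) x) (hψ : ∀ x, HasDerivAt ψ (ψ' x) x)
    (hψ' : Continuous ψ') :
    ∫ s in (0 : ℝ)..1, ∫ t in (0 : ℝ)..1,
      ψ (a s - x t) * ψ (b s - y t) * (a' s * y' t - b' s * x' t) =
    ((∫ t in (0 : ℝ)..1, Ψ (a 1 - x t) * ψ (b 1 - y t) * y' t) -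
      ∫ t in (0 : ℝ)..1, Ψ (a 0 - x t) * ψ (b 0 - y t) * y' t) +
    ((∫ s in (0 : ℝ)..1, b' s * (Ψ (a s - x 1) * ψ (b s - y 1))) -
      ∫ s in (0 : ℝ)..1, b' s * (Ψ (a s - x 0) * ψ (b s - y 0))) := by
  have cΨ : Continuous Ψ := continuous_iff_continuousAt.2 fun x => (hΨ x).continuousAt
  have cψ : Continuous ψ := continuous_iff_continuousAt.2 fun x => (hψ x).continuousAt
  have ca := h1.ca
  have cb := h1.cb
  have ca' := h1.ca'
  have cb' := h1.cb'
  have cx := h2.ca
  have cy := h2.cb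
  have cx' := h2.ca'
  have cy' := h2.cb'
  -- the two parts
  set F1 : ℝ → ℝ → ℝ := fun s t => (ψ (a s - x t) * a' s * ψ (b s - y t) +
    Ψ (a s - x t) * (ψ' (b s - y t) * b' s)) * y' t with hF1
  set F2 : ℝ → ℝ → ℝ := fun s t => b' s * (ψ (a s - x t) * (- x' t) * ψ (b s - y t) +
    Ψ (a s - x t) * (ψ' (b s - y t) * (- y' t))) with hF2
  have cF1 : Continuous (Function.uncurry F1) := by
    rw [hF1]
    unfold Function.uncurry
    fun_prop
  have cF2 : Continuous (Function.uncurry F2) := by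
    rw [hF2]
    unfold Function.uncurry
    fun_prop
  have e1 : ∀ s t, ψ (a s - x t) * ψ (b s - y t) * (a' s * y' t - b' s * x' t) =
      F1 s t + F2 s t := by
    intro s t
    rw [hF1, hF2]
    ring
  simp_rw [e1]
  have i1 : ∀ s, IntervalIntegrable (F1 s) MeasureTheory.volume 0 1 := fun s =>
    (Continuous.uncurry_left s cF1).intervalIntegrable _ _
  have i2 : ∀ s, IntervalIntegrable (F2 s) MeasureTheory.volume 0 1 := fun s =>
    (Continuous.uncurry_left s cF2).intervalIntegrable _ _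
  simp_rw [fun s => intervalIntegral.integral_add (i1 s) (i2 s)]
  rw [intervalIntegral.integral_add
    ((intervalIntegral.continuous_parametric_intervalIntegral_of_continuous' cF1 0
      1).intervalIntegrable _ _)
    ((intervalIntegral.continuous_parametric_intervalIntegral_of_continuous' cF2 0
      1).intervalIntegrable _ _)]
  congr 1
  · rw [swap cF1, ← intervalIntegral.integral_sub
      (by apply Continuous.intervalIntegrable; fun_prop)
      (by apply Continuous.intervalIntegrable; fun_prop)]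
    refine intervalIntegral.integral_congr fun t _ => ?_
    have h3 : ∫ s in (0 : ℝ)..1, (ψ (a s - x t) * a' s * ψ (b s - y t) +
        Ψ (a s - x t) * (ψ' (b s - y t) * b' s)) =
        Ψ (a 1 - x t) * ψ (b 1 - y t) - Ψ (a 0 - x t) * ψ (b 0 - y t) := by
      refine intervalIntegral.integral_eq_sub_of_hasDerivAt_of_le
        (f := fun s => Ψ (a s - x t) * ψ (b s - y t)) zero_le_one
        (by apply Continuous.continuousOn; fun_prop) ?_
        (by apply Continuous.intervalIntegrable; fun_prop)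
      intro s hs
      have g1 : HasDerivAt (fun s => Ψ (a s - x t)) (ψ (a s - x t) * a' s) s :=
        (hΨ _).comp s ((h1.da s hs).sub_const _)
      have g2 : HasDerivAt (fun s => ψ (b s - y t)) (ψ' (b s - y t) * b' s) s :=
        (hψ _).comp s ((h1.db s hs).sub_const _)
      exact g1.mul g2
    simp only [hF1]
    rw [intervalIntegral.integral_mul_const, h3]
    ring
  · rw [← intervalIntegral.integral_sub
      (by apply Continuous.intervalIntegrable; fun_prop)
      (by apply Continuous.intervalIntegrable; fun_prop)]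
    refine intervalIntegral.integral_congr fun s _ => ?_
    have h3 : ∫ t in (0 : ℝ)..1, (ψ (a s - x t) * (- x' t) * ψ (b s - y t) +
        Ψ (a s - x t) * (ψ' (b s - y t) * (- y' t))) =
        Ψ (a s - x 1) * ψ (b s - y 1) - Ψ (a s - x 0) * ψ (b s - y 0) := by
      refine intervalIntegral.integral_eq_sub_of_hasDerivAt_of_le
        (f := fun t => Ψ (a s - x t) * ψ (b s - y t)) zero_le_one
        (by apply Continuous.continuousOn; fun_prop) ?_
        (by apply Continuous.intervalIntegrable; fun_prop)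
      intro t ht
      have g1 : HasDerivAt (fun t => Ψ (a s - x t)) (ψ (a s - x t) * (- x' t)) t :=
        (hΨ _).comp t ((h2.da t ht).const_sub _)
      have g2 : HasDerivAt (fun t => ψ (b s - y t)) (ψ' (b s - y t) * (- y' t)) t :=
        (hψ _).comp t ((h2.db t ht).const_sub _)
      exact g1.mul g2
    simp only [hF2]
    rw [intervalIntegral.integral_const_mul, h3]
    ring

lemma tele {D V Λ : Type*} [LinearOrder Λ] (G : Rib D V Λ) (g : V → ℝ) :
    ∀ (l : List D) (a b : V), Walk G a b l →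
      (l.map fun d => g (G.hd d) - g (G.tl d)).sum = g b - g a := by
  intro l
  induction l with
  | nil =>
    intro a b h
    have h' : a = b := h
    subst h'
    simp
  | cons d l ih =>
    intro a b h
    obtain ⟨h1, h2⟩ := h
    rw [List.map_cons, List.sum_cons, ih _ _ h2, h1]
    ring

lemma sum_map_sub' {D : Type*} (l : List D) (f g : D → ℝ) :
    (l.map fun d => f d - g d).sum = (l.map f).sum - (l.map g).sum := by
  induction l with
  | nil => simp
  | cons d l ih =>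
    rw [List.map_cons, List.sum_cons, ih, List.map_cons, List.sum_cons, List.map_cons,
      List.sum_cons]
    ring

/-- the primitive of a form which depends only on the second coordinate -/
lemma prim {B : Set (ℝ × ℝ)} (hBo : IsOpen B) (hBc : Convex ℝ B) (hBn : B.Nonempty)
    {Ψ ψ : ℝ → ℝ} (hΨ : ∀ x, HasDerivAt Ψ (ψ x) x) (cψ : Continuous ψ) (p : ℝ × ℝ)
    (h : ∀ z ∈ B, ψ (p.1 - z.1) * ψ (p.2 - z.2) = 0) :
    ∃ Hh : ℝ → ℝ, ∀ z ∈ B, HasDerivAt Hh (Ψ (p.1 - z.1) * ψ (p.2 - z.2)) z.2 := by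
  classical
  have cΨ : Continuous Ψ := continuous_iff_continuousAt.2 fun x => (hΨ x).continuousAt
  set Pp : ℝ × ℝ → ℝ := fun z => Ψ (p.1 - z.1) * ψ (p.2 - z.2) with hPp
  have cPp : Continuous Pp := by
    rw [hPp]
    fun_prop
  have hconst : ∀ z ∈ B, ∀ z' ∈ B, z.2 = z'.2 → Pp z = Pp z' := by
    intro z hz z' hz' hzz
    by_cases h0 : ψ (p.2 - z.2) = 0
    · simp only [hPp]
      rw [← hzz, h0, mul_zero, mul_zero]
    · have hseg : ∀ w ∈ Set.uIcc z.1 z'.1, ψ (p.1 - w) = 0 := by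
        intro w hw
        have hwB : (w, z.2) ∈ B := by
          have h1 : (w, z.2) ∈ segment ℝ z z' := by
            rw [← segment_eq_uIcc] at hw
            obtain ⟨α, β, hα, hβ, hαβ, hw'⟩ := hw
            refine ⟨α, β, hα, hβ, hαβ, ?_⟩
            ext
            · simpa using hw'
            · simp only [Prod.snd_add, Prod.smul_snd, smul_eq_mul]
              rw [← hzz, ← add_mul, hαβ, one_mul]
          exact hBc.segment_subset hz hz' h1
        have h2 := h _ hwB
        exact (mul_eq_zero.1 h2).resolve_right h0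
      have h1 : ∫ w in z.1..z'.1, (- ψ (p.1 - w)) = Ψ (p.1 - z'.1) - Ψ (p.1 - z.1) := by
        refine intervalIntegral.integral_eq_sub_of_hasDerivAt
          (f := fun w => Ψ (p.1 - w)) (fun w _ => ?_)
          (by apply Continuous.intervalIntegrable; fun_prop)
        have h3 : HasDerivAt (fun w => Ψ (p.1 - w)) (ψ (p.1 - w) * (-1)) w :=
          (hΨ (p.1 - w)).comp w ((hasDerivAt_id w).const_sub p.1)
        rwa [mul_neg_one] at h3
      have h2 : ∫ w in z.1..z'.1, (- ψ (p.1 - w)) = 0 := by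
        rw [intervalIntegral.integral_congr (g := fun _ => (0 : ℝ)) (fun w hw => by
          simp only
          rw [hseg w hw, neg_zero])]
        simp
      simp only [hPp]
      rw [← hzz]
      have : Ψ (p.1 - z.1) = Ψ (p.1 - z'.1) := by linarith
      rw [this]
  set Y : Set ℝ := Prod.snd '' B with hY
  have hYo : IsOpen Y := isOpenMap_snd _ hBo
  have hYc : Convex ℝ Y := hBc.linear_image (LinearMap.snd ℝ ℝ ℝ)
  have hYord : Y.OrdConnected := hYc.ordConnected
  have hex : ∃ h : ℝ → ℝ, ∀ z ∈ B, h z.2 = Pp z := by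
    refine ⟨fun y => if hy : ∃ z ∈ B, z.2 = y then Pp hy.choose else 0, fun z hz => ?_⟩
    have hy : ∃ z' ∈ B, z'.2 = z.2 := ⟨z, hz, rfl⟩
    simp only [dif_pos hy]
    exact hconst _ hy.choose_spec.1 _ hz hy.choose_spec.2
  obtain ⟨h', hh'⟩ := hex
  have hcont : ∀ y ∈ Y, ContinuousAt h' y := by
    rintro y ⟨z, hz, rfl⟩
    have h1 : Continuous (fun y : ℝ => ((z.1, y) : ℝ × ℝ)) := by fun_prop
    have h2 : ContinuousAt (fun y : ℝ => Pp (z.1, y)) z.2 := (cPp.comp h1).continuousAt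
    refine h2.congr ?_
    have h3 : ∀ᶠ y in 𝓝 z.2, ((z.1, y) : ℝ × ℝ) ∈ B :=
      h1.continuousAt.eventually (hBo.mem_nhds hz)
    filter_upwards [h3] with y hy
    exact (hh' _ hy).symm
  have hcontOn : ContinuousOn h' Y := fun y hy => (hcont y hy).continuousWithinAt
  obtain ⟨z0, hz0⟩ := hBn
  refine ⟨fun y => ∫ w in z0.2..y, h' w, fun z hz => ?_⟩
  have hzY : z.2 ∈ Y := ⟨z, hz, rfl⟩
  have hz0Y : z0.2 ∈ Y := ⟨z0, hz0, rfl⟩
  have h1 : IntervalIntegrable h' MeasureTheory.volume z0.2 z.2 :=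
    (hcontOn.mono (hYord.uIcc_subset hz0Y hzY)).intervalIntegrable
  have h2 := intervalIntegral.integral_hasDerivAt_right h1
    (hcontOn.stronglyMeasurableAtFilter hYo _ hzY) (hcont _ hzY)
  rw [hh' z hz] at h2
  exact h2

end H959

open H959 in
theorem int_stokes {D V Λ : Type*} [LinearOrder Λ] (G : Rib D V Λ) (P : V → ℝ × ℝ)
    (c c' : D → ℝ → ℝ × ℝ) (ζ v : List D) (y y₁ y₂ : V) (hζ : Walk G y y ζ)
    (hv : Walk G y₁ y₂ v)
    (h0 : ∀ d ∈ ζ ++ v, c d 0 = P (G.tl d) ∧ c d 1 = P (G.hd d))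
    (hd : ∀ d ∈ ζ ++ v, ∀ t ∈ Set.Icc (0 : ℝ) 1, HasDerivWithinAt (c d) (c' d t) (Set.Icc 0 1) t)
    (hc : ∀ d ∈ ζ ++ v, ContinuousOn (c' d) (Set.Icc 0 1))
    (B : Set (ℝ × ℝ)) (hBo : IsOpen B) (hBc : Convex ℝ B)
    (hB : ∀ d ∈ ζ, ∀ t ∈ Set.Icc (0 : ℝ) 1, c d t ∈ B)
    (ψ ψ' : ℝ → ℝ) (hψ : ∀ x, HasDerivAt ψ (ψ' x) x) (hψ' : Continuous ψ')
    (h1 : ∀ z ∈ B, ψ ((P y₁).1 - z.1) * ψ ((P y₁).2 - z.2) = 0)
    (h2 : ∀ z ∈ B, ψ ((P y₂).1 - z.1) * ψ ((P y₂).2 - z.2) = 0) :
    (v.map fun e => (ζ.map fun d => Ipsi ψ (c e) (c' e) (c d) (c' d)).sum).sum = 0 := by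
  classical
  have cψ : Continuous ψ := continuous_iff_continuousAt.2 fun x => (hψ x).continuousAt
  -- the antiderivative
  set Ψ : ℝ → ℝ := fun x => ∫ t in (0 : ℝ)..x, ψ t with hΨd
  have hΨ : ∀ x, HasDerivAt Ψ (ψ x) x := fun x =>
    intervalIntegral.integral_hasDerivAt_right (cψ.intervalIntegrable _ _)
      (cψ.stronglyMeasurableAtFilter _ _) cψ.continuousAt
  have cΨ : Continuous Ψ := continuous_iff_continuousAt.2 fun x => (hΨ x).continuousAt
  have hex : ∀ d, d ∈ ζ ++ v → ∃ a b a' b' : ℝ → ℝ, Arc a b a' b' ∧ ∀ t ∈ Set.Icc (0 : ℝ) 1,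
      a t = (c d t).1 ∧ b t = (c d t).2 ∧ a' t = (c' d t).1 ∧ b' t = (c' d t).2 :=
    fun d hdm => exists_arc (hd d hdm) (hc d hdm)
  choose! a b a' b' harc hval using hex
  have m0 : (0 : ℝ) ∈ Set.Icc (0 : ℝ) 1 := ⟨le_rfl, zero_le_one⟩
  have m1 : (1 : ℝ) ∈ Set.Icc (0 : ℝ) 1 := ⟨zero_le_one, le_rfl⟩
  -- the functions of the vertices
  set I : D → ℝ × ℝ → ℝ := fun d p => ∫ t in (0 : ℝ)..1, Ψ (p.1 - a d t) * ψ (p.2 - b d t) * b' d t
    with hI
  set K : D → V → ℝ := fun e w => ∫ s in (0 : ℝ)..1,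
    b' e s * (Ψ (a e s - (P w).1) * ψ (b e s - (P w).2)) with hK
  have hpair : ∀ e ∈ v, ∀ d ∈ ζ, Ipsi ψ (c e) (c' e) (c d) (c' d) =
      (I d (P (G.hd e)) - I d (P (G.tl e))) + (K e (G.hd d) - K e (G.tl d)) := by
    intro e he d hdζ
    have he' : e ∈ ζ ++ v := List.mem_append_right _ he
    have hd' : d ∈ ζ ++ v := List.mem_append_left _ hdζ
    have e1 : Ipsi ψ (c e) (c' e) (c d) (c' d) = ∫ s in (0 : ℝ)..1, ∫ t in (0 : ℝ)..1,
        ψ (a e s - a d t) * ψ (b e s - b d t) * (a' e s * b' d t - b' e s * a' d t) := by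
      unfold Ipsi det2
      refine intervalIntegral.integral_congr fun s hs => ?_
      rw [Set.uIcc_of_le zero_le_one] at hs
      refine intervalIntegral.integral_congr fun t ht => ?_
      rw [Set.uIcc_of_le zero_le_one] at ht
      obtain ⟨r1, r2, r3, r4⟩ := hval e he' s hs
      obtain ⟨s1, s2, s3, s4⟩ := hval d hd' t ht
      rw [r1, r2, r3, r4, s1, s2, s3, s4]
    rw [e1, pair (harc e he') (harc d hd') hΨ hψ hψ']
    obtain ⟨r1, r2, -, -⟩ := hval e he' 0 m0
    obtain ⟨r3, r4, -, -⟩ := hval e he' 1 m1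
    obtain ⟨s1, s2, -, -⟩ := hval d hd' 0 m0
    obtain ⟨s3, s4, -, -⟩ := hval d hd' 1 m1
    rw [(h0 e he').1] at r1 r2
    rw [(h0 e he').2] at r3 r4
    rw [(h0 d hd').1] at s1 s2
    rw [(h0 d hd').2] at s3 s4
    rw [r1, r2, r3, r4, s1, s2, s3, s4]
  have hsum : ∀ e ∈ v, (ζ.map fun d => Ipsi ψ (c e) (c' e) (c d) (c' d)).sum =
      (ζ.map fun d => I d (P (G.hd e))).sum - (ζ.map fun d => I d (P (G.tl e))).sum := by
    intro e he
    have e1 : (ζ.map fun d => Ipsi ψ (c e) (c' e) (c d) (c' d)) =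
        ζ.map fun d => (I d (P (G.hd e)) - I d (P (G.tl e))) + (K e (G.hd d) - K e (G.tl d)) :=
      List.map_congr_left fun d hdζ => hpair e he d hdζ
    rw [e1, List.sum_map_add, tele G (K e) ζ y y hζ, sub_self, add_zero, sum_map_sub']
  have hsum2 : (v.map fun e => (ζ.map fun d => Ipsi ψ (c e) (c' e) (c d) (c' d)).sum) =
      v.map fun e => (fun w => (ζ.map fun d => I d (P w)).sum) (G.hd e) -
        (fun w => (ζ.map fun d => I d (P w)).sum) (G.tl e) :=
    List.map_congr_left fun e he => hsum e he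
  rw [hsum2, tele G (fun w => (ζ.map fun d => I d (P w)).sum) v y₁ y₂ hv]
  -- the values at the end points vanish
  have hJ : ∀ p : ℝ × ℝ, (∀ z ∈ B, ψ (p.1 - z.1) * ψ (p.2 - z.2) = 0) →
      (ζ.map fun d => I d p).sum = 0 := by
    intro p hp
    rcases List.eq_nil_or_concat ζ with hnil | ⟨l, d0, hl⟩
    · rw [hnil]
      simp
    have hd0 : d0 ∈ ζ := by rw [hl]; simp
    have hBn : B.Nonempty := ⟨_, hB d0 hd0 0 m0⟩
    obtain ⟨Hh, hHh⟩ := prim hBo hBc hBn hΨ cψ p hp
    have e1 : (ζ.map fun d => I d p) =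
        ζ.map fun d => (fun w => Hh (P w).2) (G.hd d) - (fun w => Hh (P w).2) (G.tl d) := by
      refine List.map_congr_left fun d hdζ => ?_
      have hd' : d ∈ ζ ++ v := List.mem_append_left _ hdζ
      have A := harc d hd'
      have hin : ∀ t ∈ Set.Icc (0 : ℝ) 1, ((a d t, b d t) : ℝ × ℝ) ∈ B := by
        intro t ht
        obtain ⟨r1, r2, -, -⟩ := hval d hd' t ht
        rw [r1, r2]
        exact hB d hdζ t ht
      have ca := A.ca
      have cb := A.cb
      have cb' := A.cb'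
      have g1 : I d p = Hh (b d 1) - Hh (b d 0) := by
        simp only [hI]
        refine intervalIntegral.integral_eq_sub_of_hasDerivAt_of_le
          (f := fun t => Hh (b d t)) zero_le_one ?_ ?_
          (by apply Continuous.intervalIntegrable; fun_prop)
        · intro t ht
          have h3 : ContinuousAt Hh (b d t) := (hHh _ (hin t ht)).continuousAt
          exact (h3.comp cb.continuousAt).continuousWithinAt
        · intro t ht
          have h3 := hHh _ (hin t (Set.Ioo_subset_Icc_self ht))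
          exact h3.comp t (A.db t ht)
      obtain ⟨-, s2, -, -⟩ := hval d hd' 0 m0
      obtain ⟨-, s4, -, -⟩ := hval d hd' 1 m1
      rw [(h0 d hd').1] at s2
      rw [(h0 d hd').2] at s4
      rw [g1, s2, s4]
    rw [e1, tele G (fun w => Hh (P w).2) ζ y y hζ, sub_self]
  rw [hJ _ h1, hJ _ h2, sub_zero]

end Pool.Agent.TH317.CC
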