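import Pool.Agent.TH317.CC.Riem

/-!
# Strong convexity of the squared distance (helper959, job 2801 for helper317)
-/

set_option autoImplicit false

universe u

namespace Pool.Agent.TH317.CC

open Set Manifold Bundle
open scoped ContDiff Topology

namespace H959S

/-- approximate midpoints -/
lemma mid {M : Type u} [MetricSpace M] {f : ℝ → M} {y z : M} {D : ℝ} (hD : 0 ≤ D)
    (hf : ContinuousOn f (Icc 0 1)) (h0 : f 0 = y) (h1 : f 1 = z)
    (hv : eVariationOn f (Icc 0 1) ≤ ENNReal.ofReal D) :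
    ∃ m, dist y m ≤ D / 2 ∧ dist m z ≤ D / 2 := by
  have hcont : ContinuousOn (fun t => dist y (f t) - dist (f t) z) (Icc (0 : ℝ) 1) := by
    fun_prop
  have hIVT := intermediate_value_Icc (zero_le_one (α := ℝ)) hcont
  have h0mem : (0 : ℝ) ∈ Icc (dist y (f 0) - dist (f 0) z) (dist y (f 1) - dist (f 1) z) := by
    rw [h0, h1, dist_self, dist_self]
    constructor
    · have := dist_nonneg (x := y) (y := z)
      linarith
    · have := dist_nonneg (x := y) (y := z)
      linarith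
  obtain ⟨t, ht, hte⟩ := hIVT h0mem
  have e1 : edist y (f t) + edist (f t) z ≤ ENNReal.ofReal D := by
    calc edist y (f t) + edist (f t) z ≤
        eVariationOn f (Icc 0 t) + eVariationOn f (Icc t 1) := by
          refine add_le_add ?_ ?_
          · rw [← h0]
            exact eVariationOn.edist_le f ⟨le_rfl, ht.1⟩ ⟨ht.1, le_rfl⟩
          · rw [← h1]
            exact eVariationOn.edist_le f ⟨le_rfl, ht.2⟩ ⟨ht.2, le_rfl⟩
      _ ≤ eVariationOn f (Icc 0 t ∪ Icc t 1) :=
          eVariationOn.add_le_union f (fun a ha b hb => ha.2.trans hb.1)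
      _ ≤ eVariationOn f (Icc 0 1) := eVariationOn.mono f (by
          rw [Icc_union_Icc_eq_Icc ht.1 ht.2])
      _ ≤ _ := hv
  rw [edist_dist, edist_dist, ← ENNReal.ofReal_add dist_nonneg dist_nonneg,
    ENNReal.ofReal_le_ofReal_iff hD] at e1
  have hte' : dist y (f t) - dist (f t) z = 0 := hte
  exact ⟨f t, by linarith, by linarith⟩

/-- uniform chains -/
lemma chain {M : Type u} [MetricSpace M] {x : M} {U : Set M}
    (hU : ∀ y ∈ U, ∀ z ∈ U, ∀ ε > 0, ∃ f : ℝ → M,
      ContinuousOn f (Icc 0 1) ∧ f 0 = y ∧ f 1 = z ∧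
        eVariationOn f (Icc 0 1) ≤ ENNReal.ofReal (dist y z + ε))
    {ρ : ℝ} (hρ : Metric.closedBall x ρ ⊆ U) (n : ℕ) :
    ∀ (y z : M) (L : ℝ), dist y z < L → dist y x + L ≤ ρ → dist z x + L ≤ ρ →
      ∃ a : ℕ → M, a 0 = y ∧ a (2 ^ n) = z ∧ (∀ i < 2 ^ n, dist (a i) (a (i + 1)) ≤ L / 2 ^ n) ∧
        ∀ i ≤ 2 ^ n, dist (a i) x ≤ ρ := by
  induction n with
  | zero =>
    intro y z L h1 h2 h3
    have hL : 0 < L := lt_of_le_of_lt dist_nonneg h1
    refine ⟨fun i => if i = 0 then y else z, by simp, by simp, ?_, ?_⟩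
    · intro i hi
      have hi0 : i = 0 := by simpa using hi
      subst hi0
      simp only [if_true, zero_add, one_ne_zero, if_false, pow_zero, div_one]
      exact h1.le
    · intro i _
      simp only
      split_ifs <;> linarith
  | succ n ih =>
    intro y z L h1 h2 h3
    have hL : 0 < L := lt_of_le_of_lt dist_nonneg h1
    obtain ⟨f, f1, f2, f3, f4⟩ := hU y (hρ (Metric.mem_closedBall.2 (by linarith))) z
      (hρ (Metric.mem_closedBall.2 (by linarith))) ((L - dist y z) / 2) (by linarith)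
    have hyz := dist_nonneg (x := y) (y := z)
    obtain ⟨m, m1, m2⟩ := mid (by linarith) f1 f2 f3 f4
    have m1' : dist y m < L / 2 := by linarith
    have m2' : dist m z < L / 2 := by linarith
    have m3 : dist m x ≤ dist y m + dist y x := by
      have := dist_triangle m y x
      rw [dist_comm m y] at this
      exact this
    obtain ⟨b, b0, b1, b2, b3⟩ := ih y m (L / 2) m1' (by linarith) (by linarith)
    obtain ⟨c, c0, c1, c2, c3⟩ := ih m z (L / 2) m2' (by linarith) (by linarith)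
    have hpow : 2 ^ (n + 1) = 2 ^ n + 2 ^ n := by ring
    have hpos : 0 < 2 ^ n := by positivity
    have hstep : L / 2 / 2 ^ n = L / 2 ^ (n + 1) := by
      rw [div_div, pow_succ, mul_comm]
    refine ⟨fun i => if i ≤ 2 ^ n then b i else c (i - 2 ^ n), by simp [b0], ?_, ?_, ?_⟩
    · have h4 : ¬ (2 ^ (n + 1) ≤ 2 ^ n) := by omega
      simp only [if_neg h4]
      rw [show 2 ^ (n + 1) - 2 ^ n = 2 ^ n by omega, c1]
    · intro i hi
      simp only
      rcases lt_trichotomy i (2 ^ n) with h | h | h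
      · rw [if_pos h.le, if_pos (Nat.succ_le_of_lt h), ← hstep]
        exact b2 i h
      · subst h
        rw [if_pos le_rfl, if_neg (by omega), b1, show 2 ^ n + 1 - 2 ^ n = 0 + 1 by omega, ← hstep]
        have := c2 0 hpos
        rwa [c0] at this
      · rw [if_neg (by omega), if_neg (by omega), show i + 1 - 2 ^ n = (i - 2 ^ n) + 1 by omega,
          ← hstep]
        exact c2 _ (by omega)
    · intro i hi
      simp only
      by_cases h : i ≤ 2 ^ n
      · rw [if_pos h]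
        exact b3 i h
      · rw [if_neg h]
        exact c3 _ (by omega)

/-- the discrete energy inequality -/
lemma energy {E : Type} [NormedAddCommGroup E] [NormedSpace ℝ E] {p p' : ℕ → E} {N : ℕ}
    (hN : 0 < N) (h0 : p 0 = p' 0) {G G' W : ℕ → ℝ} {lam C A A' Q : ℝ}
    (hC : 0 ≤ C)
    (hG : ∀ i < N, G i ≤ A / (N : ℝ) ^ 2) (hG' : ∀ i < N, G' i ≤ A' / (N : ℝ) ^ 2)
    (hu : ∀ i < N, ‖p (i + 1) - p i‖ ^ 2 + ‖p' (i + 1) - p' i‖ ^ 2 ≤ Q / (N : ℝ) ^ 2)
    (hW : ∀ i < N, W i ≤ G i / 2 + G' i / 2 -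
      lam * ‖(p (i + 1) - p i) - (p' (i + 1) - p' i)‖ ^ 2 / 8 +
      C * ‖p i - p' i‖ ^ 2 * (‖p (i + 1) - p i‖ ^ 2 + ‖p' (i + 1) - p' i‖ ^ 2))
    (hQ : C * Q ≤ lam / 16) (hlam : 0 ≤ lam) :
    (N : ℝ) * ∑ i ∈ Finset.range N, W i ≤ (A + A') / 2 - lam / 16 * ‖p N - p' N‖ ^ 2 := by
  have hN' : (0 : ℝ) < N := by exact_mod_cast hN
  set v : ℕ → E := fun i => (p (i + 1) - p i) - (p' (i + 1) - p' i) with hv
  set S : ℝ := (N : ℝ) * ∑ i ∈ Finset.range N, ‖v i‖ ^ 2 with hS
  have hS0 : 0 ≤ S := by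
    rw [hS]
    exact mul_nonneg hN'.le (Finset.sum_nonneg fun i _ => by positivity)
  -- the differences
  have hdiff : ∀ i ≤ N, ‖p i - p' i‖ ^ 2 ≤ S := by
    intro i hi
    have h1 : p i - p' i = ∑ j ∈ Finset.range i, v j := by
      have := Finset.sum_range_sub (fun j => p j - p' j) i
      rw [h0, sub_self, sub_zero] at this
      rw [← this]
      refine Finset.sum_congr rfl fun j _ => ?_
      rw [hv]
      simp only
      abel
    have h2 : ‖p i - p' i‖ ≤ ∑ j ∈ Finset.range i, ‖v j‖ := by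
      rw [h1]
      exact norm_sum_le _ _
    have h3 := sq_sum_le_card_mul_sum_sq (s := Finset.range i) (f := fun j => ‖v j‖)
    rw [Finset.card_range] at h3
    calc ‖p i - p' i‖ ^ 2 ≤ (∑ j ∈ Finset.range i, ‖v j‖) ^ 2 :=
          pow_le_pow_left₀ (norm_nonneg _) h2 2
      _ ≤ (i : ℝ) * ∑ j ∈ Finset.range i, ‖v j‖ ^ 2 := h3
      _ ≤ (N : ℝ) * ∑ j ∈ Finset.range N, ‖v j‖ ^ 2 := by
          refine mul_le_mul (by exact_mod_cast hi) ?_ (Finset.sum_nonneg fun i _ => by positivity)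
            hN'.le
          exact Finset.sum_le_sum_of_subset_of_nonneg
            (Finset.range_mono hi) fun j _ _ => by positivity
  have hterm : ∀ i ∈ Finset.range N, W i ≤ (A + A') / 2 / (N : ℝ) ^ 2 - lam / 8 * ‖v i‖ ^ 2 +
      C * S * (Q / (N : ℝ) ^ 2) := by
    intro i hi
    rw [Finset.mem_range] at hi
    have h1 := hW i hi
    have h2 := hG i hi
    have h3 := hG' i hi
    have h4 : C * ‖p i - p' i‖ ^ 2 * (‖p (i + 1) - p i‖ ^ 2 + ‖p' (i + 1) - p' i‖ ^ 2) ≤
        C * S * (Q / (N : ℝ) ^ 2) :=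
      mul_le_mul (mul_le_mul_of_nonneg_left (hdiff i hi.le) hC) (hu i hi) (by positivity)
        (by positivity)
    have h5 : (A + A') / 2 / (N : ℝ) ^ 2 = A / (N : ℝ) ^ 2 / 2 + A' / (N : ℝ) ^ 2 / 2 := by ring
    rw [h5]
    have h6 : lam * ‖(p (i + 1) - p i) - (p' (i + 1) - p' i)‖ ^ 2 / 8 = lam / 8 * ‖v i‖ ^ 2 := by
      rw [hv]
      ring
    linarith
  have hsum := Finset.sum_le_sum hterm
  rw [Finset.sum_add_distrib, Finset.sum_sub_distrib, Finset.sum_const, Finset.sum_const,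
    Finset.card_range, ← Finset.mul_sum, nsmul_eq_mul, nsmul_eq_mul] at hsum
  have hmul := mul_le_mul_of_nonneg_left hsum hN'.le
  have e1 : (N : ℝ) * ((N : ℝ) * ((A + A') / 2 / (N : ℝ) ^ 2) -
      lam / 8 * ∑ i ∈ Finset.range N, ‖v i‖ ^ 2 + (N : ℝ) * (C * S * (Q / (N : ℝ) ^ 2))) =
      (A + A') / 2 - lam / 8 * S + C * Q * S := by
    rw [hS]
    field_simp
  rw [e1] at hmul
  have h7 : C * Q * S ≤ lam / 16 * S := mul_le_mul_of_nonneg_right hQ hS0
  have h8 : lam / 16 * ‖p N - p' N‖ ^ 2 ≤ lam / 16 * S :=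
    mul_le_mul_of_nonneg_left (hdiff N le_rfl) (by positivity)
  linarith

end H959S

open H959S in
theorem locSC_of_locRiem {E : Type} [NormedAddCommGroup E] [NormedSpace ℝ E] {M : Type u}
    [MetricSpace M] (hL : LocLen M) (h : LocRiem E M) : LocSC E M := by
  intro x
  obtain ⟨U, hU, hpath⟩ := hL x
  obtain ⟨R, R', lam, Lam, C, φ, ψ, g, hR, hR', hlam, hC, hφψ, hψc, hφc, hφ, hg, hmid, hinf⟩ := h x
  set sl := Real.sqrt lam with hsl
  have hsl0 : 0 < sl := Real.sqrt_pos.2 hlam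
  have hsl2 : sl ^ 2 = lam := Real.sq_sqrt hlam.le
  set K : ℝ := 2 / sl with hK
  have hK0 : 0 < K := by positivity
  -- the infinitesimal length is bounded below
  have hlow : ∀ p ∈ Metric.ball (φ x) R, ∀ v : E, sl * ‖v‖ ≤ Real.sqrt (g p v) := by
    intro p hp v
    have h1 := (hg p hp v).1
    exact Real.le_sqrt_of_sq_le (by rw [mul_pow, hsl2]; exact h1)
  have hgn : ∀ p ∈ Metric.ball (φ x) R, ∀ v : E, 0 ≤ g p v := fun p hp v =>
    le_trans (by positivity) (hg p hp v).1
  obtain ⟨δ0, hδ0, hinf0⟩ := hinf (sl / 2) (by positivity)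
  -- local Lipschitz bounds
  have hx0 : x ∈ Metric.ball x R' := Metric.mem_ball_self hR'
  have hφx : ContinuousAt φ x := (hφc x hx0).continuousAt (Metric.ball_mem_nhds x hR')
  have hmin : 0 < min (δ0 / 2) (R / 2) := by positivity
  obtain ⟨ρ1, hρ1, hρ1'⟩ := Metric.continuousAt_iff.1 hφx _ hmin
  obtain ⟨ρ2, hρ2, hρ2'⟩ := Metric.nhds_basis_closedBall.mem_iff.1 hU
  set ρ : ℝ := min (min (ρ1 / 2) (R' / 2)) ρ2 with hρ
  have hρ0 : 0 < ρ := by positivity
  have hρU : Metric.closedBall x ρ ⊆ U :=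
    (Metric.closedBall_subset_closedBall (min_le_right _ _)).trans hρ2'
  have hin : ∀ y, dist y x ≤ ρ → dist (φ y) (φ x) < δ0 / 2 ∧ dist (φ y) (φ x) < R / 2 ∧
      ψ (φ y) = y := by
    intro y hy
    have h1 : ρ ≤ ρ1 / 2 := (min_le_left _ _).trans (min_le_left _ _)
    have h2 : ρ ≤ R' / 2 := (min_le_left _ _).trans (min_le_right _ _)
    have h3 := hρ1' (show dist y x < ρ1 by linarith)
    exact ⟨h3.trans_le (min_le_left _ _), h3.trans_le (min_le_right _ _),
      (hφ y (Metric.mem_ball.2 (by linarith))).2⟩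
  have hinB : ∀ y, dist y x ≤ ρ → φ y ∈ Metric.ball (φ x) R := by
    intro y hy
    have := (hin y hy).2.1
    exact Metric.mem_ball.2 (by linarith)
  have hlipφ : ∀ y z, dist y x ≤ ρ → dist z x ≤ ρ → ‖φ z - φ y‖ ≤ K * dist y z := by
    intro y z hy hz
    have h1 := hin y hy
    have h2 := hin z hz
    have h3 : ‖φ y - φ z‖ < δ0 := by
      rw [← dist_eq_norm]
      have := dist_triangle_right (φ y) (φ z) (φ x)
      linarith [h1.1, h2.1]
    have h4 := hinf0 (φ y) (hinB y hy) (φ z) (hinB z hz) h3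
    rw [h1.2.2, h2.2.2] at h4
    have h5 := hlow (φ y) (hinB y hy) (φ z - φ y)
    have h6 := (abs_le.1 h4).1
    have h7 : sl / 2 * ‖φ z - φ y‖ ≤ dist y z := by linarith
    rw [hK]
    calc ‖φ z - φ y‖ = 2 / sl * (sl / 2 * ‖φ z - φ y‖) := by field_simp
      _ ≤ 2 / sl * dist y z := mul_le_mul_of_nonneg_left h7 (by positivity)
  set K1 : ℝ := Real.sqrt |Lam| + sl / 2 with hK1
  have hK10 : 0 < K1 := by positivity
  have hlipψ : ∀ p q, dist p (φ x) < min (δ0 / 2) (R / 2) → dist q (φ x) < min (δ0 / 2) (R / 2) →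
      dist (ψ p) (ψ q) ≤ K1 * dist p q := by
    intro p q hp hq
    have h1 := lt_min_iff.1 hp
    have h2 := lt_min_iff.1 hq
    have hpB : p ∈ Metric.ball (φ x) R := Metric.mem_ball.2 (by linarith [h1.2])
    have hqB : q ∈ Metric.ball (φ x) R := Metric.mem_ball.2 (by linarith [h2.2])
    have h3 : ‖p - q‖ < δ0 := by
      rw [← dist_eq_norm]
      have := dist_triangle_right p q (φ x)
      linarith [h1.1, h2.1]
    have h4 := (abs_le.1 (hinf0 p hpB q hqB h3)).2
    have h5 : Real.sqrt (g p (q - p)) ≤ Real.sqrt |Lam| * ‖q - p‖ := by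
      rw [Real.sqrt_le_left (by positivity), mul_pow, Real.sq_sqrt (abs_nonneg _)]
      refine (hg p hpB (q - p)).2.trans ?_
      exact mul_le_mul_of_nonneg_right (le_abs_self _) (by positivity)
    rw [dist_eq_norm p q, norm_sub_rev p q, hK1]
    linarith
  -- the new constants
  set K2 : ℝ := max K K1 with hK2
  have hK20 : 0 < K2 := lt_max_of_lt_left hK0
  set r : ℝ := min (min (ρ / 4) (min (δ0 / 2) (R / 2) / K2)) (sl / (18 * K * (C + 1))) with hr
  have hr0 : 0 < r := by positivity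
  have hrρ : 4 * r ≤ ρ := by
    have : r ≤ ρ / 4 := (min_le_left _ _).trans (min_le_left _ _)
    linarith
  have hrK : K2 * r ≤ min (δ0 / 2) (R / 2) := by
    have : r ≤ min (δ0 / 2) (R / 2) / K2 := (min_le_left _ _).trans (min_le_right _ _)
    rw [le_div_iff₀ hK20] at this
    linarith
  have hrC : C * (K ^ 2 * (18 * r ^ 2)) ≤ lam / 16 := by
    have h1 : r ≤ sl / (18 * K * (C + 1)) := min_le_right _ _
    rw [le_div_iff₀ (by positivity)] at h1
    have h2 : (r * (18 * K * (C + 1))) ^ 2 ≤ sl ^ 2 := pow_le_pow_left₀ (by positivity) h1 2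
    rw [hsl2] at h2
    have h3 : 0 ≤ K ^ 2 * r ^ 2 := by positivity
    have h4 : C ≤ (C + 1) ^ 2 := by nlinarith
    have h5 := mul_le_mul_of_nonneg_right h4 h3
    nlinarith
  -- the inequality with an error
  have claim : ∀ y m m' : M, dist y x < r → dist m x < r → dist m' x < r →
      ∀ ε : ℝ, 0 < ε → ε < r →
      dist y (ψ ((1 / 2 : ℝ) • (φ m + φ m'))) ^ 2 ≤
        (1 + ε / sl) ^ 2 * ((((1 + ε * K) * (dist y m + ε)) ^ 2 +
          ((1 + ε * K) * (dist y m' + ε)) ^ 2) / 2 - lam / 16 * ‖φ m - φ m'‖ ^ 2) := by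
    intro y m m' hy hm hm' ε hε hεr
    obtain ⟨δ, hδ, hinfε⟩ := hinf ε hε
    set L := dist y m + ε with hLd
    set L' := dist y m' + ε with hLd'
    have hL3 : L ≤ 3 * r := by
      have := dist_triangle_right y m x
      linarith
    have hL3' : L' ≤ 3 * r := by
      have := dist_triangle_right y m' x
      linarith
    have hL0 : 0 ≤ L := by positivity
    have hL0' : 0 ≤ L' := by positivity
    -- the number of steps
    obtain ⟨n, hn⟩ := exists_nat_gt (K * (3 * r) / δ)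
    set N : ℕ := 2 ^ n with hN
    have hNpos : 0 < N := by positivity
    have hNR : (0 : ℝ) < (N : ℝ) := by exact_mod_cast hNpos
    have hNcast : (2 : ℝ) ^ n = (N : ℝ) := by rw [hN]; push_cast; rfl
    have hnN : (n : ℝ) < (N : ℝ) := by exact_mod_cast Nat.lt_two_pow_self
    have hfine : K * (3 * r) / N < δ := by
      rw [div_lt_iff₀ hNR]
      rw [div_lt_iff₀ hδ] at hn
      nlinarith
    obtain ⟨a, a0, a1, a2, a3⟩ := chain hpath hρU n y m L (by linarith) (by linarith) (by linarith)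
    obtain ⟨a', a0', a1', a2', a3'⟩ := chain hpath hρU n y m' L' (by linarith) (by linarith)
      (by linarith)
    rw [← hN] at a1 a1'
    have b2 : ∀ i < N, dist (a i) (a (i + 1)) ≤ L / N := fun i hi => by
      rw [← hNcast]
      exact a2 i hi
    have b2' : ∀ i < N, dist (a' i) (a' (i + 1)) ≤ L' / N := fun i hi => by
      rw [← hNcast]
      exact a2' i hi
    -- general facts on one chain
    have one : ∀ (b : ℕ → M) (l : ℝ), 0 ≤ l → l ≤ 3 * r →
        (∀ i < N, dist (b i) (b (i + 1)) ≤ l / N) → (∀ i ≤ N, dist (b i) x ≤ ρ) → ∀ i < N,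
        ‖φ (b (i + 1)) - φ (b i)‖ ≤ K * l / N ∧
        g (φ (b i)) (φ (b (i + 1)) - φ (b i)) ≤ ((1 + ε * K) * l) ^ 2 / (N : ℝ) ^ 2 := by
      intro b l hl0 hl3 hb2 hb3 i hi
      have c1 := hb3 i hi.le
      have c2 := hb3 (i + 1) hi
      have c3 := hlipφ (b i) (b (i + 1)) c1 c2
      have c4 : ‖φ (b (i + 1)) - φ (b i)‖ ≤ K * l / N := by
        refine c3.trans ?_
        rw [mul_div_assoc]
        exact mul_le_mul_of_nonneg_left (hb2 i hi) hK0.le
      refine ⟨c4, ?_⟩
      have c5 : ‖φ (b i) - φ (b (i + 1))‖ < δ := by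
        rw [norm_sub_rev]
        refine lt_of_le_of_lt c4 (lt_of_le_of_lt ?_ hfine)
        exact div_le_div_of_nonneg_right (mul_le_mul_of_nonneg_left hl3 hK0.le) hNR.le
      have c6 := (abs_le.1 (hinfε _ (hinB _ c1) _ (hinB _ c2) c5)).1
      rw [(hin _ c1).2.2, (hin _ c2).2.2] at c6
      have c7 : Real.sqrt (g (φ (b i)) (φ (b (i + 1)) - φ (b i))) ≤ (1 + ε * K) * l / N := by
        have c8 := hb2 i hi
        have c9 : ε * ‖φ (b (i + 1)) - φ (b i)‖ ≤ ε * (K * l / N) :=
          mul_le_mul_of_nonneg_left c4 hε.le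
        have c10 : (1 + ε * K) * l / N = l / N + ε * (K * l / N) := by ring
        rw [c10]
        linarith
      have c8 := pow_le_pow_left₀ (Real.sqrt_nonneg _) c7 2
      rw [Real.sq_sqrt (hgn _ (hinB _ c1) _), div_pow] at c8
      exact c8
    have f1 := one a L hL0 hL3 b2 a3
    have f1' := one a' L' hL0' hL3' b2' a3'
    -- the midpoints
    set q : ℕ → E := fun i => (1 / 2 : ℝ) • (φ (a i) + φ (a' i)) with hq
    set w : ℕ → E := fun i => (1 / 2 : ℝ) • ((φ (a (i + 1)) - φ (a i)) +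
      (φ (a' (i + 1)) - φ (a' i))) with hw
    have hqB : ∀ i ≤ N, q i ∈ Metric.ball (φ x) R := by
      intro i hi
      have c1 := hinB _ (a3 i hi)
      have c2 := hinB _ (a3' i hi)
      have c3 := (convex_ball (φ x) R) c1 c2 (show (0 : ℝ) ≤ 1 / 2 by norm_num)
        (show (0 : ℝ) ≤ 1 / 2 by norm_num) (by norm_num)
      rw [hq]
      simp only
      rwa [smul_add]
    have hqw : ∀ i, q (i + 1) - q i = w i := by
      intro i
      rw [hq, hw]
      simp only
      rw [← smul_sub]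
      congr 1
      abel
    have hwn : ∀ i < N, ‖w i‖ < δ := by
      intro i hi
      refine lt_of_le_of_lt ?_ hfine
      rw [hw]
      simp only
      rw [norm_smul, Real.norm_eq_abs, abs_of_pos (show (0 : ℝ) < 1 / 2 by norm_num)]
      have c1 := norm_add_le (φ (a (i + 1)) - φ (a i)) (φ (a' (i + 1)) - φ (a' i))
      have c2 : K * L / N ≤ K * (3 * r) / N :=
        div_le_div_of_nonneg_right (mul_le_mul_of_nonneg_left hL3 hK0.le) hNR.le
      have c3 : K * L' / N ≤ K * (3 * r) / N :=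
        div_le_div_of_nonneg_right (mul_le_mul_of_nonneg_left hL3' hK0.le) hNR.le
      have c4 := (f1 i hi).1
      have c5 := (f1' i hi).1
      linarith
    have hdist : ∀ i < N, dist (ψ (q i)) (ψ (q (i + 1))) ^ 2 ≤
        (1 + ε / sl) ^ 2 * g (q i) (w i) := by
      intro i hi
      have c1 : ‖q i - q (i + 1)‖ < δ := by
        rw [norm_sub_rev, hqw]
        exact hwn i hi
      have c2 := (abs_le.1 (hinfε _ (hqB i hi.le) _ (hqB (i + 1) hi) c1)).2
      rw [hqw] at c2
      have c3 := hlow (q i) (hqB i hi.le) (w i)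
      have c4 : ‖w i‖ ≤ Real.sqrt (g (q i) (w i)) / sl := by
        rw [le_div_iff₀ hsl0]
        linarith
      have c5 : dist (ψ (q i)) (ψ (q (i + 1))) ≤ (1 + ε / sl) * Real.sqrt (g (q i) (w i)) := by
        have c6 := mul_le_mul_of_nonneg_left c4 hε.le
        have c7 : (1 + ε / sl) * Real.sqrt (g (q i) (w i)) = Real.sqrt (g (q i) (w i)) +
            ε * (Real.sqrt (g (q i) (w i)) / sl) := by ring
        rw [c7]
        linarith
      have c6 := pow_le_pow_left₀ dist_nonneg c5 2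
      rwa [mul_pow, Real.sq_sqrt (hgn _ (hqB i hi.le) _)] at c6
    -- the energy
    have hen := energy (p := fun i => φ (a i)) (p' := fun i => φ (a' i)) (N := N) hNpos
      (by rw [a0, a0'])
      (G := fun i => g (φ (a i)) (φ (a (i + 1)) - φ (a i)))
      (G' := fun i => g (φ (a' i)) (φ (a' (i + 1)) - φ (a' i)))
      (W := fun i => g (q i) (w i)) (lam := lam) (C := C)
      (A := ((1 + ε * K) * L) ^ 2) (A' := ((1 + ε * K) * L') ^ 2) (Q := K ^ 2 * (18 * r ^ 2))
      hC.le (fun i hi => (f1 i hi).2) (fun i hi => (f1' i hi).2)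
      (fun i hi => by
        have c1 := pow_le_pow_left₀ (norm_nonneg _) (f1 i hi).1 2
        have c2 := pow_le_pow_left₀ (norm_nonneg _) (f1' i hi).1 2
        rw [div_pow, mul_pow] at c1 c2
        have c3 : L ^ 2 ≤ (3 * r) ^ 2 := pow_le_pow_left₀ hL0 hL3 2
        have c4 : L' ^ 2 ≤ (3 * r) ^ 2 := pow_le_pow_left₀ hL0' hL3' 2
        have c5 : K ^ 2 * L ^ 2 / (N : ℝ) ^ 2 + K ^ 2 * L' ^ 2 / (N : ℝ) ^ 2 ≤
            K ^ 2 * (18 * r ^ 2) / (N : ℝ) ^ 2 := by
          rw [← add_div, ← mul_add]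
          refine div_le_div_of_nonneg_right (mul_le_mul_of_nonneg_left ?_ (by positivity))
            (by positivity)
          nlinarith
        linarith)
      (fun i hi => hmid _ (hinB _ (a3 i hi.le)) _ (hinB _ (a3' i hi.le)) _ _)
      hrC hlam.le
    rw [a1, a1'] at hen
    -- the conclusion
    have hq0 : ψ (q 0) = y := by
      have c1 : q 0 = φ y := by
        rw [hq]
        simp only
        rw [a0, a0', ← two_smul ℝ (φ y), smul_smul]
        norm_num
      rw [c1]
      exact (hin y (by linarith)).2.2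
    have hqN : q N = (1 / 2 : ℝ) • (φ m + φ m') := by
      rw [hq]
      simp only
      rw [a1, a1']
    have hD : dist y (ψ ((1 / 2 : ℝ) • (φ m + φ m'))) ≤
        ∑ i ∈ Finset.range N, dist (ψ (q i)) (ψ (q (i + 1))) := by
      rw [← hqN]
      conv_lhs => rw [← hq0]
      exact dist_le_range_sum_dist (fun i => ψ (q i)) N
    have hcs := sq_sum_le_card_mul_sum_sq (s := Finset.range N)
      (f := fun i => dist (ψ (q i)) (ψ (q (i + 1))))
    rw [Finset.card_range] at hcs
    calc dist y (ψ ((1 / 2 : ℝ) • (φ m + φ m'))) ^ 2 ≤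
        (∑ i ∈ Finset.range N, dist (ψ (q i)) (ψ (q (i + 1)))) ^ 2 :=
          pow_le_pow_left₀ dist_nonneg hD 2
      _ ≤ (N : ℝ) * ∑ i ∈ Finset.range N, dist (ψ (q i)) (ψ (q (i + 1))) ^ 2 := hcs
      _ ≤ (N : ℝ) * ∑ i ∈ Finset.range N, (1 + ε / sl) ^ 2 * g (q i) (w i) := by
          refine mul_le_mul_of_nonneg_left (Finset.sum_le_sum fun i hi => ?_) hNR.le
          exact hdist i (Finset.mem_range.1 hi)
      _ = (1 + ε / sl) ^ 2 * ((N : ℝ) * ∑ i ∈ Finset.range N, g (q i) (w i)) := by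
          rw [← Finset.mul_sum]
          ring
      _ ≤ _ := mul_le_mul_of_nonneg_left hen (by positivity)
  refine ⟨⟨K2, hK20.le⟩, r, lam / 16, φ, ψ, ?_, hr0, by positivity, ?_, ?_, ?_, ?_⟩
  · exact hK20
  · refine LipschitzOnWith.of_dist_le_mul fun y hy z hz => ?_
    rw [Metric.mem_ball] at hy hz
    have h1 := hlipφ z y (by linarith) (by linarith)
    rw [dist_eq_norm, dist_comm y z]
    refine h1.trans ?_
    exact mul_le_mul_of_nonneg_right (le_max_left _ _) dist_nonneg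
  · intro y hy
    rw [Metric.mem_ball] at hy
    exact (hin y (by linarith)).2.2
  · refine LipschitzOnWith.of_dist_le_mul fun p hp q hq => ?_
    rw [Metric.mem_ball] at hp hq
    have h1 := hlipψ p q (lt_of_lt_of_le hp hrK) (lt_of_lt_of_le hq hrK)
    refine h1.trans ?_
    exact mul_le_mul_of_nonneg_right (le_max_right _ _) dist_nonneg
  · intro y hy m hm m' hm'
    rw [Metric.mem_ball] at hy hm hm'
    set F : ℝ → ℝ := fun ε => (1 + ε / sl) ^ 2 * ((((1 + ε * K) * (dist y m + ε)) ^ 2 +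
          ((1 + ε * K) * (dist y m' + ε)) ^ 2) / 2 - lam / 16 * ‖φ m - φ m'‖ ^ 2) with hF
    have hFc : Continuous F := by
      rw [hF]
      fun_prop
    have hF0 : F 0 = dist y m ^ 2 / 2 + dist y m' ^ 2 / 2 - lam / 16 * ‖φ m - φ m'‖ ^ 2 := by
      rw [hF]
      simp only
      ring
    rw [← hF0]
    have ht : Filter.Tendsto F (𝓝[>] 0) (𝓝 (F 0)) :=
      (hFc.tendsto 0).mono_left nhdsWithin_le_nhds
    refine ge_of_tendsto ht ?_
    filter_upwards [Ioo_mem_nhdsGT hr0] with ε hε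
    exact claim y m m' hy hm hm' ε hε.1 hε.2

end Pool.Agent.TH317.CC
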