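import Pool.Agent.TH32.H.Stmts

set_option autoImplicit false

/-!
# Closed submodules of `R⁴` in terms of triples `(b, N, w)` (job 1985)
-/

namespace Pool.Agent.TH959.TZHA

open Pool.Agent.H260TZ Pool.Agent.TH32 Submodule

section
variable {R : Type} [CommRing R]

lemma mulR_cH (x y : Fin 4 → R) :
    mulR cH R x y = ![x 2 * y 3, 0, x 0 * y 1, x 1 * y 0] := by
  funext k
  unfold mulR cH
  fin_cases k <;> simp [Fin.sum_univ_four]

/-- coordinates `(b; ((c, d), a))` -/
def co4 (R : Type) [CommRing R] : (Fin 4 → R) ≃ₗ[R] (R × MR R) where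
  toFun x := (x 1, ((x 2, x 3), x 0))
  map_add' _ _ := rfl
  map_smul' _ _ := rfl
  invFun u := ![u.2.2, u.1, u.2.1.1, u.2.1.2]
  left_inv x := by
    funext k
    fin_cases k <;> rfl
  right_inv u := rfl

/-- the multiplication in the coordinates `(b; ((c, d), a))` -/
def mulM (u v : R × MR R) : R × MR R :=
  (0, ((u.2.2 * v.1, u.1 * v.2.2), u.2.1.1 * v.2.1.2))

lemma co4_mul (x y : Fin 4 → R) : co4 R (mulR cH R x y) = mulM (co4 R x) (co4 R y) := by
  rw [mulR_cH]
  rfl

lemma idx_map_co4 (U : Submodule R (Fin 4 → R)) : idx (U.map (co4 R).toLinearMap) = idx U := by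
  rw [idx_map_inj _ (co4 R).injective, LinearMap.range_eq_top.mpr (co4 R).surjective, idx_top,
    mul_one]

/-- closed submodules -/
def CLM (U : Submodule R (R × MR R)) : Prop := ∀ u ∈ U, ∀ v ∈ U, mulM u v ∈ U

/-- closed submodules of finite index -/
abbrev UM (R : Type) [CommRing R] : Type := {U : Submodule R (R × MR R) // CLM U ∧ idx U ≠ 0}

/-- transfer of closed submodules of finite index -/
noncomputable def trM (R : Type) [CommRing R] : FinSub cH R ≃ UM R where
  toFun U := ⟨U.1.map (co4 R).toLinearMap, by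
    constructor
    · rintro _ ⟨x, hx, rfl⟩ _ ⟨y, hy, rfl⟩
      have h := U.2.1 x hx y hy
      have h2 := Submodule.mem_map_of_mem (f := (co4 R).toLinearMap) h
      have h3 : (co4 R).toLinearMap (mulR cH R x y) = mulM (co4 R x) (co4 R y) := co4_mul x y
      rw [h3] at h2
      exact h2
    · rw [idx_map_co4]
      have := U.2.2
      have h4 : 0 < Nat.card ((Fin 4 → R) ⧸ U.1) := Nat.card_pos
      exact h4.ne'⟩
  invFun V := ⟨V.1.comap (co4 R).toLinearMap, by
    have hmc : (V.1.comap (co4 R).toLinearMap).map (co4 R).toLinearMap = V.1 :=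
      Submodule.map_comap_eq_of_surjective (co4 R).surjective _
    constructor
    · intro x hx y hy
      have h := V.2.1 _ hx _ hy
      have h3 : (co4 R).toLinearMap (mulR cH R x y) = mulM (co4 R x) (co4 R y) := co4_mul x y
      show (co4 R).toLinearMap (mulR cH R x y) ∈ V.1
      rw [h3]
      exact h
    · have h5 : idx (V.1.comap (co4 R).toLinearMap) ≠ 0 := by
        rw [← idx_map_co4, hmc]; exact V.2.2
      exact Nat.finite_of_card_ne_zero h5⟩
  left_inv U := Subtype.ext (Submodule.comap_map_eq_of_injective (co4 R).injective _)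
  right_inv V := Subtype.ext (Submodule.map_comap_eq_of_surjective (co4 R).surjective _)

lemma idx_trM (U : FinSub cH R) : idx (trM R U).1 = idx U.1 := idx_map_co4 U.1

end

section
variable {R : Type} [CommRing R] [IsDomain R] (D : DV R)

/-- the submodule spanned by `0 × N` and `(t^b, w)` -/
def Ub (b : ℕ) (N : Submodule R (MR R)) (w : MR R ⧸ N) : Submodule R (R × MR R) where
  carrier := {u | ∃ a : R, u.1 = D.t ^ b * a ∧ N.mkQ u.2 = a • w}
  zero_mem' := ⟨0, by simp, by simp⟩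
  add_mem' := by
    rintro u v ⟨a, h1, h2⟩ ⟨a', h3, h4⟩
    exact ⟨a + a', by rw [Prod.fst_add, h1, h3]; ring, by
      rw [Prod.snd_add, map_add, h2, h4, add_smul]⟩
  smul_mem' := by
    rintro c u ⟨a, h1, h2⟩
    exact ⟨c * a, by rw [Prod.smul_fst, h1, smul_eq_mul]; ring, by
      rw [Prod.smul_snd, map_smul, h2, mul_smul]⟩

lemma mem_Ub {b : ℕ} {N : Submodule R (MR R)} {w : MR R ⧸ N} {u : R × MR R} :
    u ∈ Ub D b N w ↔ ∃ a : R, u.1 = D.t ^ b * a ∧ N.mkQ u.2 = a • w := Iff.rfl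

lemma Ub_fst (b : ℕ) (N : Submodule R (MR R)) (w : MR R ⧸ N) :
    (Ub D b N w).map (LinearMap.fst R R (MR R)) = Ideal.span {D.t ^ b} := by
  ext x
  rw [Ideal.mem_span_singleton]
  constructor
  · rintro ⟨u, ⟨a, h1, -⟩, rfl⟩
    exact ⟨a, h1⟩
  · rintro ⟨a, rfl⟩
    obtain ⟨v, hv⟩ := Submodule.mkQ_surjective N (a • w)
    exact ⟨(D.t ^ b * a, v), ⟨a, rfl, hv⟩, rfl⟩

lemma Ub_inr (b : ℕ) (N : Submodule R (MR R)) (w : MR R ⧸ N) :
    (Ub D b N w).comap (LinearMap.inr R R (MR R)) = N := by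
  ext z
  rw [Submodule.mem_comap]
  constructor
  · rintro ⟨a, h1, h2⟩
    have ha : a = 0 := by
      have h3 : D.t ^ b * a = 0 := h1.symm
      exact (mul_eq_zero.1 h3).resolve_left (D.tpow_ne b)
    rw [ha, zero_smul] at h2
    exact (Submodule.Quotient.mk_eq_zero N).1 h2
  · intro hz
    refine ⟨0, ?_, ?_⟩
    · show (0 : R) = _
      rw [mul_zero]
    · rw [zero_smul]
      exact (Submodule.Quotient.mk_eq_zero N).2 hz

lemma idx_Ub (b : ℕ) (N : Submodule R (MR R)) (w : MR R ⧸ N) :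
    idx (Ub D b N w) = D.q ^ b * idx N := by
  rw [idx_fst, Ub_fst, Ub_inr, D.idx_span]

lemma Ub_closed (b : ℕ) (N : Submodule R (MR R)) (v : MR R) (h : Clos D b N v) :
    CLM (Ub D b N (Submodule.Quotient.mk v)) := by
  obtain ⟨h1, h2, h3, h4⟩ := h
  rintro u ⟨a, ha, hu⟩ u' ⟨a', ha', hu'⟩
  have hn : u.2 - a • v ∈ N := by
    rw [← Submodule.Quotient.mk_eq_zero, ← Submodule.mkQ_apply, map_sub, hu, map_smul,
      Submodule.mkQ_apply, sub_self]
  have hn' : u'.2 - a' • v ∈ N := by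
    rw [← Submodule.Quotient.mk_eq_zero, ← Submodule.mkQ_apply, map_sub, hu', map_smul,
      Submodule.mkQ_apply, sub_self]
  set n := u.2 - a • v with hndef
  set n' := u'.2 - a' • v with hndef'
  have e1 : u.2 = a • v + n := by rw [hndef]; abel
  have e2 : u'.2 = a' • v + n' := by rw [hndef']; abel
  have hm : (mulM u u').2 ∈ N := by
    have key : (mulM u u').2 = (a * a') • (((D.t ^ b * v.2, D.t ^ b * v.2), v.1.1 * v.1.2) : MR R) +
        a • (((0, D.t ^ b * n'.2), v.1.1 * n'.1.2) : MR R) +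
        a' • (((D.t ^ b * n.2, 0), n.1.1 * v.1.2) : MR R) +
        (((0, 0), n.1.1 * n'.1.2) : MR R) := by
      unfold mulM
      rw [e1, e2, ha, ha']
      refine Prod.ext (Prod.ext ?_ ?_) ?_
      · simp only [Prod.fst_add, Prod.snd_add, Prod.smul_fst, Prod.smul_snd, smul_eq_mul]
        ring
      · simp only [Prod.fst_add, Prod.snd_add, Prod.smul_fst, Prod.smul_snd, smul_eq_mul]
        ring
      · simp only [Prod.fst_add, Prod.snd_add, Prod.smul_fst, Prod.smul_snd, smul_eq_mul]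
        ring
    rw [key]
    exact N.add_mem (N.add_mem (N.add_mem (N.smul_mem _ h4) (N.smul_mem _ (h3 n' hn')))
      (N.smul_mem _ (h2 n hn))) (h1 n hn n' hn')
  refine ⟨0, ?_, ?_⟩
  · show (0 : R) = _
    rw [mul_zero]
  · rw [zero_smul]
    exact (Submodule.Quotient.mk_eq_zero N).2 hm

lemma clos_of (b : ℕ) (N : Submodule R (MR R)) (v : MR R) (U : Submodule R (R × MR R))
    (hU : CLM U) (hN : U.comap (LinearMap.inr R R (MR R)) = N)
    (hv : ((D.t ^ b, v) : R × MR R) ∈ U) : Clos D b N v := by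
  have hin : ∀ z, z ∈ N ↔ (((0 : R), z) : R × MR R) ∈ U := by
    intro z
    rw [← hN]
    rfl
  refine ⟨?_, ?_, ?_, ?_⟩
  · intro u hu v' hv'
    rw [hin] at hu hv' ⊢
    have h := hU _ hu _ hv'
    have e : mulM (((0 : R), u) : R × MR R) ((0 : R), v') =
        ((0 : R), (((0, 0), u.1.1 * v'.1.2) : MR R)) := by
      unfold mulM
      simp
    rwa [e] at h
  · intro u hu
    rw [hin] at hu ⊢
    have h := hU _ hu _ hv
    have e : mulM (((0 : R), u) : R × MR R) (D.t ^ b, v) =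
        ((0 : R), (((D.t ^ b * u.2, 0), u.1.1 * v.1.2) : MR R)) := by
      unfold mulM
      simp [mul_comm]
    rwa [e] at h
  · intro u hu
    rw [hin] at hu ⊢
    have h := hU _ hv _ hu
    have e : mulM ((D.t ^ b, v) : R × MR R) ((0 : R), u) =
        ((0 : R), (((0, D.t ^ b * u.2), v.1.1 * u.1.2) : MR R)) := by
      unfold mulM
      simp
    rwa [e] at h
  · unfold C4
    rw [hin]
    have h := hU _ hv _ hv
    have e : mulM ((D.t ^ b, v) : R × MR R) (D.t ^ b, v) =
        ((0 : R), (((D.t ^ b * v.2, D.t ^ b * v.2), v.1.1 * v.1.2) : MR R)) := by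
      unfold mulM
      simp [mul_comm]
    rwa [e] at h

/-- the parameters -/
abbrev Par (R : Type) [CommRing R] [IsDomain R] (D : DV R) : Type :=
  Σ p : ℕ × {N : Submodule R (MR R) // idx N ≠ 0},
    {w : MR R ⧸ p.2.1 // ∃ v, Submodule.Quotient.mk v = w ∧ Clos D p.1 p.2.1 v}

/-- the closed submodule of a parameter -/
def toU (s : Par R D) : UM R :=
  ⟨Ub D s.1.1 s.1.2.1 s.2.1, by
    obtain ⟨v, hv, hc⟩ := s.2.2
    constructor
    · rw [← hv]
      exact Ub_closed D _ _ v hc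
    · rw [idx_Ub]
      exact mul_ne_zero (pow_ne_zero _ D.q_pos.ne') s.1.2.2⟩

lemma toU_inj : Function.Injective (toU D) := by
  rintro ⟨⟨b, N, hN⟩, w, hw⟩ ⟨⟨b', N', hN'⟩, w', hw'⟩ h
  have hU : Ub D b N w = Ub D b' N' w' := congrArg Subtype.val h
  have hb : b = b' := by
    have h1 := Ub_fst D b N w
    rw [hU, Ub_fst] at h1
    have h2 := D.idx_span b
    rw [← h1, D.idx_span] at h2
    exact (Nat.pow_right_injective D.two_le h2).symm
  subst hb
  have hNN : N = N' := by
    rw [← Ub_inr D b N w, hU, Ub_inr]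
  subst hNN
  have hww : w = w' := by
    obtain ⟨v, hv⟩ := Submodule.mkQ_surjective N w
    have h1 : ((D.t ^ b, v) : R × MR R) ∈ Ub D b N w := ⟨1, by rw [mul_one], by rw [one_smul, hv]⟩
    rw [hU] at h1
    obtain ⟨a, h2, h3⟩ := h1
    have ha : a = 1 := by
      have h4 : D.t ^ b * 1 = D.t ^ b * a := by rw [mul_one]; exact h2
      exact (mul_left_cancel₀ (D.tpow_ne b) h4).symm
    rw [ha, one_smul] at h3
    rw [← hv, h3]
  subst hww
  rfl

lemma toU_surj : Function.Surjective (toU D) := by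
  rintro ⟨U, hU, hidx⟩
  have hI : idx (U.map (LinearMap.fst R R (MR R))) ≠ 0 := by
    intro h
    apply hidx
    rw [idx_fst, h, zero_mul]
  have hN : idx (U.comap (LinearMap.inr R R (MR R))) ≠ 0 := by
    intro h
    apply hidx
    rw [idx_fst, h, mul_zero]
  obtain ⟨b, hb⟩ := D.idl_of_idx hI
  have h1 : D.t ^ b ∈ U.map (LinearMap.fst R R (MR R)) := by
    rw [hb, Ideal.mem_span_singleton]
  obtain ⟨⟨x, v⟩, hxv, hx⟩ := h1
  have hx' : x = D.t ^ b := hx
  subst hx'
  refine ⟨⟨(b, ⟨U.comap (LinearMap.inr R R (MR R)), hN⟩), ⟨Submodule.Quotient.mk v,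
    v, rfl, clos_of D b _ v U hU rfl hxv⟩⟩, ?_⟩
  apply Subtype.ext
  show Ub D b (U.comap (LinearMap.inr R R (MR R))) (Submodule.Quotient.mk v) = U
  ext u
  have key : ∀ a : R, u.1 = D.t ^ b * a →
      (u ∈ U ↔ (U.comap (LinearMap.inr R R (MR R))).mkQ u.2 =
        a • (Submodule.Quotient.mk v : MR R ⧸ U.comap (LinearMap.inr R R (MR R)))) := by
    intro a ha
    have e1 : u = a • ((D.t ^ b, v) : R × MR R) + ((0 : R), u.2 - a • v) := by
      refine Prod.ext ?_ ?_
      · show u.1 = a * D.t ^ b + 0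
        rw [ha]; ring
      · show u.2 = a • v + (u.2 - a • v)
        abel
    conv_lhs => rw [e1]
    rw [Submodule.add_mem_iff_right _ (U.smul_mem _ hxv)]
    have e2 : (((0 : R), u.2 - a • v) : R × MR R) ∈ U ↔
        u.2 - a • v ∈ U.comap (LinearMap.inr R R (MR R)) := Iff.rfl
    rw [e2, ← Submodule.Quotient.mk_eq_zero, ← Submodule.mkQ_apply, map_sub, map_smul, sub_eq_zero]
    rfl
  constructor
  · rintro ⟨a, h2, h3⟩
    exact (key a h2).2 h3
  · intro hu
    have h2 : u.1 ∈ U.map (LinearMap.fst R R (MR R)) := ⟨u, hu, rfl⟩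
    rw [hb, Ideal.mem_span_singleton] at h2
    obtain ⟨a, ha⟩ := h2
    exact ⟨a, ha, (key a ha).1 hu⟩

/-- closed submodules of finite index and parameters -/
noncomputable def parU : Par R D ≃ UM R := Equiv.ofBijective (toU D) ⟨toU_inj D, toU_surj D⟩

lemma log_pow_mul {q : ℕ} (hq : 1 < q) (b y : ℕ) (hy : y ≠ 0) :
    Nat.log q (q ^ b * y) = b + Nat.log q y := by
  induction b with
  | zero => simp
  | succ b ih =>
    have h1 : q ^ b * y ≠ 0 := mul_ne_zero (pow_ne_zero _ (by omega)) hy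
    have h2 : q ^ (b + 1) * y = q ^ b * y * q := by ring
    rw [h2, Nat.log_mul_base hq h1, ih]
    ring

end

theorem s1a : S1AStmt := by
  intro R _ _ D x _
  have hq : 1 < D.q := D.two_le
  have e1 : (∑' U : FinSub cH R, ENNReal.ofReal (x ^ Nat.log D.q (Nat.card ((Fin 4 → R) ⧸ U.1)))) =
      ∑' V : UM R, ENNReal.ofReal (x ^ Nat.log D.q (idx V.1)) := by
    rw [← (trM R).tsum_eq]
    refine tsum_congr fun U => ?_
    rw [idx_trM]
    rfl
  have e2 : (∑' V : UM R, ENNReal.ofReal (x ^ Nat.log D.q (idx V.1))) =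
      ∑' s : Par R D, ENNReal.ofReal (x ^ (s.1.1 + Nat.log D.q (idx s.1.2.1))) := by
    rw [← (parU D).tsum_eq]
    refine tsum_congr fun s => ?_
    have h1 : ((parU D) s).1 = Ub D s.1.1 s.1.2.1 s.2.1 := rfl
    rw [h1, idx_Ub, log_pow_mul hq _ _ s.1.2.2]
  rw [e1, e2, ENNReal.tsum_sigma', ENNReal.tsum_prod']
  refine tsum_congr fun b => tsum_congr fun N => ?_
  have hfin : Finite (MR R ⧸ N.1) := Nat.finite_of_card_ne_zero N.2
  have := Fintype.ofFinite {w : MR R ⧸ N.1 // ∃ v, Submodule.Quotient.mk v = w ∧ Clos D b N.1 v}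
  show (∑' _ : {w : MR R ⧸ N.1 // ∃ v, Submodule.Quotient.mk v = w ∧ Clos D b N.1 v},
    ENNReal.ofReal (x ^ (b + Nat.log D.q (idx N.1)))) = _
  rw [tsum_fintype, Finset.sum_const, nsmul_eq_mul, mul_comm, Finset.card_univ,
    ← Nat.card_eq_fintype_card]
  rfl

end Pool.Agent.TH959.TZHA
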