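import Pool.Agent.TH32.H.Stmts

set_option autoImplicit false

/-!
# Parametrisation of the lattices of `(R × R) × R` (job 1990)
-/

namespace Pool.Agent.TH959.TZHB

open Pool.Agent.H260TZ Pool.Agent.TH32 Submodule

variable {R : Type} [CommRing R] [IsDomain R] (D : DV R)

/-- first basis vector of the projection -/
noncomputable def e1 (b : Bool) (m k : ℕ) (z : D.Q k) : R × R :=
  if b then (-(D.t ^ m * D.lift z), D.t ^ m) else (D.t ^ m, -(D.t ^ m * (D.t * D.lift z)))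

/-- second basis vector of the projection -/
noncomputable def e2 (b : Bool) (m k : ℕ) : R × R :=
  if b then (D.t ^ (m + k), 0) else (0, D.t ^ (m + (k + 1)))

/-- the lattice -/
def LN (f₁ f₂ : R × R) (n : ℕ) (τ₁ τ₂ : R) : Submodule R (MR R) where
  carrier := {u | ∃ x y : R, u.1 = x • f₁ + y • f₂ ∧ D.t ^ n ∣ u.2 - (x * τ₁ + y * τ₂)}
  zero_mem' := ⟨0, 0, by simp, by simp⟩
  add_mem' := by
    rintro u v ⟨x, y, h1, h2⟩ ⟨x', y', h3, h4⟩
    refine ⟨x + x', y + y', ?_, ?_⟩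
    · rw [Prod.fst_add, h1, h3, add_smul, add_smul]; abel
    · have h := dvd_add h2 h4
      have e : u.2 - (x * τ₁ + y * τ₂) + (v.2 - (x' * τ₁ + y' * τ₂)) =
          (u + v).2 - ((x + x') * τ₁ + (y + y') * τ₂) := by
        rw [Prod.snd_add]; ring
      rwa [e] at h
  smul_mem' := by
    rintro c u ⟨x, y, h1, h2⟩
    refine ⟨c * x, c * y, ?_, ?_⟩
    · rw [Prod.smul_fst, h1, smul_add, mul_smul, mul_smul]
    · have h := h2.mul_left c
      have e : c * (u.2 - (x * τ₁ + y * τ₂)) = (c • u).2 - (c * x * τ₁ + c * y * τ₂) := by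
        rw [Prod.smul_snd, smul_eq_mul]; ring
      rwa [e] at h

lemma mem_LN {f₁ f₂ : R × R} {n : ℕ} {τ₁ τ₂ : R} {u : MR R} :
    u ∈ LN D f₁ f₂ n τ₁ τ₂ ↔
      ∃ x y : R, u.1 = x • f₁ + y • f₂ ∧ D.t ^ n ∣ u.2 - (x * τ₁ + y * τ₂) := Iff.rfl

lemma span_eq (f₁ f₂ : R × R) (n : ℕ) (τ₁ τ₂ : R) :
    Submodule.span R ({(f₁, τ₁), (f₂, τ₂), (((0 : R), (0 : R)), D.t ^ n)} : Set (MR R)) =
      LN D f₁ f₂ n τ₁ τ₂ := by
  ext u
  rw [Submodule.mem_span_insert]
  constructor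
  · rintro ⟨x, w, hw, rfl⟩
    rw [Submodule.mem_span_pair] at hw
    obtain ⟨y, c, rfl⟩ := hw
    refine ⟨x, y, ?_, ?_⟩
    · show x • f₁ + (y • f₂ + c • ((0 : R), (0 : R))) = _
      have : c • ((0 : R), (0 : R)) = 0 := smul_zero c
      rw [this, add_zero]
    · show D.t ^ n ∣ x * τ₁ + (y * τ₂ + c * D.t ^ n) - (x * τ₁ + y * τ₂)
      exact ⟨c, by ring⟩
  · rintro ⟨x, y, h1, c, hc⟩
    refine ⟨x, y • (f₂, τ₂) + c • (((0 : R), (0 : R)), D.t ^ n), ?_, ?_⟩
    · rw [Submodule.mem_span_pair]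
      exact ⟨y, c, rfl⟩
    · refine Prod.ext ?_ ?_
      · show u.1 = x • f₁ + (y • f₂ + c • ((0 : R), (0 : R)))
        have : c • ((0 : R), (0 : R)) = 0 := smul_zero c
        rw [this, add_zero, h1]
      · show u.2 = x * τ₁ + (y * τ₂ + c * D.t ^ n)
        rw [sub_eq_iff_eq_add.1 hc]; ring

/-- the parameters -/
abbrev Pm (D : DV R) : Type := Σ p : ℕ × ℕ × ℕ, Bool × (D.Q p.2.2 × (D.Q p.2.1 × D.Q p.2.1))

/-- the lattice of a parameter -/
noncomputable def GG (s : Pm D) : Submodule R (MR R) :=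
  if s.2.1 then NN D s.1.1 s.1.2.2 (D.lift s.2.2.1) s.1.2.1 (D.lift s.2.2.2.1)
      (D.lift s.2.2.2.2)
    else (NN D s.1.1 (s.1.2.2 + 1) (D.t * D.lift s.2.2.1) s.1.2.1 (D.lift s.2.2.2.1)
      (D.lift s.2.2.2.2)).map (swM R).toLinearMap

lemma GG_eq (s : Pm D) : GG D s = LN D (e1 D s.2.1 s.1.1 s.1.2.2 s.2.2.1)
    (e2 D s.2.1 s.1.1 s.1.2.2) s.1.2.1 (D.lift s.2.2.2.1) (D.lift s.2.2.2.2) := by
  obtain ⟨⟨m, n, k⟩, b, z, τ₁, τ₂⟩ := s
  cases b
  · unfold GG e1 e2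
    simp only [Bool.false_eq_true, if_false]
    unfold NN
    rw [Submodule.map_span, ← span_eq]
    congr 1
    ext u
    simp only [Set.mem_image, Set.mem_insert_iff, Set.mem_singleton_iff]
    constructor
    · rintro ⟨v, rfl | rfl | rfl, rfl⟩
      · exact Or.inl rfl
      · exact Or.inr (Or.inl rfl)
      · exact Or.inr (Or.inr rfl)
    · rintro (rfl | rfl | rfl)
      · exact ⟨_, Or.inl rfl, rfl⟩
      · exact ⟨_, Or.inr (Or.inl rfl), rfl⟩
      · exact ⟨_, Or.inr (Or.inr rfl), rfl⟩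
  · unfold GG e1 e2
    simp only [if_true]
    unfold NN
    rw [← span_eq]

lemma indep (b : Bool) (m k : ℕ) (z : D.Q k) {x y x' y' : R}
    (h : x • e1 D b m k z + y • e2 D b m k = x' • e1 D b m k z + y' • e2 D b m k) :
    x = x' ∧ y = y' := by
  cases b
  · unfold e1 e2 at h
    simp only [Bool.false_eq_true, if_false] at h
    have h1 := congrArg Prod.fst h
    have h2 := congrArg Prod.snd h
    simp only [Prod.fst_add, Prod.snd_add, Prod.smul_fst, Prod.smul_snd, smul_eq_mul, mul_zero,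
      add_zero] at h1 h2
    have h3 : x = x' := mul_right_cancel₀ (D.tpow_ne m) h1
    subst h3
    exact ⟨rfl, mul_right_cancel₀ (D.tpow_ne _) (add_left_cancel h2)⟩
  · unfold e1 e2 at h
    simp only [if_true] at h
    have h1 := congrArg Prod.fst h
    have h2 := congrArg Prod.snd h
    simp only [Prod.fst_add, Prod.snd_add, Prod.smul_fst, Prod.smul_snd, smul_eq_mul, mul_zero,
      add_zero] at h1 h2
    have h3 : x = x' := mul_right_cancel₀ (D.tpow_ne m) h2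
    subst h3
    exact ⟨rfl, mul_right_cancel₀ (D.tpow_ne _) (add_left_cancel h1)⟩

lemma mem_par (b : Bool) (m k : ℕ) (z : D.Q k) (v : R × R) :
    v ∈ D.par (m, (b, ⟨k, z⟩)) ↔ ∃ x y : R, v = x • e1 D b m k z + y • e2 D b m k := by
  cases b
  · unfold e1 e2 DV.par DV.pr
    simp only [Bool.false_eq_true, if_false]
    constructor
    · rintro ⟨w, hw, rfl⟩
      rw [SetLike.mem_coe, D.mem_K] at hw
      obtain ⟨c, hc⟩ := hw
      refine ⟨w.1, c, ?_⟩
      have h2 : w.2 = D.t ^ (k + 1) * c - D.t * D.lift z * w.1 := by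
        rw [← hc]; ring
      rw [D.sc_apply]
      refine Prod.ext ?_ ?_
      · show D.t ^ m * w.1 = w.1 * D.t ^ m + c * 0
        ring
      · show D.t ^ m * w.2 = w.1 * -(D.t ^ m * (D.t * D.lift z)) + c * D.t ^ (m + (k + 1))
        rw [h2, pow_add]; ring
    · rintro ⟨x, y, rfl⟩
      refine ⟨(x, -(D.t * D.lift z) * x + D.t ^ (k + 1) * y), ?_, ?_⟩
      · rw [SetLike.mem_coe, D.mem_K]
        exact ⟨y, by ring⟩
      · rw [D.sc_apply]
        refine Prod.ext ?_ ?_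
        · show D.t ^ m * x = x * D.t ^ m + y * 0
          ring
        · show D.t ^ m * (-(D.t * D.lift z) * x + D.t ^ (k + 1) * y) =
            x * -(D.t ^ m * (D.t * D.lift z)) + y * D.t ^ (m + (k + 1))
          rw [pow_add D.t m]; ring
  · unfold e1 e2 DV.par DV.pr
    simp only [if_true]
    constructor
    · rintro ⟨w, hw, rfl⟩
      rw [SetLike.mem_coe, D.mem_K] at hw
      obtain ⟨c, hc⟩ := hw
      refine ⟨w.2, c, ?_⟩
      have h2 : w.1 = D.t ^ k * c - D.lift z * w.2 := by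
        rw [← hc]; ring
      rw [D.sc_apply]
      refine Prod.ext ?_ ?_
      · show D.t ^ m * w.1 = w.2 * -(D.t ^ m * D.lift z) + c * D.t ^ (m + k)
        rw [h2, pow_add]; ring
      · show D.t ^ m * w.2 = w.2 * D.t ^ m + c * 0
        ring
    · rintro ⟨x, y, rfl⟩
      refine ⟨(-(D.lift z) * x + D.t ^ k * y, x), ?_, ?_⟩
      · rw [SetLike.mem_coe, D.mem_K]
        exact ⟨y, by ring⟩
      · rw [D.sc_apply]
        refine Prod.ext ?_ ?_
        · show D.t ^ m * (-(D.lift z) * x + D.t ^ k * y) =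
            x * -(D.t ^ m * D.lift z) + y * D.t ^ (m + k)
          rw [pow_add D.t m]; ring
        · show D.t ^ m * x = x * D.t ^ m + y * 0
          ring

lemma LN_fst (b : Bool) (m k : ℕ) (z : D.Q k) (n : ℕ) (τ₁ τ₂ : R) :
    (LN D (e1 D b m k z) (e2 D b m k) n τ₁ τ₂).map (LinearMap.fst R (R × R) R) =
      D.par (m, (b, ⟨k, z⟩)) := by
  ext v
  rw [mem_par]
  constructor
  · rintro ⟨u, ⟨x, y, h1, -⟩, rfl⟩
    exact ⟨x, y, h1⟩
  · rintro ⟨x, y, hv⟩
    exact ⟨(v, x * τ₁ + y * τ₂), ⟨x, y, hv, by simp⟩, rfl⟩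

lemma LN_inr (b : Bool) (m k : ℕ) (z : D.Q k) (n : ℕ) (τ₁ τ₂ : R) :
    (LN D (e1 D b m k z) (e2 D b m k) n τ₁ τ₂).comap (LinearMap.inr R (R × R) R) =
      Ideal.span {D.t ^ n} := by
  ext a
  rw [Submodule.mem_comap, Ideal.mem_span_singleton]
  constructor
  · rintro ⟨x, y, h1, h2⟩
    have h3 : x • e1 D b m k z + y • e2 D b m k =
        (0 : R) • e1 D b m k z + (0 : R) • e2 D b m k := by
      rw [← h1, zero_smul, zero_smul, add_zero]; rfl
    obtain ⟨rfl, rfl⟩ := indep D b m k z h3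
    have h4 : D.t ^ n ∣ a - (0 * τ₁ + 0 * τ₂) := h2
    simpa using h4
  · intro ha
    refine ⟨0, 0, ?_, ?_⟩
    · rw [zero_smul, zero_smul, add_zero]; rfl
    · show D.t ^ n ∣ a - (0 * τ₁ + 0 * τ₂)
      simpa using ha

lemma GG_fst (s : Pm D) : (GG D s).map (LinearMap.fst R (R × R) R) =
    D.par (s.1.1, (s.2.1, ⟨s.1.2.2, s.2.2.1⟩)) := by
  rw [GG_eq, LN_fst]

lemma GG_inr (s : Pm D) : (GG D s).comap (LinearMap.inr R (R × R) R) =
    Ideal.span {D.t ^ s.1.2.1} := by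
  rw [GG_eq, LN_inr]

lemma idx_GG (s : Pm D) : idx (GG D s) ≠ 0 := by
  rw [idx_fst, GG_fst, GG_inr, D.idx_span]
  exact mul_ne_zero (D.idx_par_ne _) (pow_ne_zero _ D.q_pos.ne')

lemma GG_inj : Function.Injective (GG D) := by
  rintro ⟨⟨m, n, k⟩, b, z, τ₁, τ₂⟩ ⟨⟨m', n', k'⟩, b', z', τ₁', τ₂'⟩ h
  have h1 := GG_fst D ⟨⟨m, n, k⟩, b, z, τ₁, τ₂⟩
  rw [h, GG_fst] at h1
  have h2 := D.par_inj h1
  simp only [Prod.mk.injEq, Sigma.mk.injEq] at h2
  obtain ⟨rfl, rfl, rfl, h3⟩ := h2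
  have h3' := eq_of_heq h3
  subst h3'
  have h4 := GG_inr D ⟨⟨m', n, k'⟩, b', z', τ₁, τ₂⟩
  rw [h, GG_inr] at h4
  have h5 : n' = n := by
    have h6 := D.idx_span n'
    have h7 : idx (Ideal.span {D.t ^ n'}) = idx (Ideal.span {D.t ^ n}) := by
      have h8 : Ideal.span {D.t ^ n'} = Ideal.span {D.t ^ n} := h4
      rw [h8]
    rw [D.idx_span, D.idx_span] at h7
    exact Nat.pow_right_injective D.two_le h7
  subst h5
  rw [GG_eq, GG_eq] at h
  simp only at h
  have key : ∀ x y : R, D.t ^ n' ∣ (x * D.lift τ₁ + y * D.lift τ₂) -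
      (x * D.lift τ₁' + y * D.lift τ₂') := by
    intro x y
    have h6 : ((x • e1 D b' m' k' z' + y • e2 D b' m' k', x * D.lift τ₁ + y * D.lift τ₂) :
        MR R) ∈ LN D (e1 D b' m' k' z') (e2 D b' m' k') n' (D.lift τ₁) (D.lift τ₂) :=
      ⟨x, y, rfl, by simp⟩
    rw [h] at h6
    obtain ⟨x', y', h7, h8⟩ := h6
    obtain ⟨rfl, rfl⟩ := indep D _ _ _ _ h7
    exact h8
  have k1 : τ₁ = τ₁' := by
    have := key 1 0
    simp only [one_mul, zero_mul, add_zero] at this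
    rwa [← D.red_eq, D.red_lift, D.red_lift] at this
  have k2 : τ₂ = τ₂' := by
    have := key 0 1
    simp only [one_mul, zero_mul, zero_add] at this
    rwa [← D.red_eq, D.red_lift, D.red_lift] at this
  subst k1
  subst k2
  rfl

lemma GG_surj (N : Submodule R (MR R)) (hN : idx N ≠ 0) : ∃ s, GG D s = N := by
  have hP : idx (N.map (LinearMap.fst R (R × R) R)) ≠ 0 := by
    intro h
    apply hN
    rw [idx_fst, h, zero_mul]
  have hI : idx (N.comap (LinearMap.inr R (R × R) R)) ≠ 0 := by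
    intro h
    apply hN
    rw [idx_fst, h, mul_zero]
  obtain ⟨⟨m, b, k, z⟩, hpar⟩ := D.par_surj _ hP
  obtain ⟨n, hn⟩ := D.idl_of_idx hI
  have hf1 : e1 D b m k z ∈ N.map (LinearMap.fst R (R × R) R) := by
    rw [← hpar, mem_par]
    exact ⟨1, 0, by rw [one_smul, zero_smul, add_zero]⟩
  have hf2 : e2 D b m k ∈ N.map (LinearMap.fst R (R × R) R) := by
    rw [← hpar, mem_par]
    exact ⟨0, 1, by rw [one_smul, zero_smul, zero_add]⟩
  obtain ⟨⟨v1, a1⟩, h1, hv1⟩ := hf1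
  obtain ⟨⟨v2, a2⟩, h2, hv2⟩ := hf2
  have hv1' : v1 = e1 D b m k z := hv1
  have hv2' : v2 = e2 D b m k := hv2
  subst hv1'
  subst hv2'
  refine ⟨⟨(m, n, k), (b, z, D.red n a1, D.red n a2)⟩, ?_⟩
  rw [GG_eq]
  simp only
  have key : ∀ (u : MR R) (x y : R), u.1 = x • e1 D b m k z + y • e2 D b m k →
      (u ∈ N ↔ D.t ^ n ∣ u.2 - (x * D.lift (D.red n a1) + y * D.lift (D.red n a2))) := by
    intro u x y hu
    have e : u = (x • ((e1 D b m k z, a1) : MR R) + y • ((e2 D b m k, a2) : MR R)) +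
        ((0 : R × R), u.2 - (x * a1 + y * a2)) := by
      refine Prod.ext ?_ ?_
      · show u.1 = x • e1 D b m k z + y • e2 D b m k + 0
        rw [hu, add_zero]
      · show u.2 = x * a1 + y * a2 + (u.2 - (x * a1 + y * a2))
        ring
    have hmem : x • ((e1 D b m k z, a1) : MR R) + y • ((e2 D b m k, a2) : MR R) ∈ N :=
      N.add_mem (N.smul_mem _ h1) (N.smul_mem _ h2)
    conv_lhs => rw [e]
    rw [Submodule.add_mem_iff_right _ hmem]
    have e3 : (((0 : R × R), u.2 - (x * a1 + y * a2)) : MR R) ∈ N ↔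
        u.2 - (x * a1 + y * a2) ∈ N.comap (LinearMap.inr R (R × R) R) := Iff.rfl
    rw [e3, hn, Ideal.mem_span_singleton]
    have e4 := D.lift_red (n := n) a1
    have e5 := D.lift_red (n := n) a2
    have e6 : D.t ^ n ∣ x * (D.lift (D.red n a1) - a1) + y * (D.lift (D.red n a2) - a2) :=
      dvd_add (e4.mul_left _) (e5.mul_left _)
    have e7 : u.2 - (x * a1 + y * a2) =
        (u.2 - (x * D.lift (D.red n a1) + y * D.lift (D.red n a2))) +
        (x * (D.lift (D.red n a1) - a1) + y * (D.lift (D.red n a2) - a2)) := by ring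
    rw [e7]
    exact dvd_add_left e6
  ext u
  constructor
  · rintro ⟨x, y, h3, h4⟩
    exact (key u x y h3).2 h4
  · intro hu
    have h3 : u.1 ∈ N.map (LinearMap.fst R (R × R) R) := ⟨u, hu, rfl⟩
    rw [← hpar, mem_par] at h3
    obtain ⟨x, y, h3⟩ := h3
    exact ⟨x, y, h3, (key u x y h3).1 hu⟩

/-- the parametrisation -/
noncomputable def parN : Pm D ≃ {N : Submodule R (MR R) // idx N ≠ 0} :=
  Equiv.ofBijective (fun s => ⟨GG D s, idx_GG D s⟩)
    ⟨fun s s' h => GG_inj D (congrArg Subtype.val h), fun N => by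
      obtain ⟨s, hs⟩ := GG_surj D N.1 N.2
      exact ⟨s, Subtype.ext hs⟩⟩

theorem s1b : S1BStmt := by
  intro R _ _ D F
  have h1 : (∑' N : {N : Submodule R (MR R) // idx N ≠ 0}, F N.1) =
      ∑' s : Pm D, F (GG D s) := by
    rw [← (parN D).tsum_eq]
    rfl
  rw [h1, ENNReal.tsum_sigma', ENNReal.tsum_prod']
  refine tsum_congr fun m => ?_
  rw [ENNReal.tsum_prod']
  refine tsum_congr fun n => tsum_congr fun k => ?_
  rw [tsum_fintype, Fintype.sum_prod_type, Fintype.sum_bool]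
  congr 1
  · rw [Fintype.sum_prod_type]
    refine Finset.sum_congr rfl fun z _ => ?_
    rw [Fintype.sum_prod_type]
    rfl
  · rw [Fintype.sum_prod_type]
    refine Finset.sum_congr rfl fun z _ => ?_
    rw [Fintype.sum_prod_type]
    rfl

end Pool.Agent.TH959.TZHB
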