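import Pool.Agent.TH37.HG.Stmts

set_option autoImplicit false

/-!
# P. Hall's theorem over a commutative Noetherian ring

Finitely generated modules over `J[H]`, `H` polycyclic, `J` commutative Noetherian, satisfy the
ascending chain condition.  The skew Hilbert basis argument is the one of
`Pool/Agent/Helper294/HallC/NoeStep.lean`, with `J`-submodules in the place of additive subgroups.
-/

namespace Pool.Agent.TH959.HGNoe

open Pool.Agent.TH37.HG
open Pool.Agent.Helper294.HallC (PC FGM Stb Noe)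

section step
variable {J Γ A : Type} [CommRing J] [Group Γ] [AddCommGroup A] [Module J A]
  [DistribMulAction Γ A] [SMulCommClass Γ J A]

/-- sums of `t^i • x`, `i < n`, `x ∈ M` -/
def S (t : Γ) (M : Submodule J A) (n : ℕ) : Submodule J A :=
  Submodule.span J {a : A | ∃ i : ℕ, i < n ∧ ∃ x ∈ M, a = t ^ i • x}

omit [SMulCommClass Γ J A] in
theorem S_zero (t : Γ) (M : Submodule J A) (z : A) (hz : z ∈ S t M 0) : z = 0 := by
  have h : S t M 0 = ⊥ := by
    unfold S
    rw [Submodule.span_eq_bot]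
    rintro a ⟨i, hi, -⟩
    omega
  rw [h] at hz
  exact (Submodule.mem_bot J).1 hz

omit [SMulCommClass Γ J A] in
theorem S_mono (t : Γ) (M : Submodule J A) {n m : ℕ} (h : n ≤ m) : S t M n ≤ S t M m := by
  refine Submodule.span_mono ?_
  rintro a ⟨i, hi, hx⟩
  exact ⟨i, by omega, hx⟩

omit [SMulCommClass Γ J A] in
theorem S_gen (t : Γ) (M : Submodule J A) {n i : ℕ} (h : i < n) {x : A} (hx : x ∈ M) :
    t ^ i • x ∈ S t M n :=
  Submodule.subset_span ⟨i, h, x, hx, rfl⟩

theorem S_succ (t : Γ) (M : Submodule J A) (n : ℕ) (z : A) (hz : z ∈ S t M (n + 1)) :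
    ∃ m ∈ M, ∃ s ∈ S t M n, z = t ^ n • m + s := by
  induction hz using Submodule.span_induction with
  | mem a ha =>
    obtain ⟨i, hi, x, hx, rfl⟩ := ha
    by_cases h : i = n
    · subst h
      exact ⟨x, hx, 0, Submodule.zero_mem _, by simp⟩
    · exact ⟨0, M.zero_mem, _, S_gen t M (show i < n by omega) hx, by simp⟩
  | zero => exact ⟨0, M.zero_mem, 0, Submodule.zero_mem _, by simp⟩
  | add a b _ _ h1 h2 =>
    obtain ⟨m1, hm1, s1, hs1, rfl⟩ := h1
    obtain ⟨m2, hm2, s2, hs2, rfl⟩ := h2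
    exact ⟨m1 + m2, M.add_mem hm1 hm2, s1 + s2, Submodule.add_mem _ hs1 hs2, by
      rw [smul_add]; abel⟩
  | smul c a _ h1 =>
    obtain ⟨m1, hm1, s1, hs1, rfl⟩ := h1
    exact ⟨c • m1, M.smul_mem c hm1, c • s1, Submodule.smul_mem _ c hs1, by
      rw [smul_add, smul_comm (t ^ n) c m1]⟩

theorem S_t (t : Γ) (M : Submodule J A) (n : ℕ) (z : A) (hz : z ∈ S t M n) :
    t • z ∈ S t M (n + 1) := by
  induction hz using Submodule.span_induction with
  | mem a ha =>
    obtain ⟨i, hi, x, hx, rfl⟩ := ha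
    rw [← mul_smul, ← pow_succ']
    exact S_gen t M (by omega) hx
  | zero => rw [smul_zero]; exact Submodule.zero_mem _
  | add a b _ _ h1 h2 => rw [smul_add]; exact Submodule.add_mem _ h1 h2
  | smul c a _ h1 => rw [smul_comm t c a]; exact Submodule.smul_mem _ c h1

theorem S_tpow (t : Γ) (M : Submodule J A) (k n : ℕ) (z : A) (hz : z ∈ S t M n) :
    t ^ k • z ∈ S t M (n + k) := by
  induction k with
  | zero => simpa using hz
  | succ k ih =>
    rw [pow_succ', mul_smul]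
    exact S_t t M _ _ ih

theorem conj_mem {R : Subgroup Γ} {t : Γ} (hn : ∀ x, x ∈ R ↔ t * x * t⁻¹ ∈ R) (i : ℕ) (r : Γ) :
    r ∈ R ↔ t ^ i * r * (t ^ i)⁻¹ ∈ R := by
  induction i with
  | zero => simp
  | succ i ih =>
    rw [ih, hn]
    have : t ^ (i + 1) * r * (t ^ (i + 1))⁻¹ = t * (t ^ i * r * (t ^ i)⁻¹) * t⁻¹ := by
      rw [pow_succ']; group
    rw [this]

theorem S_R {R : Subgroup Γ} {t : Γ} (hn : ∀ x, x ∈ R ↔ t * x * t⁻¹ ∈ R)
    {M : Submodule J A} (hM : ∀ g ∈ R, ∀ x ∈ M, g • x ∈ M) (n : ℕ) (r : Γ) (hr : r ∈ R) (z : A)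
    (hz : z ∈ S t M n) : r • z ∈ S t M n := by
  induction hz using Submodule.span_induction with
  | mem a ha =>
    obtain ⟨i, hi, x, hx, rfl⟩ := ha
    have h1 : (t ^ i)⁻¹ * r * t ^ i ∈ R := by
      rw [conj_mem hn i]
      have : t ^ i * ((t ^ i)⁻¹ * r * t ^ i) * (t ^ i)⁻¹ = r := by group
      rw [this]; exact hr
    have h2 : r • (t ^ i • x) = t ^ i • (((t ^ i)⁻¹ * r * t ^ i) • x) := by
      rw [← mul_smul, ← mul_smul]
      congr 1
      group
    rw [h2]
    exact S_gen t M hi (hM _ h1 _ hx)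
  | zero => rw [smul_zero]; exact Submodule.zero_mem _
  | add a b _ _ h1 h2 => rw [smul_add]; exact Submodule.add_mem _ h1 h2
  | smul c a _ h1 => rw [smul_comm r c a]; exact Submodule.smul_mem _ c h1

theorem cover {R P : Subgroup Γ} {t : Γ} (hc : ∀ x ∈ P, ∃ k : ℤ, t ^ (-k) * x ∈ R)
    {M : Submodule J A} (hM : ∀ g ∈ R, ∀ x ∈ M, g • x ∈ M) (z : A)
    (hz : z ∈ spJ J P (M : Set A)) :
    ∃ K n : ℕ, t ^ K • z ∈ S t M n := by
  unfold spJ at hz
  induction hz using Submodule.span_induction with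
  | mem a ha =>
    obtain ⟨g, hg, x, hx, rfl⟩ := ha
    obtain ⟨k, hk⟩ := hc g hg
    have h1 : (t ^ (-k) * g) • x ∈ M := hM _ hk _ hx
    obtain ⟨m, hm⟩ : ∃ m : ℕ, (m : ℤ) = (k.natAbs : ℤ) + k := ⟨(k.natAbs + k).toNat, by omega⟩
    refine ⟨k.natAbs, m + 1, ?_⟩
    have h2 : t ^ k.natAbs • (g • x) = t ^ m • ((t ^ (-k) * g) • x) := by
      rw [← mul_smul, ← mul_smul]
      congr 1
      rw [← mul_assoc, ← zpow_natCast t m, hm, ← zpow_add, ← zpow_natCast t k.natAbs]
      congr 2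
      ring
    rw [h2]
    exact S_gen t M (by omega) h1
  | zero => exact ⟨0, 0, by rw [smul_zero]; exact Submodule.zero_mem _⟩
  | add a b _ _ h1 h2 =>
    obtain ⟨K1, n1, h1⟩ := h1
    obtain ⟨K2, n2, h2⟩ := h2
    refine ⟨K1 + K2, n1 + K2 + (n2 + K1), ?_⟩
    rw [smul_add]
    refine Submodule.add_mem _ ?_ ?_
    · rw [add_comm K1 K2, pow_add, mul_smul]
      exact S_mono t M (by omega) (S_tpow t M K2 n1 _ h1)
    · rw [pow_add, mul_smul]
      exact S_mono t M (by omega) (S_tpow t M K1 n2 _ h2)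
  | smul c a _ h1 =>
    obtain ⟨K1, n1, h1⟩ := h1
    exact ⟨K1, n1, by rw [smul_comm (t ^ K1) c a]; exact Submodule.smul_mem _ c h1⟩

/-- leading coefficients of degree `n` -/
def L (t : Γ) (M : Submodule J A) (n : ℕ) (N : Submodule J A) : Submodule J A where
  carrier := {m | m ∈ M ∧ ∃ z ∈ N, z - t ^ n • m ∈ S t M n}
  zero_mem' := ⟨M.zero_mem, 0, N.zero_mem, by rw [smul_zero, sub_zero]; exact Submodule.zero_mem _⟩
  add_mem' := by
    rintro a b ⟨ha, z, hz, h1⟩ ⟨hb, w, hw, h2⟩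
    refine ⟨M.add_mem ha hb, z + w, N.add_mem hz hw, ?_⟩
    have : z + w - t ^ n • (a + b) = (z - t ^ n • a) + (w - t ^ n • b) := by
      rw [smul_add]; abel
    rw [this]
    exact Submodule.add_mem _ h1 h2
  smul_mem' := by
    rintro c a ⟨ha, z, hz, h1⟩
    refine ⟨M.smul_mem c ha, c • z, N.smul_mem c hz, ?_⟩
    have : c • z - t ^ n • (c • a) = c • (z - t ^ n • a) := by
      rw [smul_sub, smul_comm (t ^ n) c a]
    rw [this]
    exact Submodule.smul_mem _ c h1

theorem L_succ {P : Subgroup Γ} (t : Γ) (ht : t ∈ P) (M : Submodule J A) (n : ℕ)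
    (N : Submodule J A) (hNP : ∀ g ∈ P, ∀ x ∈ N, g • x ∈ N) :
    L t M n N ≤ L t M (n + 1) N := by
  rintro m ⟨hm, z, hz, h⟩
  refine ⟨hm, t • z, hNP t ht z hz, ?_⟩
  have : t • z - t ^ (n + 1) • m = t • (z - t ^ n • m) := by
    rw [smul_sub, ← mul_smul, ← pow_succ']
  rw [this]
  exact S_t t M n _ h

theorem L_deg {P : Subgroup Γ} (t : Γ) (ht : t ∈ P) (M : Submodule J A) {n m : ℕ}
    (hnm : n ≤ m) (N : Submodule J A) (hNP : ∀ g ∈ P, ∀ x ∈ N, g • x ∈ N) :
    L t M n N ≤ L t M m N := by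
  induction m, hnm using Nat.le_induction with
  | base => exact le_rfl
  | succ m _ ih => exact ih.trans (L_succ t ht M m N hNP)

theorem L_mono (t : Γ) (M : Submodule J A) (n : ℕ) {N N' : Submodule J A} (h : N ≤ N') :
    L t M n N ≤ L t M n N' := by
  rintro m ⟨hm, z, hz, h'⟩
  exact ⟨hm, z, h hz, h'⟩

theorem L_R {R P : Subgroup Γ} (hRP : R ≤ P) {t : Γ}
    (hn : ∀ x, x ∈ R ↔ t * x * t⁻¹ ∈ R) {M : Submodule J A}
    (hM : ∀ g ∈ R, ∀ x ∈ M, g • x ∈ M) (n : ℕ) (N : Submodule J A)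
    (hNP : ∀ g ∈ P, ∀ x ∈ N, g • x ∈ N) (r : Γ) (hr : r ∈ R) (m : A) (hm : m ∈ L t M n N) :
    r • m ∈ L t M n N := by
  obtain ⟨hm, z, hz, h⟩ := hm
  have hr' : t ^ n * r * (t ^ n)⁻¹ ∈ R := (conj_mem hn n r).1 hr
  refine ⟨hM r hr m hm, (t ^ n * r * (t ^ n)⁻¹) • z, hNP _ (hRP hr') z hz, ?_⟩
  have : (t ^ n * r * (t ^ n)⁻¹) • z - t ^ n • (r • m)
      = (t ^ n * r * (t ^ n)⁻¹) • (z - t ^ n • m) := by
    rw [smul_sub, ← mul_smul, ← mul_smul]
    congr 2
    group
  rw [this]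
  exact S_R hn hM n _ hr' _ h

/-- ascending chain condition for the `R`-stable `J`-submodules of `M₀`. -/
def NoeJ (R : Subgroup Γ) (M₀ : Submodule J A) : Prop :=
  ∀ f : ℕ → Submodule J A, Monotone f → (∀ n, f n ≤ M₀) → (∀ n, StJ R (f n)) →
    ∃ n, ∀ m, n ≤ m → f m = f n

/-- the twisted Hilbert basis theorem (P. Hall): adjoining one element. -/
theorem noe_step (R P : Subgroup Γ) (t : Γ) (hRP : R ≤ P) (ht : t ∈ P)
    (hn : ∀ x, x ∈ R ↔ t * x * t⁻¹ ∈ R) (hc : ∀ x ∈ P, ∃ k : ℤ, t ^ (-k) * x ∈ R)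
    (M : Submodule J A) (hM : ∀ g ∈ R, ∀ x ∈ M, g • x ∈ M) (hN : NoeJ R M) :
    NoeJ P (spJ J P (M : Set A)) := by
  intro f hf hfM hfs
  have hLM : ∀ n N, L t M n N ≤ M := fun n N m hm => hm.1
  have hstab : ∀ n j, ∀ g ∈ R, ∀ x ∈ L t M n (f j), g • x ∈ L t M n (f j) :=
    fun n j g hg x hx => L_R hRP hn hM n (f j) (hfs j) g hg x hx
  obtain ⟨j0, hj0⟩ := hN (fun j => L t M j (f j))
    (monotone_nat_of_le_succ fun j => (L_succ t ht M j (f j) (hfs j)).trans
      (L_mono t M (j + 1) (hf (Nat.le_succ j))))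
    (fun j => hLM _ _) (fun j => hstab j j)
  have hcol : ∀ n, ∃ j, ∀ m, j ≤ m → L t M n (f m) = L t M n (f j) := fun n =>
    hN (fun j => L t M n (f j)) (fun i j hij => L_mono t M n (hf hij))
      (fun j => hLM _ _) (fun j => hstab n j)
  choose c hcc using hcol
  let K := max j0 ((Finset.range j0).sup c)
  have hJ0 : j0 ≤ K := le_max_left _ _
  have hJc : ∀ n, n < j0 → c n ≤ K := fun n hn' =>
    (Finset.le_sup (f := c) (Finset.mem_range.2 hn')).trans (le_max_right _ _)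
  have hA : ∀ n j, K ≤ j → L t M n (f j) = L t M n (f K) := by
    intro n j hj
    by_cases hnj : n < j0
    · rw [hcc n j ((hJc n hnj).trans hj), hcc n K (hJc n hnj)]
    · refine le_antisymm ?_ (L_mono t M n (hf hj))
      calc L t M n (f j) ≤ L t M (max n j) (f j) :=
            L_deg t ht M (le_max_left _ _) _ (hfs j)
        _ ≤ L t M (max n j) (f (max n j)) := L_mono t M _ (hf (le_max_right _ _))
        _ = L t M j0 (f j0) := hj0 (max n j) (by omega)
        _ ≤ L t M n (f j0) := L_deg t ht M (by omega) _ (hfs j0)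
        _ ≤ L t M n (f K) := L_mono t M _ (hf hJ0)
  refine ⟨K, fun j hj => le_antisymm ?_ (hf hj)⟩
  have hB : ∀ n, ∀ z ∈ f j, z ∈ S t M n → z ∈ f K := by
    intro n
    induction n with
    | zero =>
      intro z _ hz
      rw [S_zero t M z hz]
      exact (f K).zero_mem
    | succ n ih =>
      intro z hzf hz
      obtain ⟨m, hm, s, hs, hzs⟩ := S_succ t M n z hz
      have h1 : m ∈ L t M n (f j) := ⟨hm, z, hzf, by rw [hzs, add_sub_cancel_left]; exact hs⟩
      rw [hA n j hj] at h1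
      obtain ⟨_, z', hz', h2⟩ := h1
      have h3 : z - z' ∈ S t M n := by
        have : z - z' = s - (z' - t ^ n • m) := by rw [hzs]; abel
        rw [this]
        exact Submodule.sub_mem _ hs h2
      have h4 : z - z' ∈ f j := (f j).sub_mem hzf (hf hj hz')
      have h5 := (f K).add_mem (ih _ h4 h3) hz'
      rwa [sub_add_cancel] at h5
  intro z hz
  obtain ⟨k, n, hKn⟩ := cover hc hM z (hfM j hz)
  have h1 : t ^ k • z ∈ f K := hB n _ ((hfs j) _ (P.pow_mem ht k) z hz) hKn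
  have h2 := (hfs K) _ (P.inv_mem (P.pow_mem ht k)) _ h1
  rwa [inv_smul_smul] at h2

theorem spJ_stable (P R : Subgroup Γ) (hRP : R ≤ P) (X : Set A) (N : Submodule J A)
    (hN : ∀ g ∈ P, ∀ s ∈ X, g • s ∈ N) :
    ∀ g ∈ P, ∀ x ∈ spJ J R X, g • x ∈ N := by
  intro g hg x hx
  unfold spJ at hx
  induction hx using Submodule.span_induction with
  | mem x hx =>
    obtain ⟨g', hg', s, hs, rfl⟩ := hx
    rw [← mul_smul]
    exact hN _ (P.mul_mem hg (hRP hg')) s hs
  | zero => rw [smul_zero]; exact N.zero_mem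
  | add x y _ _ hx hy => rw [smul_add]; exact N.add_mem hx hy
  | smul c x _ hx => rw [smul_comm g c x]; exact N.smul_mem c hx

omit [SMulCommClass Γ J A] in
theorem mem_spJ (P : Subgroup Γ) (X : Set A) : ∀ g ∈ P, ∀ s ∈ X, g • s ∈ spJ J P X :=
  fun g hg s hs => Submodule.subset_span ⟨g, hg, s, hs, rfl⟩

omit [SMulCommClass Γ J A] in
theorem noe_base [IsNoetherianRing J] (X : Finset A) :
    NoeJ (⊥ : Subgroup Γ) (spJ J (⊥ : Subgroup Γ) (X : Set A)) := by
  intro f hf hfM _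
  have hset : spJ J (⊥ : Subgroup Γ) (X : Set A) = Submodule.span J (X : Set A) := by
    unfold spJ
    congr 1
    ext a
    constructor
    · rintro ⟨g, hg, s, hs, rfl⟩
      rw [Subgroup.mem_bot.1 hg, one_smul]; exact hs
    · intro ha
      exact ⟨1, Subgroup.mem_bot.2 rfl, a, ha, (one_smul _ _).symm⟩
  rw [hset] at hfM
  haveI : IsNoetherian J (Submodule.span J (X : Set A)) :=
    isNoetherian_span_of_finite J X.finite_toSet
  obtain ⟨n, hn⟩ := monotone_stabilizes_iff_noetherian.2 this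
    ⟨fun n => (f n).comap (Submodule.span J (X : Set A)).subtype,
      fun a b hab x hx => hf hab hx⟩
  refine ⟨n, fun m hm => ?_⟩
  have h1 := hn m hm
  ext x
  constructor
  · intro hx
    have h2 : (⟨x, hfM m hx⟩ : Submodule.span J (X : Set A)) ∈
        (f m).comap (Submodule.span J (X : Set A)).subtype := hx
    have h3 : (⟨x, hfM m hx⟩ : Submodule.span J (X : Set A)) ∈
        (f n).comap (Submodule.span J (X : Set A)).subtype := by
      have h4 : (f n).comap (Submodule.span J (X : Set A)).subtype =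
        (f m).comap (Submodule.span J (X : Set A)).subtype := h1
      rw [h4]; exact h2
    exact h3
  · intro hx
    exact hf hm hx

/-- P. Hall: finitely generated modules over polycyclic groups are Noetherian. -/
theorem noe_top [IsNoetherianRing J] (h : PC Γ) (X : Finset A) :
    NoeJ (⊤ : Subgroup Γ) (spJ J (⊤ : Subgroup Γ) (X : Set A)) := by
  refine Pool.Agent.Helper294.HallC.poly_ind h (fun R => NoeJ R (spJ J R (X : Set A)))
    (noe_base X) ?_
  intro R P t hRP ht hn hc hR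
  have h1 := noe_step R P t hRP ht hn hc _
    (spJ_stable R R le_rfl (X : Set A) _ (mem_spJ R (X : Set A))) hR
  have h2 : spJ J P (spJ J R (X : Set A) : Set A) = spJ J P (X : Set A) := by
    apply le_antisymm
    · refine Submodule.span_le.2 ?_
      rintro a ⟨g, hg, x, hx, rfl⟩
      exact spJ_stable P R hRP (X : Set A) _ (mem_spJ P (X : Set A)) g hg x hx
    · refine Submodule.span_le.2 ?_
      rintro a ⟨g, hg, s, hs, rfl⟩
      have hs1 : s ∈ spJ J R (X : Set A) :=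
        Submodule.subset_span ⟨1, R.one_mem, s, hs, (one_smul _ _).symm⟩
      exact Submodule.subset_span ⟨g, hg, s, hs1, rfl⟩
  rw [h2] at h1
  exact h1

end step

/-- finitely generated modules over `J[H]`, `H` polycyclic, are Noetherian -/
theorem noe : NoeStmt := by
  intro J M G _ _ _ _ _ _ _ hG H X f hf hfM hfs
  have hH := Pool.Agent.Helper294.HallC.pc_sub hG H
  haveI : SMulCommClass H J M := ⟨fun g c x => smul_comm (g : G) c x⟩
  have key := noe_top (J := J) (A := M) hH X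
  refine key f hf (fun n => (hfM n).trans ?_) (fun n g _ x hx => hfs n (g : G) g.2 x hx)
  refine Submodule.span_mono ?_
  rintro a ⟨g, hg, s, hs, rfl⟩
  exact ⟨⟨g, hg⟩, Subgroup.mem_top _, s, hs, rfl⟩

end Pool.Agent.TH959.HGNoe
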