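import Pool.Agent.TH37.HG.Stmts2

set_option autoImplicit false

/-!
# Port of `H53R2.U_lemmaB2` to the universal identity for triples of central type (job 1886)
-/

namespace Pool.Agent.TH959.HGB2

open Pool.Agent.TH37.HG
open Pool.Agent.H53R2
open scoped commutatorElement

/-- one variable, `[Y, N, N] = 1` -/
theorem one0 (W : Set (FreeGroup ℕ)) (u : UI) (hu : UIc W u) :
    ∃ K : Finset ℤ, ∀ (G : Type) [Group G], InVar W G →
    ∀ (N Y : Subgroup G) [N.Normal] [Y.Normal], Y ≤ N → ⁅⁅Y, N⁆, N⁆ ≤ ⊥ →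
    ∀ y ∈ Y, ∀ x ∈ N, ∀ t : G, (∀ k ∈ K, ⁅y, t ^ k * x * t ^ (-k)⁆ ∈ (⊥ : Subgroup G)) →
    ∀ j : ℤ, ⁅y, t ^ j * x * t ^ (-j)⁆ ∈ (⊥ : Subgroup G) := by
  obtain ⟨K, hK⟩ := U_fin (fun k => U_exp (u.w k)) u.i u.hi Finset.univ
  refine ⟨K, ?_⟩
  intro G _ hG N Y _ _ hYN hR y hy x hx t hk j
  let p : G →* G ⧸ N := QuotientGroup.mk' N
  have hp : Function.Surjective p := QuotientGroup.mk'_surjective N
  have hker : p.ker = N := QuotientGroup.ker_mk' N
  obtain ⟨E, _, _, ⟨s⟩⟩ := exists_secMod p hp ⊥ ⁅Y, N⁆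
    ((Subgroup.commutator_mono le_rfl ((Subgroup.commutator_le_left Y N).trans hYN)).trans hR)
    (by rw [hker]; exact hR)
  have hN : N.Normal := inferInstance
  have hY : Y.Normal := inferInstance
  have hyi : ∀ i : ℤ, t ^ i * y * t ^ (-i) ∈ Y := fun i => by
    rw [zpow_neg]; exact hY.conj_mem y hy _
  have hxi : ∀ i : ℤ, t ^ i * x * t ^ (-i) ∈ N := fun i => by
    rw [zpow_neg]; exact hN.conj_mem x hx _
  have hex : ∀ i j : ℤ, ∃ e, s.rep ⁅t ^ i * y * t ^ (-i), t ^ (i + j) * x * t ^ (-(i + j))⁆ e := by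
    intro i j
    exact ⟨_, Subgroup.commutator_mem_commutator (hyi i) (hxi (i + j)), rfl⟩
  choose v hv using hex
  -- translation
  have htr : ∀ i a j : ℤ, v (i + a) j = p (t ^ a) • v i j := by
    intro i a j
    refine SecMod.rep_unique (hv (i + a) j) ?_
    have h1 := SecMod.rep_conj (hv i j) (t ^ a)
    have h2 : t ^ a * ⁅t ^ i * y * t ^ (-i), t ^ (i + j) * x * t ^ (-(i + j))⁆ * (t ^ a)⁻¹ =
        ⁅t ^ (i + a) * y * t ^ (-(i + a)), t ^ (i + a + j) * x * t ^ (-(i + a + j))⁆ := by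
      rw [conjugate_commutatorElement]
      congr 1 <;> group
    rwa [h2] at h1
  -- the universal relation
  have hrel : ∀ a i j : ℤ, v i j = ∑ k, u.e k • v (i + a * U_exp (u.w k)) (j + a * u.i k) := by
    intro a i j
    have h1 := hu G hG (t ^ i * y * t ^ (-i)) (t ^ (i + j) * x * t ^ (-(i + j))) (t ^ a) (by
      intro i' j' k'
      have hb : ∀ k : ℤ, (t ^ a) ^ k * (t ^ i * y * t ^ (-i)) * (t ^ a) ^ (-k) ∈ Y := fun k => by
        rw [zpow_neg (t ^ a)]; exact hY.conj_mem _ (hyi i) _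
      have hm : ∀ k : ℤ, (t ^ a) ^ k * (t ^ (i + j) * x * t ^ (-(i + j))) * (t ^ a) ^ (-k) ∈ N :=
        fun k => by rw [zpow_neg (t ^ a)]; exact hN.conj_mem _ (hxi (i + j)) _
      have hc := Subgroup.commutator_mem_commutator (hb i') (hm j')
      exact ⟨Subgroup.mem_bot.1 (hR (Subgroup.commutator_mem_commutator hc (hYN (hb k')))),
        Subgroup.mem_bot.1 (hR (Subgroup.commutator_mem_commutator hc (hm k')))⟩)
    have h2 := hv i j
    unfold At at h1
    rw [h1] at h2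
    refine SecMod.rep_unique h2 (SecMod.rep_prod _ _ fun k => ?_)
    set g := FreeGroup.lift ![t ^ i * y * t ^ (-i), t ^ (i + j) * x * t ^ (-(i + j)), t ^ a] (u.w k)
      with hg
    have h3 : p g = p (t ^ (a * U_exp (u.w k))) := by
      have h4 : p.comp (FreeGroup.lift
          ![t ^ i * y * t ^ (-i), t ^ (i + j) * x * t ^ (-(i + j)), t ^ a]) =
          FreeGroup.lift ![1, 1, p (t ^ a)] := by
        apply FreeGroup.ext_hom
        intro l
        rw [MonoidHom.comp_apply, FreeGroup.lift_apply_of, FreeGroup.lift_apply_of]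
        fin_cases l
        · exact (QuotientGroup.eq_one_iff _).2 (hYN (hyi i))
        · exact (QuotientGroup.eq_one_iff _).2 (hxi (i + j))
        · rfl
      have h5 : p g = FreeGroup.lift ![1, 1, p (t ^ a)] (u.w k) := by rw [← h4]; rfl
      rw [h5, U_exp_spec, ← map_zpow, ← zpow_mul]
    rw [htr, ← h3, smul_comm]
    refine SecMod.rep_conj (SecMod.rep_zpow ?_ _) g
    have h6 := hv i (j + a * u.i k)
    have h7 : (t ^ a) ^ u.i k * (t ^ (i + j) * x * t ^ (-(i + j))) * (t ^ a) ^ (-u.i k) =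
        t ^ (i + (j + a * u.i k)) * x * t ^ (-(i + (j + a * u.i k))) := by
      rw [← zpow_mul, ← zpow_mul]
      have e1 : t ^ (i + (j + a * u.i k)) = t ^ (a * u.i k) * t ^ (i + j) := by
        rw [← zpow_add]; congr 1; ring
      have e2 : t ^ (-(i + (j + a * u.i k))) = t ^ (-(i + j)) * t ^ (a * -u.i k) := by
        rw [← zpow_add]; congr 1; ring
      rw [e1, e2]; group
    rw [h7]
    exact h6
  -- `U_phi v` vanishes on the ideal and on the span
  have hJ : ∀ c ∈ U_J u.e (fun k => U_exp (u.w k)) u.i, ∀ b : U_C, U_phi v (b * c) = 0 := by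
    intro c hc
    unfold U_J at hc
    induction hc using Submodule.span_induction with
    | zero => intro b; rw [mul_zero, map_zero]
    | add x y _ _ hx hy => intro b; rw [mul_add, map_add, hx, hy, add_zero]
    | mem x hx =>
      obtain ⟨a, rfl⟩ := hx
      intro b
      induction b using U_induction with
      | h0 => rw [zero_mul, map_zero]
      | hadd b b' hb hb' => rw [add_mul, map_add, hb, hb', add_zero]
      | hsingle i j n =>
        rw [smul_mul_assoc, map_zsmul, mul_sub, mul_one, Finset.mul_sum, map_sub, map_sum,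
          U_phi_m, hrel a i j, ← Finset.sum_sub_distrib]
        rw [Finset.sum_eq_zero, smul_zero]
        intro k _
        rw [mul_smul_comm, map_zsmul, U_m_mul, U_phi_m, sub_self]
    | smul b' x _ hx => intro b; rw [smul_eq_mul, ← mul_assoc]; exact hx _
  have hspan : ∀ σ ∈ U_span K, U_phi v σ = 0 := by
    intro σ hσ
    induction hσ using AddSubgroup.closure_induction with
    | zero => exact map_zero _
    | add x y _ _ hx hy => rw [map_add, hx, hy, add_zero]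
    | neg x _ hx => rw [map_neg, hx, neg_zero]
    | mem x hx =>
      obtain ⟨i, k, hkK, rfl⟩ := hx
      rw [U_phi_m]
      have h0 : v 0 k = 0 := by
        refine SecMod.rep_unique (hv 0 k) ?_
        have h1 : ⁅t ^ (0 : ℤ) * y * t ^ (-(0 : ℤ)), t ^ (0 + k) * x * t ^ (-(0 + k))⁆ =
            ⁅y, t ^ k * x * t ^ (-k)⁆ := by simp
        rw [h1]
        have h2 : ⁅y, t ^ k * x * t ^ (-k)⁆ ∈ ⁅Y, N⁆ :=
          Subgroup.commutator_mem_commutator hy (hxi k)
        exact ⟨h2, (s.ker ⟨_, h2⟩).2 (hk k hkK)⟩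
      have h1 := htr 0 i k
      rw [zero_add] at h1
      rw [h1, h0, smul_zero]
  obtain ⟨σ, hσ, q, hq⟩ := hK j
  have hv0 : v 0 j = 0 := by
    rw [← U_phi_m v 0 j, hq, map_add, hspan σ hσ, zero_add, mul_comm]
    exact hJ _ (U_prod_mem _ _ _) q
  obtain ⟨h1, h2⟩ := hv 0 j
  rw [hv0] at h2
  have h3 := (s.ker ⟨_, h1⟩).1 h2
  have h4 : ⁅t ^ (0 : ℤ) * y * t ^ (-(0 : ℤ)), t ^ (0 + j) * x * t ^ (-(0 + j))⁆ =
      ⁅y, t ^ j * x * t ^ (-j)⁆ := by simp
  rw [← h4]
  exact h3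

/-- one variable -/
theorem one (W : Set (FreeGroup ℕ)) (u : UI) (hu : UIc W u) :
    ∃ K : Finset ℤ, ∀ (G : Type) [Group G], InVar W G →
    ∀ (N Y R : Subgroup G) [N.Normal] [Y.Normal] [R.Normal], Y ≤ N → ⁅⁅Y, N⁆, N⁆ ≤ R →
    ∀ y ∈ Y, ∀ x ∈ N, ∀ t : G, (∀ k ∈ K, ⁅y, t ^ k * x * t ^ (-k)⁆ ∈ R) →
    ∀ j : ℤ, ⁅y, t ^ j * x * t ^ (-j)⁆ ∈ R := by
  obtain ⟨K, hK⟩ := one0 W u hu
  refine ⟨K, ?_⟩
  intro G _ hG N Y R hN hY hRn hYN hR y hy x hx t hk j
  have hq : Function.Surjective (QuotientGroup.mk' R) := QuotientGroup.mk'_surjective R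
  have hNn : (N.map (QuotientGroup.mk' R)).Normal := hN.map _ hq
  have hYn : (Y.map (QuotientGroup.mk' R)).Normal := hY.map _ hq
  have key : ∀ k : ℤ, ⁅y, t ^ k * x * t ^ (-k)⁆ ∈ R ↔
      ⁅QuotientGroup.mk' R y, QuotientGroup.mk' R t ^ k * QuotientGroup.mk' R x *
        QuotientGroup.mk' R t ^ (-k)⁆ ∈ (⊥ : Subgroup (G ⧸ R)) := by
    intro k
    rw [Subgroup.mem_bot, ← map_zpow (QuotientGroup.mk' R), ← map_zpow (QuotientGroup.mk' R),
      ← map_mul (QuotientGroup.mk' R), ← map_mul (QuotientGroup.mk' R), ← map_commutatorElement]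
    exact (QuotientGroup.eq_one_iff _).symm
  rw [key]
  refine hK (G ⧸ R) (hG.quot R) (N.map (QuotientGroup.mk' R)) (Y.map (QuotientGroup.mk' R))
    (Subgroup.map_mono hYN) ?_ _ ⟨y, hy, rfl⟩ _ ⟨x, hx, rfl⟩ _ (fun k hkK => (key k).1 (hk k hkK)) j
  rw [← Subgroup.map_commutator, ← Subgroup.map_commutator]
  rintro _ ⟨z, hz, rfl⟩
  exact Subgroup.mem_bot.2 ((QuotientGroup.eq_one_iff z).2 (hR hz))

/-- several variables -/
theorem multi (W : Set (FreeGroup ℕ)) (u : UI) (hu : UIc W u) :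
    ∃ K : Finset ℤ, ∀ (r : ℕ) (G : Type) [Group G], InVar W G →
    ∀ (N Y R : Subgroup G) [N.Normal] [Y.Normal] [R.Normal], Y ≤ N → ⁅⁅Y, N⁆, N⁆ ≤ R →
    ∀ y ∈ Y, ∀ x ∈ N, ∀ t : Fin r → G,
    (∀ k : Fin r → ℤ, (∀ i, k i ∈ K) → ⁅y, (List.ofFn fun i => t i ^ k i).prod * x *
      ((List.ofFn fun i => t i ^ k i).prod)⁻¹⁆ ∈ R) →
    ∀ k : Fin r → ℤ, ⁅y, (List.ofFn fun i => t i ^ k i).prod * x *
      ((List.ofFn fun i => t i ^ k i).prod)⁻¹⁆ ∈ R := by
  obtain ⟨K, hK⟩ := one W u hu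
  refine ⟨K, ?_⟩
  intro r G _ hG N Y R _ _ hRn hYN hR y hy x hx t h
  have hN : N.Normal := inferInstance
  have hY : Y.Normal := inferInstance
  induction r generalizing y with
  | zero =>
    intro k
    exact h k (fun i => i.elim0)
  | succ r ih =>
    -- the first exponent arbitrary
    have h1 : ∀ (k₀ : ℤ) (k : Fin r → ℤ), (∀ i, k i ∈ K) →
        ⁅y, t 0 ^ k₀ * ((List.ofFn fun i => t (Fin.succ i) ^ k i).prod * x *
          ((List.ofFn fun i => t (Fin.succ i) ^ k i).prod)⁻¹) * t 0 ^ (-k₀)⁆ ∈ R := by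
      intro k₀ k hk
      refine hK G hG N Y R hYN hR y hy _ (hN.conj_mem x hx _) (t 0) ?_ k₀
      intro k₁ hk₁
      have h2 := h (Fin.cons k₁ k) (by
        intro i
        refine Fin.cases ?_ (fun j => ?_) i
        · exact hk₁
        · exact hk j)
      rw [List.ofFn_succ, List.prod_cons] at h2
      simp only [Fin.cons_zero, Fin.cons_succ] at h2
      have e1 : t 0 ^ k₁ * ((List.ofFn fun i => t (Fin.succ i) ^ k i).prod * x *
          ((List.ofFn fun i => t (Fin.succ i) ^ k i).prod)⁻¹) * t 0 ^ (-k₁) =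
          t 0 ^ k₁ * (List.ofFn fun i => t (Fin.succ i) ^ k i).prod * x *
          (t 0 ^ k₁ * (List.ofFn fun i => t (Fin.succ i) ^ k i).prod)⁻¹ := by group
      rw [e1]
      exact h2
    intro k
    have h3 := ih (t 0 ^ (-k 0) * y * (t 0 ^ (-k 0))⁻¹) (hY.conj_mem y hy _)
      (fun i => t (Fin.succ i)) (by
        intro k' hk'
        have h4 := hRn.conj_mem _ (h1 (k 0) k' hk') (t 0 ^ (-k 0))
        rw [conjugate_commutatorElement] at h4
        have e2 : t 0 ^ (-k 0) * (t 0 ^ (k 0) * ((List.ofFn fun i => t (Fin.succ i) ^ k' i).prod * x *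
          ((List.ofFn fun i => t (Fin.succ i) ^ k' i).prod)⁻¹) * t 0 ^ (-(k 0))) *
            (t 0 ^ (-k 0))⁻¹ = (List.ofFn fun i => t (Fin.succ i) ^ k' i).prod * x *
          ((List.ofFn fun i => t (Fin.succ i) ^ k' i).prod)⁻¹ := by group
        rw [e2] at h4
        exact h4) (fun i => k (Fin.succ i))
    have h5 := hRn.conj_mem _ h3 (t 0 ^ (k 0))
    rw [conjugate_commutatorElement] at h5
    rw [List.ofFn_succ, List.prod_cons]
    have e3 : t 0 ^ (k 0) * (t 0 ^ (-k 0) * y * (t 0 ^ (-k 0))⁻¹) * (t 0 ^ (k 0))⁻¹ = y := by group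
    have e4 : t 0 ^ (k 0) * ((List.ofFn fun i => t (Fin.succ i) ^ k (Fin.succ i)).prod * x *
          ((List.ofFn fun i => t (Fin.succ i) ^ k (Fin.succ i)).prod)⁻¹) * (t 0 ^ (k 0))⁻¹ =
        t 0 ^ (k 0) * (List.ofFn fun i => t (Fin.succ i) ^ k (Fin.succ i)).prod * x *
          (t 0 ^ (k 0) * (List.ofFn fun i => t (Fin.succ i) ^ k (Fin.succ i)).prod)⁻¹ := by group
    rw [e3, e4] at h5
    exact h5

theorem core (W : Set (FreeGroup ℕ)) (u : UI) (hu : UIc W u) (G : Type) [Group G]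
    [Group.FG G] (hG : InVar W G) (m c : ℕ)
    (h : Lw (Lw (⊤ : Subgroup G) m ⊤) c (Lw (⊤ : Subgroup G) m ⊤) = ⊥) : MaxN G := by
  set N := Lw (⊤ : Subgroup G) m ⊤ with hN
  have hNn : N.Normal := by rw [hN]; infer_instance
  let p : G →* G ⧸ N := QuotientGroup.mk' N
  have hp : Function.Surjective p := QuotientGroup.mk'_surjective N
  have hker : p.ker = N := QuotientGroup.ker_mk' N
  have hfg : Group.FG (G ⧸ N) := QuotientGroup.fg _
  have hnil : Group.IsNilpotent (G ⧸ N) := by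
    apply E_nilp m
    have h3 := map_Lw p (⊤ : Subgroup G) m ⊤
    rw [Subgroup.map_top_of_surjective _ hp] at h3
    rw [← h3, eq_bot_iff]
    rintro _ ⟨x, hx, rfl⟩
    exact (QuotientGroup.eq_one_iff x).2 hx
  have hmaxc := nil_maxC (G ⧸ N)
  have hpc : Pool.Agent.Helper294.HallC.PC (G ⧸ N) :=
    ⟨(inferInstance : Group.IsSolvable (G ⧸ N)), hmaxc⟩
  obtain ⟨r, t', ht'⟩ := nil_bddGen (G ⧸ N)
  choose t ht using fun i => hp (t' i)
  have hgen : ∀ g : G, ∃ k : Fin r → ℤ, ∃ ν ∈ N, g = ν * (List.ofFn fun i => t i ^ k i).prod := by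
    intro g
    obtain ⟨k, hk⟩ := ht' (p g)
    refine ⟨k, g * ((List.ofFn fun i => t i ^ k i).prod)⁻¹, ?_, by group⟩
    rw [← hker, MonoidHom.mem_ker, map_mul, map_inv, map_list_prod, List.map_ofFn]
    have : (⇑p ∘ fun i => t i ^ k i) = fun i => t' i ^ k i := by
      ext i; simp [ht]
    rw [this, ← hk, mul_inv_cancel]
  obtain ⟨K, hK⟩ := multi W u hu
  obtain ⟨S₀, hS₀⟩ := K_nfg (G := G) m
  have hS₀N : (S₀ : Set G) ⊆ N := by
    rw [hN, hS₀]; exact Subgroup.subset_normalClosure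
  have hgenj := S_step N r t hgen (Fintype.piFinset fun _ => K) (fun j y hy x hx k => by
      refine hK r G hG N (Lw N j N) _ (Lw_le N N j) ?_ y hy x hx t ?_ k
      · rw [← Lw_succ, ← Lw_succ]
        exact le_sup_right
      · intro k' hk'
        apply Subgroup.mem_sup_left
        exact Subgroup.subset_normalClosure ⟨k', Fintype.mem_piFinset.2 hk', rfl⟩) S₀ hS₀N
    (by rw [← hS₀]; exact le_sup_left)
  -- the chain condition on all the sections
  have hacc : ∀ j, K_acc (Lw N (j + 1) N) (Lw N j N) := by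
    intro j
    obtain ⟨E, _, _, ⟨s⟩⟩ := exists_secMod p hp (Lw N (j + 1) N) (Lw N j N)
      (by rw [Lw_succ]; exact Subgroup.commutator_mono le_rfl (Lw_le N N j))
      (by rw [Lw_succ, hker])
    obtain ⟨S, hS1, hS2⟩ := hgenj j
    exact K_acc_of_noe hp s (Pool.Agent.Helper294.HallC.noe_of_fg hpc
      (K_fgm s S hS1 hS2 (Lw_succ_le N j N)))
  have hacc2 : ∀ j, K_acc (Lw N j N) N := by
    intro j
    induction j with
    | zero =>
      intro f hf hn
      exact ⟨0, fun m _ => inf_le_right.trans le_sup_right⟩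
    | succ j ih => exact K_acc_trans (Lw_le N N j) (hacc j) ih
  have hacc3 : K_acc N (⊤ : Subgroup G) := by
    intro f hf hn
    have hwf := Pool.Agent.Helper294.HallC.MaxC.wf hmaxc
    rw [wellFoundedGT_iff_monotone_chain_condition] at hwf
    obtain ⟨n, hn'⟩ := hwf ⟨fun i => (f i).map p, fun i j hij => Subgroup.map_mono (hf hij)⟩
    refine ⟨n, fun m hm => ?_⟩
    rw [inf_top_eq, inf_top_eq, ← hker, ← Subgroup.comap_map_eq]
    have h1 : (f n).map p = (f m).map p := hn' m hm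
    rw [h1]
    exact Subgroup.le_comap_map _ _
  have h4 := hacc2 c
  rw [h] at h4
  exact K_maxN_of_acc (K_acc_trans le_top h4 hacc3)

theorem b2 : B2Stmt := by
  intro W u hu G _ _ hG hvn
  obtain ⟨G₁, h1, h2, m, c, h3⟩ := hvn
  have hfg : Group.FG ↥G₁ := Subgroup.fg_of_index_ne_zero G₁
  refine maxN_of_finiteIndex G₁ (core W u hu ↥G₁ (hG.subgroup G₁) m c ?_)
  apply Subgroup.map_injective G₁.subtype_injective
  rw [map_Lw, E_map_mk, Subgroup.map_bot, h3]

end Pool.Agent.TH959.HGB2
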