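import Pool.Agent.TH37.HG.Stmts2

set_option autoImplicit false

/-!
# Universal identities for triples of central type and of module type (jobs 1881, 1882)
-/

namespace Pool.Agent.TH959.HGUi

open Pool.Agent.TH37.HG
open Pool.Agent.H53R2
open scoped commutatorElement

/-- extraction of the data of a universal identity from a quotient of the relatively free group -/
theorem extract (W : Set (FreeGroup ℕ)) (R : Subgroup (RF W 3)) [R.Normal]
    (h : ⁅QuotientGroup.mk' R (RF.gen W 0), QuotientGroup.mk' R (RF.gen W 1)⁆ ∈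
      Subgroup.normalClosure {x : RF W 3 ⧸ R | ∃ j : ℤ, j ≠ 0 ∧
        x = ⁅QuotientGroup.mk' R (RF.gen W 0),
          QuotientGroup.mk' R (RF.gen W 2) ^ j * QuotientGroup.mk' R (RF.gen W 1) *
            QuotientGroup.mk' R (RF.gen W 2) ^ (-j)⁆}) :
    ∃ u : UI, ∀ (G : Type) [Group G] (hG : InVar W G) (b m t : G),
      R ≤ (RF.lift hG ![b, m, t]).ker → At u b m t := by
  obtain ⟨n, g, s, e, hs, hx⟩ := mem_normalClosure_prod _ _ h
  choose kk hk0 hkk using hs
  have hsurj : Function.Surjective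
      ((QuotientGroup.mk' R).comp (QuotientGroup.mk' (verb W 3))) :=
    (QuotientGroup.mk'_surjective R).comp (QuotientGroup.mk'_surjective (verb W 3))
  choose w hw using fun i => hsurj (g i)
  refine ⟨⟨n, w, kk, e, hk0⟩, ?_⟩
  intro G _ hG b' m' t' hR
  let φ : RF W 3 ⧸ R →* G := QuotientGroup.lift R (RF.lift hG ![b', m', t']) hR
  have hφ : ∀ x, φ (QuotientGroup.mk' R x) = RF.lift hG ![b', m', t'] x := fun x => rfl
  have h1 := congrArg φ hx
  have gb : φ (QuotientGroup.mk' R (RF.gen W 0)) = b' := RF.lift_gen hG ![b', m', t'] 0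
  have gm : φ (QuotientGroup.mk' R (RF.gen W 1)) = m' := RF.lift_gen hG ![b', m', t'] 1
  have gt : φ (QuotientGroup.mk' R (RF.gen W 2)) = t' := RF.lift_gen hG ![b', m', t'] 2
  rw [map_commutatorElement, gb, gm, map_list_prod, List.map_ofFn] at h1
  unfold At
  rw [h1]
  congr 2
  funext i
  change φ (g i * s i ^ e i * (g i)⁻¹) = _
  rw [map_mul, map_mul, map_inv, map_zpow, hkk, map_commutatorElement, map_mul, map_mul, map_zpow,
    map_zpow, gb, gm, gt, ← hw i, MonoidHom.comp_apply, hφ, RF.lift_mk]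

/-- the same, starting from a statement about quotients of the relatively free group -/
theorem extract2 (W : Set (FreeGroup ℕ)) (R : Subgroup (RF W 3)) [R.Normal]
    (h : ∀ (Q : Type) [Group Q] (_ : InVar W Q) (π : RF W 3 →* Q) (_ : Function.Surjective π)
      (_ : R ≤ π.ker) (_ : Cfg (π (RF.gen W 0)) (π (RF.gen W 1)) (π (RF.gen W 2))),
      ⁅π (RF.gen W 0), π (RF.gen W 1)⁆ = 1) :
    ∃ u : UI, ∀ (G : Type) [Group G] (hG : InVar W G) (b m t : G),
      R ≤ (RF.lift hG ![b, m, t]).ker → At u b m t := by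
  apply extract
  set N := Subgroup.normalClosure {x : RF W 3 ⧸ R | ∃ j : ℤ, j ≠ 0 ∧
        x = ⁅QuotientGroup.mk' R (RF.gen W 0),
          QuotientGroup.mk' R (RF.gen W 2) ^ j * QuotientGroup.mk' R (RF.gen W 1) *
            QuotientGroup.mk' R (RF.gen W 2) ^ (-j)⁆} with hN
  have hNn : N.Normal := Subgroup.normalClosure_normal
  have h1 := h ((RF W 3 ⧸ R) ⧸ N) (((RF_inVar W 3).quot R).quot N)
    ((QuotientGroup.mk' N).comp (QuotientGroup.mk' R))
    ((QuotientGroup.mk'_surjective N).comp (QuotientGroup.mk'_surjective R)) (by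
      intro x hx
      rw [MonoidHom.mem_ker, MonoidHom.comp_apply]
      have : QuotientGroup.mk' R x = 1 := (QuotientGroup.eq_one_iff x).2 hx
      rw [this, map_one]) (by
      intro i hi
      have h2 : QuotientGroup.mk' N ⁅QuotientGroup.mk' R (RF.gen W 0),
          QuotientGroup.mk' R (RF.gen W 2) ^ i * QuotientGroup.mk' R (RF.gen W 1) *
            QuotientGroup.mk' R (RF.gen W 2) ^ (-i)⁆ = 1 :=
        (QuotientGroup.eq_one_iff _).2 (Subgroup.subset_normalClosure ⟨i, hi, rfl⟩)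
      rw [map_commutatorElement, map_mul (QuotientGroup.mk' N), map_mul (QuotientGroup.mk' N),
        map_zpow (QuotientGroup.mk' N), map_zpow (QuotientGroup.mk' N)] at h2
      exact h2)
  rw [MonoidHom.comp_apply, MonoidHom.comp_apply, ← map_commutatorElement] at h1
  exact (QuotientGroup.eq_one_iff _).1 h1

/-- HG-UIC -/
theorem uic : UicStmt := by
  intro W hW
  let b : RF W 3 := RF.gen W 0
  let m : RF W 3 := RF.gen W 1
  let t : RF W 3 := RF.gen W 2
  let R : Subgroup (RF W 3) := Subgroup.normalClosure {x : RF W 3 | ∃ i j k : ℤ,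
    x = ⁅⁅t ^ i * b * t ^ (-i), t ^ j * m * t ^ (-j)⁆, t ^ k * b * t ^ (-k)⁆ ∨
    x = ⁅⁅t ^ i * b * t ^ (-i), t ^ j * m * t ^ (-j)⁆, t ^ k * m * t ^ (-k)⁆}
  have hRn : R.Normal := Subgroup.normalClosure_normal
  obtain ⟨u, hu⟩ := extract2 W R (by
    intro Q _ hQ π _ hR hc
    refine hW Q hQ _ _ _ hc ?_
    intro k
    have key1 : π ⁅⁅t ^ (0 : ℤ) * b * t ^ (-(0 : ℤ)), t ^ (0 : ℤ) * m * t ^ (-(0 : ℤ))⁆,
        t ^ k * b * t ^ (-k)⁆ = 1 :=
      hR (Subgroup.subset_normalClosure ⟨0, 0, k, Or.inl rfl⟩)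
    have key2 : π ⁅⁅t ^ (0 : ℤ) * b * t ^ (-(0 : ℤ)), t ^ (0 : ℤ) * m * t ^ (-(0 : ℤ))⁆,
        t ^ k * m * t ^ (-k)⁆ = 1 :=
      hR (Subgroup.subset_normalClosure ⟨0, 0, k, Or.inr rfl⟩)
    simp only [neg_zero, zpow_zero, one_mul, mul_one, map_commutatorElement, map_mul,
      map_zpow] at key1 key2
    exact ⟨key1, key2⟩)
  refine ⟨u, ?_⟩
  intro G _ hG b' m' t' h
  refine hu G hG b' m' t' ?_
  have gb : RF.lift hG ![b', m', t'] b = b' := RF.lift_gen hG ![b', m', t'] 0
  have gm : RF.lift hG ![b', m', t'] m = m' := RF.lift_gen hG ![b', m', t'] 1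
  have gt : RF.lift hG ![b', m', t'] t = t' := RF.lift_gen hG ![b', m', t'] 2
  apply Subgroup.normalClosure_le_normal
  rintro x ⟨i, j, k, hx | hx⟩
  · rw [SetLike.mem_coe, MonoidHom.mem_ker, hx]
    simp only [map_commutatorElement, map_mul, map_zpow, gb, gm, gt]
    exact (h i j k).1
  · rw [SetLike.mem_coe, MonoidHom.mem_ker, hx]
    simp only [map_commutatorElement, map_mul, map_zpow, gb, gm, gt]
    exact (h i j k).2

/-- HG-UIM -/
theorem uim : UimStmt := by
  intro W hW
  let b : RF W 3 := RF.gen W 0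
  let m : RF W 3 := RF.gen W 1
  let t : RF W 3 := RF.gen W 2
  let R : Subgroup (RF W 3) := Subgroup.normalClosure {x : RF W 3 | ∃ (i : ℤ) (g h : RF W 3),
    x = ⁅g * b * g⁻¹, h * b * h⁻¹⁆ ∨ x = ⁅⁅m, t ^ i * m * t ^ (-i)⁆, g * b * g⁻¹⁆}
  have hRn : R.Normal := Subgroup.normalClosure_normal
  obtain ⟨u, hu⟩ := extract2 W R (by
    intro Q _ hQ π hπ hR hc
    have key1 : ∀ g h : Q, ⁅g * π b * g⁻¹, h * π b * h⁻¹⁆ = 1 := by
      intro g h
      obtain ⟨g, rfl⟩ := hπ g
      obtain ⟨h, rfl⟩ := hπ h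
      have : π ⁅g * b * g⁻¹, h * b * h⁻¹⁆ = 1 :=
        hR (Subgroup.subset_normalClosure ⟨0, g, h, Or.inl rfl⟩)
      simpa only [map_commutatorElement, map_mul, map_inv] using this
    have key2 : ∀ (i : ℤ) (g : Q), ⁅⁅π m, π t ^ i * π m * π t ^ (-i)⁆, g * π b * g⁻¹⁆ = 1 := by
      intro i g
      obtain ⟨g, rfl⟩ := hπ g
      have : π ⁅⁅m, t ^ i * m * t ^ (-i)⁆, g * b * g⁻¹⁆ = 1 :=
        hR (Subgroup.subset_normalClosure ⟨i, g, 1, Or.inr rfl⟩)
      simpa only [map_commutatorElement, map_mul, map_inv, map_zpow] using this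
    refine hW Q hQ (Subgroup.normalClosure {π b}) Subgroup.normalClosure_normal ?_ (π b)
      (Subgroup.subset_normalClosure rfl) (π m) (π t) ?_ hc
    · rw [Subgroup.commutator_eq_bot_iff_le_centralizer]
      refine (Subgroup.closure_le _).2 ?_
      intro x hx
      rw [Subgroup.normalClosure, Subgroup.centralizer_closure, SetLike.mem_coe,
        Subgroup.mem_centralizer_iff]
      intro y hy
      rw [Group.mem_conjugatesOfSet_iff] at hx hy
      obtain ⟨a, ha, hx⟩ := hx
      obtain ⟨a', ha', hy⟩ := hy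
      rw [Set.mem_singleton_iff] at ha ha'
      subst ha
      subst ha'
      rw [isConj_iff] at hx hy
      obtain ⟨c, rfl⟩ := hx
      obtain ⟨c', rfl⟩ := hy
      exact (commutatorElement_eq_one_iff_mul_comm.1 (key1 c' c))
    · intro i d hd
      have h1 : Subgroup.normalClosure {π b} ≤
          Subgroup.centralizer {⁅π m, π t ^ i * π m * π t ^ (-i)⁆} := by
        refine (Subgroup.closure_le _).2 ?_
        intro x hx
        rw [SetLike.mem_coe, Subgroup.mem_centralizer_iff]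
        rintro y rfl
        rw [Group.mem_conjugatesOfSet_iff] at hx
        obtain ⟨a, ha, hx⟩ := hx
        rw [Set.mem_singleton_iff] at ha
        subst ha
        rw [isConj_iff] at hx
        obtain ⟨c, rfl⟩ := hx
        exact commutatorElement_eq_one_iff_mul_comm.1 (key2 i c)
      have h2 := h1 hd
      rw [Subgroup.mem_centralizer_iff] at h2
      exact commutatorElement_eq_one_iff_mul_comm.2 (h2 _ rfl))
  refine ⟨u, ?_⟩
  intro G _ hG D hDn hDab b' hb' m' t' h
  refine hu G hG b' m' t' ?_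
  have gb : RF.lift hG ![b', m', t'] b = b' := RF.lift_gen hG ![b', m', t'] 0
  have gm : RF.lift hG ![b', m', t'] m = m' := RF.lift_gen hG ![b', m', t'] 1
  have gt : RF.lift hG ![b', m', t'] t = t' := RF.lift_gen hG ![b', m', t'] 2
  apply Subgroup.normalClosure_le_normal
  rintro x ⟨i, g, k, hx | hx⟩
  · rw [SetLike.mem_coe, MonoidHom.mem_ker, hx]
    simp only [map_commutatorElement, map_mul, map_inv, gb]
    have h3 : ⁅RF.lift hG ![b', m', t'] g * b' * (RF.lift hG ![b', m', t'] g)⁻¹,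
        RF.lift hG ![b', m', t'] k * b' * (RF.lift hG ![b', m', t'] k)⁻¹⁆ ∈ ⁅D, D⁆ :=
      Subgroup.commutator_mem_commutator (hDn.conj_mem _ hb' _) (hDn.conj_mem _ hb' _)
    rw [hDab] at h3
    exact Subgroup.mem_bot.1 h3
  · rw [SetLike.mem_coe, MonoidHom.mem_ker, hx]
    simp only [map_commutatorElement, map_mul, map_zpow, map_inv, gb, gm, gt]
    exact h i _ (hDn.conj_mem _ hb' _)

end Pool.Agent.TH959.HGUi
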