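import Pool.Agent.TH37.HG.Stmts2

set_option autoImplicit false

/-!
# Splitting of triples of module type (job 1892)
-/

namespace Pool.Agent.TH959.HGX5

open Pool.Agent.TH37.HG
open Pool.Agent.H53R2
open scoped commutatorElement

theorem inVar_prod {W : Set (FreeGroup ℕ)} {G H : Type} [Group G] [Group H] (hG : InVar W G)
    (hH : InVar W H) : InVar W (G × H) := by
  intro w hw f
  have h1 : (MonoidHom.fst G H).comp (FreeGroup.lift f) = FreeGroup.lift (fun n => (f n).1) := by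
    apply FreeGroup.ext_hom
    intro a
    simp
  have h2 : (MonoidHom.snd G H).comp (FreeGroup.lift f) = FreeGroup.lift (fun n => (f n).2) := by
    apply FreeGroup.ext_hom
    intro a
    simp
  apply Prod.ext
  · have := DFunLike.congr_fun h1 w
    rw [hG w hw] at this
    exact this
  · have := DFunLike.congr_fun h2 w
    rw [hH w hw] at this
    exact this

theorem x5 : X5Stmt := by
  intro W G _ hG p q b m t ⟨D, hDn, hDab, hbD, hbp, hcfg, hmm, hmq⟩ hne
  -- elements of `D` commute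
  have hD : ∀ x ∈ D, ∀ y ∈ D, x * y = y * x := by
    intro x hx y hy
    have h1 := Subgroup.commutator_mem_commutator hx hy
    rw [hDab] at h1
    exact commutatorElement_eq_one_iff_mul_comm.1 (Subgroup.mem_bot.1 h1)
  -- conjugation by `m`, `m_j` on `D`
  have hmj : ∀ (j : ℤ) (d : G), d ∈ D → m * (t ^ j * m * t ^ (-j)) * d *
      (m * (t ^ j * m * t ^ (-j)))⁻¹ =
      (t ^ j * m * t ^ (-j)) * m * d * ((t ^ j * m * t ^ (-j)) * m)⁻¹ := by
    intro j d hd
    set n := t ^ j * m * t ^ (-j) with hn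
    have h1 : (n * m) * d * (n * m)⁻¹ ∈ D := hDn.conj_mem d hd _
    have h2 := commutatorElement_eq_one_iff_mul_comm.1 (hmm j _ h1)
    rw [← hn, commutatorElement_def] at h2
    have h3 : m * n * d * (m * n)⁻¹ = (m * n * m⁻¹ * n⁻¹) * (n * m * d * (n * m)⁻¹) *
        (m * n * m⁻¹ * n⁻¹)⁻¹ := by group
    rw [h3, h2, mul_inv_cancel_right]
  let x : ℤ → ℤ → G := fun i s => t ^ i * (m ^ s * b * m ^ (-s)) * t ^ (-i)
  have hx0 : ∀ s, x 0 s = m ^ s * b * m ^ (-s) := by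
    intro s
    simp [x]
  have hx00 : x 0 0 = b := by simp [x]
  have hmsb : ∀ s : ℤ, m ^ s * b * m ^ (-s) ∈ D := fun s => by
    rw [zpow_neg]; exact hDn.conj_mem b hbD _
  have hxD : ∀ i s, x i s ∈ D := fun i s => by
    change t ^ i * (m ^ s * b * m ^ (-s)) * t ^ (-i) ∈ D
    rw [zpow_neg t]; exact hDn.conj_mem _ (hmsb s) _
  have hmt : ∀ i s, t * x i s * t⁻¹ = x (i + 1) s := by
    intro i s
    change t * (t ^ i * (m ^ s * b * m ^ (-s)) * t ^ (-i)) * t⁻¹ =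
      t ^ (i + 1) * (m ^ s * b * m ^ (-s)) * t ^ (-(i + 1))
    group
  -- `m_j`, `j ≠ 0`, commutes with all `m^s b m^-s`
  have hmjs : ∀ j : ℤ, j ≠ 0 → ∀ s : ℤ, (t ^ j * m * t ^ (-j)) * (m ^ s * b * m ^ (-s)) *
      (t ^ j * m * t ^ (-j))⁻¹ = m ^ s * b * m ^ (-s) := by
    intro j hj s
    have h0 := commutatorElement_eq_one_iff_mul_comm.1 (hcfg j hj)
    have hm := hmj j
    set n := t ^ j * m * t ^ (-j) with hn
    induction s using Int.induction_on with
    | zero =>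
      simp only [zpow_zero, one_mul, neg_zero, mul_one]
      rw [← h0, mul_inv_cancel_right]
    | succ s ih =>
      have e1 : m ^ ((s : ℤ) + 1) * b * m ^ (-((s : ℤ) + 1)) =
          m * (m ^ (s : ℤ) * b * m ^ (-(s : ℤ))) * m⁻¹ := by group
      rw [e1]
      have h1 := hm _ (hmsb s)
      have e2 : n * (m * (m ^ (s : ℤ) * b * m ^ (-(s : ℤ))) * m⁻¹) * n⁻¹ =
          n * m * (m ^ (s : ℤ) * b * m ^ (-(s : ℤ))) * (n * m)⁻¹ := by group
      rw [e2, ← h1]
      have e3 : m * n * (m ^ (s : ℤ) * b * m ^ (-(s : ℤ))) * (m * n)⁻¹ =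
          m * (n * (m ^ (s : ℤ) * b * m ^ (-(s : ℤ))) * n⁻¹) * m⁻¹ := by group
      rw [e3, ih]
    | pred s ih =>
      have e1 : m ^ (-(s : ℤ) - 1) * b * m ^ (-(-(s : ℤ) - 1)) =
          m⁻¹ * (m ^ (-(s : ℤ)) * b * m ^ (-(-(s : ℤ)))) * m := by group
      have hmem : m ^ (-(s : ℤ) - 1) * b * m ^ (-(-(s : ℤ) - 1)) ∈ D := hmsb _
      have h1 := hm _ hmem
      set d := m ^ (-(s : ℤ) - 1) * b * m ^ (-(-(s : ℤ) - 1)) with hd
      have e4 : m * d * m⁻¹ = m ^ (-(s : ℤ)) * b * m ^ (-(-(s : ℤ))) := by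
        rw [e1]; group
      have e2 : n * m * d * (n * m)⁻¹ = n * (m * d * m⁻¹) * n⁻¹ := by group
      rw [e2, e4, ih, ← e4] at h1
      have e3 : m * n * d * (m * n)⁻¹ = m * (n * d * n⁻¹) * m⁻¹ := by group
      rw [e3] at h1
      exact mul_left_cancel (mul_right_cancel h1)
  have hmx : ∀ i s, i ≠ 0 → m * x i s * m⁻¹ = x i s := by
    intro i s hi
    have h1 := hmjs (-i) (neg_ne_zero.2 hi) s
    change m * (t ^ i * (m ^ s * b * m ^ (-s)) * t ^ (-i)) * m⁻¹ =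
      t ^ i * (m ^ s * b * m ^ (-s)) * t ^ (-i)
    have e1 : m * (t ^ i * (m ^ s * b * m ^ (-s)) * t ^ (-i)) * m⁻¹ =
        t ^ i * ((t ^ (-i) * m * t ^ (-(-i))) * (m ^ s * b * m ^ (-s)) *
          (t ^ (-i) * m * t ^ (-(-i)))⁻¹) * t ^ (-i) := by group
    rw [e1, h1]
  have hmx0 : ∀ s, m * x 0 s * m⁻¹ = x 0 (s + 1) := by
    intro s
    rw [hx0, hx0]; group
  let C : Subgroup G := Subgroup.centralizer {y : G | ∃ i s, y = x i s}
  have hC : ∀ c, c ∈ C ↔ ∀ i s, x i s * c = c * x i s := by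
    intro c
    constructor
    · intro h i s
      exact (Subgroup.mem_centralizer_iff.1 h) _ ⟨i, s, rfl⟩
    · intro h
      refine Subgroup.mem_centralizer_iff.2 ?_
      rintro _ ⟨i, s, rfl⟩
      exact h i s
  -- the action of the generators on `C`
  have conj_iff : ∀ (g c : G), (∀ i s, ∃ i' s', g * x i s * g⁻¹ = x i' s') → 
      (∀ i s, ∃ i' s', g⁻¹ * x i s * g = x i' s') → (c ∈ C ↔ g * c * g⁻¹ ∈ C) := by
    intro g c h1 h2
    rw [hC, hC]
    constructor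
    · intro h i s
      obtain ⟨i', s', h3⟩ := h2 i s
      have h4 := h i' s'
      rw [← h3] at h4
      calc x i s * (g * c * g⁻¹) = g * ((g⁻¹ * x i s * g) * c) * g⁻¹ := by group
        _ = g * (c * (g⁻¹ * x i s * g)) * g⁻¹ := by rw [h4]
        _ = (g * c * g⁻¹) * x i s := by group
    · intro h i s
      obtain ⟨i', s', h3⟩ := h1 i s
      have h4 := h i' s'
      rw [← h3] at h4
      calc x i s * c = g⁻¹ * ((g * x i s * g⁻¹) * (g * c * g⁻¹)) * g := by group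
        _ = g⁻¹ * ((g * c * g⁻¹) * (g * x i s * g⁻¹)) * g := by rw [h4]
        _ = c * x i s := by group
  have hCt : ∀ c, c ∈ C ↔ t * c * t⁻¹ ∈ C := fun c => conj_iff t c
    (fun i s => ⟨i + 1, s, hmt i s⟩) (fun i s => ⟨i - 1, s, by
      have := hmt (i - 1) s
      rw [sub_add_cancel] at this
      rw [← this]; group⟩)
  have hCm : ∀ c, c ∈ C ↔ m * c * m⁻¹ ∈ C := fun c => conj_iff m c
    (fun i s => by
      by_cases hi : i = 0
      · subst hi; exact ⟨0, s + 1, hmx0 s⟩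
      · exact ⟨i, s, hmx i s hi⟩) (fun i s => by
      by_cases hi : i = 0
      · subst hi
        refine ⟨0, s - 1, ?_⟩
        have := hmx0 (s - 1)
        rw [sub_add_cancel] at this
        rw [← this]; group
      · refine ⟨i, s, ?_⟩
        have := hmx i s hi
        nth_rewrite 1 [← this]; group)
  have hCb : ∀ c ∈ C, b * c = c * b := by
    intro c hc
    have := (hC c).1 hc 0 0
    rwa [hx00] at this
  -- the diagonal
  let Δ : Subgroup (G × G) := C.map ((MonoidHom.id G).prod (MonoidHom.id G))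
  have hΔ : ∀ y : G × G, y ∈ Δ ↔ y.1 ∈ C ∧ y.2 = y.1 := by
    intro y
    constructor
    · rintro ⟨c, hc, rfl⟩
      exact ⟨hc, rfl⟩
    · rintro ⟨h1, h2⟩
      exact ⟨y.1, h1, Prod.ext rfl h2.symm⟩
  let b' : G × G := (b, 1)
  let m' : G × G := (m, m)
  let t' : G × G := (t, t)
  let Γ : Subgroup (G × G) := Subgroup.closure {b', m', t'}
  have hΓb : b' ∈ Γ := Subgroup.subset_closure (by simp)
  have hΓm : m' ∈ Γ := Subgroup.subset_closure (by simp)
  have hΓt : t' ∈ Γ := Subgroup.subset_closure (by simp)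
  have hnorm : Γ ≤ Subgroup.normalizer (Δ : Set (G × G)) := by
    refine (Subgroup.closure_le _).2 ?_
    rintro g (rfl | rfl | rfl)
    · rw [SetLike.mem_coe, Subgroup.mem_normalizer_iff]
      intro y
      rw [hΔ, hΔ]
      change (y.1 ∈ C ∧ y.2 = y.1) ↔ (b * y.1 * b⁻¹ ∈ C ∧ 1 * y.2 * 1⁻¹ = b * y.1 * b⁻¹)
      rw [inv_one, mul_one, one_mul]
      constructor
      · rintro ⟨h1, h2⟩
        rw [hCb _ h1, mul_inv_cancel_right]
        exact ⟨h1, h2⟩
      · rintro ⟨h1, h2⟩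
        have h3 := hCb _ h1
        have h4 : y.1 = b * y.1 * b⁻¹ := by
          have h5 : b * (b * y.1 * b⁻¹) = b * y.1 * b⁻¹ * b := h3
          rw [inv_mul_cancel_right] at h5
          exact (mul_left_cancel h5).symm
        rw [← h4] at h1 h2
        exact ⟨h1, h2⟩
    · rw [SetLike.mem_coe, Subgroup.mem_normalizer_iff]
      intro y
      rw [hΔ, hΔ]
      change (y.1 ∈ C ∧ y.2 = y.1) ↔ (m * y.1 * m⁻¹ ∈ C ∧ m * y.2 * m⁻¹ = m * y.1 * m⁻¹)
      rw [← hCm]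
      refine and_congr Iff.rfl ⟨fun h => by rw [h], fun h => ?_⟩
      exact mul_left_cancel (mul_right_cancel h)
    · rw [SetLike.mem_coe, Subgroup.mem_normalizer_iff]
      intro y
      rw [hΔ, hΔ]
      change (y.1 ∈ C ∧ y.2 = y.1) ↔ (t * y.1 * t⁻¹ ∈ C ∧ t * y.2 * t⁻¹ = t * y.1 * t⁻¹)
      rw [← hCt]
      refine and_congr Iff.rfl ⟨fun h => by rw [h], fun h => ?_⟩
      exact mul_left_cancel (mul_right_cancel h)
  have hn : (Δ.subgroupOf Γ).Normal := Subgroup.normal_subgroupOf_of_le_normalizer hnorm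
  let π : ↥Γ →* ↥Γ ⧸ Δ.subgroupOf Γ := QuotientGroup.mk' _
  have hπ : ∀ g : ↥Γ, π g = 1 ↔ (g : G × G).1 ∈ C ∧ (g : G × G).2 = (g : G × G).1 := by
    intro g
    have h1 : π g = 1 ↔ g ∈ Δ.subgroupOf Γ := QuotientGroup.eq_one_iff g
    rw [h1, Subgroup.mem_subgroupOf, hΔ]
  refine ⟨↥Γ ⧸ Δ.subgroupOf Γ, inferInstance, π ⟨b', hΓb⟩, π ⟨m', hΓm⟩, π ⟨t', hΓt⟩,
    ((inVar_prod hG hG).subgroup Γ).quot _, ⟨?_, ?_, ?_, ?_, ?_⟩, ?_⟩
  · rw [← map_pow, hπ]
    change b ^ p ∈ C ∧ (1 : G) ^ p = b ^ p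
    rw [hbp, one_pow]
    exact ⟨C.one_mem, rfl⟩
  · rw [← map_pow, hπ]
    change m ^ q ∈ C ∧ m ^ q = m ^ q
    refine ⟨?_, rfl⟩
    rw [hC]
    intro i s
    by_cases hi : i = 0
    · subst hi
      rw [hx0]
      have h1 := commutatorElement_eq_one_iff_mul_comm.1 hmq
      have e1 : m ^ s * b * m ^ (-s) * m ^ q = m ^ s * (b * m ^ q) * m ^ (-s) := by
        rw [← zpow_natCast m q]; group
      have e2 : m ^ q * (m ^ s * b * m ^ (-s)) = m ^ s * (m ^ q * b) * m ^ (-s) := by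
        rw [← zpow_natCast m q]; group
      rw [e1, e2, h1]
    · have h1 := hmx i s hi
      have h2 : Commute (x i s) m := by
        have h3 : m * x i s * m⁻¹ * m = x i s * m := by rw [h1]
        rw [inv_mul_cancel_right] at h3
        exact h3.symm
      exact (h2.pow_right q)
  · intro i
    rw [← map_zpow, ← map_zpow, ← map_mul, ← map_mul, ← map_commutatorElement, hπ]
    change ⁅m, t ^ i * m * t ^ (-i)⁆ ∈ C ∧ ⁅m, t ^ i * m * t ^ (-i)⁆ = ⁅m, t ^ i * m * t ^ (-i)⁆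
    refine ⟨?_, rfl⟩
    rw [hC]
    intro i' s
    exact (commutatorElement_eq_one_iff_mul_comm.1 (hmm i _ (hxD i' s))).symm
  · intro i hi
    rw [← map_zpow, ← map_zpow, ← map_mul, ← map_mul, ← map_commutatorElement, hπ]
    change ⁅b, t ^ i * m * t ^ (-i)⁆ ∈ C ∧ ⁅(1 : G), t ^ i * m * t ^ (-i)⁆ =
      ⁅b, t ^ i * m * t ^ (-i)⁆
    rw [hcfg i hi, commutatorElement_one_left]
    exact ⟨C.one_mem, rfl⟩
  · intro i s
    rw [← map_zpow, ← map_zpow, ← map_zpow, ← map_zpow, ← map_mul, ← map_mul, ← map_mul,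
      ← map_mul, ← map_commutatorElement, hπ]
    change ⁅b, x i s⁆ ∈ C ∧ ⁅(1 : G), t ^ i * (m ^ s * 1 * m ^ (-s)) * t ^ (-i)⁆ = ⁅b, x i s⁆
    rw [commutatorElement_eq_one_iff_mul_comm.2 (hD b hbD _ (hxD i s)), commutatorElement_one_left]
    exact ⟨C.one_mem, rfl⟩
  · rw [← map_commutatorElement, Ne, hπ]
    change ¬ (⁅b, m⁆ ∈ C ∧ ⁅(1 : G), m⁆ = ⁅b, m⁆)
    rw [commutatorElement_one_left]
    rintro ⟨_, h⟩
    exact hne h.symm

end Pool.Agent.TH959.HGX5
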