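import Pool.Agent.TH387.EI.Defs

/-!
# The GNS construction for a positive functional on a non-unital C*-algebra
(helper959, job 2953 for helper387)
-/

set_option autoImplicit false
open scoped ComplexOrder InnerProductSpace
noncomputable section
namespace Pool.Agent.TH387.EI
universe u

variable {A : Type u} [NonUnitalCStarAlgebra A]
  {H : Type u} [NormedAddCommGroup H] [InnerProductSpace ℂ H] [CompleteSpace H]

theorem gns_of (g : A → ℂ) (hg : PF g) :
    ∃ (L : Type u) (_ : NormedAddCommGroup L) (_ : InnerProductSpace ℂ L) (_ : CompleteSpace L)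
      (ρ : A →⋆ₙₐ[ℂ] (L →L[ℂ] L)) (ξ : L), Nd ρ ∧ ‖ξ‖ ≤ 1 ∧ ∀ x, ⟪ξ, ρ x ξ⟫_ℂ = g x := by
  let _ := CStarAlgebra.spectralOrder A
  have _ := CStarAlgebra.spectralOrderedRing A
  let f : A →ₚ[ℂ] ℂ := PositiveLinearMap.mk₀
    ({ toFun := g, map_add' := hg.add, map_smul' := fun c a => hg.smul c a } : A →ₗ[ℂ] ℂ) (by
      intro x hx
      obtain ⟨y, rfl⟩ := CStarAlgebra.nonneg_iff_eq_star_mul_self.1 hx
      exact hg.pos y)
  have hf : ∀ x, f x = g x := fun x => rfl
  let ρ : A →⋆ₙₐ[ℂ] (f.GNS →L[ℂ] f.GNS) := f.gnsNonUnitalStarAlgHom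
  have hρ : ∀ a b : A, ρ a (f.toPreGNS b : f.GNS) = (f.toPreGNS (a * b) : f.GNS) := by
    intro a b
    show f.gnsNonUnitalStarAlgHom a (f.toPreGNS b : f.GNS) = _
    rw [PositiveLinearMap.gnsNonUnitalStarAlgHom_apply_coe]
    rfl
  have hin : ∀ a b : A, ⟪(f.toPreGNS a : f.GNS), (f.toPreGNS b : f.GNS)⟫_ℂ = g (star a * b) := by
    intro a b
    rw [UniformSpace.Completion.inner_coe, PositiveLinearMap.preGNS_inner_def]
    rfl
  have hstar : ∀ a : A, g (star a) = star (g a) := by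
    intro a
    rw [← hf, ← hf, map_star]
  -- the functional
  let Λ0 : f.PreGNS →ₗ[ℂ] ℂ :=
    { toFun := fun a => g (f.ofPreGNS a)
      map_add' := fun a b => by rw [map_add, hg.add]
      map_smul' := fun c a => by rw [map_smul, hg.smul]; rfl }
  have hΛ0 : ∀ a : f.PreGNS, ‖Λ0 a‖ ≤ 1 * ‖a‖ := by
    intro a
    rw [one_mul, PositiveLinearMap.preGNS_norm_def]
    refine Real.le_sqrt_of_sq_le ?_
    exact hg.cs (f.ofPreGNS a)
  let Λ : f.PreGNS →L[ℂ] ℂ := Λ0.mkContinuous 1 hΛ0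
  let Λh : f.GNS →L[ℂ] ℂ := Λ.extend (UniformSpace.Completion.toComplL : f.PreGNS →L[ℂ] f.GNS)
  have hΛh : ∀ a : A, Λh (f.toPreGNS a : f.GNS) = g a := by
    intro a
    have h1 := ContinuousLinearMap.extend_eq Λ
      (e := (UniformSpace.Completion.toComplL : f.PreGNS →L[ℂ] f.GNS))
      UniformSpace.Completion.denseRange_coe
      (UniformSpace.Completion.isUniformInducing_coe _) (f.toPreGNS a)
    exact h1
  let ξ : f.GNS := (InnerProductSpace.toDual ℂ f.GNS).symm Λh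
  have hξ : ∀ a : A, ⟪ξ, (f.toPreGNS a : f.GNS)⟫_ℂ = g a := by
    intro a
    rw [← hΛh a]
    exact InnerProductSpace.toDual_symm_apply
  -- density
  have hdense : ∀ x y : f.GNS, (∀ a : A, ⟪x, (f.toPreGNS a : f.GNS)⟫_ℂ =
      ⟪y, (f.toPreGNS a : f.GNS)⟫_ℂ) → x = y := by
    intro x y h
    have h2 : ∀ z : f.GNS, ⟪x, z⟫_ℂ = ⟪y, z⟫_ℂ := by
      intro z
      induction z using UniformSpace.Completion.induction_on with
      | hp => exact isClosed_eq (by fun_prop) (by fun_prop)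
      | ih z => exact h (f.ofPreGNS z)
    exact ext_inner_right ℂ h2
  have hρξ : ∀ a : A, ρ a ξ = (f.toPreGNS a : f.GNS) := by
    intro a
    apply hdense
    intro b
    have h1 : ⟪ρ a ξ, (f.toPreGNS b : f.GNS)⟫_ℂ = ⟪ξ, ρ (star a) (f.toPreGNS b : f.GNS)⟫_ℂ := by
      rw [map_star, ContinuousLinearMap.star_eq_adjoint, ContinuousLinearMap.adjoint_inner_right]
    rw [h1, hρ, hξ, hin]
  have hnorm : ‖ξ‖ ≤ 1 := by
    have h1 : ∀ z : f.GNS, ‖⟪ξ, z⟫_ℂ‖ ≤ ‖z‖ := by
      intro z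
      induction z using UniformSpace.Completion.induction_on with
      | hp => exact isClosed_le (by fun_prop) (by fun_prop)
      | ih z =>
        have h2 := hξ (f.ofPreGNS z)
        have h3 : ⟪ξ, (z : f.GNS)⟫_ℂ = g (f.ofPreGNS z) := h2
        rw [h3, UniformSpace.Completion.norm_coe]
        have h4 := hΛ0 z
        rw [one_mul] at h4
        exact h4
    have h2 := h1 ξ
    rw [inner_self_eq_norm_sq_to_K] at h2
    have h3 : ‖((‖ξ‖ : ℂ)) ^ 2‖ = ‖ξ‖ ^ 2 := by
      rw [norm_pow, Complex.norm_real, norm_norm]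
    have h4 : ‖ξ‖ ^ 2 ≤ ‖ξ‖ := by
      rw [← h3]
      exact h2
    nlinarith [norm_nonneg ξ]
  refine ⟨f.GNS, inferInstance, inferInstance, inferInstance, ρ, ξ, ?_, hnorm, ?_⟩
  · intro v hv
    have h0 : (0 : f.GNS) = v := by
      have := hdense v 0 (fun a => by
        have h1 := hv a ξ
        rw [hρξ] at h1
        rw [inner_zero_left, ← inner_conj_symm, h1, map_zero])
      exact this.symm
    exact h0.symm
  · intro x
    rw [hρξ, hξ]

end Pool.Agent.TH387.EI
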