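import Pool.Agent.TH722.FI.Defs
import Pool.Agent.TH480.FI.FI_LAB
import Pool.Agent.TH480.FI.FI_JMONO

/-!
# FI-FSPLIT: the three basic inequalities for the functional F of a graph family (job 1695)
-/

set_option autoImplicit false
set_option linter.unusedSectionVars false

namespace Pool.Agent.TH959.FIS

open MeasureTheory Set Filter Pool.Agent.TH722.FI
open scoped Topology ENNReal
open Pool.Agent.TH480.FI (lab_pair lab_of_finer lab_comp jfun_integrable J_mono)

section J

variable {X : Type*} [MeasurableSpace X] {μ : Measure X} [IsProbabilityMeasure μ]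
  {α β α' β' γ κ : Type*}

theorem J_symm (D : Set X) {a : X → α} {b : X → β} : J μ D a b = J μ D b a := by
  unfold J
  congr 1
  ext x
  unfold jfun jmass
  have : {y | y ∈ D ∧ a y = a x ∧ b y = b x} = {y | y ∈ D ∧ b y = b x ∧ a y = a x} := by
    ext y; exact and_congr Iff.rfl and_comm
  rw [this, mul_comm]

theorem J_map (T : X ≃ᵐ X) (hT : MeasurePreserving T μ μ) (D : Set X) {a : X → α} {b : X → β} :
    J μ (T ⁻¹' D) (fun x => a (T x)) (fun x => b (T x)) = J μ D a b := by
  unfold J
  rw [← hT.setIntegral_preimage_emb T.measurableEmbedding (fun y => jfun μ D a b y) D]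
  congr 1
  ext x
  unfold jfun jmass mass
  have h1 : ∀ s : Set X, μ.real (T ⁻¹' s) = μ.real s := by
    intro s
    unfold Measure.real
    rw [hT.measure_preimage_equiv]
  have e1 := h1 {y | y ∈ D ∧ a y = a (T x) ∧ b y = b (T x)}
  have e2 := h1 {y | a y = a (T x)}
  have e3 := h1 {y | b y = b (T x)}
  rw [← e1, ← e2, ← e3]
  rfl

/-- splitting the domain along a determined set -/
theorem J_split2 (D E : Set X) (hD : MeasurableSet D) (hE : MeasurableSet E) (hED : E ⊆ D)
    {a : X → α} {b : X → β} (ha : IsLab μ a) (hb : IsLab μ b)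
    (hdet : ∀ x y, a x = a y → (x ∈ E ↔ y ∈ E)) :
    J μ D a b = J μ E a b + J μ (D \ E) a b := by
  have h1 : ∀ x ∈ E, jfun μ E a b x = jfun μ D a b x := by
    intro x hx
    unfold jfun jmass
    have : {y | y ∈ E ∧ a y = a x ∧ b y = b x} = {y | y ∈ D ∧ a y = a x ∧ b y = b x} := by
      ext y
      exact ⟨fun h => ⟨hED h.1, h.2⟩, fun h => ⟨(hdet y x h.2.1).2 hx, h.2⟩⟩
    rw [this]
  have h2 : ∀ x ∈ D \ E, jfun μ (D \ E) a b x = jfun μ D a b x := by
    intro x hx
    unfold jfun jmass
    have : {y | y ∈ D \ E ∧ a y = a x ∧ b y = b x} = {y | y ∈ D ∧ a y = a x ∧ b y = b x} := by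
      ext y
      exact ⟨fun h => ⟨h.1.1, h.2⟩, fun h => ⟨⟨h.1, fun h3 => hx.2 ((hdet y x h.2.1).1 h3)⟩, h.2⟩⟩
    rw [this]
  unfold J
  rw [setIntegral_congr_fun hE h1, setIntegral_congr_fun (hD.diff hE) h2]
  have h3 := jfun_integrable D hD ha hb
  have h4 := setIntegral_union disjoint_sdiff_right (hD.diff hE) (h3.mono_set hED)
    (h3.mono_set sdiff_subset)
  rw [union_sdiff_cancel hED] at h4
  exact h4

/-- joint masses are positive almost everywhere -/
theorem jmass_pos (E : Set X) {a : X → α} {b : X → β} (ha : (range a).Countable)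
    (hb : (range b).Countable) : ∀ᵐ x ∂μ, x ∈ E → 0 < jmass μ E a b x := by
  have h1 : (range fun x => (a x, b x)).Countable := by
    refine (ha.prod hb).mono ?_
    rintro _ ⟨x, rfl⟩
    exact ⟨⟨x, rfl⟩, ⟨x, rfl⟩⟩
  rw [ae_iff]
  refine measure_mono_null (t := ⋃ p ∈ (range fun x => (a x, b x)) ∩
    {p | μ {y | y ∈ E ∧ a y = p.1 ∧ b y = p.2} = 0}, {y | y ∈ E ∧ a y = p.1 ∧ b y = p.2}) ?_ ?_
  · intro x hx
    have hx' : ¬ (x ∈ E → 0 < jmass μ E a b x) := hx
    push Not at hx'
    obtain ⟨hxE, hx2⟩ := hx'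
    have h0 : jmass μ E a b x = 0 := le_antisymm hx2 measureReal_nonneg
    refine mem_biUnion (x := (a x, b x)) ⟨⟨x, rfl⟩, ?_⟩ ⟨hxE, rfl, rfl⟩
    exact (measureReal_eq_zero_iff).1 h0
  · rw [measure_biUnion_null_iff (h1.mono inter_subset_left)]
    exact fun p hp => hp.2

theorem jmass_le_left (E : Set X) (a : X → α) (b : X → β) (x : X) :
    jmass μ E a b x ≤ mass μ a x :=
  measureReal_mono fun _ h => h.2.1

theorem jmass_le_right (E : Set X) (a : X → α) (b : X → β) (x : X) :
    jmass μ E a b x ≤ mass μ b x :=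
  measureReal_mono fun _ h => h.2.2

end J

section F

variable {G X : Type*} [Group G] [MulAction G X] [MeasurableSpace X] {μ : Measure X}
  [IsProbabilityMeasure μ] {α β γ : Type*}

theorem F_congr (hact : ∀ g : G, MeasurePreserving (fun x : X => g • x) μ μ)
    (D : G → Set X) (S : Finset G) {l : X → α} {l' : X → β} (h : Finer l l') (h' : Finer l' l) :
    F μ S D l = F μ S D l' := by
  have _ := hact
  have key : ∀ x y, l x = l y ↔ l' x = l' y := fun x y => ⟨h x y, h' x y⟩
  simp only [F, ent, J, jfun, info, mass, jmass, key]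

theorem F_join (hact : ∀ g : G, MeasurePreserving (fun x : X => g • x) μ μ)
    (D : G → Set X) (S : Finset G) (hD : GF D S) {l : X → α} (hl : IsLab μ l) {c : X → γ}
    (hc : IsLab μ c) :
    F μ S D (fun x => (l x, c x)) ≤ F μ S D l + (ent μ (fun x => (l x, c x)) - ent μ l) := by
  have hlc := (lab_pair hl hc).1
  have h1 : ∑ g ∈ S, J μ (D g) l (fun x => l (g • x)) ≤
      ∑ g ∈ S, J μ (D g) (fun x => (l x, c x)) (fun x => (l (g • x), c (g • x))) := by
    refine Finset.sum_le_sum fun g _ => ?_
    exact J_mono (D g) (hD.meas g) hlc (lab_comp (hact g) hlc).1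
      (fun x y hxy => (Prod.mk.inj hxy).1) (fun x y hxy => (Prod.mk.inj hxy).1)
  unfold F
  linarith

/-- the graph family at the inverse element -/
theorem J_inv (hact : ∀ g : G, MeasurePreserving (fun x : X => g • x) μ μ)
    (D : G → Set X) (S : Finset G) (hD : GF D S) (m : X → α) (g : G) :
    J μ (D g⁻¹) m (fun x => m (g⁻¹ • x)) = J μ (D g) m (fun x => m (g • x)) := by
  let T : X ≃ᵐ X :=
    { toFun := fun x => g • x
      invFun := fun x => g⁻¹ • x
      left_inv := fun x => inv_smul_smul g x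
      right_inv := fun x => smul_inv_smul g x
      measurable_toFun := (hact g).measurable
      measurable_invFun := (hact g⁻¹).measurable }
  have h1 := J_map (μ := μ) T (hact g) (D g⁻¹) (a := m) (b := fun x => m (g⁻¹ • x))
  rw [← h1]
  have h2 : T ⁻¹' (D g⁻¹) = D g := by
    ext x
    exact (hD.symm g x).symm
  have h3 : (fun x => (fun x => m (g⁻¹ • x)) (T x)) = m := by
    ext x
    show m (g⁻¹ • (g • x)) = m x
    rw [inv_smul_smul]
  rw [h2, h3, J_symm]
  rfl

theorem F_split (hact : ∀ g : G, MeasurePreserving (fun x : X => g • x) μ μ)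
    (D : G → Set X) (S : Finset G) (hD : GF D S) {l : X → α} (hl : IsLab μ l)
    (g : G) (hg : g⁻¹ ≠ g) (E : Set X) (hE : MeasurableSet E) (hED : E ⊆ D g)
    (hEl : ∀ x y, l x = l y → (x ∈ E ↔ y ∈ E)) {c : X → γ} (hc : Finer l c) :
    IsLab μ (fun x => (l x, onSet E (fun y => c (g • y)) x)) ∧
    F μ S D (fun x => (l x, onSet E (fun y => c (g • y)) x)) ≤ F μ S D l := by
  classical
  set l' : X → α × Option γ := fun x => (l x, onSet E (fun y => c (g • y)) x) with hl'def
  have hon1 : ∀ x ∈ E, onSet E (fun y => c (g • y)) x = some (c (g • x)) := fun x hx => by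
    unfold onSet; rw [if_pos hx]
  have hon2 : ∀ x, x ∉ E → onSet E (fun y => c (g • y)) x = none := fun x hx => by
    unfold onSet; rw [if_neg hx]
  have hlg : IsLab μ (fun x => l (g • x)) := (lab_comp (hact g) hl).1
  have hfin : Finer (fun x => (l x, l (g • x))) l' := by
    intro x y hxy
    have h1 : l x = l y := (Prod.mk.inj hxy).1
    have h2 : c (g • x) = c (g • y) := hc _ _ (Prod.mk.inj hxy).2
    have h3 := hEl x y h1
    refine Prod.ext h1 ?_
    show onSet E (fun y => c (g • y)) x = onSet E (fun y => c (g • y)) y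
    by_cases hx : x ∈ E
    · rw [hon1 x hx, hon1 y (h3.1 hx), h2]
    · rw [hon2 x hx, hon2 y (fun h => hx (h3.2 h))]
  have hl' : IsLab μ l' := (lab_of_finer (lab_pair hl hlg).1 hfin).1
  refine ⟨hl', ?_⟩
  have hf1 : Finer l' l := fun x y hxy => congrArg Prod.fst hxy
  -- (1)
  set Δ : ℝ := ∫ x in E, (info μ l' x - info μ l x) ∂μ with hΔ
  have h1 : ent μ l' = ent μ l + Δ := by
    have h2 : ∀ x, x ∉ E → info μ l' x - info μ l x = 0 := by
      intro x hx
      have : {y | l' y = l' x} = {y | l y = l x} := by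
        ext y
        constructor
        · exact fun h => hf1 _ _ h
        · intro h
          have hy : y ∉ E := fun h3 => hx ((hEl y x h).1 h3)
          refine Prod.ext h ?_
          show onSet E (fun y => c (g • y)) y = onSet E (fun y => c (g • y)) x
          rw [hon2 x hx, hon2 y hy]
      unfold info mass
      rw [this, sub_self]
    have h3 : Δ = ∫ x, (info μ l' x - info μ l x) ∂μ :=
      setIntegral_eq_integral_of_forall_compl_eq_zero h2
    rw [h3, integral_sub hl'.int hl.int]
    unfold ent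
    ring
  -- (2)
  have h2 : ∀ h, J μ (D h) l (fun x => l (h • x)) ≤ J μ (D h) l' (fun x => l' (h • x)) :=
    fun h => J_mono (D h) (hD.meas h) hl' (lab_comp (hact h) hl').1 hf1
      (fun x y hxy => hf1 _ _ hxy)
  -- (3)
  have h3 : J μ E l' (fun x => l (g • x)) = J μ E l (fun x => l (g • x)) + Δ := by
    have hi : IntegrableOn (fun x => info μ l' x - info μ l x) E μ :=
      (hl'.int.sub hl.int).integrableOn
    unfold J
    rw [hΔ, ← integral_add (jfun_integrable E hE hl hlg) hi]
    refine setIntegral_congr_ae hE ?_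
    filter_upwards [jmass_pos (μ := μ) E hl.cnt hlg.cnt] with x hx hxE
    have hjp := hx hxE
    have hj : jmass μ E l' (fun x => l (g • x)) x = jmass μ E l (fun x => l (g • x)) x := by
      unfold jmass
      congr 1
      ext y
      constructor
      · rintro ⟨h4, h5, h6⟩
        exact ⟨h4, hf1 _ _ h5, h6⟩
      · rintro ⟨h4, h5, h6⟩
        refine ⟨h4, Prod.ext h5 ?_, h6⟩
        show onSet E (fun y => c (g • y)) y = onSet E (fun y => c (g • y)) x
        rw [hon1 x hxE, hon1 y h4, hc _ _ h6]
    have p1 : 0 < mass μ l x := hjp.trans_le (jmass_le_left _ _ _ _)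
    have p2 : 0 < mass μ (fun x => l (g • x)) x := hjp.trans_le (jmass_le_right _ _ _ _)
    have p3 : 0 < mass μ l' x := by
      rw [← hj] at hjp
      exact hjp.trans_le (jmass_le_left _ _ _ _)
    unfold jfun info
    rw [hj, Real.log_div hjp.ne' (mul_pos p3 p2).ne', Real.log_div hjp.ne' (mul_pos p1 p2).ne',
      Real.log_mul p3.ne' p2.ne', Real.log_mul p1.ne' p2.ne']
    ring
  have hl'g : IsLab μ (fun x => l' (g • x)) := (lab_comp (hact g) hl').1
  have h4 : J μ (D g) l (fun x => l (g • x)) + Δ ≤ J μ (D g) l' (fun x => l' (g • x)) := by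
    rw [J_split2 (D g) E (hD.meas g) hE hED hl hlg hEl,
      J_split2 (D g) E (hD.meas g) hE hED hl' hl'g (fun x y hxy => hEl x y (hf1 _ _ hxy))]
    have h5 : J μ E l' (fun x => l (g • x)) ≤ J μ E l' (fun x => l' (g • x)) :=
      J_mono E hE hl' hl'g (fun x y h => h) (fun x y hxy => hf1 _ _ hxy)
    have h6 : J μ (D g \ E) l (fun x => l (g • x)) ≤ J μ (D g \ E) l' (fun x => l' (g • x)) :=
      J_mono _ ((hD.meas g).diff hE) hl' hl'g hf1 (fun x y hxy => hf1 _ _ hxy)
    linarith
  -- (5)
  have h5 : ∑ h ∈ S, J μ (D h) l (fun x => l (h • x)) + 2 * Δ ≤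
      ∑ h ∈ S, J μ (D h) l' (fun x => l' (h • x)) := by
    rcases E.eq_empty_or_nonempty with hE0 | ⟨x, hx⟩
    · have : Δ = 0 := by rw [hΔ, hE0, setIntegral_empty]
      rw [this, mul_zero, add_zero]
      exact Finset.sum_le_sum fun h _ => h2 h
    · have hgS : g ∈ S := by
        by_contra hn
        have := hED hx
        rw [hD.supp g hn] at this
        exact this
      have hgS' : g⁻¹ ∈ S := by
        by_contra hn
        have := (hD.symm g x).1 (hED hx)
        rw [hD.supp _ hn] at this
        exact this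
      have h6 : ∑ h ∈ ({g, g⁻¹} : Finset G), (J μ (D h) l' (fun x => l' (h • x)) -
          J μ (D h) l (fun x => l (h • x))) ≤
          ∑ h ∈ S, (J μ (D h) l' (fun x => l' (h • x)) - J μ (D h) l (fun x => l (h • x))) := by
        refine Finset.sum_le_sum_of_subset_of_nonneg ?_ fun h _ _ => sub_nonneg.2 (h2 h)
        intro h hh
        rw [Finset.mem_insert, Finset.mem_singleton] at hh
        rcases hh with rfl | rfl
        · exact hgS
        · exact hgS'
      rw [Finset.sum_pair hg.symm, J_inv hact D S hD l' g, J_inv hact D S hD l g,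
        Finset.sum_sub_distrib] at h6
      linarith
  unfold F
  rw [h1]
  linarith

end F

end Pool.Agent.TH959.FIS
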