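import Pool.Agent.TH714.TD.Defs
import Pool.Agent.TH739.Close

/-!
# The corner inequality (helper959, job 2158 for helper714)
-/

set_option autoImplicit false

namespace Pool.Agent.TH959.J2158

open Pool.Agent.TH64 Pool.Agent.TH714.TD

variable {G : Type*} [Group G]

/-- a point almost between `1` and `z ^ n` is close to a point moved by `z` at most as `1` -/
theorem near_axis (H : Hyp G) {z : G} (hmin : ∀ p, H.len z ≤ H.len (p⁻¹ * z * p))
    (hz : 4 * H.D + 2 ≤ H.len z) (n : ℕ) {Q : G} {e : ℕ}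
    (hQ : H.d 1 Q + H.d Q (z ^ n) ≤ H.d 1 (z ^ n) + e) :
    ∃ g : G, H.len (g⁻¹ * z * g) ≤ H.len z ∧ H.d g Q ≤ 2 * (5 * H.D + 1 + e) + H.D := by
  classical
  have hpow : ∀ i ≤ n, H.d 1 (z ^ i) + H.d (z ^ i) (z ^ n) ≤ H.d 1 (z ^ n) + (4 * H.D + 1) := by
    intro i hi
    have h1 := H.lox_sup_min hmin hz i (n - i)
    rw [Nat.add_sub_cancel' hi] at h1
    rw [H.d_one, H.d_one, H.d_pow z hi]
    exact h1
  by_cases hn : H.d 1 (z ^ n) ≤ H.d 1 Q
  · refine ⟨z ^ n, ?_, ?_⟩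
    · have : (z ^ n)⁻¹ * z * z ^ n = z := by
        rw [mul_assoc, (Commute.refl z).pow_right n |>.eq, ← mul_assoc, inv_mul_cancel, one_mul]
      rw [this]
    · rw [H.d_comm]
      omega
  push Not at hn
  have hex : ∃ j, H.d 1 Q < H.d 1 (z ^ j) := ⟨n, hn⟩
  obtain ⟨i, hi⟩ : ∃ i, Nat.find hex = i + 1 := by
    rcases Nat.eq_zero_or_pos (Nat.find hex) with h0 | h0
    · exfalso
      have := Nat.find_spec hex
      rw [h0, pow_zero, H.d_self] at this
      omega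
    · exact ⟨Nat.find hex - 1, by omega⟩
  have hi1 : H.d 1 Q < H.d 1 (z ^ (i + 1)) := by
    have := Nat.find_spec hex
    rwa [hi] at this
  have hi2 : H.d 1 (z ^ i) ≤ H.d 1 Q := by
    have := Nat.find_min hex (m := i) (by omega)
    omega
  have hin : i + 1 ≤ n := by
    have := Nat.find_min' hex hn
    omega
  have p1 := hpow i (by omega)
  have p2 := hpow (i + 1) hin
  have f1 := H.fp Q (z ^ i) 1 (z ^ n)
  have f2 := H.fp Q (z ^ (i + 1)) 1 (z ^ n)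
  rw [H.d_comm Q 1, H.d_comm (z ^ i) 1] at f1
  rw [H.d_comm Q 1, H.d_comm (z ^ (i + 1)) 1] at f2
  have t1 := H.d_tri 1 (z ^ i) (z ^ (i + 1))
  have hb : H.d (z ^ i) Q + H.d Q (z ^ (i + 1)) ≤
      H.d (z ^ i) (z ^ (i + 1)) + 2 * (5 * H.D + 1 + e) := by
    rw [H.d_comm (z ^ i) Q]
    omega
  obtain ⟨w, hw1, hw2⟩ := Close.near_pt H hb
  refine ⟨w, ?_, hw2⟩
  have e1 : H.len (w⁻¹ * z * w) = H.d w (z * w) := by
    unfold Hyp.d
    rw [mul_assoc]
  have e2 : H.d (z ^ (i + 1)) (z * w) = H.d (z ^ i) w := by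
    rw [pow_succ', H.d_mul]
  have e3 : H.d (z ^ i) (z ^ (i + 1)) = H.len z := by
    rw [H.d_pow z (show i ≤ i + 1 by omega), Nat.add_sub_cancel_left, pow_one]
  have t2 := H.d_tri w (z ^ (i + 1)) (z * w)
  omega

/-- the same for integer powers -/
theorem near_axis_z (H : Hyp G) {z : G} (hmin : ∀ p, H.len z ≤ H.len (p⁻¹ * z * p))
    (hz : 4 * H.D + 2 ≤ H.len z) (r : ℤ) {Q : G} {e : ℕ}
    (hQ : H.d 1 Q + H.d Q (z ^ r) ≤ H.d 1 (z ^ r) + e) :
    ∃ g : G, H.len (g⁻¹ * z * g) ≤ H.len z ∧ H.d g Q ≤ 2 * (5 * H.D + 1 + e) + H.D := by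
  rcases Int.natAbs_eq r with h | h
  · rw [h, zpow_natCast] at hQ
    exact near_axis H hmin hz _ hQ
  · rw [h, zpow_neg, zpow_natCast, ← inv_pow] at hQ
    have hinv : ∀ p : G, H.len (p⁻¹ * z⁻¹ * p) = H.len (p⁻¹ * z * p) := by
      intro p
      rw [← H.len_inv]
      congr 1
      group
    obtain ⟨g, hg1, hg2⟩ := near_axis H (z := z⁻¹) (fun p => by
      rw [hinv, H.len_inv]; exact hmin p) (by rw [H.len_inv]; exact hz) _ hQ
    rw [hinv, H.len_inv] at hg1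
    exact ⟨g, hg1, hg2⟩

/-- the distance from the projection to a point moved by `z` at most as `1` -/
def K0 {H : Hyp G} {x : G} (A : Ax H x) : ℕ := 2 * (5 * H.D + 1 + A.c) + H.D

theorem corner {H : Hyp G} {x : G} (A : Ax H x) : Corner A := by
  refine ⟨A.c * (K0 A + 2 * A.c) + A.c, 0, ?_⟩
  intro N _ M hF z hmin hz S h hh hS hnear u r ha hb hab
  have hcC : (A.c : ℤ) ≤ ((A.c * (K0 A + 2 * A.c) + A.c : ℕ) : ℤ) := by
    exact_mod_cast Nat.le_add_left _ _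
  have ha' : (A.c : ℤ) < |A.s u h 1| := lt_of_le_of_lt hcC ha
  have hb' : (A.c : ℤ) < |A.s u 1 (z ^ r)| := lt_of_le_of_lt hcC hb
  obtain ⟨g, hg1, hg2⟩ := near_axis_z H hmin hz r (A.pr_between' u 1 (z ^ r) hb')
  have hsum := A.s_add u h 1 (z ^ r)
  rw [hsum] at hab
  -- the sign of the rotation
  obtain ⟨k, hk⟩ : ∃ k : ℤ, |A.s u h (z ^ r) - N * k| =
      abs ((N : ℤ) - |A.s u h 1| - |A.s u 1 (z ^ r)|) := by
    rcases abs_cases (A.s u h (z ^ r)) with ⟨e1, -⟩ | ⟨e1, -⟩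
    · refine ⟨1, ?_⟩
      rw [abs_sub_comm]
      congr 1
      rw [e1] at hab
      rw [hab]
      ring
    · refine ⟨-1, ?_⟩
      congr 1
      rw [e1] at hab
      have : A.s u h (z ^ r) = -(|A.s u h 1| + |A.s u 1 (z ^ r)|) := by
        rw [← hab, neg_neg]
      rw [this]
      ring
  have hmem := hS _ (hF.rot u k) h hh
  have hm := hnear g hg1 _ hmem
  have t1 := H.d_tri g (A.pr u (z ^ r)) (PAx.rt x u (N * k) * h)
  have t2 := A.d_le_pr u (PAx.rt x u (N * k) * h) (A.pr u (z ^ r))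
  have e0 : A.pr u (A.pr u (z ^ r)) = A.pr u (z ^ r) := by
    unfold PAx.pr
    rw [inv_mul_cancel_left, A.κ_zpow]
  rw [e0, H.d_self, A.d_rt_pr, A.s_pr_right, A.s_rt_left] at t2
  rw [H.d_comm (PAx.rt x u (N * k) * h) (A.pr u (z ^ r))] at t2
  have t3 := A.proj_pr u h 1 ha'
  rw [H.d_one'] at t3
  have hlen : H.len (x ^ A.s u h 1) ≤ H.len (x ^ (A.s u h (z ^ r) - N * k)) + K0 A + A.c := by
    unfold K0
    omega
  rw [← hk]
  set s := A.s u h (z ^ r) - N * k with hs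
  by_cases hle : |A.s u h 1| ≤ |s|
  · have : (0 : ℤ) ≤ ((A.c * (K0 A + 2 * A.c) + A.c : ℕ) : ℤ) := by positivity
    omega
  push Not at hle
  have h4 := A.sup_z (i := s) (j := |A.s u h 1| - |s|) (k := A.s u h 1) (by
    rw [abs_of_pos (a := |A.s u h 1| - |s|) (by omega)]
    ring)
  have h5 := A.len_le_of (|A.s u h 1| - |s|) (K0 A + 2 * A.c) (by omega)
  rw [abs_of_pos (a := |A.s u h 1| - |s|) (by omega)] at h5
  push_cast
  push_cast at h5
  linarith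

end Pool.Agent.TH959.J2158
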