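import Pool.Agent.TH806.LK.Defs
import Pool.Agent.H831R2.SMT5

set_option autoImplicit false

/-!
# LK-ZM: the first moment of `ζ` times a rational frequency (helper959, job 2453)

Adapted from `Pool/Agent/TH384/N4_FM.lean` (helper384).
-/

namespace Pool.Agent.TH959.LK_ZM

open Finset Filter Topology MeasureTheory Complex
open Pool.Agent.H306R2 (zeta_norm_le)
open Pool.Agent.H306R2.SM (om cl ef)
open Pool.Agent.H262R4.TM (Rng)
open Pool.Agent.W184.NZ (mh)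
open Pool.Agent.H831R2.SMT5 hiding gg gg_right gg_norm_le gg_continuousAt gg_cl_continuous Pp
  Pp_norm_le Pp_differentiableAt C2 C2_nonneg summable_two zeta_hasSum ff ff_cl ff_norm_le
  ff_differentiableOn ff_cl_integrable right_line rem_bound poly_term poly_integrable poly_bound
  main_bound exp_norm B_part

noncomputable section

/-- the coefficients of zeta -/
def d1 (n : ℕ) : ℝ := if n = 0 then 0 else 1

lemma d1_nonneg (n : ℕ) : 0 ≤ d1 n := by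
  unfold d1
  split_ifs <;> norm_num

lemma d1_zero : d1 0 = 0 := by
  unfold d1
  simp

lemma d1_pos {n : ℕ} (hn : 1 ≤ n) : d1 n = 1 := by
  unfold d1
  rw [if_neg (by omega)]

lemma d1_le (n : ℕ) : d1 n ≤ (n : ℝ) ^ 3 := by
  rcases Nat.eq_zero_or_pos n with rfl | hn
  · rw [d1_zero]
    simp
  · rw [d1_pos hn]
    exact one_le_pow₀ (by exact_mod_cast hn)

lemma zeta_hasSum (s : ℂ) (hs : 1 < s.re) :
    HasSum (fun n : ℕ => (d1 n : ℂ) * (n : ℂ) ^ (-s)) (riemannZeta s) := by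
  have h := LSeriesHasSum_one hs
  unfold LSeriesHasSum at h
  refine h.congr_fun ?_
  intro n
  unfold LSeries.term
  rcases Nat.eq_zero_or_pos n with rfl | hn
  · rw [d1_zero]
    simp
  · rw [d1_pos hn, if_neg (by omega), Complex.cpow_neg]
    simp [div_eq_mul_inv]

/-- the Dirichlet polynomial -/
def Pp (N : ℕ) (s : ℂ) : ℂ := ∑ m ∈ range N, (d1 m : ℂ) * (m : ℂ) ^ (-s)

/-- the remainder -/
def gg (N : ℕ) (s : ℂ) : ℂ := riemannZeta s - Pp N s

lemma Pp_norm_le (N : ℕ) (s : ℂ) (hs : 0 ≤ s.re) : ‖Pp N s‖ ≤ (N : ℝ) ^ 4 := by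
  unfold Pp
  calc ‖∑ m ∈ range N, (d1 m : ℂ) * (m : ℂ) ^ (-s)‖
      ≤ ∑ m ∈ range N, ‖(d1 m : ℂ) * (m : ℂ) ^ (-s)‖ := norm_sum_le _ _
    _ ≤ ∑ _m ∈ range N, (N : ℝ) ^ 3 := by
        refine sum_le_sum fun m hm => ?_
        rw [mem_range] at hm
        rcases Nat.eq_zero_or_pos m with rfl | hm0
        · rw [d1_zero]
          simp
        · rw [norm_mul, Complex.norm_real, Real.norm_eq_abs, abs_of_nonneg (d1_nonneg m),
            norm_cpow_neg m hm0]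
          have h1 : (m : ℝ) ^ (-s.re) ≤ 1 := by
            apply Real.rpow_le_one_of_one_le_of_nonpos
            · exact_mod_cast hm0
            · linarith
          have h2 : (m : ℝ) ≤ N := by exact_mod_cast hm.le
          calc d1 m * (m : ℝ) ^ (-s.re) ≤ (m : ℝ) ^ 3 * 1 := by
                apply mul_le_mul (d1_le m) h1 (by positivity) (by positivity)
            _ = (m : ℝ) ^ 3 := mul_one _
            _ ≤ (N : ℝ) ^ 3 := by gcongr
    _ = (N : ℝ) ^ 4 := by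
        rw [sum_const, card_range, nsmul_eq_mul]
        ring

lemma Pp_differentiableAt (N : ℕ) (s : ℂ) : DifferentiableAt ℂ (Pp N) s := by
  unfold Pp
  apply DifferentiableAt.fun_sum
  intro m _
  rcases Nat.eq_zero_or_pos m with rfl | hm0
  · rw [d1_zero]
    simp
  · apply DifferentiableAt.const_mul
    apply DifferentiableAt.const_cpow differentiableAt_id.neg
    left
    exact_mod_cast hm0.ne'

/-- the constant `∑ d1(m) m^{-2}` -/
def C2 : ℝ := ∑' m : ℕ, d1 m * (m : ℝ) ^ (-2 : ℝ)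

lemma summable_two : Summable (fun m : ℕ => d1 m * (m : ℝ) ^ (-2 : ℝ)) := by
  have h := (zeta_hasSum 2 (by norm_num)).summable.norm
  refine h.congr fun m => ?_
  rcases Nat.eq_zero_or_pos m with rfl | hm0
  · rw [d1_zero]
    simp
  · rw [norm_mul, Complex.norm_real, Real.norm_eq_abs, abs_of_nonneg (d1_nonneg m),
      norm_cpow_neg m hm0]
    norm_num

lemma C2_nonneg : 0 ≤ C2 := tsum_nonneg fun m => mul_nonneg (d1_nonneg m) (by positivity)

lemma gg_right (N : ℕ) (hN : 0 < N) (s : ℂ) (hs : s.re = 3) : ‖gg N s‖ ≤ C2 / N := by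
  have h := zeta_hasSum s (by rw [hs]; norm_num)
  have h1 : gg N s = ∑' m : ℕ, (d1 (m + N) : ℂ) * ((m + N : ℕ) : ℂ) ^ (-s) := by
    unfold gg Pp
    rw [← h.tsum_eq, ← h.summable.sum_add_tsum_nat_add N]
    ring
  rw [h1]
  have hs2 := (summable_nat_add_iff N).2 summable_two
  have hb : ∀ m : ℕ, ‖(d1 (m + N) : ℂ) * ((m + N : ℕ) : ℂ) ^ (-s)‖ ≤
      (d1 (m + N) * ((m + N : ℕ) : ℝ) ^ (-2 : ℝ)) / N := by
    intro m
    have hm0 : 0 < m + N := by omega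
    have hpos : (0 : ℝ) < ((m + N : ℕ) : ℝ) := by exact_mod_cast hm0
    rw [norm_mul, Complex.norm_real, Real.norm_eq_abs, abs_of_nonneg (d1_nonneg _),
      norm_cpow_neg _ hm0, hs, mul_div_assoc]
    apply mul_le_mul_of_nonneg_left _ (d1_nonneg _)
    have e : ((m + N : ℕ) : ℝ) ^ (-3 : ℝ) = ((m + N : ℕ) : ℝ) ^ (-2 : ℝ) / ((m + N : ℕ) : ℝ) := by
      rw [show (-3 : ℝ) = -2 - 1 by norm_num, Real.rpow_sub hpos, Real.rpow_one]
    rw [e]
    apply div_le_div_of_nonneg_left (by positivity) (by exact_mod_cast hN)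
    push_cast
    linarith [(Nat.cast_nonneg m : (0 : ℝ) ≤ m)]
  calc ‖∑' m : ℕ, (d1 (m + N) : ℂ) * ((m + N : ℕ) : ℂ) ^ (-s)‖
      ≤ ∑' m : ℕ, (d1 (m + N) * ((m + N : ℕ) : ℝ) ^ (-2 : ℝ)) / N :=
        tsum_of_norm_bounded (hs2.div_const _).hasSum hb
    _ = (∑' m : ℕ, (d1 (m + N) * ((m + N : ℕ) : ℝ) ^ (-2 : ℝ))) / N := tsum_div_const
    _ ≤ C2 / N := by
        apply div_le_div_of_nonneg_right _ (by positivity)
        unfold C2
        rw [← summable_two.sum_add_tsum_nat_add N]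
        have : 0 ≤ ∑ i ∈ range N, d1 i * (i : ℝ) ^ (-2 : ℝ) :=
          sum_nonneg fun m _ => mul_nonneg (d1_nonneg m) (by positivity)
        linarith

/-- growth of the remainder -/
lemma gg_norm_le (N : ℕ) (s : ℂ) (h1 : 1 / 2 ≤ s.re) (h2 : s.re ≤ 3) (h3 : 0 ≤ s.im)
    (h4 : 1 / 2 ≤ ‖s - 1‖) :
    ‖gg N s‖ ≤ (216 * 4 ^ 6 + (N : ℝ) ^ 4) * (1 + s.im) ^ 6 := by
  have hz := zeta_norm_le h1 h4
  have hs : ‖s‖ ≤ 3 + s.im := by
    refine (Complex.norm_le_abs_re_add_abs_im _).trans ?_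
    rw [abs_of_nonneg (by linarith), abs_of_nonneg h3]
    linarith
  have h5 : ‖riemannZeta s‖ ≤ 6 * (4 * (1 + s.im)) ^ 2 := by
    refine hz.trans ?_
    gcongr
    linarith
  have h6 : ‖riemannZeta s‖ ≤ 216 * 4 ^ 6 * (1 + s.im) ^ 6 := by
    have h1' : (1 : ℝ) ≤ 6 * (4 * (1 + s.im)) ^ 2 := by nlinarith
    calc ‖riemannZeta s‖ ≤ (6 * (4 * (1 + s.im)) ^ 2) := h5
      _ = (6 * (4 * (1 + s.im)) ^ 2) ^ 1 := (pow_one _).symm
      _ ≤ (6 * (4 * (1 + s.im)) ^ 2) ^ 3 := pow_le_pow_right₀ h1' (by norm_num)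
      _ = _ := by ring
  have h7 : (1 : ℝ) ≤ (1 + s.im) ^ 6 := one_le_pow₀ (by linarith)
  have h8 := Pp_norm_le N s (by linarith)
  unfold gg
  calc ‖riemannZeta s - Pp N s‖ ≤ ‖riemannZeta s‖ + ‖Pp N s‖ := norm_sub_le _ _
    _ ≤ 216 * 4 ^ 6 * (1 + s.im) ^ 6 + (N : ℝ) ^ 4 * (1 + s.im) ^ 6 := by
        apply add_le_add h6
        calc ‖Pp N s‖ ≤ (N : ℝ) ^ 4 * 1 := by rw [mul_one]; exact h8
          _ ≤ (N : ℝ) ^ 4 * (1 + s.im) ^ 6 := by gcongr
    _ = _ := by ring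


lemma gg_continuousAt (N : ℕ) (s : ℂ) (hs : s ≠ 1) : DifferentiableAt ℂ (gg N) s := by
  unfold gg
  exact (differentiableAt_riemannZeta hs).sub (Pp_differentiableAt N s)

lemma gg_cl_continuous (N : ℕ) : Continuous (fun t : ℝ => gg N (cl t)) := by
  rw [continuous_iff_continuousAt]
  intro t
  exact ContinuousAt.comp (gg_continuousAt N _ (cl_ne_one t)).continuousAt
    cl_continuous.continuousAt


/-- the integrand, analytic version -/
def ff (k : ℕ) (δ θ : ℝ) (N : ℕ) (s : ℂ) : ℂ :=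
  Wf k δ s * gg N s * cexp ((s - 1 / 2) * (θ : ℂ))

lemma ff_cl (k : ℕ) (δ θ : ℝ) (N : ℕ) (t : ℝ) :
    ff k δ θ N (cl t) = (om k δ t : ℂ) * (gg N (cl t) * ef θ t) := by
  unfold ff ef
  rw [Wf_cl, mul_assoc]
  congr 3
  unfold cl
  push_cast
  ring

lemma exp_norm (n : ℕ) (hn : 1 ≤ n) {θ : ℝ} (hθ : θ ≤ Real.log n) (s : ℂ) (hs1 : 1 / 2 ≤ s.re)
    (hs : s.re ≤ 3) :
    ‖cexp ((s - 1 / 2) * (θ : ℂ))‖ ≤ (n : ℝ) ^ (5 / 2 : ℝ) := by
  have hn0 : (0 : ℝ) < n := by exact_mod_cast hn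
  have hl : 0 ≤ Real.log n := Real.log_nonneg (by exact_mod_cast hn)
  rw [Complex.norm_exp, Complex.re_mul_ofReal, Real.rpow_def_of_pos hn0]
  apply Real.exp_le_exp.mpr
  have : (s - 1 / 2).re = s.re - 1 / 2 := by simp
  rw [this]
  calc (s.re - 1 / 2) * θ ≤ (s.re - 1 / 2) * Real.log n := by
        apply mul_le_mul_of_nonneg_left hθ; linarith
    _ ≤ (5 / 2) * Real.log n := by
        apply mul_le_mul_of_nonneg_right _ hl; linarith
    _ = _ := by ring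

lemma ff_norm_le (k : ℕ) (δ θ : ℝ) (hδ : 0 < δ) (n N : ℕ) (hn : 1 ≤ n) (hθ : θ ≤ Real.log n) (s : ℂ)
    (h1 : 1 / 2 ≤ s.re) (h2 : s.re ≤ 3) (h3 : 1 ≤ s.im) : ‖ff k δ θ N s‖ ≤ mj k δ n N s.im := by
  have h4 : 1 / 2 ≤ ‖s - 1‖ := by
    have h := Complex.abs_im_le_norm (s - 1)
    have e : (s - 1).im = s.im := by simp
    rw [e, abs_of_nonneg (by linarith)] at h
    linarith
  unfold ff
  rw [norm_mul, norm_mul]
  have hW := Wf_norm_le k δ hδ.le s h1 h2 (by linarith)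
  have hG := gg_norm_le N s h1 h2 (by linarith) h4
  have hE := exp_norm n hn hθ s h1 h2
  have hom : 0 ≤ om k δ (s.im + 5 / 2) := om_nonneg k δ _ hδ.le (by linarith)
  calc ‖Wf k δ s‖ * ‖gg N s‖ * ‖cexp ((s - 1 / 2) * (θ : ℂ))‖
      ≤ (Real.exp (5 / 2 * δ) * om k δ (s.im + 5 / 2)) *
          ((216 * 4 ^ 6 + (N : ℝ) ^ 4) * (1 + s.im) ^ 6) * (n : ℝ) ^ (5 / 2 : ℝ) := by
        gcongr
    _ ≤ (Real.exp (5 / 2 * δ) * om k δ (s.im + 5 / 2)) *
          ((216 * 4 ^ 6 + (N : ℝ) ^ 4) * (s.im + 5 / 2) ^ 6) * (n : ℝ) ^ (5 / 2 : ℝ) := by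
        gcongr _ * (_ * ?_ ^ 6) * _
        linarith
    _ = mj k δ n N s.im := by
        unfold mj om
        rw [pow_add (s.im + 5 / 2) k 6]
        ring

lemma ff_differentiableOn (k : ℕ) (δ θ : ℝ) (N : ℕ) :
    DifferentiableOn ℂ (ff k δ θ N) {s | 1 / 2 ≤ s.re ∧ s.re ≤ 3 ∧ 1 ≤ s.im} := by
  intro s hs
  have hs1 : s ≠ 1 := by
    rintro rfl
    have := hs.2.2
    simp at this
    norm_num at this
  apply DifferentiableAt.differentiableWithinAt
  unfold ff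
  refine ((Wf_differentiable k δ s).mul (gg_continuousAt N s hs1)).mul ?_
  fun_prop

lemma ff_cl_integrable (k : ℕ) (δ θ : ℝ) (hδ : 0 < δ) (N : ℕ) :
    IntegrableOn (fun t : ℝ => (om k δ t : ℂ) * (gg N (cl t) * ef θ t)) (Set.Ioi 0) := by
  apply om_mul_integrable k δ hδ _ ((gg_cl_continuous N).mul (ef_continuous _))
    (216 * 4 ^ 6 + (N : ℝ) ^ 4) 6
  intro t ht
  change ‖gg N (cl t) * ef θ t‖ ≤ _
  rw [norm_mul, ef_norm, mul_one]
  have := gg_norm_le N (cl t) (by rw [cl_re]) (by rw [cl_re]; norm_num) (by rw [cl_im]; exact ht)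
    (cl_sub_one t)
  rwa [cl_im] at this

/-- the right line -/
lemma right_line (k : ℕ) (δ θ : ℝ) (hδ : 0 < δ) (n N : ℕ) (hn : 1 ≤ n) (hθ : θ ≤ Real.log n) (hN : 0 < N) :
    IntegrableOn (fun y : ℝ => ff k δ θ N (((3 : ℝ) : ℂ) + y * I)) (Set.Ioi 1) ∧
      ‖∫ y in Set.Ioi (1 : ℝ), ff k δ θ N (((3 : ℝ) : ℂ) + y * I)‖ ≤
        Real.exp (5 / 2 * δ) * (C2 / N) * (n : ℝ) ^ (5 / 2 : ℝ) := by
  have hb : ∀ᵐ y : ℝ ∂(volume.restrict (Set.Ioi 1)), ‖ff k δ θ N (((3 : ℝ) : ℂ) + y * I)‖ ≤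
      Real.exp (5 / 2 * δ) * (C2 / N) * (n : ℝ) ^ (5 / 2 : ℝ) * om k δ (y + 5 / 2) := by
    filter_upwards [ae_restrict_mem measurableSet_Ioi] with y hy
    have hy1 : (1 : ℝ) < y := hy
    have e1 : (((3 : ℝ) : ℂ) + y * I).re = 3 := by simp
    have e2 : (((3 : ℝ) : ℂ) + y * I).im = y := by simp
    have hW := Wf_norm_le k δ hδ.le (((3 : ℝ) : ℂ) + y * I) (by rw [e1]; norm_num)
      (by rw [e1]) (by rw [e2]; linarith)
    rw [e2] at hW
    have hG := gg_right N hN (((3 : ℝ) : ℂ) + y * I) e1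
    have hE := exp_norm n hn hθ (((3 : ℝ) : ℂ) + y * I) (by rw [e1]; norm_num) (by rw [e1])
    have hom : 0 ≤ om k δ (y + 5 / 2) := om_nonneg k δ _ hδ.le (by linarith)
    have hC := C2_nonneg
    unfold ff
    rw [norm_mul, norm_mul]
    calc ‖Wf k δ (((3 : ℝ) : ℂ) + y * I)‖ * ‖gg N (((3 : ℝ) : ℂ) + y * I)‖ *
          ‖cexp ((((3 : ℝ) : ℂ) + y * I - 1 / 2) * (θ : ℂ))‖
        ≤ (Real.exp (5 / 2 * δ) * om k δ (y + 5 / 2)) * (C2 / N) * (n : ℝ) ^ (5 / 2 : ℝ) := by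
          gcongr
      _ = _ := by ring
  have hbi : Integrable (fun y : ℝ => Real.exp (5 / 2 * δ) * (C2 / N) * (n : ℝ) ^ (5 / 2 : ℝ) *
      om k δ (y + 5 / 2)) (volume.restrict (Set.Ioi 1)) :=
    (om_shift_integrable k δ hδ).1.const_mul _
  constructor
  · refine Integrable.mono' hbi ?_ hb
    apply ContinuousOn.aestronglyMeasurable _ measurableSet_Ioi
    intro y hy
    have hy1 : (1 : ℝ) < y := hy
    have hs1 : (((3 : ℝ) : ℂ) + y * I) ≠ 1 := by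
      intro h
      have := congrArg Complex.re h
      simp at this
    apply ContinuousAt.continuousWithinAt
    have hd : DifferentiableAt ℂ (ff k δ θ N) (((3 : ℝ) : ℂ) + y * I) := by
      unfold ff
      refine ((Wf_differentiable k δ _).mul (gg_continuousAt N _ hs1)).mul ?_
      fun_prop
    exact ContinuousAt.comp (f := fun y : ℝ => ((3 : ℝ) : ℂ) + y * I) hd.continuousAt
      (by fun_prop)
  · refine (norm_integral_le_of_norm_le hbi hb).trans ?_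
    rw [integral_const_mul]
    have hC := C2_nonneg
    calc _ ≤ Real.exp (5 / 2 * δ) * (C2 / N) * (n : ℝ) ^ (5 / 2 : ℝ) * 1 := by
          gcongr
          exact (om_shift_integrable k δ hδ).2
      _ = _ := mul_one _

/-- the remainder part -/
lemma rem_bound (k : ℕ) (δ θ : ℝ) (hδ : 0 < δ) (n N : ℕ) (hn : 1 ≤ n) (hθ : θ ≤ Real.log n) (hN : 0 < N) :
    ‖∫ t in Set.Ioi (0 : ℝ), (om k δ t : ℂ) * (gg N (cl t) * ef θ t)‖ ≤
      δ ^ (k + 1) * ((216 * 4 ^ 6 + (N : ℝ) ^ 4) * 64) +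
        (Real.exp (5 / 2 * δ) * (C2 / N) * (n : ℝ) ^ (5 / 2 : ℝ) + 5 / 2 * mj k δ n N 1) := by
  have hint := ff_cl_integrable k δ θ hδ N
  have hsplit : ∫ t in Set.Ioi (0 : ℝ), (om k δ t : ℂ) * (gg N (cl t) * ef θ t) =
      (∫ t in Set.Ioc (0 : ℝ) 1, (om k δ t : ℂ) * (gg N (cl t) * ef θ t)) +
        ∫ t in Set.Ioi (1 : ℝ), (om k δ t : ℂ) * (gg N (cl t) * ef θ t) := by
    rw [← Set.Ioc_union_Ioi_eq_Ioi (zero_le_one (α := ℝ))]
    apply setIntegral_union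
    · exact Set.Ioc_disjoint_Ioi le_rfl
    · exact measurableSet_Ioi
    · exact hint.mono_set Set.Ioc_subset_Ioi_self
    · exact hint.mono_set (Set.Ioi_subset_Ioi zero_le_one)
  rw [hsplit]
  refine (norm_add_le _ _).trans (add_le_add ?_ ?_)
  · have h := norm_setIntegral_le_of_norm_le_const (μ := volume) (s := Set.Ioc (0 : ℝ) 1)
      (f := fun t : ℝ => (om k δ t : ℂ) * (gg N (cl t) * ef θ t))
      (C := δ ^ (k + 1) * ((216 * 4 ^ 6 + (N : ℝ) ^ 4) * 64)) (by simp) (by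
        intro t ht
        have ht0 : 0 ≤ t := ht.1.le
        rw [norm_mul, norm_mul, ef_norm, mul_one, Complex.norm_real, Real.norm_eq_abs,
          abs_of_nonneg (om_nonneg k δ t hδ.le ht0)]
        have h1 := gg_norm_le N (cl t) (by rw [cl_re]) (by rw [cl_re]; norm_num)
          (by rw [cl_im]; exact ht0) (cl_sub_one t)
        rw [cl_im] at h1
        have h2 : (1 + t) ^ 6 ≤ 64 := by
          calc (1 + t) ^ 6 ≤ 2 ^ 6 := by
                apply pow_le_pow_left₀ (by linarith)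
                linarith [ht.2]
            _ = 64 := by norm_num
        have h3 : om k δ t ≤ δ ^ (k + 1) := by
          unfold om
          have e1 : t ^ k ≤ 1 := pow_le_one₀ ht0 ht.2
          have e2 : Real.exp (-(δ * t)) ≤ 1 := by
            rw [Real.exp_le_one_iff]
            have := mul_nonneg hδ.le ht0
            linarith
          have e3 : (1 : ℝ) ≤ (k.factorial : ℝ) := by exact_mod_cast Nat.factorial_pos k
          calc δ ^ (k + 1) * t ^ k * Real.exp (-(δ * t)) / (k.factorial : ℝ)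
              ≤ δ ^ (k + 1) * 1 * 1 / 1 := by gcongr
            _ = δ ^ (k + 1) := by ring
        calc om k δ t * ‖gg N (cl t)‖ ≤
            δ ^ (k + 1) * ((216 * 4 ^ 6 + (N : ℝ) ^ 4) * (1 + t) ^ 6) := by gcongr
          _ ≤ δ ^ (k + 1) * ((216 * 4 ^ 6 + (N : ℝ) ^ 4) * 64) := by gcongr)
    refine h.trans (le_of_eq ?_)
    simp
  · have hcl : ∀ y : ℝ, ((1 / 2 : ℝ) : ℂ) + y * I = cl y := fun y => by
      unfold cl
      push_cast
      ring
    have h := shift (ff k δ θ N) (mj k δ n N) (ff_differentiableOn k δ θ N) (mj_tendsto k δ hδ n N)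
      (fun s h1 h2 h3 => ff_norm_le k δ θ hδ n N hn hθ s h1 h2 h3) (by
        simp_rw [hcl, ff_cl]
        exact hint.mono_set (Set.Ioi_subset_Ioi zero_le_one))
      (right_line k δ θ hδ n N hn hθ hN).1
    simp_rw [hcl, ff_cl] at h
    refine h.trans ?_
    exact add_le_add (right_line k δ θ hδ n N hn hθ hN).2 le_rfl


/-! ### The Dirichlet polynomial -/

/-- the polynomial part of the integrand -/
lemma poly_term (k : ℕ) (δ θ : ℝ) (N : ℕ) (t : ℝ) :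
    (om k δ t : ℂ) * (Pp N (cl t) * ef θ t) =
      ∑ m ∈ range N, ((d1 m * (m : ℝ) ^ (-(1 / 2) : ℝ) : ℝ) : ℂ) *
        ((om k δ t : ℂ) * ef (θ - Real.log m) t) := by
  unfold Pp
  rw [sum_mul, mul_sum]
  apply sum_congr rfl
  intro m _
  rcases Nat.eq_zero_or_pos m with rfl | hm0
  · rw [d1_zero]
    simp
  · rw [cpow_cl m hm0, sub_eq_add_neg θ, ← ef_mul]
    push_cast
    ring

lemma poly_integrable (k : ℕ) (δ θ : ℝ) (hδ : 0 < δ) (N : ℕ) :
    IntegrableOn (fun t : ℝ => (om k δ t : ℂ) * (Pp N (cl t) * ef θ t)) (Set.Ioi 0) := by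
  simp_rw [poly_term]
  apply integrable_finsetSum
  intro m _
  exact (om_ef_integrable k δ hδ _).const_mul _

/-- the main term -/
def mt (h l : ℕ) : ℝ := if l ∣ h then d1 (h / l) * ((h / l : ℕ) : ℝ) ^ (-(1 / 2) : ℝ) else 0

lemma poly_bound (k : ℕ) (δ : ℝ) (hδ : 0 < δ) (h l N : ℕ) (hh : 1 ≤ h) (hl : 1 ≤ l) (hN : h < N) :
    ‖(∫ t in Set.Ioi (0 : ℝ), (om k δ t : ℂ) * (Pp N (cl t) * ef (Real.log h - Real.log l) t)) -
      ((mt h l : ℝ) : ℂ)‖ ≤ (N : ℝ) ^ 4 * (2 * h * δ) ^ (k + 1) := by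
  have hh0 : (0 : ℝ) < h := by exact_mod_cast hh
  have hl0 : (0 : ℝ) < l := by exact_mod_cast hl
  simp_rw [poly_term]
  rw [integral_finsetSum _ (fun m _ => (om_ef_integrable k δ hδ _).const_mul _)]
  simp_rw [integral_const_mul]
  have hterm : ∀ m : ℕ, 1 ≤ m → m < N → m * l ≠ h →
      ‖((d1 m * (m : ℝ) ^ (-(1 / 2) : ℝ) : ℝ) : ℂ) *
        ∫ t in Set.Ioi (0 : ℝ), (om k δ t : ℂ) * ef (Real.log h - Real.log l - Real.log m) t‖ ≤
      (N : ℝ) ^ 3 * (2 * h * δ) ^ (k + 1) := by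
    intro m hm0 hmN hmh
    have hm0' : (0 : ℝ) < m := by exact_mod_cast hm0
    rw [norm_mul, Complex.norm_real, Real.norm_eq_abs]
    have hsep := log_sep (m * l) h (Nat.mul_pos hm0 hl) hh hmh
    have e0 : Real.log ((m * l : ℕ) : ℝ) = Real.log m + Real.log l := by
      push_cast
      exact Real.log_mul hm0'.ne' hl0.ne'
    rw [e0] at hsep
    have e1 : Real.log h - Real.log l - Real.log m = Real.log h - (Real.log m + Real.log l) := by
      ring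
    rw [e1]
    have hpos : 0 < |Real.log h - (Real.log m + Real.log l)| :=
      lt_of_lt_of_le (by positivity) hsep
    have hne : Real.log h - (Real.log m + Real.log l) ≠ 0 := abs_pos.mp hpos
    have h1 := om_ef_norm_le k δ hδ _ hne
    have h2 : (δ / |Real.log h - (Real.log m + Real.log l)|) ^ (k + 1) ≤ (2 * h * δ) ^ (k + 1) := by
      apply pow_le_pow_left₀ (by positivity)
      rw [div_le_iff₀ hpos]
      calc δ = 2 * h * δ * (1 / (2 * (h : ℝ))) := by field_simp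
        _ ≤ 2 * h * δ * |Real.log h - (Real.log m + Real.log l)| := by gcongr
    have h3 : |d1 m * (m : ℝ) ^ (-(1 / 2) : ℝ)| ≤ (N : ℝ) ^ 3 := by
      rw [abs_of_nonneg (mul_nonneg (d1_nonneg m) (by positivity))]
      have h4 : (m : ℝ) ^ (-(1 / 2) : ℝ) ≤ 1 := by
        apply Real.rpow_le_one_of_one_le_of_nonpos
        · exact_mod_cast hm0
        · norm_num
      have h5 : (m : ℝ) ≤ N := by exact_mod_cast hmN.le
      calc d1 m * (m : ℝ) ^ (-(1 / 2) : ℝ) ≤ (m : ℝ) ^ 3 * 1 := by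
            apply mul_le_mul (d1_le m) h4 (by positivity) (by positivity)
        _ = (m : ℝ) ^ 3 := mul_one _
        _ ≤ (N : ℝ) ^ 3 := by gcongr
    exact mul_le_mul h3 (h1.trans h2) (norm_nonneg _) (by positivity)
  have hsumle : ∀ s : Finset ℕ, s ⊆ range N → (∀ m ∈ s, m * l ≠ h) →
      ‖∑ m ∈ s, ((d1 m * (m : ℝ) ^ (-(1 / 2) : ℝ) : ℝ) : ℂ) *
        ∫ t in Set.Ioi (0 : ℝ), (om k δ t : ℂ) * ef (Real.log h - Real.log l - Real.log m) t‖ ≤
      (N : ℝ) ^ 4 * (2 * h * δ) ^ (k + 1) := by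
    intro s hs hsm
    calc _ ≤ ∑ m ∈ s, ‖((d1 m * (m : ℝ) ^ (-(1 / 2) : ℝ) : ℝ) : ℂ) *
        ∫ t in Set.Ioi (0 : ℝ), (om k δ t : ℂ) * ef (Real.log h - Real.log l - Real.log m) t‖ :=
          norm_sum_le _ _
      _ ≤ ∑ _m ∈ s, (N : ℝ) ^ 3 * (2 * h * δ) ^ (k + 1) := by
          refine sum_le_sum fun m hm => ?_
          rcases Nat.eq_zero_or_pos m with hm0 | hm0
          · rw [hm0, d1_zero, zero_mul, Complex.ofReal_zero, zero_mul, norm_zero]
            positivity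
          · exact hterm m hm0 (mem_range.1 (hs hm)) (hsm m hm)
      _ ≤ ∑ _m ∈ range N, (N : ℝ) ^ 3 * (2 * h * δ) ^ (k + 1) := by
          apply sum_le_sum_of_subset_of_nonneg hs
          intro _ _ _
          positivity
      _ = (N : ℝ) ^ 4 * (2 * h * δ) ^ (k + 1) := by
          rw [sum_const, card_range, nsmul_eq_mul]
          ring
  by_cases hd : l ∣ h
  · obtain ⟨q, hq⟩ := hd
    have hq0 : 0 < q := Nat.pos_of_ne_zero (by rintro rfl; simp at hq; omega)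
    have hql : h / l = q := by rw [hq]; exact Nat.mul_div_cancel_left q hl
    have hqN : q < N := lt_of_le_of_lt (by rw [← hql]; exact Nat.div_le_self h l) hN
    have hq0' : (0 : ℝ) < q := by exact_mod_cast hq0
    rw [← Finset.add_sum_erase _ _ (mem_range.2 hqN)]
    have e0 : Real.log h - Real.log l - Real.log q = 0 := by
      have : (h : ℝ) = l * q := by rw [hq]; push_cast; ring
      rw [this, Real.log_mul hl0.ne' hq0'.ne']; ring
    have e1 : ((d1 q * (q : ℝ) ^ (-(1 / 2) : ℝ) : ℝ) : ℂ) *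
        ∫ t in Set.Ioi (0 : ℝ), (om k δ t : ℂ) * ef (Real.log h - Real.log l - Real.log q) t =
        ((mt h l : ℝ) : ℂ) := by
      rw [e0]
      simp_rw [ef_zero, mul_one]
      rw [om_integral k δ hδ, mul_one]
      unfold mt
      rw [if_pos ⟨q, hq⟩, hql]
    rw [e1, add_sub_cancel_left]
    refine hsumle _ (erase_subset _ _) ?_
    intro m hm hmh
    rw [mem_erase] at hm
    apply hm.1
    rw [hq, mul_comm] at hmh
    exact Nat.eq_of_mul_eq_mul_left hl hmh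
  · unfold mt
    rw [if_neg hd, Complex.ofReal_zero, sub_zero]
    refine hsumle _ (Finset.Subset.refl _) ?_
    intro m _ hmh
    exact hd ⟨m, by rw [← hmh]; ring⟩

/-- the bound before the choice of the parameters -/
lemma main_bound (k : ℕ) (δ : ℝ) (hδ : 0 < δ) (h l N : ℕ) (hh : 1 ≤ h) (hl : 1 ≤ l) (hN : h < N) :
    ‖(∫ t in Set.Ioi (0 : ℝ), (om k δ t : ℂ) * riemannZeta (cl t) *
        ef (Real.log h - Real.log l) t) - ((mt h l : ℝ) : ℂ)‖ ≤
      (N : ℝ) ^ 4 * (2 * h * δ) ^ (k + 1) +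
      (δ ^ (k + 1) * ((216 * 4 ^ 6 + (N : ℝ) ^ 4) * 64) +
        (Real.exp (5 / 2 * δ) * (C2 / N) * (h : ℝ) ^ (5 / 2 : ℝ) + 5 / 2 * mj k δ h N 1)) := by
  have hθ : Real.log h - Real.log l ≤ Real.log h := by
    have : 0 ≤ Real.log l := Real.log_nonneg (by exact_mod_cast hl)
    linarith
  have e : ∀ t : ℝ, (om k δ t : ℂ) * riemannZeta (cl t) * ef (Real.log h - Real.log l) t =
      (om k δ t : ℂ) * (Pp N (cl t) * ef (Real.log h - Real.log l) t) +
        (om k δ t : ℂ) * (gg N (cl t) * ef (Real.log h - Real.log l) t) := by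
    intro t
    unfold gg
    ring
  simp_rw [e]
  rw [integral_add (poly_integrable k δ _ hδ N) (ff_cl_integrable k δ _ hδ N), add_sub_right_comm]
  refine (norm_add_le _ _).trans (add_le_add ?_ ?_)
  · exact poly_bound k δ hδ h l N hh hl hN
  · exact rem_bound k δ _ hδ h N hh hθ (by omega)

theorem B_part (ε : ℝ) (hε : 0 < ε) (hε1 : ε < 1) :
    ∀ᶠ T : ℝ in atTop, ∀ k : ℕ, Real.log T ^ 2 ≤ k → (k : ℝ) ≤ 4 * Real.log T ^ 2 →
      ∀ n l : ℕ, 1 ≤ n → 1 ≤ l → (n : ℝ) ≤ T ^ (1 - ε) →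
        ‖(∫ t in Set.Ioi (0 : ℝ), (om k (k / T) t : ℂ) * riemannZeta (cl t) *
            ef (Real.log n - Real.log l) t) - ((mt n l : ℝ) : ℂ)‖ ≤ T ^ (-1 : ℝ) := by
  have hE1 : ∀ᶠ T : ℝ in atTop, 16 * Real.log T ^ 2 ≤ T ^ (ε / 2) := by
    have h := (isLittleO_log_rpow_rpow_atTop (s := ε / 2) 2 (by positivity)).bound
      (show (0 : ℝ) < 1 / 16 by norm_num)
    filter_upwards [h, eventually_ge_atTop 1] with T hT hT1
    rw [Real.norm_eq_abs, Real.norm_eq_abs, abs_of_nonneg (by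
      have := Real.log_nonneg hT1
      positivity), abs_of_nonneg (by positivity)] at hT
    have e : Real.log T ^ (2 : ℝ) = Real.log T ^ 2 := by
      rw [← Real.rpow_natCast]
      norm_num
    rw [e] at hT
    linarith
  have hE2 : ∀ᶠ T : ℝ in atTop, 48 / ε ≤ Real.log T ^ 2 :=
    ((tendsto_pow_atTop (two_ne_zero)).comp Real.tendsto_log_atTop).eventually_ge_atTop _
  have hE3 : ∀ᶠ T : ℝ in atTop, 4 * 10 ^ 9 + 3 * C2 ≤ T ^ (1 / 2 : ℝ) :=
    (tendsto_rpow_atTop (by norm_num)).eventually_ge_atTop _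
  filter_upwards [hE1, hE2, hE3, eventually_ge_atTop 2] with T h1 h2 h3 h4 k hk1 hk2 n l hn hl hnT
  have hT0 : 0 < T := by linarith
  have hT1 : 1 ≤ T := by linarith
  have hkpos : (0 : ℝ) < k := lt_of_lt_of_le (lt_of_lt_of_le (by positivity) h2) hk1
  set δ : ℝ := (k : ℝ) / T with hδdef
  have hδ : 0 < δ := div_pos hkpos hT0
  have hn0 : (0 : ℝ) < n := by exact_mod_cast hn
  have hn1 : (1 : ℝ) ≤ n := by exact_mod_cast hn
  have hC2 := C2_nonneg
  -- the small parameter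
  have hx : 4 * (n : ℝ) * δ ≤ T ^ (-(ε / 2)) := by
    have e1 : T ^ (1 - ε) = T * (T ^ (-(ε / 2)) * T ^ (-(ε / 2))) := by
      rw [← Real.rpow_add hT0, Real.rpow_sub hT0, Real.rpow_one, div_eq_mul_inv,
        ← Real.rpow_neg hT0.le]
      congr 2
      ring
    have e2 : T ^ (ε / 2) * T ^ (-(ε / 2)) = 1 := by
      rw [← Real.rpow_add hT0]
      simp
    have hy : 0 < T ^ (-(ε / 2)) := by positivity
    calc 4 * (n : ℝ) * δ ≤ 4 * T ^ (1 - ε) * (4 * Real.log T ^ 2 / T) := by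
          rw [hδdef]
          gcongr
      _ = (16 * Real.log T ^ 2) * (T ^ (-(ε / 2)) * T ^ (-(ε / 2))) := by
          rw [e1]
          field_simp
          ring
      _ ≤ T ^ (ε / 2) * (T ^ (-(ε / 2)) * T ^ (-(ε / 2))) := by gcongr
      _ = T ^ (-(ε / 2)) := by rw [← mul_assoc, e2, one_mul]
  have hx1 : 4 * δ ≤ T ^ (-(ε / 2)) := by
    refine le_trans ?_ hx
    nlinarith
  have hsmall : T ^ (-(ε / 2)) ≤ 1 :=
    Real.rpow_le_one_of_one_le_of_nonpos hT1 (by linarith)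
  have hδ4 : δ ≤ 1 / 4 := by linarith
  have hX : (T ^ (-(ε / 2))) ^ (k + 1) ≤ (T ^ 24)⁻¹ := by
    rw [← Real.rpow_natCast, ← Real.rpow_mul hT0.le, ← Real.rpow_natCast T 24,
      ← Real.rpow_neg hT0.le]
    apply Real.rpow_le_rpow_of_exponent_le hT1
    have h5 : 48 / ε ≤ k := h2.trans hk1
    rw [div_le_iff₀ hε] at h5
    push_cast
    nlinarith
  -- the four terms
  set N : ℕ := ⌈T ^ 4⌉₊ with hN
  have hN1 : T ^ 4 ≤ N := Nat.le_ceil _
  have hT4 : (1 : ℝ) ≤ T ^ 4 := one_le_pow₀ hT1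
  have hN2 : (N : ℝ) ≤ 2 * T ^ 4 := by
    have := Nat.ceil_lt_add_one (show (0 : ℝ) ≤ T ^ 4 by positivity)
    linarith
  have hNpos : (0 : ℝ) < N := lt_of_lt_of_le (by positivity) hN1
  have hnT' : (n : ℝ) ≤ T := by
    refine hnT.trans ?_
    calc T ^ (1 - ε) ≤ T ^ (1 : ℝ) := Real.rpow_le_rpow_of_exponent_le hT1 (by linarith)
      _ = T := Real.rpow_one T
  have hnN : n < N := by
    have h5 : (n : ℝ) < N := by
      refine lt_of_le_of_lt hnT' (lt_of_lt_of_le ?_ hN1)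
      calc T = T * 1 := (mul_one T).symm
        _ < T * T ^ 3 := by
            apply mul_lt_mul_of_pos_left _ hT0
            exact one_lt_pow₀ (by linarith) (by norm_num)
        _ = T ^ 4 := by ring
    exact_mod_cast h5
  have hN4 : (N : ℝ) ^ 4 ≤ 16 * T ^ 16 := by
    calc (N : ℝ) ^ 4 ≤ (2 * T ^ 4) ^ 4 := by gcongr
      _ = 16 * T ^ 16 := by ring
  have hK : 216 * 4 ^ 6 + (N : ℝ) ^ 4 ≤ 884752 * T ^ 16 := by
    have : (1 : ℝ) ≤ T ^ 16 := one_le_pow₀ hT1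
    nlinarith
  have hXpos : 0 < (T ^ 24)⁻¹ := by positivity
  have hn52 : (n : ℝ) ^ (5 / 2 : ℝ) ≤ T ^ (5 / 2 : ℝ) := by gcongr
  have hT52 : T ^ (5 / 2 : ℝ) ≤ T ^ 3 := by
    rw [← Real.rpow_natCast]
    apply Real.rpow_le_rpow_of_exponent_le hT1
    norm_num
  have hexp : Real.exp (5 / 2 * δ) ≤ 3 := by
    have h5 : Real.exp (5 / 2 * δ) ≤ Real.exp 1 := Real.exp_le_exp.mpr (by linarith)
    have := Real.exp_one_lt_d9
    linarith
  have t1 : (N : ℝ) ^ 4 * (2 * n * δ) ^ (k + 1) ≤ 16 * T ^ 16 * (T ^ 24)⁻¹ := by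
    have h5 : (2 * (n : ℝ) * δ) ^ (k + 1) ≤ (T ^ 24)⁻¹ := by
      refine le_trans ?_ hX
      apply pow_le_pow_left₀ (by positivity)
      refine le_trans ?_ hx
      have : 0 ≤ (n : ℝ) * δ := by positivity
      nlinarith
    gcongr
  have hδX : δ ^ (k + 1) ≤ (T ^ 24)⁻¹ := by
    refine le_trans ?_ hX
    apply pow_le_pow_left₀ hδ.le
    linarith
  have t2 : δ ^ (k + 1) * ((216 * 4 ^ 6 + (N : ℝ) ^ 4) * 64) ≤
      (T ^ 24)⁻¹ * ((884752 * T ^ 16) * 64) := by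
    gcongr
  have t3 : Real.exp (5 / 2 * δ) * (C2 / N) * (n : ℝ) ^ (5 / 2 : ℝ) ≤
      3 * C2 * T ^ (-(3 / 2) : ℝ) := by
    have e1 : T ^ (-(3 / 2) : ℝ) = (T ^ 4)⁻¹ * T ^ (5 / 2 : ℝ) := by
      rw [← Real.rpow_natCast, ← Real.rpow_neg hT0.le, ← Real.rpow_add hT0]
      norm_num
    calc Real.exp (5 / 2 * δ) * (C2 / N) * (n : ℝ) ^ (5 / 2 : ℝ) ≤
        3 * (C2 / T ^ 4) * T ^ (5 / 2 : ℝ) := by gcongr
      _ = _ := by rw [e1]; ring
  have t4 : 5 / 2 * mj k δ n N 1 ≤ 35 * 10 ^ 8 * (T ^ 5)⁻¹ := by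
    have h5 : δ ^ (k + 1) * (7 / 2 : ℝ) ^ (k + 1) ≤ (T ^ 24)⁻¹ := by
      rw [← mul_pow]
      refine le_trans ?_ hX
      apply pow_le_pow_left₀ (by positivity)
      linarith
    have hfac : (1 : ℝ) ≤ (k.factorial : ℝ) := by exact_mod_cast Nat.factorial_pos k
    have hexp2 : Real.exp (-(δ * (1 + 5 / 2))) ≤ 1 := by
      rw [Real.exp_le_one_iff]
      linarith
    unfold mj
    calc 5 / 2 * ((Real.exp (5 / 2 * δ) * (δ ^ (k + 1) / (k.factorial : ℝ)) *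
          (216 * 4 ^ 6 + (N : ℝ) ^ 4) * (n : ℝ) ^ (5 / 2 : ℝ)) *
          ((1 + 5 / 2) ^ (k + 6) * Real.exp (-(δ * (1 + 5 / 2)))))
        ≤ 5 / 2 * ((3 * (δ ^ (k + 1) / 1) * (884752 * T ^ 16) * T ^ 3) *
          ((1 + 5 / 2) ^ (k + 6) * 1)) := by
          gcongr
          exact hn52.trans hT52
      _ = 5 / 2 * (3 * (884752 * T ^ 16) * T ^ 3) * (7 / 2) ^ 5 *
          (δ ^ (k + 1) * (7 / 2 : ℝ) ^ (k + 1)) := by
          rw [show (1 + 5 / 2 : ℝ) = 7 / 2 by norm_num, show k + 6 = (k + 1) + 5 by ring,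
            pow_add (7 / 2 : ℝ) (k + 1) 5]
          ring
      _ ≤ 5 / 2 * (3 * (884752 * T ^ 16) * T ^ 3) * (7 / 2) ^ 5 * (T ^ 24)⁻¹ := by
          gcongr
      _ = 5 / 2 * 3 * 884752 * (7 / 2) ^ 5 * (T ^ 5)⁻¹ := by
          field_simp
      _ ≤ 35 * 10 ^ 8 * (T ^ 5)⁻¹ := by
          apply mul_le_mul_of_nonneg_right _ (by positivity)
          norm_num
  have hmain := main_bound k δ hδ n l N hn hl hnN
  refine hmain.trans ?_
  have e32 : T ^ (-1 : ℝ) = T ^ (1 / 2 : ℝ) * T ^ (-(3 / 2) : ℝ) := by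
    rw [← Real.rpow_add hT0]
    norm_num
  have hs0 : 0 < T ^ (-(3 / 2) : ℝ) := by positivity
  have hs5 : (T ^ 5)⁻¹ ≤ T ^ (-(3 / 2) : ℝ) := by
    rw [← Real.rpow_natCast, ← Real.rpow_neg hT0.le]
    apply Real.rpow_le_rpow_of_exponent_le hT1
    norm_num
  have hs8 : T ^ 16 * (T ^ 24)⁻¹ ≤ T ^ (-(3 / 2) : ℝ) := by
    have e1 : T ^ 16 * (T ^ 24)⁻¹ = (T ^ 8)⁻¹ := by
      field_simp
    rw [e1, ← Real.rpow_natCast, ← Real.rpow_neg hT0.le]
    apply Real.rpow_le_rpow_of_exponent_le hT1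
    norm_num
  calc (N : ℝ) ^ 4 * (2 * n * δ) ^ (k + 1) +
      (δ ^ (k + 1) * ((216 * 4 ^ 6 + (N : ℝ) ^ 4) * 64) +
        (Real.exp (5 / 2 * δ) * (C2 / N) * (n : ℝ) ^ (5 / 2 : ℝ) + 5 / 2 * mj k δ n N 1))
      ≤ 16 * T ^ 16 * (T ^ 24)⁻¹ + ((T ^ 24)⁻¹ * ((884752 * T ^ 16) * 64) +
        (3 * C2 * T ^ (-(3 / 2) : ℝ) + 35 * 10 ^ 8 * (T ^ 5)⁻¹)) :=
        add_le_add t1 (add_le_add t2 (add_le_add t3 t4))
    _ = (16 + 884752 * 64) * (T ^ 16 * (T ^ 24)⁻¹) + 3 * C2 * T ^ (-(3 / 2) : ℝ) +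
        35 * 10 ^ 8 * (T ^ 5)⁻¹ := by ring
    _ ≤ (16 + 884752 * 64) * T ^ (-(3 / 2) : ℝ) + 3 * C2 * T ^ (-(3 / 2) : ℝ) +
        35 * 10 ^ 8 * T ^ (-(3 / 2) : ℝ) :=
        add_le_add (add_le_add (mul_le_mul_of_nonneg_left hs8 (by norm_num)) le_rfl)
          (mul_le_mul_of_nonneg_left hs5 (by norm_num))
    _ = (16 + 884752 * 64 + 35 * 10 ^ 8 + 3 * C2) * T ^ (-(3 / 2) : ℝ) := by ring
    _ ≤ (4 * 10 ^ 9 + 3 * C2) * T ^ (-(3 / 2) : ℝ) := by
        apply mul_le_mul_of_nonneg_right _ hs0.le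
        linarith
    _ ≤ T ^ (1 / 2 : ℝ) * T ^ (-(3 / 2) : ℝ) := mul_le_mul_of_nonneg_right h3 hs0.le
    _ = T ^ (-1 : ℝ) := e32.symm


theorem t_ZM : Pool.Agent.TH806.LK.P_ZM := by
  filter_upwards [B_part (1 / 2) (by norm_num) (by norm_num), eventually_ge_atTop (1 : ℝ)]
    with T hT hT1 κ hκ h l hh hl _ hlT
  have hlT' : (l : ℝ) ≤ T ^ (1 - 1 / 2 : ℝ) := by
    refine hlT.trans (Real.rpow_le_rpow_of_exponent_le hT1 ?_)
    norm_num
  have hb := hT κ hκ.1 hκ.2 l h hl hh hlT'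
  have hh0 : (0 : ℝ) < h := by exact_mod_cast hh
  have hl0 : (0 : ℝ) < l := by exact_mod_cast hl
  set c : ℝ := (h : ℝ) ^ (-(1 / 2) : ℝ) * (l : ℝ) ^ (-(1 / 2) : ℝ) with hc
  have hc0 : 0 ≤ c := by positivity
  have hc1 : c ≤ 1 := by
    have a1 : (h : ℝ) ^ (-(1 / 2) : ℝ) ≤ 1 :=
      Real.rpow_le_one_of_one_le_of_nonpos (by exact_mod_cast hh) (by norm_num)
    have a2 : (l : ℝ) ^ (-(1 / 2) : ℝ) ≤ 1 :=
      Real.rpow_le_one_of_one_le_of_nonpos (by exact_mod_cast hl) (by norm_num)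
    exact mul_le_one₀ a1 (by positivity) a2
  have hmh : ∀ t : ℝ, mh t (h, l) = (c : ℂ) * ef (Real.log l - Real.log h) t := by
    intro t
    show (h : ℂ) ^ (-(1 / 2 + t * Complex.I)) * (l : ℂ) ^ (-(1 / 2 - t * Complex.I)) = _
    have hhc : (h : ℂ) ≠ 0 := by exact_mod_cast hh0.ne'
    have hlc : (l : ℂ) ≠ 0 := by exact_mod_cast hl0.ne'
    rw [Complex.cpow_def_of_ne_zero hhc, Complex.cpow_def_of_ne_zero hlc, hc,
      Real.rpow_def_of_pos hh0, Real.rpow_def_of_pos hl0]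
    unfold ef
    rw [← Complex.natCast_log, ← Complex.natCast_log, Complex.ofReal_mul, Complex.ofReal_exp,
      Complex.ofReal_exp, ← Complex.exp_add, ← Complex.exp_add, ← Complex.exp_add]
    congr 1
    push_cast
    ring
  have hconj : ∀ t : ℝ, ((om κ (κ / T) t : ℝ) : ℂ) * (riemannZeta (cl t) * mh t (h, l)) =
      (c : ℂ) * ((om κ (κ / T) t : ℂ) * riemannZeta (cl t) *
        ef (Real.log l - Real.log h) t) := by
    intro t
    rw [hmh]
    ring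
  simp_rw [hconj]
  rw [integral_const_mul]
  have hmt : ((Pool.Agent.TH806.LK.wF (h, l) : ℝ) : ℂ) = (c : ℂ) * ((mt l h : ℝ) : ℂ) := by
    unfold mt Pool.Agent.TH806.LK.wF
    by_cases hd : h ∣ l
    · rw [if_pos hd, if_pos hd, ← Complex.ofReal_mul]
      obtain ⟨q, hq⟩ := hd
      have hql : l / h = q := by rw [hq]; exact Nat.mul_div_cancel_left q hh
      have hq0 : 0 < q := Nat.pos_of_ne_zero (by rintro rfl; simp at hq; omega)
      have hq0' : (0 : ℝ) < q := by exact_mod_cast hq0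
      rw [hql, d1_pos hq0, hc, one_mul]
      have hhr : (l : ℝ) = h * q := by rw [hq]; push_cast; ring
      have e3 : (h : ℝ) ^ (-(1 / 2) : ℝ) * (q : ℝ) ^ (-(1 / 2) : ℝ) = (l : ℝ) ^ (-(1 / 2) : ℝ) := by
        rw [← Real.mul_rpow hh0.le hq0'.le, ← hhr]
      have e2 : (h : ℝ) ^ (-(1 / 2) : ℝ) * (l : ℝ) ^ (-(1 / 2) : ℝ) * (q : ℝ) ^ (-(1 / 2) : ℝ)
          = 1 / l := by
        rw [mul_right_comm, e3, ← Real.rpow_add hl0]
        norm_num
        rw [Real.rpow_neg_one]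
      rw [e2]
    · rw [if_neg hd, if_neg hd]; simp
  rw [hmt, ← mul_sub, norm_mul, Complex.norm_real, Real.norm_eq_abs, abs_of_nonneg hc0]
  calc c * _ ≤ 1 * T ^ (-1 : ℝ) := mul_le_mul hc1 hb (norm_nonneg _) zero_le_one
    _ = _ := one_mul _

end

end Pool.Agent.TH959.LK_ZM
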