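import Pool.Agent.TH83.SQ.Defs

/-!
Averages of `log |d X + B|` over the divisors `d`: two splitting inequalities (job 1824).
-/

set_option autoImplicit false

namespace Pool.Agent.TH959.SQ

open Finset Pool.Agent.TH83.SQ
open scoped Pointwise

theorem pr_insert {p : ℕ} {s : Finset ℕ} (hp : p ∉ s) : pr (insert p s) = (p : ℤ) * pr s := by
  unfold pr
  rw [Finset.prod_insert hp]

theorem dil_mul (a b : ℤ) (X : Finset ℤ) : dil (a * b) X = dil b (dil a X) := by
  unfold dil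
  rw [Finset.image_image]
  refine Finset.image_congr fun x _ => ?_
  simp only [Function.comp]
  ring

theorem tau_insert {p : ℕ} {P : Finset ℕ} (hp : p ∉ P) (X B : Finset ℤ) :
    tau (insert p P) X B = (tau P X B + tau P (dil p X) B) / 2 := by
  unfold tau
  rw [Finset.sum_powerset_insert hp, Finset.card_insert_of_notMem hp]
  have h : ∀ s ∈ P.powerset, Real.log ((dil (pr (insert p s)) X + B).card : ℝ) =
      Real.log ((dil (pr s) (dil p X) + B).card : ℝ) := by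
    intro s hs
    rw [pr_insert (fun h => hp (Finset.mem_powerset.1 hs h)), dil_mul]
  rw [Finset.sum_congr rfl h, pow_succ]
  have h2 : (2 : ℝ) ^ P.card ≠ 0 := by positivity
  field_simp

/-- concavity of the logarithm -/
theorem log_split {ι : Type*} (F : Finset ι) (hF : F.Nonempty) (Y : ι → Finset ℤ) (Z : Finset ℤ)
    (hY : ∀ i ∈ F, Y i ⊆ Z) (hne : ∀ i ∈ F, (Y i).Nonempty)
    (hd : ∀ i ∈ F, ∀ j ∈ F, i ≠ j → Disjoint (Y i) (Y j)) :
    Real.log F.card + (∑ i ∈ F, Real.log ((Y i).card : ℝ)) / F.card ≤ Real.log (Z.card : ℝ) := by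
  classical
  have hF0 : (0 : ℝ) < F.card := by exact_mod_cast hF.card_pos
  have h1 : ∑ i ∈ F, (Y i).card ≤ Z.card := by
    rw [← Finset.card_biUnion (fun i hi j hj hij => hd i hi j hj hij)]
    exact Finset.card_le_card (Finset.biUnion_subset.2 hY)
  have hpos : ∀ i ∈ F, (0 : ℝ) < (Y i).card := fun i hi => by exact_mod_cast (hne i hi).card_pos
  set T : ℝ := ∑ i ∈ F, ((Y i).card : ℝ) with hT
  have hT0 : 0 < T := Finset.sum_pos hpos hF
  have hTZ : T ≤ (Z.card : ℝ) := by rw [hT]; exact_mod_cast h1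
  have hM0 : 0 < T / F.card := div_pos hT0 hF0
  have h2 : ∑ i ∈ F, Real.log ((Y i).card : ℝ) ≤ F.card * Real.log (T / F.card) := by
    have h3 : ∀ i ∈ F, Real.log ((Y i).card : ℝ) ≤
        Real.log (T / F.card) + (((Y i).card : ℝ) / (T / F.card) - 1) := by
      intro i hi
      have h4 := Real.log_le_sub_one_of_pos (div_pos (hpos i hi) hM0)
      rw [Real.log_div (hpos i hi).ne' hM0.ne'] at h4
      linarith
    refine (Finset.sum_le_sum h3).trans (le_of_eq ?_)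
    rw [Finset.sum_add_distrib, Finset.sum_sub_distrib, ← Finset.sum_div, ← hT,
      Finset.sum_const, Finset.sum_const, nsmul_eq_mul, nsmul_eq_mul, div_div_cancel₀ hT0.ne']
    ring
  have h5 : (∑ i ∈ F, Real.log ((Y i).card : ℝ)) / F.card ≤ Real.log (T / F.card) := by
    rw [div_le_iff₀ hF0, mul_comm]
    exact h2
  rw [Real.log_div hT0.ne' hF0.ne'] at h5
  have h6 : Real.log T ≤ Real.log (Z.card : ℝ) := Real.log_le_log hT0 hTZ
  linarith

/-- averaging over the divisors -/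
theorem tau_avg {ι : Type*} (P : Finset ℕ) (F : Finset ι) (X' B' : ι → Finset ℤ)
    (X B : Finset ℤ)
    (h : ∀ s ⊆ P, Real.log F.card +
      (∑ i ∈ F, Real.log ((dil (pr s) (X' i) + B' i).card : ℝ)) / F.card ≤
        Real.log ((dil (pr s) X + B).card : ℝ)) :
    Real.log F.card + (∑ i ∈ F, tau P (X' i) (B' i)) / F.card ≤ tau P X B := by
  unfold tau
  have h2 : (0 : ℝ) < 2 ^ P.card := by positivity
  rw [le_div_iff₀ h2]
  have h3 := Finset.sum_le_sum fun s hs => h s (Finset.mem_powerset.1 hs)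
  refine le_trans (le_of_eq ?_) h3
  rw [Finset.sum_add_distrib, Finset.sum_const, Finset.card_powerset, ← Finset.sum_div,
    Finset.sum_comm, nsmul_eq_mul, ← Finset.sum_div]
  push_cast
  rw [add_mul, mul_comm (Real.log _) _]
  congr 1
  rw [div_mul_eq_mul_div, div_mul_cancel₀ _ h2.ne']

theorem mem_cls {Q : ℤ} {X : Finset ℤ} {t x : ℤ} : x ∈ cls Q X t ↔ x ∈ X ∧ Q ∣ x - t :=
  Finset.mem_filter

theorem cls_subset (Q : ℤ) (X : Finset ℤ) (t : ℤ) : cls Q X t ⊆ X := Finset.filter_subset _ _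

theorem self_mem_cls {Q : ℤ} {X : Finset ℤ} {t : ℤ} (h : t ∈ X) : t ∈ cls Q X t :=
  mem_cls.2 ⟨h, by simp⟩

theorem mem_dil {d : ℤ} {X : Finset ℤ} {y : ℤ} : y ∈ dil d X ↔ ∃ x ∈ X, d * x = y :=
  Finset.mem_image

theorem dil_mono {d : ℤ} {X Y : Finset ℤ} (h : X ⊆ Y) : dil d X ⊆ dil d Y :=
  Finset.image_subset_image h

theorem dil_nonempty {d : ℤ} {X : Finset ℤ} (h : X.Nonempty) : (dil d X).Nonempty := h.image _

theorem caseI {p : ℕ} (hp : p.Prime) (P : Finset ℕ) (X B : Finset ℤ) (I : ℕ) (x₀ : ℤ)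
    (hx₀ : x₀ ∈ X) (U : Finset ℤ) (hU : U ⊆ B) (hUn : U.Nonempty)
    (hUi : ∀ t ∈ U, ∀ t' ∈ U, ((p : ℤ) ^ (I + 1)) ∣ t - t' → t = t') :
    Real.log U.card + (∑ t ∈ U, tau P (dil p (cls ((p : ℤ) ^ I) X x₀))
      (cls ((p : ℤ) ^ (I + 1)) B t)) / U.card ≤ tau P (dil p X) B := by
  refine tau_avg P U (fun _ => dil p (cls ((p : ℤ) ^ I) X x₀))
    (fun t => cls ((p : ℤ) ^ (I + 1)) B t) (dil p X) B ?_
  intro s _
  refine log_split U hUn _ _ ?_ ?_ ?_
  · intro t _
    exact Finset.add_subset_add (dil_mono (dil_mono (cls_subset _ _ _))) (cls_subset _ _ _)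
  · intro t ht
    exact (dil_nonempty (dil_nonempty ⟨x₀, self_mem_cls hx₀⟩)).add ⟨t, self_mem_cls (hU ht)⟩
  · intro t ht t' ht' htt
    rw [Finset.disjoint_left]
    intro z hz hz'
    apply htt
    have key : ∀ t, z ∈ dil (pr s) (dil p (cls ((p : ℤ) ^ I) X x₀)) + cls ((p : ℤ) ^ (I + 1)) B t →
        ((p : ℤ) ^ (I + 1)) ∣ z - (pr s * (p * x₀) + t) := by
      intro t hz
      obtain ⟨a, ha, b, hb, rfl⟩ := Finset.mem_add.1 hz
      obtain ⟨a', ha', rfl⟩ := mem_dil.1 ha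
      obtain ⟨x, hx, rfl⟩ := mem_dil.1 ha'
      have h1 := (mem_cls.1 hx).2
      have h2 := (mem_cls.1 hb).2
      have h3 : ((p : ℤ) ^ (I + 1)) ∣ pr s * (p * (x - x₀)) := by
        refine Dvd.dvd.mul_left ?_ _
        rw [pow_succ, mul_comm]
        exact mul_dvd_mul_left _ h1
      have h4 : pr s * (p * x) + b - (pr s * (p * x₀) + t) =
          pr s * (p * (x - x₀)) + (b - t) := by ring
      rw [h4]
      exact dvd_add h3 h2
    have h5 := key t hz
    have h6 := key t' hz'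
    have h7 := dvd_sub h6 h5
    refine hUi t ht t' ht' ?_
    have h8 : z - (pr s * (p * x₀) + t') - (z - (pr s * (p * x₀) + t)) = t - t' := by ring
    rwa [h8] at h7

theorem caseIIa {p : ℕ} (hp : p.Prime) (P : Finset ℕ) (hP : ∀ q ∈ P, q.Prime ∧ q ≠ p)
    (X B : Finset ℤ) (I : ℕ) (T : Finset ℤ) (hT : T ⊆ X) (hTn : T.Nonempty)
    (hTi : ∀ t ∈ T, ∀ t' ∈ T, ((p : ℤ) ^ I) ∣ t - t' → t = t') (b₀ : ℤ) (hb₀ : b₀ ∈ B) :
    Real.log T.card + (∑ t ∈ T, tau P (cls ((p : ℤ) ^ I) X t) (cls ((p : ℤ) ^ I) B b₀)) / T.card ≤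
      tau P X B := by
  refine tau_avg P T (fun t => cls ((p : ℤ) ^ I) X t)
    (fun _ => cls ((p : ℤ) ^ I) B b₀) X B ?_
  intro s hs
  have hcop : IsCoprime ((p : ℤ) ^ I) (pr s) := by
    refine IsCoprime.pow_left ?_
    unfold pr
    refine IsCoprime.prod_right fun q hq => ?_
    rw [Nat.isCoprime_iff_coprime]
    obtain ⟨h1, h2⟩ := hP q (hs hq)
    exact (Nat.coprime_primes hp h1).2 h2.symm
  refine log_split T hTn _ _ ?_ ?_ ?_
  · intro t _
    exact Finset.add_subset_add (dil_mono (cls_subset _ _ _)) (cls_subset _ _ _)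
  · intro t ht
    exact (dil_nonempty ⟨t, self_mem_cls (hT ht)⟩).add ⟨b₀, self_mem_cls hb₀⟩
  · intro t ht t' ht' htt
    rw [Finset.disjoint_left]
    intro z hz hz'
    apply htt
    have key : ∀ t, z ∈ dil (pr s) (cls ((p : ℤ) ^ I) X t) + cls ((p : ℤ) ^ I) B b₀ →
        ((p : ℤ) ^ I) ∣ z - (pr s * t + b₀) := by
      intro t hz
      obtain ⟨a, ha, b, hb, rfl⟩ := Finset.mem_add.1 hz
      obtain ⟨x, hx, rfl⟩ := mem_dil.1 ha
      have h1 := (mem_cls.1 hx).2
      have h2 := (mem_cls.1 hb).2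
      have h3 : ((p : ℤ) ^ I) ∣ pr s * (x - t) := h1.mul_left _
      have h4 : pr s * x + b - (pr s * t + b₀) = pr s * (x - t) + (b - b₀) := by ring
      rw [h4]
      exact dvd_add h3 h2
    have h5 := key t hz
    have h6 := key t' hz'
    have h7 := dvd_sub h6 h5
    refine hTi t ht t' ht' ?_
    have h8 : z - (pr s * t' + b₀) - (z - (pr s * t + b₀)) = pr s * (t - t') := by ring
    rw [h8] at h7
    exact hcop.dvd_of_dvd_mul_left h7

end Pool.Agent.TH959.SQ
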