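import Pool.Agent.TH84.UA.Plan
import Pool.Agent.H161R2.UCFam

/-!
# Almost all sets above the middle and few sets below it: large average size
(helper959, job 2382 for helper84)
-/

set_option autoImplicit false

namespace Pool.Agent.TH959.UA_WPOS

open Finset Filter
open scoped Classical
open Pool.Agent.TH84.UA

/-- the bound for the members of cardinality `k` -/
theorem level (n k s R f : ℕ) (hf : f ≤ n.choose k) (hk : k ≤ n)
    (h1 : n / 2 + s < k → k ≤ n / 2 + R → 6 * (n.choose k - f) ≤ n.choose k)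
    (h2 : n / 2 - R ≤ k → k < n / 2 - s → 6 * f ≤ n.choose k) :
    (5 / 6 : ℝ) * ((n.choose k : ℝ) * (2 * (k : ℝ) - n)) +
      (2 / 3) * (if k ≤ n / 2 then (n.choose k : ℝ) * ((n : ℝ) - 2 * k) else 0) -
      (if n / 2 - s ≤ k ∧ k ≤ n / 2 + s then
        5 / 6 * (2 * (s : ℝ) + 1) * (n.choose (n / 2) : ℝ) else 0) -
      n * (if ¬ (n / 2 - R ≤ k ∧ k ≤ n / 2 + R) then (n.choose k : ℝ) else 0) ≤
      (f : ℝ) * (2 * (k : ℝ) - n) := by
  have hc : (n.choose k : ℝ) ≤ (n.choose (n / 2) : ℝ) := by exact_mod_cast Nat.choose_le_middle k n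
  have hf' : (f : ℝ) ≤ (n.choose k : ℝ) := by exact_mod_cast hf
  have hf0 : (0 : ℝ) ≤ (f : ℝ) := by positivity
  have hc0 : (0 : ℝ) ≤ (n.choose k : ℝ) := by positivity
  have hN0 : (0 : ℝ) ≤ (n.choose (n / 2) : ℝ) := by positivity
  have hs0 : (0 : ℝ) ≤ (s : ℝ) := by positivity
  have hn0 : (0 : ℝ) ≤ (n : ℝ) := by positivity
  have hkR : (0 : ℝ) ≤ (k : ℝ) := by positivity
  have hkn : (k : ℝ) ≤ (n : ℝ) := by exact_mod_cast hk
  have hE1 : (0 : ℝ) ≤ (if n / 2 - s ≤ k ∧ k ≤ n / 2 + s then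
        5 / 6 * (2 * (s : ℝ) + 1) * (n.choose (n / 2) : ℝ) else 0) := by
    split_ifs
    · positivity
    · exact le_rfl
  have hE2 : (0 : ℝ) ≤ n * (if ¬ (n / 2 - R ≤ k ∧ k ≤ n / 2 + R) then (n.choose k : ℝ) else 0) := by
    split_ifs
    · positivity
    · positivity
  by_cases hkm : k ≤ n / 2
  · rw [if_pos hkm]
    have hv : (0 : ℝ) ≤ (n : ℝ) - 2 * k := by
      have : 2 * k ≤ n := by omega
      have : (2 * (k : ℝ)) ≤ n := by exact_mod_cast this
      linarith
    by_cases h6 : 6 * f ≤ n.choose k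
    · have h6' : 6 * (f : ℝ) ≤ (n.choose k : ℝ) := by exact_mod_cast h6
      nlinarith [mul_nonneg hv (sub_nonneg.2 h6')]
    by_cases hR : n / 2 - R ≤ k
    · have hs : n / 2 - s ≤ k := by
        by_contra hcon
        exact h6 (h2 hR (by omega))
      rw [if_pos ⟨hs, by omega⟩]
      have hv2 : (n : ℝ) - 2 * k ≤ 2 * (s : ℝ) + 1 := by
        have : n ≤ 2 * s + 1 + 2 * k := by omega
        have : (n : ℝ) ≤ 2 * (s : ℝ) + 1 + 2 * k := by exact_mod_cast this
        linarith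
      have h3 : ((n : ℝ) - 2 * k) * (n.choose k : ℝ) ≤
          (2 * (s : ℝ) + 1) * (n.choose (n / 2) : ℝ) :=
        mul_le_mul hv2 hc hc0 (by positivity)
      have h4 : ((n : ℝ) - 2 * k) * (f : ℝ) ≤ ((n : ℝ) - 2 * k) * (n.choose k : ℝ) :=
        mul_le_mul_of_nonneg_left hf' hv
      nlinarith
    · rw [if_pos (show ¬ (n / 2 - R ≤ k ∧ k ≤ n / 2 + R) by tauto)]
      have h4 : ((n : ℝ) - 2 * k) * (f : ℝ) ≤ ((n : ℝ) - 2 * k) * (n.choose k : ℝ) :=
        mul_le_mul_of_nonneg_left hf' hv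
      have h5 : ((n : ℝ) - 2 * k) * (n.choose k : ℝ) ≤ n * (n.choose k : ℝ) :=
        mul_le_mul_of_nonneg_right (by linarith) hc0
      have h7 := mul_nonneg hv hc0
      nlinarith
  · rw [if_neg hkm]
    have hu : (0 : ℝ) ≤ 2 * (k : ℝ) - n := by
      have : n ≤ 2 * k := by omega
      have : (n : ℝ) ≤ 2 * (k : ℝ) := by exact_mod_cast this
      linarith
    have huf : 0 ≤ (f : ℝ) * (2 * (k : ℝ) - n) := mul_nonneg hf0 hu
    by_cases h6 : 6 * (n.choose k - f) ≤ n.choose k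
    · have h6' : 5 * (n.choose k : ℝ) ≤ 6 * (f : ℝ) := by
        have : 5 * n.choose k ≤ 6 * f := by omega
        exact_mod_cast this
      nlinarith [mul_nonneg hu (sub_nonneg.2 h6')]
    by_cases hR : k ≤ n / 2 + R
    · have hs : k ≤ n / 2 + s := by
        by_contra hcon
        exact h6 (h1 (by omega) hR)
      rw [if_pos ⟨by omega, hs⟩]
      have hu2 : 2 * (k : ℝ) - n ≤ 2 * (s : ℝ) + 1 := by
        have : 2 * k ≤ 2 * s + 1 + n := by omega
        have : (2 * (k : ℝ)) ≤ 2 * (s : ℝ) + 1 + n := by exact_mod_cast this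
        linarith
      have h3 : (2 * (k : ℝ) - n) * (n.choose k : ℝ) ≤
          (2 * (s : ℝ) + 1) * (n.choose (n / 2) : ℝ) :=
        mul_le_mul hu2 hc hc0 (by positivity)
      nlinarith
    · rw [if_pos (show ¬ (n / 2 - R ≤ k ∧ k ≤ n / 2 + R) by tauto)]
      have h5 : (2 * (k : ℝ) - n) * (n.choose k : ℝ) ≤ n * (n.choose k : ℝ) :=
        mul_le_mul_of_nonneg_right (by linarith) hc0
      have h7 := mul_nonneg hu hc0
      nlinarith

/-- sums over a family, level by level -/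
theorem sum_levels {n : ℕ} (F : Finset (Finset (Fin n))) (g : ℕ → ℝ) :
    ∑ A ∈ F, g A.card = ∑ k ∈ range (n + 1), ((F.filter (fun A => A.card = k)).card : ℝ) * g k := by
  have h := Finset.sum_fiberwise_of_maps_to (s := F) (t := range (n + 1))
    (g := fun A => A.card) (fun A _ => by
      rw [Finset.mem_range, Nat.lt_succ_iff]
      exact (Finset.card_le_univ A).trans_eq (Fintype.card_fin n)) (fun A => g A.card)
  rw [← h]
  refine Finset.sum_congr rfl fun k _ => ?_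
  rw [Finset.sum_congr rfl (g := fun _ => g k) (fun A hA => by rw [(Finset.mem_filter.1 hA).2])]
  rw [Finset.sum_const, nsmul_eq_mul]

theorem card_level {n : ℕ} (k : ℕ) :
    (univ.filter (fun A : Finset (Fin n) => A.card = k)).card = n.choose k := by
  rw [← Finset.powerset_univ, ← Finset.powersetCard_eq_filter, Finset.card_powersetCard,
    Finset.card_univ, Fintype.card_fin]

theorem level_split {n : ℕ} (F : Finset (Finset (Fin n))) (k : ℕ) :
    (F.filter (fun A => A.card = k)).card +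
      (univ.filter (fun A : Finset (Fin n) => A.card = k ∧ A ∉ F)).card = n.choose k := by
  rw [← card_level (n := n) k]
  rw [← Finset.card_filter_add_card_filter_not (s := univ.filter (fun A : Finset (Fin n) =>
    A.card = k)) (fun A => A ∈ F), Finset.filter_filter, Finset.filter_filter]
  congr 2
  ext A
  simp only [Finset.mem_filter, Finset.mem_univ, true_and]
  tauto

theorem W_ge {n : ℕ} (hn : 0 < n) (s R : ℕ) (F : Finset (Finset (Fin n)))
    (hup : ∀ k, n / 2 + s < k → k ≤ n / 2 + R →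
      6 * (univ.filter (fun A : Finset (Fin n) => A.card = k ∧ A ∉ F)).card ≤ n.choose k)
    (hlow : ∀ k, n / 2 - R ≤ k → k < n / 2 - s →
      6 * (F.filter (fun A => A.card = k)).card ≤ n.choose k) :
    (1 / 3 : ℝ) * n * (n.choose (n / 2) : ℝ) -
      5 / 6 * (2 * (s : ℝ) + 1) ^ 2 * (n.choose (n / 2) : ℝ) -
      n * ((univ.filter (fun A : Finset (Fin n) =>
        ¬ (n / 2 - R ≤ A.card ∧ A.card ≤ n / 2 + R))).card : ℝ) ≤
      ∑ A ∈ F, (2 * (A.card : ℝ) - n) := by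
  rw [sum_levels F (fun k => 2 * (k : ℝ) - n)]
  have hlev : ∀ k ∈ range (n + 1), _ ≤ _ := fun k hk =>
    level n k s R (F.filter (fun A => A.card = k)).card
      (by have := level_split F k; omega) (by rw [Finset.mem_range] at hk; omega)
      (fun h1 h2 => by
        have e := level_split F k
        have := hup k h1 h2
        omega) (fun h1 h2 => hlow k h1 h2)
  refine le_trans ?_ (Finset.sum_le_sum hlev)
  rw [Finset.sum_sub_distrib, Finset.sum_sub_distrib, Finset.sum_add_distrib, ← Finset.mul_sum,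
    ← Finset.mul_sum, ← Finset.mul_sum]
  obtain ⟨N, rfl⟩ : ∃ N, n = N + 1 := ⟨n - 1, by omega⟩
  -- the total sum
  have e1 : ∑ k ∈ range (N + 1 + 1), ((N + 1).choose k : ℝ) * (2 * (k : ℝ) - ((N + 1 : ℕ) : ℝ)) =
      0 := by
    have h := Pool.Agent.H161R2.UC.sum_choose N (N + 1)
    rw [Nat.choose_succ_self, Nat.cast_zero, mul_zero] at h
    rw [← neg_eq_zero, ← Finset.sum_neg_distrib, ← h]
    refine Finset.sum_congr rfl fun k _ => ?_
    ring
  have e2 : ∑ k ∈ range (N + 1 + 1), (if k ≤ (N + 1) / 2 then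
      ((N + 1).choose k : ℝ) * (((N + 1 : ℕ) : ℝ) - 2 * k) else 0) =
      ((N + 1 : ℕ) : ℝ) * (N.choose ((N + 1) / 2) : ℝ) := by
    rw [← Pool.Agent.H161R2.UC.sum_choose N ((N + 1) / 2), ← Finset.sum_filter]
    refine Finset.sum_congr ?_ fun k _ => rfl
    ext k
    simp only [Finset.mem_filter, Finset.mem_range]
    omega
  have e3 : (1 / 2 : ℝ) * ((N + 1 : ℕ) : ℝ) * ((N + 1).choose ((N + 1) / 2) : ℝ) ≤
      ((N + 1 : ℕ) : ℝ) * (N.choose ((N + 1) / 2) : ℝ) := by
    have h := Nat.choose_mul_succ_eq N ((N + 1) / 2)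
    have h' : (N.choose ((N + 1) / 2) : ℝ) * ((N + 1 : ℕ) : ℝ) =
        ((N + 1).choose ((N + 1) / 2) : ℝ) * ((N + 1 - (N + 1) / 2 : ℕ) : ℝ) := by
      exact_mod_cast h
    have h2 : (1 / 2 : ℝ) * ((N + 1 : ℕ) : ℝ) ≤ ((N + 1 - (N + 1) / 2 : ℕ) : ℝ) := by
      have : N + 1 ≤ 2 * (N + 1 - (N + 1) / 2) := by omega
      have : ((N + 1 : ℕ) : ℝ) ≤ 2 * ((N + 1 - (N + 1) / 2 : ℕ) : ℝ) := by exact_mod_cast this
      linarith
    have h3 := mul_le_mul_of_nonneg_right h2
      (show (0 : ℝ) ≤ ((N + 1).choose ((N + 1) / 2) : ℝ) by positivity)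
    linarith
  have e4 : ∑ k ∈ range (N + 1 + 1), (if (N + 1) / 2 - s ≤ k ∧ k ≤ (N + 1) / 2 + s then
        5 / 6 * (2 * (s : ℝ) + 1) * ((N + 1).choose ((N + 1) / 2) : ℝ) else 0) ≤
      5 / 6 * (2 * (s : ℝ) + 1) ^ 2 * ((N + 1).choose ((N + 1) / 2) : ℝ) := by
    rw [← Finset.sum_filter, Finset.sum_const, nsmul_eq_mul]
    have h1 : ((range (N + 1 + 1)).filter
        (fun k => (N + 1) / 2 - s ≤ k ∧ k ≤ (N + 1) / 2 + s)).card ≤ 2 * s + 1 := by
      calc _ ≤ (Finset.Icc ((N + 1) / 2 - s) ((N + 1) / 2 + s)).card := by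
            refine Finset.card_le_card fun k hk => ?_
            rw [Finset.mem_filter] at hk
            rw [Finset.mem_Icc]
            exact hk.2
        _ ≤ _ := by
            rw [Nat.card_Icc]
            omega
    have h2 : (((range (N + 1 + 1)).filter
        (fun k => (N + 1) / 2 - s ≤ k ∧ k ≤ (N + 1) / 2 + s)).card : ℝ) ≤ 2 * (s : ℝ) + 1 := by
      exact_mod_cast h1
    have h3 := mul_le_mul_of_nonneg_right h2
      (show (0 : ℝ) ≤ 5 / 6 * (2 * (s : ℝ) + 1) * ((N + 1).choose ((N + 1) / 2) : ℝ) by positivity)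
    linarith
  have e5 : ∑ k ∈ range (N + 1 + 1), (if ¬ ((N + 1) / 2 - R ≤ k ∧ k ≤ (N + 1) / 2 + R) then
        ((N + 1).choose k : ℝ) else 0) =
      ((univ.filter (fun A : Finset (Fin (N + 1)) =>
        ¬ ((N + 1) / 2 - R ≤ A.card ∧ A.card ≤ (N + 1) / 2 + R))).card : ℝ) := by
    have h := Pool.Agent.H161R2.UC.sum_card (N + 1)
      (fun k => if ¬ ((N + 1) / 2 - R ≤ k ∧ k ≤ (N + 1) / 2 + R) then (1 : ℝ) else 0)
    rw [← Finset.sum_filter, Finset.sum_const, nsmul_eq_mul, mul_one] at h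
    rw [h]
    refine Finset.sum_congr rfl fun k _ => ?_
    split_ifs <;> simp
  rw [e1, e2, e5]
  linarith

theorem out_le (hTAIL : P_TAIL) (hMID : P_MID) {n : ℕ} (hn : 400 ≤ n) :
    100 * ((univ.filter (fun A : Finset (Fin n) =>
      ¬ (n / 2 - Nat.sqrt n * ell n ≤ A.card ∧ A.card ≤ n / 2 + Nat.sqrt n * ell n))).card : ℝ) ≤
      (n.choose (n / 2) : ℝ) := by
  set R := Nat.sqrt n * ell n with hR
  have hN0 : (0 : ℝ) ≤ (n.choose (n / 2) : ℝ) := by positivity
  by_cases hRn : R ≤ n / 2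
  swap
  · have h0 : univ.filter (fun A : Finset (Fin n) =>
        ¬ (n / 2 - R ≤ A.card ∧ A.card ≤ n / 2 + R)) = ∅ := by
      rw [Finset.filter_eq_empty_iff]
      intro A _ hA
      have := (Finset.card_le_univ A).trans_eq (Fintype.card_fin n)
      apply hA
      constructor <;> omega
    rw [h0, Finset.card_empty, Nat.cast_zero, mul_zero]
    exact hN0
  have h1 := hTAIL n R (by omega) hRn
  have h2 := hMID n (by omega)
  have hn' : (400 : ℝ) ≤ n := by exact_mod_cast hn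
  have hnpos : (0 : ℝ) < n := by linarith
  -- the exponent
  have hq : (n : ℝ) ≤ 4 * (Nat.sqrt n : ℝ) ^ 2 := by
    have h3 : n < (Nat.sqrt n + 1) * (Nat.sqrt n + 1) := Nat.lt_succ_sqrt n
    have h4 : 1 ≤ Nat.sqrt n := by
      rw [Nat.le_sqrt]
      omega
    have h5 : n ≤ 4 * (Nat.sqrt n) ^ 2 := by nlinarith
    exact_mod_cast h5
  have hl1 : Real.log n ≤ (ell n : ℝ) := by
    have h3 : n < 2 ^ (Nat.log 2 n + 1) := Nat.lt_pow_succ_log_self (by norm_num) n
    have h4 : (n : ℝ) ≤ (2 : ℝ) ^ (ell n) := by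
      unfold ell
      exact_mod_cast h3.le
    have h5 := Real.log_le_log hnpos h4
    rw [Real.log_pow] at h5
    have h6 : Real.log 2 ≤ 1 := by
      have := Real.log_two_lt_d9
      linarith
    have h7 : (0 : ℝ) ≤ (ell n : ℝ) := by positivity
    nlinarith
  have hl2 : (4 : ℝ) ≤ (ell n : ℝ) := by
    have h3 : 3 ≤ Nat.log 2 n := Nat.le_log_of_pow_le (by norm_num) (by omega)
    have h4 : 4 ≤ ell n := by
      unfold ell
      omega
    exact_mod_cast h4
  have hl0 : 0 ≤ Real.log n := Real.log_nonneg (by linarith)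
  have hexp : 2 * Real.log n ≤ 2 * (R : ℝ) ^ 2 / n := by
    rw [le_div_iff₀ hnpos]
    have h3 : (R : ℝ) = (Nat.sqrt n : ℝ) * (ell n : ℝ) := by
      rw [hR]
      push_cast
      ring
    rw [h3, mul_pow]
    have h4 : 4 * Real.log n ≤ (ell n : ℝ) ^ 2 := by nlinarith
    have h5 : (n : ℝ) * (4 * Real.log n) ≤ (4 * (Nat.sqrt n : ℝ) ^ 2) * (ell n : ℝ) ^ 2 :=
      mul_le_mul hq h4 (by positivity) (by positivity)
    linarith
  have hexp2 : Real.exp (-(2 * (R : ℝ) ^ 2 / n)) ≤ 1 / (n : ℝ) ^ 2 := by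
    calc Real.exp (-(2 * (R : ℝ) ^ 2 / n)) ≤ Real.exp (-(2 * Real.log n)) :=
          Real.exp_le_exp.2 (by linarith)
      _ = 1 / (n : ℝ) ^ 2 := by
          rw [Real.exp_neg, two_mul, Real.exp_add, Real.exp_log hnpos, one_div, pow_two]
  have hsqrt : Real.sqrt n ≤ n := by
    rw [Real.sqrt_le_left hnpos.le]
    nlinarith
  have hE0 : 0 ≤ Real.exp (-(2 * (R : ℝ) ^ 2 / n)) := (Real.exp_pos _).le
  calc 100 * _ ≤ 100 * (2 * 2 ^ n * Real.exp (-(2 * (R : ℝ) ^ 2 / n))) := by linarith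
    _ ≤ 100 * (2 * (2 * Real.sqrt n * (n.choose (n / 2) : ℝ)) *
        Real.exp (-(2 * (R : ℝ) ^ 2 / n))) := by
          have := mul_le_mul_of_nonneg_right h2 hE0
          linarith
    _ ≤ 100 * (2 * (2 * (n : ℝ) * (n.choose (n / 2) : ℝ)) * (1 / (n : ℝ) ^ 2)) := by
          have h3 : 2 * (2 * Real.sqrt n * (n.choose (n / 2) : ℝ)) ≤
              2 * (2 * (n : ℝ) * (n.choose (n / 2) : ℝ)) := by
            have := mul_le_mul_of_nonneg_right hsqrt hN0
            linarith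
          have h4 := mul_le_mul h3 hexp2 hE0 (by positivity)
          linarith
    _ = (400 / n) * (n.choose (n / 2) : ℝ) := by
          field_simp
          ring
    _ ≤ 1 * (n.choose (n / 2) : ℝ) := by
          refine mul_le_mul_of_nonneg_right ?_ hN0
          rw [div_le_one hnpos]
          exact hn'
    _ = _ := one_mul _

theorem t_WPOS (hTAIL : P_TAIL) (hMID : P_MID) : P_WPOS := by
  refine eventually_atTop.2 ⟨400, fun n hn F hup hlow => ?_⟩
  have h1 := W_ge (by omega) (Nat.sqrt n / 5) (Nat.sqrt n * ell n) F hup hlow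
  have h2 := out_le hTAIL hMID hn
  set out := ((univ.filter (fun A : Finset (Fin n) =>
      ¬ (n / 2 - Nat.sqrt n * ell n ≤ A.card ∧ A.card ≤ n / 2 + Nat.sqrt n * ell n))).card : ℝ)
    with hout
  set N0 := (n.choose (n / 2) : ℝ) with hN
  have hN0 : 0 ≤ N0 := by positivity
  have hn' : (400 : ℝ) ≤ n := by exact_mod_cast hn
  set s := Nat.sqrt n / 5 with hs
  have h3 : (2 * (s : ℝ) + 1) ^ 2 ≤ n / 5 + 1 := by
    have h4 : Nat.sqrt n * Nat.sqrt n ≤ n := Nat.sqrt_le n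
    have h5 : 20 ≤ Nat.sqrt n := by
      rw [Nat.le_sqrt]
      omega
    have h6 : 5 * s ≤ Nat.sqrt n := by omega
    have h7 : 5 * (2 * s + 1) ^ 2 ≤ n + 5 := by
      have h8 : (5 * s) * (5 * s) ≤ n := (Nat.mul_le_mul h6 h6).trans h4
      have h9 : 20 * (5 * s) ≤ n := (Nat.mul_le_mul h5 h6).trans h4
      nlinarith
    have h8 : 5 * (2 * (s : ℝ) + 1) ^ 2 ≤ n + 5 := by exact_mod_cast h7
    linarith
  have h4 : (n : ℝ) * (100 * out) ≤ n * N0 := mul_le_mul_of_nonneg_left h2 (by linarith)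
  have h5 : (2 * (s : ℝ) + 1) ^ 2 * N0 ≤ (n / 5 + 1) * N0 := mul_le_mul_of_nonneg_right h3 hN0
  have h6 : 400 * N0 ≤ n * N0 := mul_le_mul_of_nonneg_right hn' hN0
  nlinarith

end Pool.Agent.TH959.UA_WPOS
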