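import Pool.Agent.TH182.NC.Defs
import Pool.Agent.TH215.TM.Defs2
import Pool.Agent.TH350.J294

/-!
Job 1028 (NC-INFGL): the local ring of `RR` at the origin has infinite global dimension.
-/

set_option autoImplicit false

open CategoryTheory Abelian

namespace Pool.Agent.TH959.J1028

open Pool.Agent.TH215.TM hiding ff
open Pool.Agent.TH350.J294

/-- exactness of matrices localizes -/
theorem ker_eq_range_loc {R B : Type} [CommRing R] [CommRing B] [Algebra R B] (M : Submonoid R)
    [IsLocalization M B] {n : Type} [Fintype n] [DecidableEq n] (P Q : Matrix n n R)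
    (h : LinearMap.ker P.mulVecLin = LinearMap.range Q.mulVecLin) :
    LinearMap.ker (P.map (algebraMap R B)).mulVecLin =
      LinearMap.range (Q.map (algebraMap R B)).mulVecLin := by
  apply le_antisymm
  · intro v hv
    rw [LinearMap.mem_ker, Matrix.mulVecLin_apply] at hv
    obtain ⟨s, hs⟩ := IsLocalization.exist_integer_multiples_of_finite M v
    choose w hw using hs
    have hw' : (algebraMap R B) ∘ w = algebraMap R B s.1 • v := by
      funext i
      rw [Function.comp_apply, hw i, Algebra.smul_def]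
      rfl
    have h1 : ∀ i, ∃ c : M, (c : R) * (P.mulVec w) i = 0 := by
      intro i
      rw [← IsLocalization.map_eq_zero_iff M B, RingHom.map_mulVec, hw', Matrix.mulVec_smul, hv,
        smul_zero]
      rfl
    choose c hc using h1
    let C : M := ∏ i, c i
    have h2 : P.mulVec ((C : R) • w) = 0 := by
      rw [Matrix.mulVec_smul]
      funext i
      rw [Pi.smul_apply, smul_eq_mul, Pi.zero_apply]
      have h0 : (C : R) = ∏ j, (c j : R) := by simp [C]
      rw [h0, ← Finset.prod_erase_mul _ (fun j => (c j : R)) (Finset.mem_univ i), mul_assoc, hc i,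
        mul_zero]
    have h3 : (C : R) • w ∈ LinearMap.range Q.mulVecLin := by
      rw [← h]
      exact h2
    obtain ⟨u, hu⟩ := h3
    rw [Matrix.mulVecLin_apply] at hu
    have h4 : (Q.map (algebraMap R B)).mulVec ((algebraMap R B) ∘ u) =
        (algebraMap R B (C : R) * algebraMap R B s.1) • v := by
      rw [mul_smul, ← hw']
      funext i
      rw [← RingHom.map_mulVec, hu]
      simp [Function.comp]
    have hu1 : IsUnit (algebraMap R B (C : R) * algebraMap R B s.1) :=
      (IsLocalization.map_units B C).mul (IsLocalization.map_units B s)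
    obtain ⟨y, hy⟩ := hu1
    refine ⟨(y⁻¹ : Bˣ).1 • ((algebraMap R B) ∘ u), ?_⟩
    rw [Matrix.mulVecLin_apply, Matrix.mulVec_smul, h4, ← hy, smul_smul, Units.inv_mul, one_smul]
  · rintro _ ⟨u, rfl⟩
    rw [LinearMap.mem_ker, Matrix.mulVecLin_apply, Matrix.mulVecLin_apply, Matrix.mulVec_mulVec,
      ← Matrix.map_mul]
    have h1 : P * Q = 0 := by
      rw [← Matrix.toLin'.injective.eq_iff, Matrix.toLin'_mul, map_zero]
      ext1 x
      have : Q.mulVecLin (Pi.single x 1) ∈ LinearMap.ker P.mulVecLin := by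
        rw [h]
        exact ⟨_, rfl⟩
      ext1
      simpa using this
    rw [h1, Matrix.map_zero _ (map_zero _), Matrix.zero_mulVec]

lemma θ_mk_X : θ (AdjoinRoot.mk ff Polynomial.X) = DualNumber.eps := by
  rw [AdjoinRoot.mk_X]
  exact AdjoinRoot.lift_root _

lemma θ_mk_C (s : S3) : θ (AdjoinRoot.mk ff (Polynomial.C s)) =
    algebraMap ℂ (DualNumber ℂ) (MvPolynomial.constantCoeff s) := by
  rw [AdjoinRoot.mk_C]
  exact AdjoinRoot.lift_of _

lemma mem_J3 {r : RR} (h : (θ r).fst = 0) : r ∈ J3 := by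
  rw [← Ideal.Quotient.eq_zero_iff_mem]
  have key : (Ideal.Quotient.mk J3).comp (AdjoinRoot.mk ff) =
      (algebraMap ℂ (RR ⧸ J3)).comp
        (((TrivSqZeroExt.fstHom ℂ ℂ ℂ).toRingHom.comp θ).comp (AdjoinRoot.mk ff)) := by
    apply Polynomial.ringHom_ext'
    · apply MvPolynomial.ringHom_ext'
      · ext z
        simp only [RingHom.comp_apply]
        rw [θ_mk_C]
        simp only [MvPolynomial.constantCoeff_C]
        rfl
      · intro i
        simp only [RingHom.comp_apply]
        rw [θ_mk_C]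
        simp only [MvPolynomial.constantCoeff_X, map_zero]
        rw [AdjoinRoot.mk_C]
        exact Ideal.Quotient.eq_zero_iff_mem.2 (xR_mem i)
    · simp only [RingHom.comp_apply]
      rw [θ_mk_X]
      have h1 : (TrivSqZeroExt.fstHom ℂ ℂ ℂ).toRingHom (DualNumber.eps : DualNumber ℂ) = 0 := by
        simp
      rw [h1, map_zero, AdjoinRoot.mk_X]
      exact Ideal.Quotient.eq_zero_iff_mem.2 wR_mem
  obtain ⟨p, rfl⟩ := AdjoinRoot.mk_surjective r
  have h2 := RingHom.congr_fun key p
  simp only [RingHom.comp_apply] at h2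
  rw [h2]
  have h3 : (TrivSqZeroExt.fstHom ℂ ℂ ℂ).toRingHom (θ (AdjoinRoot.mk ff p)) = 0 := h
  rw [h3, map_zero]

lemma isUnit_θ {r : RR} (h : r ∉ J3) : IsUnit (θ r) := by
  rw [TrivSqZeroExt.isUnit_iff_isUnit_fst, isUnit_iff_ne_zero]
  exact fun h1 => h (mem_J3 h1)

theorem not_gl (hp : J3.IsPrime) :
    ¬ ∀ N : ModuleCat.{0} (Localization.AtPrime J3), HasProjectiveDimensionLT N 4 := by
  intro hall
  have hff : ff ≠ 0 := (Polynomial.monic_X_pow_add_C g3 (by norm_num)).ne_zero
  obtain ⟨t, ht⟩ : ∃ t : Polynomial S3, t = Polynomial.X := ⟨_, rfl⟩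
  obtain ⟨a, ha⟩ : ∃ a : Polynomial S3, a = Polynomial.C (MvPolynomial.X 0 + MvPolynomial.X 1) :=
    ⟨_, rfl⟩
  obtain ⟨b, hb⟩ : ∃ b : Polynomial S3, b = Polynomial.C (MvPolynomial.X 0 ^ 2 -
    MvPolynomial.X 0 * MvPolynomial.X 1 + MvPolynomial.X 1 ^ 2) := ⟨_, rfl⟩
  obtain ⟨z, hz⟩ : ∃ z : Polynomial S3, z = Polynomial.C (MvPolynomial.X 2) := ⟨_, rfl⟩
  have hff' : ff = t ^ 4 + a * b + z ^ 3 := by rw [ff_eq, ht, ha, hb, hz]
  have hPQ : P4 t a b z * Q4 t a b z = ff • 1 := by rw [P4_mul_Q4, hff']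
  have hQP : Q4 t a b z * P4 t a b z = ff • 1 := by rw [Q4_mul_P4, hff']
  have k1 := ker_eq_range ff hff (AdjoinRoot.mk ff) AdjoinRoot.mk_surjective
    (fun a => AdjoinRoot.mk_eq_zero) _ _ hPQ hQP
  have k2 := ker_eq_range ff hff (AdjoinRoot.mk ff) AdjoinRoot.mk_surjective
    (fun a => AdjoinRoot.mk_eq_zero) _ _ hQP hPQ
  have l1 := ker_eq_range_loc (B := Localization.AtPrime J3) J3.primeCompl _ _ k1
  have l2 := ker_eq_range_loc (B := Localization.AtPrime J3) J3.primeCompl _ _ k2
  let π : Polynomial S3 →+* Localization.AtPrime J3 :=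
    (algebraMap RR (Localization.AtPrime J3)).comp (AdjoinRoot.mk ff)
  let θB : Localization.AtPrime J3 →+* DualNumber ℂ :=
    IsLocalization.lift (M := J3.primeCompl) (g := θ) (fun y => isUnit_θ y.2)
  have hθ : ∀ p, θB (π p) = θ (AdjoinRoot.mk ff p) := fun p =>
    IsLocalization.lift_eq (M := J3.primeCompl) (g := θ) (fun y => isUnit_θ y.2) _
  have e1 : θB (π t) = DualNumber.eps := by
    rw [hθ, ht, θ_mk_X]
  have e2 : θB (π a) = 0 := by
    rw [hθ, ha, θ_mk_C]
    simp
  have e3 : θB (π b) = 0 := by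
    rw [hθ, hb, θ_mk_C]
    simp
  have e4 : θB (π z) = 0 := by
    rw [hθ, hz, θ_mk_C]
    simp
  obtain ⟨N, _, hN⟩ := unbounded_of_periodic (Fin 4 → Localization.AtPrime J3) _ _ l1 l2
    fun ⟨γ, hγ⟩ => not_regular π θB t a b z e1 e2 e3 e4 γ hγ
  obtain ⟨j, hj, hnt⟩ := hN 4
  have := hall N
  have hs := HasProjectiveDimensionLT.subsingleton N 4 j hj N
  exact not_subsingleton _ hs

end Pool.Agent.TH959.J1028
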