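import Pool.Agent.TH614.HS.Base

/-!
Project HS, piece RAMG: multiplicity of the Stepanov polynomials at a triple root.
-/

set_option autoImplicit false

namespace Pool.Agent.TH959.J3875

open Pool.Agent.TH614.HS Polynomial

section alg

variable {L : Type} [Field L]

/-- parametrization of the relations on the line -/
theorem exists_SD {th g U V W Y : L} (h2 : (2 : L) ≠ 0) (hth : th ^ 2 = 3)
    (h1 : U + V - th * Y - W = 0) (hg : Y + th * W = g * (U - V)) :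
    ∃ S E : L, U = S + E ∧ V = S - E ∧ Y = th * S - g * E ∧ W = -S + th * g * E := by
  have hS : 2 * ((U + V) / 2) = U + V := by field_simp
  have hE : 2 * ((U - V) / 2) = U - V := by field_simp
  refine ⟨(U + V) / 2, (U - V) / 2, ?_, ?_, ?_, ?_⟩
  · apply mul_left_cancel₀ h2
    linear_combination -hS - hE
  · apply mul_left_cancel₀ h2
    linear_combination -hS + hE
  · apply mul_left_cancel₀ h2
    linear_combination -hg - th * h1 - Y * hth - th * hS + g * hE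
  · apply mul_left_cancel₀ h2
    linear_combination (-3 : L) * h1 + h1 + th * (hg + th * h1 + Y * hth) - (U + V) * hth + hS -
      th * g * hE

theorem key_const {th x0 x1 x2 y0 y1 y2 s t mu eta be g : L} (h2 : (2 : L) ≠ 0) (hth : th ^ 2 = 3)
    (hPL : PL x0 x1 x2 y0 y1 y2) (hs : s ≠ 0) (ht : t ≠ 0) (hg : g ≠ 0) (hme : mu + th * eta = 0)
    (hline : ∀ P0 P1 P2 Y, OnL x0 x1 x2 y0 y1 y2 P0 P1 P2 Y →
      l2 th s t P0 P1 P2 Y = 0 ∧ Y + th * (P1 / (s * t)) = g * l1 s t P0 P2 ∧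
      2 * (mu * s * P0 + eta * Y) = be * l1 s t P0 P2)
    (hdual : ∀ R0 R1 R2 Z, OnL y0 y1 y2 x0 x1 x2 R0 R1 R2 Z →
      m2 th s t R0 R1 R2 Z = 0 ∧ Z - th * (s * t * R1) = m1 s t R0 R2 / g)
    {R0 R1 R2 Z : L} (hR : OnL y0 y1 y2 x0 x1 x2 R0 R1 R2 Z) :
    2 * hat th s x0 y0 mu eta R0 Z = (be / g) * m1 s t R0 R2 := by
  have hPL' : PL y0 y1 y2 x0 x1 x2 := by
    obtain ⟨a, b, c, d, e, f, h⟩ := hPL
    exact ⟨d, e, f, a, b, c, by linear_combination h⟩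
  have hx0 : x0 ≠ 0 := hPL.1
  have hy0 : y0 ≠ 0 := hPL'.1
  have hy1 : y1 ≠ 0 := hPL'.2.1
  obtain ⟨a1, a2, a3⟩ := hline _ _ _ _ (OnL.param hPL 0 1)
  obtain ⟨b1, b2⟩ := hdual _ _ _ _ (OnL.param hPL' 1 0)
  obtain ⟨c1, c2⟩ := hdual _ _ _ _ hR
  simp only [l1, l2, m1, m2, hat] at a1 a2 a3 b1 b2 c1 c2 ⊢
  have hk : g * g⁻¹ = 1 := mul_inv_cancel₀ hg
  -- the constants
  have ha1 : -(t * y1 / x0) - th - y2 / x0 / (s * t) = 0 := by linear_combination a1
  have ha2 : 1 + th * (y2 / x0 / (s * t)) = g * (t * y1 / x0) := by linear_combination a2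
  have ha3 : 2 * eta = be * (t * y1 / x0) := by linear_combination a3
  have hb1 : 1 + s * (y2 / y0) / t - s ^ 2 * t * y1 / y0 = 0 := by
    have : s * (1 / s) = 1 := by field_simp
    linear_combination s * b1 - this
  have hb2 : -th * g * (s ^ 2 * t * y1 / y0) = 1 - s * (y2 / y0) / t := by
    have h3 : s * (1 / s) = 1 := by field_simp
    have h4 : g * (s * (1 / s - (y2 * 1 - 0 * x1) / y0 / t) / g) = s * (1 / s - y2 / y0 / t) := by
      field_simp
      ring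
    linear_combination s * g * b2 + h3 + h4
  have hlc : s ^ 2 * x0 / y0 * (t * y1 / x0) = s ^ 2 * t * y1 / y0 := by
    field_simp
  have hc0 : t * y1 / x0 ≠ 0 := div_ne_zero (mul_ne_zero ht hy1) hx0
  generalize t * y1 / x0 = k1 at *
  generalize y2 / x0 / (s * t) = k2 at *
  generalize s ^ 2 * t * y1 / y0 = d1 at *
  generalize s * (y2 / y0) / t = d2 at *
  generalize s ^ 2 * x0 / y0 = lam at *
  have e1 : k1 * (g + th) = -2 := by linear_combination -ha2 - th * ha1 - hth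
  have e2 : d1 * (1 - th * g) = 2 := by linear_combination -hb1 + hb2
  have e3 : lam * (th * g - 1) = g + th := by
    apply mul_left_cancel₀ hc0
    linear_combination (th * g - 1) * hlc - e2 - e1
  have e4 : be = -eta * (g + th) := by
    apply mul_left_cancel₀ h2
    linear_combination (g + th) * ha3 + be * e1
  obtain ⟨S, E, f1, f2, f3, f4⟩ := exists_SD (th := -th) (g := g⁻¹) (U := R0 / s) (V := R2 / t)
    (Y := Z) (W := s * t * R1) h2 (by linear_combination hth) (by linear_combination c1)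
    (by rw [div_eq_inv_mul] at c2; linear_combination c2)
  have hmu : mu = -th * eta := by linear_combination hme
  rw [f1, f2, f3, hmu, e4, div_eq_mul_inv]
  linear_combination (-2 * eta * lam * (-th * S - g⁻¹ * E) - 0) * hth +
    (-2 * eta * g⁻¹ * E) * e3 + (2 * eta * lam * th * E) * hk

/-- the form `b` vanishes -/
theorem bq_zero {th g k S E S' E' : L} (hth : th ^ 2 = 3) (hk : g * k = 1) :
    (th * S - g * E) * (-S' + (-th) * k * E') - ((-th) * S' - k * E') * (-S + th * g * E)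
      - 2 * ((S + E) * ((-th) * S' - k * E') - (S' + E') * (th * S - g * E))
      - 2 * ((S - E) * ((-th) * S' - k * E') - (S' - E') * (th * S - g * E))
      - th * ((S + E) * (S' - E') + (S - E) * (S' + E'))
      - 2 * th * ((S + E) * (S' + E') + (S - E) * (S' - E')) = 0 := by
  linear_combination (-k * S * E' + g * S' * E) * hth + (2 * th * E * E') * hk

/-- the derivative of the form `b` -/
theorem dbq {th g k S E S' E' : L} (hth : th ^ 2 = 3) (hk : g * k = 1) :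
    2 * (th * S - g * E) * (-S' + (-th) * k * E') + 2 * (S' - E') * (th * S - g * E)
      - 4 * (S + E) * ((-th) * S' - k * E') - 2 * (S - E) * ((-th) * S' - k * E')
      - 2 * th * ((S + E) * (S' - E'))
      - 2 * th * ((S + E) * (S' + E') + (S - E) * (S' - E')) = 2 * (g + k) * E * E' := by
  linear_combination (-2 * k * S * E') * hth + (2 * th * E * E') * hk

end alg

section frob

variable {L : Type} [Field L] (D : HD L)

/-- derivative of the polynomial `B` -/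
theorem eval_dBP (P Y s : L) :
    s * (D.BP P Y).derivative.eval s =
      -2 * D.th * (P * P ^ D.q) * (s ^ D.q) ^ 2 * s ^ 2 + 2 * (P ^ D.q * Y) * (s ^ D.q) ^ 2 * s
      - 4 * (P * Y ^ D.q) * s ^ D.q * s ^ 2
      - 2 * D.th * (P * P ^ (D.q ^ 3) + P ^ (D.q ^ 4) * P ^ D.q) * s ^ D.q * s
      + 2 * (Y * P ^ (D.q ^ 5)) * s ^ 2 - 2 * (P ^ (D.q ^ 4) * Y ^ D.q) * s := by
  unfold HD.BP
  simp only [derivative_sub, derivative_add, derivative_C_mul_X_pow, derivative_C_mul_X,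
    derivative_C, eval_sub, eval_add, eval_mul, eval_C, eval_pow, eval_X, Nat.add_sub_cancel,
    eval_zero]
  push_cast
  rw [D.qz]
  have h3 : s ^ (2 * D.q) = (s ^ D.q) ^ 2 := by rw [← pow_mul, mul_comm]
  simp only [pow_succ s, h3, zero_mul, mul_zero, zero_add, sub_zero, add_zero]
  ring

theorem eval_XCC {s : L} (hs : s ≠ 0) (P Y : L) :
    (X * D.CC P Y).eval s = s ^ 2 * Dq D.th s P (P ^ (D.q ^ 2)) (P ^ (D.q ^ 4)) Y := by
  unfold HD.CC Dq
  simp only [eval_sub, eval_add, eval_mul, eval_C, eval_pow, eval_X]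
  field_simp
  ring

theorem eval_dXCC {s : L} (hs : s ≠ 0) (P Y : L) :
    s * (X * D.CC P Y).derivative.eval s =
      s ^ 2 * (Dq D.th s P (P ^ (D.q ^ 2)) (P ^ (D.q ^ 4)) Y + (Y - D.th * (s * P)) ^ 2) := by
  unfold HD.CC Dq
  simp only [derivative_mul, derivative_X, derivative_sub, derivative_add, derivative_C_mul_X_pow,
    derivative_C_mul_X, derivative_C, eval_sub, eval_add, eval_mul, eval_C, eval_pow, eval_X,
    eval_one, eval_zero, derivative_X_pow]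
  push_cast
  field_simp
  linear_combination (-s ^ 3 * P ^ 2) * D.th2

theorem eval_CD {s : L} (hs : s ≠ 0) (P Y : L) :
    (D.CD P Y).eval s =
      s ^ 2 * Dq (-D.th) s⁻¹ (P ^ (D.q ^ 3)) (P ^ (D.q ^ 5)) (P ^ D.q) (Y ^ D.q) := by
  unfold HD.CD Dq
  simp only [eval_sub, eval_add, eval_mul, eval_C, eval_pow, eval_X]
  field_simp
  ring

theorem eval_dCD {s : L} (hs : s ≠ 0) (P Y : L) :
    s * (D.CD P Y).derivative.eval s =
      s ^ 2 * (3 * Dq (-D.th) s⁻¹ (P ^ (D.q ^ 3)) (P ^ (D.q ^ 5)) (P ^ D.q) (Y ^ D.q)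
        - (Y ^ D.q + D.th * (P ^ (D.q ^ 3) / s)) ^ 2) := by
  unfold HD.CD Dq
  simp only [derivative_mul, derivative_X, derivative_sub, derivative_add, derivative_C_mul_X_pow,
    derivative_C_mul_X, derivative_C, eval_sub, eval_add, eval_mul, eval_C, eval_pow, eval_X,
    eval_one, eval_zero, derivative_X_pow]
  push_cast
  field_simp
  linear_combination (P ^ (D.q ^ 3)) ^ 2 * D.th2

theorem eval_dG {s : L} (hs : s ≠ 0) {n : ℕ} (hn : (D.q + 1) / 2 = n + 1)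
    (hn' : D.q + 1 = 2 * (n + 1)) (e P Y : L) :
    s * (D.G e P Y).derivative.eval s = s * (D.BP P Y).derivative.eval s -
      s ^ (D.q + 1) * (2 * e * ((n + 1 : L) *
        (Dq D.th s P (P ^ (D.q ^ 2)) (P ^ (D.q ^ 4)) Y ^ n *
            (Dq D.th s P (P ^ (D.q ^ 2)) (P ^ (D.q ^ 4)) Y + (Y - D.th * (s * P)) ^ 2) -
          Dq (-D.th) s⁻¹ (P ^ (D.q ^ 3)) (P ^ (D.q ^ 5)) (P ^ D.q) (Y ^ D.q) ^ n *
            (3 * Dq (-D.th) s⁻¹ (P ^ (D.q ^ 3)) (P ^ (D.q ^ 5)) (P ^ D.q) (Y ^ D.q)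
              - (Y ^ D.q + D.th * (P ^ (D.q ^ 3) / s)) ^ 2)))) := by
  have h1 : D.G e P Y = D.BP P Y -
      C (2 * e) * ((X * D.CC P Y) ^ (n + 1) - D.CD P Y ^ (n + 1)) := by
    rw [HD.G, hn, mul_pow]
  rw [h1, derivative_sub, derivative_mul, derivative_C, zero_mul, zero_add, derivative_sub,
    derivative_pow_succ, derivative_pow_succ]
  simp only [eval_sub, eval_mul (p := C _), eval_mul (q := derivative _), eval_C, eval_pow,
    eval_CD D hs, eval_XCC D hs]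
  have h2 := eval_dXCC D hs P Y
  have h3 := eval_dCD D hs P Y
  have h4 : s ^ (D.q + 1) = (s ^ 2) ^ n * s ^ 2 := by
    rw [hn', pow_mul, pow_succ]
  rw [h4]
  generalize Dq D.th s P (P ^ (D.q ^ 2)) (P ^ (D.q ^ 4)) Y = A at *
  generalize Dq (-D.th) s⁻¹ (P ^ (D.q ^ 3)) (P ^ (D.q ^ 5)) (P ^ D.q) (Y ^ D.q) = B at *
  rw [mul_pow, mul_pow]
  linear_combination (-2 * e * (n + 1) * (s ^ 2) ^ n * A ^ n) * h2 +
    (2 * e * (n + 1) * (s ^ 2) ^ n * B ^ n) * h3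

/-- the main computation -/
theorem main [IsAlgClosed L] (hG0 : S_G0) {x s mu eta be g ep P Y : L}
    (hx : D.isL x) (hr : D.Ram x s mu eta be g ep) (hm : D.mem x P Y) :
    (∀ e, (D.G e P Y).eval s = 0) ∧ ∃ S E S' E' k : L, g * k = 1 ∧
      s * P = S + E ∧ D.nt s * P ^ (D.q ^ 4) = S - E ∧ Y = D.th * S - g * E ∧
      P ^ (D.q ^ 2) / (s * D.nt s) = -S + D.th * g * E ∧
      mu * s * P + eta * Y = be * E ∧ (be * E) ^ D.q = ep * be * k * E' ∧
      ∀ e, s * (D.G e P Y).derivative.eval s = s ^ (D.q + 1) * (2 * (g + k) * E * E') * (1 - e * ep) := by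
  obtain ⟨hRD, hme, heta, hcirc, hNm, hbe, hg, hbg, hEp, hline, hdual, hr1, -⟩ := hr
  have h2 := D.two_ne
  have hs : s ≠ 0 := hRD.1
  have ht : D.nt s ≠ 0 := inv_ne_zero (pow_ne_zero _ hs)
  have hP := hm.onL hx
  have hR := hm.onL' hx
  obtain ⟨hl2, hgY, hbe2⟩ := hline _ _ _ _ hP
  obtain ⟨hm2, hgZ⟩ := hdual _ _ _ _ hR
  have hrq := hr1 P Y hm
  have hhat := key_const h2 D.th2 hx.PL hs ht hg hme hline hdual hR
  obtain ⟨⟨hP6, hY2⟩, -⟩ := hm
  have hY3 : Y ^ (D.q ^ 3) = Y ^ D.q := by rw [← D.pq _ 2, hY2]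
  have hk : g * g⁻¹ = 1 := mul_inv_cancel₀ hg
  have hep2 : ep ^ 2 = 1 := by
    rcases hEp.1 with h | h <;> rw [h] <;> ring
  -- the root
  have hDs : Dq D.th s P (P ^ (D.q ^ 2)) (P ^ (D.q ^ 4)) Y = (mu * s * P + eta * Y) ^ 2 :=
    hRD.2 _ _ _ _ hP
  have hr3 : (mu * s * P + eta * Y) ^ (D.q ^ 3) =
      ep * hat D.th s x (x ^ (D.q ^ 3)) mu eta (P ^ (D.q ^ 3)) (Y ^ D.q) := by
    rw [D.addn, mul_pow, mul_pow, mul_pow, hcirc.inv, hY3, hEp.2.1, hEp.2.2]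
    unfold hat
    rw [div_eq_mul_inv (P ^ (D.q ^ 3)) s]
    ring
  have hrr : (mu * s * P + eta * Y) ^ (D.q ^ 3) = (mu * s * P + eta * Y) ^ D.q := by
    apply mul_left_cancel₀ h2
    rw [hr3, hrq]
    linear_combination ep * hhat
  have hrq2 : (mu * s * P + eta * Y) ^ (D.q ^ 2) = mu * s * P + eta * Y := by
    apply D.inj_q
    rw [D.pq]
    exact hrr
  have hDh : Dq (-D.th) s⁻¹ (P ^ (D.q ^ 3)) (P ^ (D.q ^ 5)) (P ^ D.q) (Y ^ D.q) =
      ((mu * s * P + eta * Y) ^ D.q) ^ 2 := by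
    have h : D.frn 3 (Dq D.th s P (P ^ (D.q ^ 2)) (P ^ (D.q ^ 4)) Y) =
        ((mu * s * P + eta * Y) ^ D.q) ^ 2 := by
      rw [hDs, map_pow, D.frn_def, hrr]
    rw [← h]
    unfold Dq
    simp only [map_add, map_sub, map_mul, map_pow, map_div₀]
    simp only [D.frn_def, D.th_q3, D.pp, hcirc.inv, hY3, Nat.reduceAdd, D.p7 hP6]
  obtain ⟨n, hn, hn'⟩ : ∃ n, (D.q + 1) / 2 = n + 1 ∧ D.q + 1 = 2 * (n + 1) := by
    have h4 := D.h4
    exact ⟨(D.q - 1) / 2, by omega, by omega⟩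
  -- the parametrization
  simp only [l1, l2, m1, m2] at hl2 hgY hbe2 hm2 hgZ hrq hhat
  obtain ⟨S, E, f1, f2, f3, f4⟩ := exists_SD (th := D.th) (g := g) (U := s * P)
    (V := D.nt s * P ^ (D.q ^ 4)) (Y := Y) (W := P ^ (D.q ^ 2) / (s * D.nt s)) h2 D.th2 hl2 hgY
  obtain ⟨S', E', f1', f2', f3', f4'⟩ := exists_SD (th := -D.th) (g := g⁻¹)
    (U := P ^ (D.q ^ 3) / s) (V := P ^ D.q / D.nt s) (Y := Y ^ D.q)
    (W := s * D.nt s * P ^ (D.q ^ 5)) h2 (by linear_combination D.th2) (by linear_combination hm2)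
    (by rw [div_eq_inv_mul _ g] at hgZ; linear_combination hgZ)
  have hrE : mu * s * P + eta * Y = be * E := by
    apply mul_left_cancel₀ h2
    rw [hbe2, f1, f2]
    ring
  have hrE' : (be * E) ^ D.q = ep * be * g⁻¹ * E' := by
    apply mul_left_cancel₀ h2
    rw [← hrE, hrq, f1', f2', div_eq_mul_inv be g]
    ring
  have hb0 : Bq D.th s (D.nt s) P (P ^ (D.q ^ 2)) (P ^ (D.q ^ 4)) Y (P ^ (D.q ^ 3)) (P ^ (D.q ^ 5))
      (P ^ D.q) (Y ^ D.q) = 0 := by
    rw [← bq_zero (S := S) (E := E) (S' := S') (E' := E') D.th2 hk, ← f1, ← f2, ← f3, ← f4, ← f1',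
      ← f2', ← f3', ← f4']
    unfold Bq
    field_simp
  have hA : Dq D.th s P (P ^ (D.q ^ 2)) (P ^ (D.q ^ 4)) Y ^ (n + 1) =
      (be * E) * (be * E) ^ D.q := by
    rw [hDs, ← pow_mul, ← hn', hrE, pow_succ, mul_comm]
  have hB : Dq (-D.th) s⁻¹ (P ^ (D.q ^ 3)) (P ^ (D.q ^ 5)) (P ^ D.q) (Y ^ D.q) ^ (n + 1) =
      (be * E) * (be * E) ^ D.q := by
    rw [hDh, ← pow_mul, ← hn', pow_succ, ← pow_mul, ← pow_two, hrq2, hrE]
  refine ⟨fun e => ?_, S, E, S', E', g⁻¹, hk, f1, f2, f3, f4, hrE, hrE', fun e => ?_⟩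
  · rw [hG0 L D P Y s e ⟨hP6, hY2⟩ hs, hb0, hn, hA, hB]
    ring
  · rw [eval_dG D hs hn hn', eval_dBP]
    have hBP : -2 * D.th * (P * P ^ D.q) * (s ^ D.q) ^ 2 * s ^ 2
        + 2 * (P ^ D.q * Y) * (s ^ D.q) ^ 2 * s - 4 * (P * Y ^ D.q) * s ^ D.q * s ^ 2
        - 2 * D.th * (P * P ^ (D.q ^ 3) + P ^ (D.q ^ 4) * P ^ D.q) * s ^ D.q * s
        + 2 * (Y * P ^ (D.q ^ 5)) * s ^ 2 - 2 * (P ^ (D.q ^ 4) * Y ^ D.q) * s =
        s ^ (D.q + 1) * (2 * (g + g⁻¹) * E * E') := by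
      rw [← dbq (S := S) (E := E) (S' := S') (E' := E') D.th2 hk, ← f1, ← f2, ← f3, ← f1',
        ← f2', ← f3', ← f4', pow_succ]
      unfold HD.nt
      have : s ^ D.q ≠ 0 := pow_ne_zero _ hs
      field_simp
      ring
    rw [hBP]
    have hn2 : 2 * (n + 1 : L) = 1 := by
      have h5 : ((D.q + 1 : ℕ) : L) = ((2 * (n + 1) : ℕ) : L) := by rw [hn']
      push_cast at h5
      rw [D.qz] at h5
      linear_combination -h5
    have hYU : Y - D.th * (s * P) = -(g + D.th) * E := by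
      linear_combination f3 - D.th * f1
    have hZU : Y ^ D.q + D.th * (P ^ (D.q ^ 3) / s) = (D.th - g⁻¹) * E' := by
      linear_combination f3' + D.th * f1'
    rw [hYU, hZU]
    have ha : be ^ 2 * (-(g + D.th) * E) ^ 2 = (g + D.th) ^ 2 *
        Dq D.th s P (P ^ (D.q ^ 2)) (P ^ (D.q ^ 4)) Y := by
      rw [hDs, hrE]
      ring
    have hb : be ^ 2 * ((D.th - g⁻¹) * E') ^ 2 = (D.th * g - 1) ^ 2 *
        Dq (-D.th) s⁻¹ (P ^ (D.q ^ 3)) (P ^ (D.q ^ 5)) (P ^ D.q) (Y ^ D.q) := by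
      rw [hDh, hrE, hrE']
      have h6 : (D.th * g - 1) * g⁻¹ = D.th - g⁻¹ := by linear_combination D.th * hk
      rw [← h6]
      linear_combination (-(be ^ 2 * (D.th * g - 1) ^ 2 * g⁻¹ ^ 2 * E' ^ 2)) * hep2
    have hga : (be * E) * (be * E) ^ D.q = ep * (g + g⁻¹) * E * E' := by
      rw [hrE']
      linear_combination (ep * g⁻¹ * E * E') * hbg + (ep * g * E * E') * hk
    have hth := D.th2
    generalize Dq D.th s P (P ^ (D.q ^ 2)) (P ^ (D.q ^ 4)) Y = A at hA ha ⊢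
    generalize Dq (-D.th) s⁻¹ (P ^ (D.q ^ 3)) (P ^ (D.q ^ 5)) (P ^ D.q) (Y ^ D.q) = B at hB hb ⊢
    rw [hga] at hA hB
    have hbr : A ^ n * (A + (-(g + D.th) * E) ^ 2) - B ^ n * (3 * B - ((D.th - g⁻¹) * E') ^ 2) =
        2 * (ep * (g + g⁻¹) * E * E') := by
      apply mul_left_cancel₀ (pow_ne_zero 2 hbe)
      rw [pow_succ] at hA hB
      generalize (-(g + D.th) * E) ^ 2 = a2 at ha ⊢
      generalize ((D.th - g⁻¹) * E') ^ 2 = b2 at hb ⊢
      generalize ep * (g + g⁻¹) * E * E' = ga at hA hB ⊢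
      linear_combination be ^ 2 * hA + A ^ n * ha + (g + D.th) ^ 2 * hA - 3 * be ^ 2 * hB
        + B ^ n * hb + (D.th * g - 1) ^ 2 * hB + ga * ((1 + g ^ 2) * hth - 4 * hbg)
    rw [hbr]
    linear_combination (-s ^ (D.q + 1) * 2 * e * (ep * (g + g⁻¹) * E * E')) * hn2

end frob

theorem RAMG : S_HAT → S_G0 → S_RAMG := by
  intro _ hG0 L _ _ D x s mu eta be g ep P Y hx hr hm
  obtain ⟨h1, S, E, S', E', k, hk, f1, f2, f3, f4, f5, f6, f7⟩ := main D hG0 hx hr hm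
  refine ⟨h1 _, h1 _, fun hS h0 => ?_⟩
  have hs : s ≠ 0 := hr.1.1
  have hg : g ≠ 0 := left_ne_zero_of_mul_eq_one hk
  have hbe : be ≠ 0 := hr.2.2.2.2.2.1
  have hbg : be ^ 2 = 1 + g ^ 2 := hr.2.2.2.2.2.2.2.1
  have hep2 : ep ^ 2 = 1 := by
    rcases hr.2.2.2.2.2.2.2.2.1.1 with h | h <;> rw [h] <;> ring
  have hE : E ≠ 0 := by
    intro hE
    apply hS
    rw [hE] at f1 f2 f3 f4
    refine ⟨?_, ?_, ?_⟩
    · rw [f1, f2]; ring
    · rw [f1, f4]; ring
    · rw [f1, f3]; ring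
  have hE' : E' ≠ 0 := by
    intro hE'
    rw [hE', mul_zero] at f6
    exact mul_ne_zero hbe hE (pow_eq_zero_iff D.q_ne |>.1 f6)
  have h2 := f7 (-ep)
  rw [h0, mul_zero] at h2
  have hgk : g * (g + k) = be ^ 2 := by rw [hbg]; linear_combination hk
  have hgk0 : g + k ≠ 0 := by
    intro h
    rw [h, mul_zero] at hgk
    exact pow_ne_zero 2 hbe hgk.symm
  have h3 : s ^ (D.q + 1) * (2 * (g + k) * E * E') * (1 - -ep * ep) ≠ 0 := by
    have h4 : (1 : L) - -ep * ep = 2 := by linear_combination hep2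
    rw [h4]
    exact mul_ne_zero (mul_ne_zero (pow_ne_zero _ hs) (mul_ne_zero (mul_ne_zero
      (mul_ne_zero D.two_ne hgk0) hE) hE')) D.two_ne
  exact h3 h2.symm

end Pool.Agent.TH959.J3875
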